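import Pool.Agent.H756.LS.Defs

/-!
# Automatic continuity, first part (task AC1)

`N` is locally compact, Hausdorff and second countable, `f` continuous, `ψ : ℝ → Homeo N` satisfies
`ψ (s + t) = ψ s * ψ t` and takes values in the level group of `f`. For each `k : ℕ` we have a set `R k` of
pairs of homeomorphisms and a closed set `C k` of reals such that an element `T` of the level group is
equal to `ψ t` if and only if for all `k`:
`T` satisfies `T u T⁻¹` commutes with `v` for all `(u, v) ∈ R k` exactly when `t ∈ C k`.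
Then `(t, y) ↦ ψ t y` is continuous.

Paper proof. `𝒞 = C(N, N)` with the compact-open topology is Polish: second countable (Mathlib instance
for second countable locally compact `N`), and completely metrizable: `N` is metrizable, locally
compact and second countable, hence Polish (choose a complete metric, `upgradeIsCompletelyMetrizable`),
`C(N, N)` is then complete with countably generated uniformity (compact convergence). Composition
`𝒞 × 𝒞 → 𝒞` is continuous (`ContinuousMap.continuous_comp'`, `N` locally compact).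
`𝓗 = {(a, b) ∈ 𝒞 × 𝒞 | a ∘ b = id, b ∘ a = id, ∀ y, f (a y) = f y}` is closed, so Polish; it
corresponds bijectively to the level group (`T ↦ (T, T⁻¹)`), and multiplication
`(a,b)(a',b') = (a ∘ a', b' ∘ b)` and inversion `(a,b) ↦ (b,a)` are continuous.
`Z k = {T | ∀ (u,v) ∈ R k, T u T⁻¹ v = v T u T⁻¹}` is closed in `𝓗`.
`G = {(t, T) ∈ ℝ × 𝓗 | ∀ k, (T ∈ Z k ↔ t ∈ C k)} = {(t, ψ t)}` is Borel. The projection `G → ℝ` is
injective and continuous, so for every Borel set `D ⊆ 𝓗` the set `{t | ψ t ∈ D}`, which is the projection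
of `G ∩ (ℝ × D)`, is Borel (Lusin–Souslin: `MeasurableSet.image_of_continuousOn_injOn`).
Continuity at `0` (Steinhaus): let `O` be a neighbourhood of `1` in `𝓗`; choose an open neighbourhood `O'` of `1`
with `O'⁻¹ O' ⊆ O`; by second countability `𝓗 = ⋃ d_i O'` for countably many `d_i`; so for some `i` the
measurable set `E = {t | ψ t ∈ d_i O'}` has positive Lebesgue measure, and `E - E` is a
neighbourhood of `0` (`MeasureTheory.Measure.sub_mem_nhds_zero_of_addHaar_pos` or similar name); for
`t = s' - s` with `s, s' ∈ E`: `ψ t = (ψ s)⁻¹ ψ s' ∈ O'⁻¹ O' ⊆ O`. So `ψ : ℝ → 𝓗` is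
continuous at `0`, hence everywhere (homomorphism), and the evaluation
`𝒞 × N → N` is continuous (`N` locally compact).
-/

set_option autoImplicit false

open Set Topology Function

namespace Pool.Agent.H756.LS

namespace Ac1L

open MeasureTheory TopologicalSpace

/-- a dense embedding of a locally compact space into a Hausdorff space has open range -/
theorem isOpen_range_of_lc {X Y : Type} [TopologicalSpace X] [TopologicalSpace Y] [T2Space Y]
    [LocallyCompactSpace X] {e : X → Y} (he : IsEmbedding e) (hd : DenseRange e) :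
    IsOpen (range e) := by
  rw [isOpen_iff_mem_nhds]
  rintro _ ⟨x, rfl⟩
  obtain ⟨K, hK, hxK⟩ := exists_compact_mem_nhds x
  rw [he.isInducing.nhds_eq_comap, Filter.mem_comap] at hxK
  obtain ⟨V, hV, hVK⟩ := hxK
  obtain ⟨O, hOV, hO, hxO⟩ := mem_nhds_iff.1 hV
  refine mem_nhds_iff.2 ⟨O, ?_, hO, hxO⟩
  have h1 : O ⊆ closure (O ∩ range e) := hd.open_subset_closure_inter hO
  have h2 : O ∩ range e ⊆ e '' K := by
    rintro _ ⟨hz, z, rfl⟩
    exact ⟨z, hVK (hOV hz), rfl⟩
  have h3 : IsClosed (e '' K) := (hK.image he.continuous).isClosed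
  exact (h1.trans (closure_minimal h2 h3)).trans (image_subset_range e K)

/-- second countable locally compact Hausdorff spaces are Polish -/
theorem polish_lc (X : Type) [TopologicalSpace X] [T2Space X] [LocallyCompactSpace X]
    [SecondCountableTopology X] : PolishSpace X := by
  let : MetricSpace X := metrizableSpaceMetric X
  have hsep : SeparableSpace (UniformSpace.Completion X) := inferInstance
  have hpol : PolishSpace (UniformSpace.Completion X) := inferInstance
  have he : IsEmbedding ((↑) : X → UniformSpace.Completion X) :=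
    (UniformSpace.Completion.isUniformEmbedding_coe X).isEmbedding
  have ho : IsOpen (range ((↑) : X → UniformSpace.Completion X)) :=
    isOpen_range_of_lc he UniformSpace.Completion.denseRange_coe
  have hp2 : PolishSpace (range ((↑) : X → UniformSpace.Completion X)) := ho.polishSpace
  exact he.toHomeomorph.isClosedEmbedding.polishSpace

theorem polish_C (X : Type) [TopologicalSpace X] [T2Space X] [LocallyCompactSpace X]
    [SecondCountableTopology X] : PolishSpace C(X, X) := by
  have := polish_lc X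
  let := upgradeIsCompletelyMetrizable X
  have h1 : CompleteSpace C(X, X) := inferInstance
  have h2 : (uniformity C(X, X)).IsCountablyGenerated := inferInstance
  have h3 : IsCompletelyMetrizableSpace C(X, X) := inferInstance
  exact { toSecondCountableTopology := inferInstance, toIsCompletelyMetrizableSpace := h3 }


section grp

variable {N : Type} [TopologicalSpace N]

/-- pairs of continuous maps -/
abbrev PP (N : Type) [TopologicalSpace N] : Type := C(N, N) × C(N, N)

/-- product of pairs -/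
def mu (p q : PP N) : PP N := (p.1.comp q.1, q.2.comp p.2)

/-- inverse of a pair -/
def iv (p : PP N) : PP N := (p.2, p.1)

/-- the pair of a homeomorphism -/
def em (T : N ≃ₜ N) : PP N := (⟨T, T.continuous⟩, ⟨T.symm, T.symm.continuous⟩)

theorem em_mul (S T : N ≃ₜ N) : em (S * T) = mu (em S) (em T) := rfl

theorem em_inv (T : N ≃ₜ N) : em T⁻¹ = iv (em T) := rfl

theorem em_inj {S T : N ≃ₜ N} (h : em S = em T) : S = T := by
  ext y
  exact DFunLike.congr_fun (congrArg Prod.fst h) y

theorem mu_one (p : PP N) : mu p (em 1) = p := rfl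

theorem continuous_mu [LocallyCompactSpace N] : Continuous fun x : PP N × PP N => mu x.1 x.2 := by
  have h1 : Continuous fun x : PP N × PP N => (x.1.1).comp (x.2.1) :=
    ContinuousMap.continuous_comp'.comp
      ((continuous_fst.comp continuous_snd).prodMk (continuous_fst.comp continuous_fst))
  have h2 : Continuous fun x : PP N × PP N => (x.2.2).comp (x.1.2) :=
    ContinuousMap.continuous_comp'.comp
      ((continuous_snd.comp continuous_fst).prodMk (continuous_snd.comp continuous_snd))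
  exact h1.prodMk h2

theorem continuous_iv : Continuous (iv : PP N → PP N) := continuous_swap

/-- the pairs which come from the level group -/
def SS (f : N → ℝ) : Set (PP N) :=
  {p | p.1.comp p.2 = ContinuousMap.id N ∧ p.2.comp p.1 = ContinuousMap.id N ∧
    ∀ y, f (p.1 y) = f y}

theorem isClosed_SS [LocallyCompactSpace N] [T2Space N] {f : N → ℝ} (hf : Continuous f) :
    IsClosed (SS f) := by
  have h1 : Continuous fun p : PP N => p.1.comp p.2 :=
    ContinuousMap.continuous_comp'.comp (continuous_snd.prodMk continuous_fst)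
  have h2 : Continuous fun p : PP N => p.2.comp p.1 :=
    ContinuousMap.continuous_comp'.comp (continuous_fst.prodMk continuous_snd)
  refine (isClosed_eq h1 continuous_const).inter ((isClosed_eq h2 continuous_const).inter ?_)
  have h3 : {p : PP N | ∀ y, f (p.1 y) = f y} = ⋂ y, {p : PP N | f (p.1 y) = f y} := by
    ext p
    simp
  change IsClosed {p : PP N | ∀ y, f (p.1 y) = f y}
  rw [h3]
  exact isClosed_iInter fun y => isClosed_eq
    (hf.comp ((continuous_eval_const y).comp continuous_fst)) continuous_const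

theorem em_mem {f : N → ℝ} {T : N ≃ₜ N} (hT : T ∈ levelGroup f) : em T ∈ SS f := by
  refine ⟨?_, ?_, fun y => hT y⟩
  · ext y
    exact T.apply_symm_apply y
  · ext y
    exact T.symm_apply_apply y

theorem exists_em {f : N → ℝ} {p : PP N} (hp : p ∈ SS f) : ∃ T ∈ levelGroup f, em T = p := by
  obtain ⟨h1, h2, h3⟩ := hp
  refine ⟨{ toFun := p.1, invFun := p.2, left_inv := fun y => DFunLike.congr_fun h2 y,
            right_inv := fun y => DFunLike.congr_fun h1 y,
            continuous_toFun := p.1.continuous, continuous_invFun := p.2.continuous }, h3, rfl⟩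

/-- the closed conditions -/
def ZZ (R : Set ((N ≃ₜ N) × (N ≃ₜ N))) : Set (PP N) :=
  {p | ∀ q ∈ R, (mu (mu (mu p (em q.1)) (iv p)) (em q.2)) =
    mu (em q.2) (mu (mu p (em q.1)) (iv p))}

theorem isClosed_ZZ [LocallyCompactSpace N] [T2Space N] (R : Set ((N ≃ₜ N) × (N ≃ₜ N))) :
    IsClosed (ZZ R) := by
  have h0 : ZZ R = ⋂ q ∈ R, {p : PP N | (mu (mu (mu p (em q.1)) (iv p)) (em q.2)) =
    mu (em q.2) (mu (mu p (em q.1)) (iv p))} := by
    ext p
    simp [ZZ]
  rw [h0]
  refine isClosed_biInter fun q _ => ?_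
  have h1 : Continuous fun p : PP N => mu p (em q.1) :=
    continuous_mu.comp (continuous_id.prodMk continuous_const)
  have h2 : Continuous fun p : PP N => mu (mu p (em q.1)) (iv p) :=
    continuous_mu.comp (h1.prodMk continuous_iv)
  exact isClosed_eq (continuous_mu.comp (h2.prodMk continuous_const))
    (continuous_mu.comp (continuous_const.prodMk h2))

theorem mem_ZZ {R : Set ((N ≃ₜ N) × (N ≃ₜ N))} {T : N ≃ₜ N} : em T ∈ ZZ R ↔
    ∀ q ∈ R, (T * q.1 * T⁻¹) * q.2 = q.2 * (T * q.1 * T⁻¹) := by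
  have key : ∀ q : (N ≃ₜ N) × (N ≃ₜ N),
      (mu (mu (mu (em T) (em q.1)) (iv (em T))) (em q.2)) =
        mu (em q.2) (mu (mu (em T) (em q.1)) (iv (em T))) ↔
      (T * q.1 * T⁻¹) * q.2 = q.2 * (T * q.1 * T⁻¹) := by
    intro q
    rw [← em_inv, ← em_mul, ← em_mul, ← em_mul, ← em_mul]
    exact ⟨fun h => em_inj h, fun h => by rw [h]⟩
  exact forall₂_congr fun q _ => key q

end grp

end Ac1L

open Ac1L in
theorem ac1 {N : Type} [TopologicalSpace N] [T2Space N] [LocallyCompactSpace N]
    [SecondCountableTopology N] (f : N → ℝ) (hf : Continuous f) (ψ : ℝ → (N ≃ₜ N))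
    (hψ : ∀ s t, ψ (s + t) = ψ s * ψ t) (hlev : ∀ t, ψ t ∈ levelGroup f)
    (R : ℕ → Set ((N ≃ₜ N) × (N ≃ₜ N))) (C : ℕ → Set ℝ) (hC : ∀ k, IsClosed (C k))
    (hR : ∀ T ∈ levelGroup f, ∀ t : ℝ, T = ψ t ↔
      ∀ k, ((∀ q ∈ R k, (T * q.1 * T⁻¹) * q.2 = q.2 * (T * q.1 * T⁻¹)) ↔ t ∈ C k)) :
    Continuous fun p : ℝ × N => ψ p.1 p.2 := by
  have hpol : PolishSpace C(N, N) := polish_C N
  let : MeasurableSpace C(N, N) := borel _
  have : BorelSpace C(N, N) := ⟨rfl⟩
  let Ψ : ℝ → PP N := fun t => em (ψ t)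
  have hψ0 : ψ 0 = 1 := by
    have h1 := hψ 0 0
    rw [add_zero] at h1
    exact left_eq_mul.1 h1
  have hψn : ∀ t, ψ (-t) = (ψ t)⁻¹ := by
    intro t
    have h1 := hψ (-t) t
    rw [neg_add_cancel, hψ0] at h1
    exact (inv_eq_of_mul_eq_one_left h1.symm).symm
  have hΨadd : ∀ s t, Ψ (s + t) = mu (Ψ s) (Ψ t) := by
    intro s t
    change em (ψ (s + t)) = _
    rw [hψ, em_mul]
  have hΨneg : ∀ t, Ψ (-t) = iv (Ψ t) := by
    intro t
    change em (ψ (-t)) = _
    rw [hψn, em_inv]
  have hΨ0 : Ψ 0 = em 1 := by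
    change em (ψ 0) = _
    rw [hψ0]
  -- the graph
  let G : Set (ℝ × PP N) := {x | x.2 ∈ SS f ∧ ∀ k, (x.2 ∈ ZZ (R k) ↔ x.1 ∈ C k)}
  have hG : ∀ t p, (t, p) ∈ G ↔ p = Ψ t := by
    intro t p
    constructor
    · rintro ⟨h1, h2⟩
      obtain ⟨T, hT, rfl⟩ := exists_em h1
      have h3 : T = ψ t := (hR T hT t).2 fun k => mem_ZZ.symm.trans (h2 k)
      change em T = em (ψ t)
      rw [h3]
    · rintro rfl
      exact ⟨em_mem (hlev t), fun k => mem_ZZ.trans ((hR (ψ t) (hlev t) t).1 rfl k)⟩
  have hGm : MeasurableSet G := by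
    have h1 : G = (Prod.snd ⁻¹' SS f) ∩ ⋂ k, {x : ℝ × PP N | x.2 ∈ ZZ (R k) ↔ x.1 ∈ C k} := by
      ext x
      simp [G]
    rw [h1]
    refine ((isClosed_SS hf).preimage continuous_snd).measurableSet.inter
      (MeasurableSet.iInter fun k => ?_)
    have h2 : {x : ℝ × PP N | x.2 ∈ ZZ (R k) ↔ x.1 ∈ C k} =
        (Prod.snd ⁻¹' ZZ (R k) ∩ Prod.fst ⁻¹' C k) ∪
          ((Prod.snd ⁻¹' ZZ (R k))ᶜ ∩ (Prod.fst ⁻¹' C k)ᶜ) := by
      ext x
      simp only [mem_ofPred_eq, mem_union, mem_inter_iff, mem_preimage, mem_compl_iff]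
      exact iff_iff_and_or_not_and_not
    rw [h2]
    have h3 : MeasurableSet (Prod.snd ⁻¹' ZZ (R k) : Set (ℝ × PP N)) :=
      ((isClosed_ZZ (R k)).preimage continuous_snd).measurableSet
    have h4 : MeasurableSet (Prod.fst ⁻¹' C k : Set (ℝ × PP N)) :=
      ((hC k).preimage continuous_fst).measurableSet
    exact (h3.inter h4).union (h3.compl.inter h4.compl)
  have hmeas : ∀ D : Set (PP N), MeasurableSet D → MeasurableSet (Ψ ⁻¹' D) := by
    intro D hD
    have h1 : Ψ ⁻¹' D = Prod.fst '' (G ∩ Prod.snd ⁻¹' D) := by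
      ext t
      constructor
      · intro ht
        exact ⟨(t, Ψ t), ⟨(hG t _).2 rfl, ht⟩, rfl⟩
      · rintro ⟨⟨t', p⟩, ⟨h2, h3⟩, rfl⟩
        have h4 := (hG t' p).1 h2
        change Ψ t' ∈ D
        rw [← h4]
        exact h3
    rw [h1]
    refine (hGm.inter (measurable_snd hD)).image_of_continuousOn_injOn
      continuous_fst.continuousOn ?_
    rintro ⟨t, p⟩ ⟨h2, -⟩ ⟨t', p'⟩ ⟨h3, -⟩ h4
    have h5 : t = t' := h4
    subst h5
    rw [(hG t p).1 h2, (hG t p').1 h3]
  -- continuity at zero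
  have hcont0 : Filter.Tendsto Ψ (𝓝 0) (𝓝 (em 1)) := by
    intro O hO
    have hc : Continuous fun x : PP N × PP N => mu (iv x.1) x.2 :=
      continuous_mu.comp ((continuous_iv.comp continuous_fst).prodMk continuous_snd)
    have h1 : (fun x : PP N × PP N => mu (iv x.1) x.2) ⁻¹' O ∈ 𝓝 ((em 1 : PP N), (em 1 : PP N)) :=
      hc.continuousAt hO
    obtain ⟨O₁, hO₁, O₂, hO₂, hsub⟩ := mem_nhds_prod_iff.1 h1
    obtain ⟨O', hO's, hO'o, hO'1⟩ := mem_nhds_iff.1 (Filter.inter_mem hO₁ hO₂)
    let Us : ℝ → Set (PP N) := fun s => {p | mu (iv (Ψ s)) p ∈ O'}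
    have hUo : ∀ s, IsOpen (Us s) := fun s =>
      hO'o.preimage (continuous_mu.comp (continuous_const.prodMk continuous_id))
    have hself : ∀ s, Ψ s ∈ Us s := by
      intro s
      change mu (iv (Ψ s)) (Ψ s) ∈ O'
      rw [← hΨneg, ← hΨadd, neg_add_cancel, hΨ0]
      exact hO'1
    obtain ⟨T, hTc, hT⟩ := TopologicalSpace.isOpen_iUnion_countable Us hUo
    have hcov : (⋃ s ∈ T, Ψ ⁻¹' Us s) = univ := by
      rw [eq_univ_iff_forall]
      intro t
      have h2 : Ψ t ∈ ⋃ s, Us s := mem_iUnion.2 ⟨t, hself t⟩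
      rw [← hT] at h2
      obtain ⟨s, hs, h3⟩ := mem_iUnion₂.1 h2
      exact mem_iUnion₂.2 ⟨s, hs, h3⟩
    obtain ⟨s, hs, hpos⟩ : ∃ s ∈ T, 0 < MeasureTheory.volume (Ψ ⁻¹' Us s) := by
      by_contra hcon
      push Not at hcon
      have h2 : MeasureTheory.volume (⋃ s ∈ T, Ψ ⁻¹' Us s) = 0 :=
        (MeasureTheory.measure_biUnion_null_iff hTc).2 fun s hs => le_antisymm (hcon s hs) bot_le
      rw [hcov] at h2
      simp at h2
    have hst := MeasureTheory.Measure.sub_mem_nhds_zero_of_addHaar_pos MeasureTheory.volume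
      (Ψ ⁻¹' Us s) (hmeas _ (hUo s).measurableSet) hpos
    rw [Filter.mem_map]
    refine Filter.mem_of_superset hst ?_
    rintro _ ⟨s₁, h1', s₂, h2', rfl⟩
    change Ψ (s₁ - s₂) ∈ O
    have ha : mu (iv (Ψ s)) (Ψ s₂) ∈ O' := h2'
    have hb : mu (iv (Ψ s)) (Ψ s₁) ∈ O' := h1'
    have h3 := hsub (mk_mem_prod (hO's ha).1 (hO's hb).2)
    have h4 : mu (iv (mu (iv (Ψ s)) (Ψ s₂))) (mu (iv (Ψ s)) (Ψ s₁)) ∈ O := h3
    rw [← hΨneg, ← hΨadd, ← hΨadd, ← hΨneg, ← hΨadd] at h4
    have h5 : -(-s + s₂) + (-s + s₁) = s₁ - s₂ := by ring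
    rwa [h5] at h4
  have hcont : Continuous Ψ := by
    rw [continuous_iff_continuousAt]
    intro t
    have h1 : Filter.Tendsto (fun x : ℝ => x - t) (𝓝 t) (𝓝 0) := by
      have h2 : Continuous fun x : ℝ => x - t := continuous_id.sub continuous_const
      have h3 := h2.tendsto t
      rwa [sub_self] at h3
    have h2 := hcont0.comp h1
    have h3 : Filter.Tendsto (fun x : ℝ => mu (Ψ t) (Ψ (x - t))) (𝓝 t) (𝓝 (mu (Ψ t) (em 1))) :=
      (continuous_mu.tendsto (Ψ t, em 1)).comp (tendsto_const_nhds.prodMk_nhds h2)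
    rw [mu_one] at h3
    refine h3.congr fun x => ?_
    rw [← hΨadd]
    congr 1
    ring
  have hfst : Continuous fun t => (Ψ t).1 := continuous_fst.comp hcont
  have hev : Continuous fun p : C(N, N) × N => p.1 p.2 := by
    exact ContinuousEval.continuous_eval
  exact hev.comp ((hfst.comp continuous_fst).prodMk continuous_snd)

end Pool.Agent.H756.LS
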