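import Pool.Agent.H756.LS.Defs

/-!
# Commutation lemmas (task COM1)

`X` is Hausdorff, `ρ : Γ → Homeo X` an action with `P12 ρ` (each nonempty open set supports an
element whose 12th power acts nontrivially).

Paper proofs.
* `fix_of_comm`. Suppose `x ∈ A` and `T x ≠ x`. Choose an open `V ∋ x`, `V ⊆ A`, with `T V ∩ V = ∅`
  (Hausdorff + continuity). By `P12` there is `g` supported in `V` with `ρ (g^12) ≠ 1`; `ρ (g^12)` is
  supported in `V` and moves some `z ∈ V`. Apply the equation at the point `T⁻¹ z`... more directly: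
  `T ρ(g^12) T⁻¹` is supported in `T V`, so it fixes `z`, while it equals `ρ (g^12)`, which moves `z`.
* `exists_noncomm`. `P12` gives `g` supported in `A` with `T := ρ (g^12) ≠ 1`; it moves a point of `A`.
  By `fix_of_comm` (contrapositive) there is `b` supported in `A` with `T ρ(b^12) ≠ ρ(b^12) T`.
* `fix_of_normal`. Let `g ∈ L` move `z` and suppose `T z ≠ z`. Choose an open `V ∋ z` with
  `T V ∩ V = ∅` and `ρ g V ∩ V = ∅`. Take `h, h'` supported in `V` that do not commute. Put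
  `l = [[g, h], h'] ∈ L` (`[a,b] = a b a⁻¹ b⁻¹`; `L` is normal). Now `g h g⁻¹` is supported in
  `g V`, which is disjoint from `V`, so it commutes with `h, h'` and `ρ l = ρ [h⁻¹, h']`. This is
  supported in `V` and is not `1`: it moves a point `v ∈ V`. But `T ρ(l) T⁻¹` is supported in `T V`,
  so fixes `v`, and equals `ρ l`: contradiction.
-/

set_option autoImplicit false

open Set Topology Function

namespace Pool.Agent.H756.LS

variable {X : Type} [TopologicalSpace X] [T2Space X] {Γ : Type} [Group Γ]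

/-- a point moved by `T` has a neighbourhood which is disjoint from its image -/
theorem cmt_sep (T : X ≃ₜ X) {A : Set X} (hA : IsOpen A) {x : X} (hx : x ∈ A) (hT : T x ≠ x) :
    ∃ V : Set X, IsOpen V ∧ x ∈ V ∧ V ⊆ A ∧ ∀ y ∈ V, T y ∉ V := by
  obtain ⟨U, W, hU, hW, hTU, hxW, hd⟩ := t2_separation hT
  refine ⟨(A ∩ W) ∩ T ⁻¹' U, (hA.inter hW).inter (hU.preimage T.continuous),
    ⟨⟨hx, hxW⟩, hTU⟩, fun y hy => hy.1.1, fun y hy hy' => ?_⟩
  exact Set.disjoint_left.1 hd hy.2 hy'.1.2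

theorem cmt_mul {S T : X ≃ₜ X} {A : Set X} (hS : Sup S A) (hT : Sup T A) : Sup (S * T) A := by
  intro x hx
  show S (T x) = x
  rw [hT x hx, hS x hx]

theorem cmt_inv {S : X ≃ₜ X} {A : Set X} (hS : Sup S A) : Sup S⁻¹ A := by
  intro x hx
  show S.symm x = x
  rw [S.symm_apply_eq]
  exact (hS x hx).symm

theorem cmt_pow {S : X ≃ₜ X} {A : Set X} (hS : Sup S A) (n : ℕ) : Sup (S ^ n) A := by
  induction n with
  | zero =>
    intro x _
    rw [pow_zero]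
    rfl
  | succ n ih =>
    rw [pow_succ]
    exact cmt_mul ih hS

theorem cmt_mono {S : X ≃ₜ X} {A B : Set X} (hS : Sup S A) (h : A ⊆ B) : Sup S B :=
  fun x hx => hS x fun hxA => hx (h hxA)

theorem cmt_moves {S : X ≃ₜ X} (hS : S ≠ 1) : ∃ z, S z ≠ z := by
  by_contra hcon
  push Not at hcon
  apply hS
  ext z
  exact hcon z

/-- homeomorphisms with disjoint supports commute -/
theorem cmt_disj {S T : X ≃ₜ X} {A B : Set X} (hS : Sup S A) (hT : Sup T B)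
    (hd : ∀ x ∈ A, x ∉ B) : S * T = T * S := by
  ext x
  show S (T x) = T (S x)
  by_cases hx : x ∈ A
  · rw [hT x (hd x hx)]
    have h1 : S x ∈ A := by
      by_contra hn
      have h2 := S.injective (hS (S x) hn)
      rw [h2] at hn
      exact hn hx
    rw [hT (S x) (hd _ h1)]
  · rw [hS x hx]
    by_cases hx' : x ∈ B
    · have h1 : T x ∈ B := by
        by_contra hn
        have h2 := T.injective (hT (T x) hn)
        rw [h2] at hn
        exact hn hx'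
      exact hS (T x) fun hn => hd _ hn h1
    · rw [hT x hx', hS x hx]

theorem cmt_key {S T : X ≃ₜ X} {V : Set X} (hS : Sup S V) (hne : S ≠ 1) (hT : ∀ y ∈ V, T y ∉ V)
    (hc : T * S = S * T) : False := by
  obtain ⟨z, hz⟩ := cmt_moves hne
  have hzV : z ∈ V := by
    by_contra hn
    exact hz (hS z hn)
  have h1 : T (S z) = S (T z) := congrArg (fun F : X ≃ₜ X => F z) hc
  rw [hS (T z) (hT z hzV)] at h1
  exact hz (T.injective h1)

theorem fix_of_comm (ρ : Γ →* (X ≃ₜ X)) (hP : P12 ρ) {A : Set X} (hA : IsOpen A) (T : X ≃ₜ X)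
    (h : ∀ g : Γ, Sup (ρ g) A → T * ρ (g ^ 12) = ρ (g ^ 12) * T) : ∀ x ∈ A, T x = x := by
  intro x hx
  by_contra hT
  obtain ⟨V, hV, hxV, hVA, hTV⟩ := cmt_sep T hA hx hT
  obtain ⟨g, hg, hg1⟩ := hP V hV ⟨x, hxV⟩
  have h1 := h g (cmt_mono hg hVA)
  refine cmt_key (S := ρ (g ^ 12)) ?_ hg1 hTV h1
  rw [map_pow]
  exact cmt_pow hg 12

theorem exists_noncomm (ρ : Γ →* (X ≃ₜ X)) (hP : P12 ρ) {A : Set X} (hA : IsOpen A)
    (hne : A.Nonempty) : ∃ a b : Γ, Sup (ρ a) A ∧ Sup (ρ b) A ∧ ρ (a * b) ≠ ρ (b * a) := by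
  obtain ⟨g, hg, hg1⟩ := hP A hA hne
  have hg12 : Sup (ρ (g ^ 12)) A := by
    rw [map_pow]
    exact cmt_pow hg 12
  obtain ⟨z, hz⟩ := cmt_moves hg1
  have hzA : z ∈ A := by
    by_contra hn
    exact hz (hg12 z hn)
  by_contra hcon
  push Not at hcon
  refine hz (fix_of_comm ρ hP hA (ρ (g ^ 12)) (fun b hb => ?_) z hzA)
  have hb12 : Sup (ρ (b ^ 12)) A := by
    rw [map_pow]
    exact cmt_pow hb 12
  have := hcon (g ^ 12) (b ^ 12) hg12 hb12
  rw [map_mul, map_mul] at this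
  exact this

theorem fix_of_normal (ρ : Γ →* (X ≃ₜ X)) (hP : P12 ρ) (L : Subgroup Γ) [L.Normal] (T : X ≃ₜ X)
    (hT : ∀ g ∈ L, T * ρ g = ρ g * T) (z : X) (hz : ∃ g ∈ L, ρ g z ≠ z) : T z = z := by
  obtain ⟨g, hgL, hgz⟩ := hz
  by_contra hTz
  obtain ⟨V₁, hV₁, hzV₁, _, hTV₁⟩ := cmt_sep T isOpen_univ (mem_univ z) hTz
  obtain ⟨V, hV, hzV, hVV, hgV⟩ := cmt_sep (ρ g) hV₁ hzV₁ hgz
  have hTV : ∀ y ∈ V, T y ∉ V := fun y hy hy' => hTV₁ y (hVV hy) (hVV hy')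
  obtain ⟨h, h', hh, hh', hne⟩ := exists_noncomm ρ hP hV ⟨z, hzV⟩
  -- the element of `L`
  have hmL : g * h * g⁻¹ * h⁻¹ ∈ L := by
    have h1 : h * g⁻¹ * h⁻¹ ∈ L := ‹L.Normal›.conj_mem _ (L.inv_mem hgL) h
    have h2 := L.mul_mem hgL h1
    have e : g * (h * g⁻¹ * h⁻¹) = g * h * g⁻¹ * h⁻¹ := by group
    rwa [e] at h2
  obtain ⟨m, hm⟩ : ∃ m, m = g * h * g⁻¹ * h⁻¹ := ⟨_, rfl⟩
  rw [← hm] at hmL
  have hlL : m * h' * m⁻¹ * h'⁻¹ ∈ L := by
    have h1 : h' * m⁻¹ * h'⁻¹ ∈ L := ‹L.Normal›.conj_mem _ (L.inv_mem hmL) h'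
    have h2 := L.mul_mem hmL h1
    have e : m * (h' * m⁻¹ * h'⁻¹) = m * h' * m⁻¹ * h'⁻¹ := by group
    rwa [e] at h2
  obtain ⟨a, ha⟩ : ∃ a : X ≃ₜ X, a = ρ (g * h * g⁻¹) := ⟨_, rfl⟩
  obtain ⟨b, hb⟩ : ∃ b : X ≃ₜ X, b = ρ h := ⟨_, rfl⟩
  obtain ⟨c, hc⟩ : ∃ c : X ≃ₜ X, c = ρ h' := ⟨_, rfl⟩
  have hbS : Sup b V := by rw [hb]; exact hh
  have hcS : Sup c V := by rw [hc]; exact hh'
  have haS : Sup a (ρ g '' V) := by
    intro x hx
    rw [ha, map_mul, map_mul, map_inv]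
    show ρ g (ρ h ((ρ g).symm x)) = x
    rw [hh ((ρ g).symm x) (fun hn => hx ⟨_, hn, (ρ g).apply_symm_apply x⟩)]
    exact (ρ g).apply_symm_apply x
  have hd : ∀ x ∈ ρ g '' V, x ∉ V := by
    rintro _ ⟨y, hy, rfl⟩
    exact hgV y hy
  have hab : a * b = b * a := cmt_disj haS hbS hd
  have hac : a * c = c * a := cmt_disj haS hcS hd
  have hl : ρ (m * h' * m⁻¹ * h'⁻¹) = b⁻¹ * c * b * c⁻¹ := by
    have hρm : ρ m = a * b⁻¹ := by
      rw [hm, map_mul, ← ha, map_inv, ← hb]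
    rw [map_mul, map_mul, map_mul, map_inv, map_inv, hρm, ← hc]
    have k1 : Commute a b := hab
    have k2 : Commute a c := hac
    have k3 : Commute a (b⁻¹ * c * b) := (k1.inv_right.mul_right k2).mul_right k1
    have k4 : a * (b⁻¹ * c * b) = b⁻¹ * c * b * a := k3
    calc a * b⁻¹ * c * (a * b⁻¹)⁻¹ * c⁻¹ = a * (b⁻¹ * c * b) * a⁻¹ * c⁻¹ := by group
      _ = b⁻¹ * c * b * a * a⁻¹ * c⁻¹ := by rw [k4]
      _ = b⁻¹ * c * b * c⁻¹ := by group
  have hlS : Sup (ρ (m * h' * m⁻¹ * h'⁻¹)) V := by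
    rw [hl]
    exact cmt_mul (cmt_mul (cmt_mul (cmt_inv hbS) hcS) hbS) (cmt_inv hcS)
  have hl1 : ρ (m * h' * m⁻¹ * h'⁻¹) ≠ 1 := by
    rw [hl]
    intro hn
    apply hne
    rw [map_mul, map_mul, ← hb, ← hc]
    have h3 : b⁻¹ * c * b = c := by
      have := mul_inv_eq_one.1 hn
      exact this
    have h4 : b * (b⁻¹ * c * b) = c * b := by group
    rw [h3] at h4
    exact h4
  exact cmt_key hlS hl1 hTV (hT _ hlL)

end Pool.Agent.H756.LS
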