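import Pool.Agent.H756.LS.Ac1
import Pool.Agent.H756.LS.Cmt1

/-!
# Automatic continuity, second part (task AC2)

`Γ` acts faithfully on the second countable Hausdorff space `X` with `P12`; `φ : Γ ≃* levelGroup f`,
`g : ℝ → Γ` is a one-parameter subgroup whose action on `X` is jointly continuous. Then its action on `N`
is jointly continuous.

Paper proof. Let `B_0, B_1, …` be a countable basis of the topology of `X` (all open sets; enumerate the
pairs `(i,j)` by `k : ℕ`). For `γ ∈ Γ`, open `U, V ⊆ X`: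
(*) `ρ γ '' U ∩ V = ∅` iff `ρ γ ρ a ρ γ⁻¹` commutes with `ρ b` for all `a` supported in `U` and `b`
supported in `V`. (→ supports are disjoint. ← if the open set `W = ρ γ '' U ∩ V` is not empty take by `exists_noncomm`
`a', b` supported in `W` with `ρ (a' b) ≠ ρ (b a')`; `a = γ⁻¹ a' γ` is supported in `ρ γ⁻¹ '' W ⊆ U`.)
Apply `ac1` with `ψ t = (φ (g t) : N ≃ₜ N)`, `R k = {(φ a, φ b) | a supported in B_i, b supported in B_j}`,
`C k = {t | ρ (g t) '' B_i ∩ B_j = ∅}` for `k = (i,j)`. `C k` is closed: its complement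
`{t | ∃ x ∈ B_i, ρ (g t) x ∈ B_j}` is open by continuity. For `T = φ γ`, `T` satisfies the `k`-th condition iff
(`φ`, `ρ` injective) `ρ γ '' B_i ∩ B_j = ∅`. So the condition of `ac1` for all `k` says that `ρ γ` and
`ρ (g t)` have the same disjointness pattern on the basis; two homeomorphisms `u, v` of
a Hausdorff space with the same pattern are equal: if `u x ≠ v x` choose basic `B_j ∋ v x` and an open `W ∋ u x`
disjoint from `B_j`, and a basic `B_i ∋ x` with `u '' B_i ⊆ W`; then `u '' B_i ∩ B_j = ∅`,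
but `v x ∈ v '' B_i ∩ B_j`. As `ρ` is injective, `γ = g t`, i.e. `T = ψ t`.
(If `X` is empty, `Γ` is trivial and everything is constant; choose the enumeration of the basis with
care, e.g. `TopologicalSpace.exists_countable_basis` and `Set.Countable.exists_eq_range` for the nonempty
family of pairs, adding `∅` to the basis.)
-/

set_option autoImplicit false

open Set Topology Function

namespace Pool.Agent.H756.LS

section Aux

variable {X : Type} [TopologicalSpace X] {Γ : Type} [Group Γ]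

theorem ac2_sup_maps {h : X ≃ₜ X} {A : Set X} (hh : Sup h A) {x : X} (hx : x ∈ A) : h x ∈ A := by
  by_contra hn
  have h1 : h (h x) = h x := hh _ hn
  have h2 : h x = x := h.injective h1
  rw [h2] at hn
  exact hn hx

theorem ac2_comm {h₁ h₂ : X ≃ₜ X} {A B : Set X} (H₁ : Sup h₁ A) (H₂ : Sup h₂ B)
    (hd : ∀ x ∈ A, x ∉ B) : h₁ * h₂ = h₂ * h₁ := by
  ext x
  show h₁ (h₂ x) = h₂ (h₁ x)
  by_cases hx : x ∈ A
  · rw [H₂ x (hd x hx), H₂ (h₁ x) (hd _ (ac2_sup_maps H₁ hx))]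
  · rw [H₁ x hx]
    refine H₁ _ fun hA => hx ?_
    have h1 : h₂ (h₂ x) = h₂ x := H₂ _ (hd _ hA)
    have h2 : h₂ x = x := h₂.injective h1
    rwa [h2] at hA

/-- the disjointness pattern in terms of the group -/
theorem ac2_pattern [T2Space X] (ρ : Γ →* (X ≃ₜ X)) (hρ : Injective ρ) (hP : P12 ρ) (γ : Γ)
    {U V : Set X} (hU : IsOpen U) (hV : IsOpen V) :
    (∀ a b : Γ, Sup (ρ a) U → Sup (ρ b) V → (γ * a * γ⁻¹) * b = b * (γ * a * γ⁻¹)) ↔
      ∀ x ∈ U, ρ γ x ∉ V := by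
  constructor
  · intro h x hx hxV
    have hW : IsOpen (ρ γ '' U ∩ V) := ((ρ γ).isOpenMap U hU).inter hV
    obtain ⟨a', b, ha', hb, hne⟩ := exists_noncomm ρ hP hW ⟨ρ γ x, mem_image_of_mem _ hx, hxV⟩
    apply hne
    have h1 := h (γ⁻¹ * a' * γ) b ?_ (fun y hy => hb y fun hy' => hy hy'.2)
    · have h2 : γ * (γ⁻¹ * a' * γ) * γ⁻¹ = a' := by group
      rw [h2] at h1
      rw [h1]
    · intro y hy
      have h2 : ρ a' (ρ γ y) = ρ γ y := by
        refine ha' _ fun h3 => hy ?_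
        obtain ⟨z, hz, hzy⟩ := h3.1
        have h4 : z = y := (ρ γ).injective hzy
        rwa [h4] at hz
      have h3 : ρ (γ⁻¹ * a' * γ) y = ρ γ⁻¹ (ρ a' (ρ γ y)) := by
        rw [map_mul, map_mul]
        rfl
      rw [h3, h2]
      have h4 : ρ γ⁻¹ (ρ γ y) = (ρ γ⁻¹ * ρ γ) y := rfl
      rw [h4, ← map_mul, inv_mul_cancel, map_one]
      rfl
  · intro h a b ha hb
    apply hρ
    rw [map_mul, map_mul ρ b]
    refine ac2_comm (A := ρ γ '' U) (B := V) ?_ hb ?_
    · intro y hy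
      have h3 : ρ (γ * a * γ⁻¹) y = ρ γ (ρ a (ρ γ⁻¹ y)) := by
        rw [map_mul, map_mul]
        rfl
      have h5 : ρ γ (ρ γ⁻¹ y) = y := by
        have h4 : ρ γ (ρ γ⁻¹ y) = (ρ γ * ρ γ⁻¹) y := rfl
        rw [h4, ← map_mul, mul_inv_cancel, map_one]
        rfl
      rw [h3, ha, h5]
      intro hmem
      exact hy ⟨_, hmem, h5⟩
    · rintro _ ⟨x, hx, rfl⟩
      exact h x hx

end Aux

theorem auto_cont {X N : Type} [TopologicalSpace X] [T2Space X] [SecondCountableTopology X]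
    [TopologicalSpace N] [T2Space N] [LocallyCompactSpace N] [SecondCountableTopology N]
    {Γ : Type} [Group Γ] (ρ : Γ →* (X ≃ₜ X)) (hρ : Injective ρ) (hP : P12 ρ)
    (f : N → ℝ) (hf : Continuous f) (φ : Γ ≃* levelGroup f) (g : ℝ → Γ)
    (hg : ∀ s t, g (s + t) = g s * g t)
    (hc : Continuous fun p : ℝ × X => ρ (g p.1) p.2) :
    Continuous fun p : ℝ × N => (φ (g p.1) : N ≃ₜ N) p.2 := by
  obtain ⟨b, hbc, -, hb⟩ := TopologicalSpace.exists_countable_basis X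
  obtain ⟨B, hB⟩ := (hbc.insert (∅ : Set X)).exists_eq_range ⟨∅, mem_insert _ _⟩
  have hBo : ∀ i, IsOpen (B i) := by
    intro i
    have h1 : B i ∈ insert (∅ : Set X) b := by
      rw [hB]
      exact mem_range_self i
    rcases mem_insert_iff.1 h1 with h2 | h2
    · rw [h2]
      exact isOpen_empty
    · exact hb.isOpen h2
  have hbB : ∀ V ∈ b, ∃ i, B i = V := by
    intro V hV
    have h1 : V ∈ range B := by
      rw [← hB]
      exact mem_insert_of_mem _ hV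
    exact h1
  have hkey : ∀ γ : Γ, ∀ i j : ℕ, (∀ q ∈ {q : (N ≃ₜ N) × (N ≃ₜ N) | ∃ a b : Γ,
      Sup (ρ a) (B i) ∧ Sup (ρ b) (B j) ∧ q = ((φ a : N ≃ₜ N), (φ b : N ≃ₜ N))},
      ((φ γ : N ≃ₜ N) * q.1 * (φ γ : N ≃ₜ N)⁻¹) * q.2 =
        q.2 * ((φ γ : N ≃ₜ N) * q.1 * (φ γ : N ≃ₜ N)⁻¹)) ↔ ∀ x ∈ B i, ρ γ x ∉ B j := by
    intro γ i j
    rw [← ac2_pattern ρ hρ hP γ (hBo i) (hBo j)]
    have hcoe : ∀ a b : Γ, ((φ γ : N ≃ₜ N) * (φ a : N ≃ₜ N) * (φ γ : N ≃ₜ N)⁻¹) * (φ b : N ≃ₜ N) =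
        (φ b : N ≃ₜ N) * ((φ γ : N ≃ₜ N) * (φ a : N ≃ₜ N) * (φ γ : N ≃ₜ N)⁻¹) ↔
          (γ * a * γ⁻¹) * b = b * (γ * a * γ⁻¹) := by
      intro a b
      have h1 : ((φ ((γ * a * γ⁻¹) * b) : levelGroup f) : N ≃ₜ N) =
          ((φ γ : N ≃ₜ N) * (φ a : N ≃ₜ N) * (φ γ : N ≃ₜ N)⁻¹) * (φ b : N ≃ₜ N) := by
        rw [map_mul, map_mul, map_mul, map_inv]
        rfl
      have h2 : ((φ (b * (γ * a * γ⁻¹)) : levelGroup f) : N ≃ₜ N) =
          (φ b : N ≃ₜ N) * ((φ γ : N ≃ₜ N) * (φ a : N ≃ₜ N) * (φ γ : N ≃ₜ N)⁻¹) := by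
        rw [map_mul, map_mul, map_mul, map_inv]
        rfl
      rw [← h1, ← h2]
      exact ⟨fun h => φ.injective (Subtype.ext h), fun h => by rw [h]⟩
    constructor
    · intro h a b ha hb'
      exact (hcoe a b).1 (h _ ⟨a, b, ha, hb', rfl⟩)
    · rintro h _ ⟨a, b, ha, hb', rfl⟩
      exact (hcoe a b).2 (h a b ha hb')
  refine ac1 f hf (fun t => (φ (g t) : N ≃ₜ N)) (fun s t => ?_) (fun t => (φ (g t)).2)
    (fun k => {q : (N ≃ₜ N) × (N ≃ₜ N) | ∃ a b : Γ, Sup (ρ a) (B k.unpair.1) ∧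
      Sup (ρ b) (B k.unpair.2) ∧ q = ((φ a : N ≃ₜ N), (φ b : N ≃ₜ N))})
    (fun k => {t : ℝ | ∀ x ∈ B k.unpair.1, ρ (g t) x ∉ B k.unpair.2}) (fun k => ?_) ?_
  · show ((φ (g (s + t)) : levelGroup f) : N ≃ₜ N) = _
    rw [hg, map_mul]
    rfl
  · have h1 : {t : ℝ | ∀ x ∈ B k.unpair.1, ρ (g t) x ∉ B k.unpair.2} =
        ⋂ x ∈ B k.unpair.1, (fun t : ℝ => ρ (g t) x) ⁻¹' (B k.unpair.2)ᶜ := by
      ext t
      simp only [Set.mem_ofPred_eq, mem_iInter, mem_preimage, mem_compl_iff]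
    rw [h1]
    refine isClosed_biInter fun x _ => ?_
    have h2 : Continuous fun t : ℝ => ρ (g t) x :=
      hc.comp (continuous_id.prodMk continuous_const)
    exact (hBo _).isClosed_compl.preimage h2
  · intro T hT t
    obtain ⟨γ, hγ⟩ : ∃ γ : Γ, (φ γ : N ≃ₜ N) = T := ⟨φ.symm ⟨T, hT⟩, by
      rw [MulEquiv.apply_symm_apply]⟩
    rw [← hγ]
    constructor
    · intro h k
      have h1 : γ = g t := φ.injective (Subtype.ext h)
      rw [h1]
      exact hkey (g t) k.unpair.1 k.unpair.2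
    · intro h
      have h1 : ρ γ = ρ (g t) := by
        ext x
        by_contra hne
        obtain ⟨W, W', hW, hW', hxW, hxW', hdisj⟩ := t2_separation hne
        obtain ⟨V, hV, hxV, hVW⟩ := hb.exists_subset_of_mem_open hxW' hW'
        obtain ⟨U, hU, hxU, hUW⟩ := hb.exists_subset_of_mem_open
          (show x ∈ (ρ γ) ⁻¹' W from hxW) (hW.preimage (ρ γ).continuous)
        obtain ⟨i, hi⟩ := hbB U hU
        obtain ⟨j, hj⟩ := hbB V hV
        have h2 := h (Nat.pair i j)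
        have h3 := hkey γ i j
        have h4 : ∀ y ∈ B i, ρ γ y ∉ B j := by
          intro y hy hy'
          rw [hi] at hy
          rw [hj] at hy'
          exact Set.disjoint_left.1 hdisj (hUW hy) (hVW hy')
        simp only [Nat.unpair_pair] at h2
        have h5 := h2.1 (h3.2 h4)
        have h6 : ρ (g t) x ∉ B j := h5 x (by rw [hi]; exact hxU)
        rw [hj] at h6
        exact h6 hxV
      have h2 : γ = g t := hρ h1
      rw [h2]

end Pool.Agent.H756.LS
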