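import Pool.Agent.H756.LS.Defs

/-!
# Classification of connected one-dimensional manifolds (task CLS)

A connected Hausdorff second countable space `C` covered by open embeddings of `ℝ` is homeomorphic to
`ℝ` or to the circle `AddCircle 1`.

Paper proof (one of many). Call an open set `J ⊆ C` an *interval* if it is homeomorphic to `ℝ`
(equivalently to an open interval, an open ray).
(1) If `U, V` are intervals, `U ∩ V ≠ ∅`, and `h : ℝ → U`, `k : ℝ → V` are the parametrisations, each
component of `h⁻¹(U ∩ V)` is an open interval `(a,b)`; if `U ⊄ V` and `V ⊄ U`, each component of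
`U ∩ V` is a half-line at both ends (a bounded component `(a,b)` of `h⁻¹(U ∩ V)`
with `a, b` finite would have compact closure `h [a,b]`, and then `k⁻¹ h` maps `(a,b)` homeomorphically
onto a component `(c,d)` of `k⁻¹(U∩V)`; if `c` is finite, then, as `C` is Hausdorff, the limits
`h(a)` or `h(b)` and `k(c)` coincide, and `h(a) ∈ V`, contradiction; so `(c,d) = ℝ`, i.e. `V ⊆ U`).
So `U ∩ V` has one component, and then `U ∪ V` is an interval (glue monotone parametrisations), or two
components, and then `U ∪ V` is compact, homeomorphic to the circle, and clopen, so `C = U ∪ V` is a circle.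
(2) If `C` is not a circle: `C` is covered by countably many intervals `V₀, V₁, …` (Lindelöf); by
connectedness one can order/repeat them so that every `V_{m}` meets `V₀ ∪ … ∪ V_{m-1}` (or proceed: let
`U` be the union of all the intervals obtained from `V₀` by finitely many steps of adding an
intersecting interval; it is clopen); all `U_m = V₀ ∪ … ∪ V_m` are intervals by (1),
`C` is the union of an increasing sequence of intervals, and such a union is
an interval (extend the parametrisations: choose homeomorphisms `h_m : U_m ≅ (a_m, b_m)` with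
`h_{m+1} = h_m` on `U_m` and bounded intervals, `(a_m,b_m) ⊆ (a_{m+1},b_{m+1})`; the union is
homeomorphic to the union of these intervals. One may use that an open embedding of a bounded open
interval into an interval `U_{m+1}` is monotone.)
Any other proof is welcome (for instance via a metric/order argument, or Mathlib material on
`ℝ`-orders: a connected, separable linear order without end points whose order topology is the given one
is isomorphic to `ℝ`). The library file
`Pool/Graph/R_seed8/X84/Hs/OneD.lean` (closed connected 1-manifolds: arcs) may help.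
-/

set_option autoImplicit false

open Set Topology Function

namespace Pool.Agent.H756.LS

section cls

variable {C : Type} [TopologicalSpace C]

/-- invariance of domain in dimension one -/
theorem cls_inv (hC : ∀ x : C, ∃ e : ℝ → C, IsOpenEmbedding e ∧ x ∈ range e) {f : ℝ → C}
    (hf : Continuous f) (hi : Injective f) : IsOpenEmbedding f := by
  refine IsOpenEmbedding.of_continuous_injective_isOpenMap hf hi ?_
  rw [isOpenMap_iff_nhds_le]
  intro t
  rw [Filter.le_map_iff]
  intro N hN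
  obtain ⟨e, he, hx⟩ := hC (f t)
  have hU : f ⁻¹' range e ∈ 𝓝 t := (he.isOpen_range.preimage hf).mem_nhds hx
  obtain ⟨ε, hε, hsub⟩ := Metric.nhds_basis_closedBall.mem_iff.1 (Filter.inter_mem hN hU)
  rw [Real.closedBall_eq_Icc] at hsub
  set P := he.toOpenPartialHomeomorph e with hP
  have hPc : ContinuousOn P.symm (range e) := by
    have := P.continuousOn_symm
    rwa [IsOpenEmbedding.toOpenPartialHomeomorph_target] at this
  have hPr : ∀ y ∈ range e, e (P.symm y) = y := fun y hy =>
    he.toOpenPartialHomeomorph_right_inv e hy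
  set g : ℝ → ℝ := fun s => P.symm (f s) with hg
  have hgc : ContinuousOn g (Icc (t - ε) (t + ε)) :=
    hPc.comp hf.continuousOn (fun s hs => (hsub hs).2)
  have hgi : InjOn g (Icc (t - ε) (t + ε)) := by
    intro s hs s' hs' h
    apply hi
    have h1 := hPr _ (hsub hs).2
    have h2 := hPr _ (hsub hs').2
    rw [← h1, ← h2]
    exact congrArg e h
  have hle : t - ε ≤ t + ε := by linarith
  have hmt : t ∈ Icc (t - ε) (t + ε) := ⟨by linarith, by linarith⟩
  have hml : t - ε ∈ Icc (t - ε) (t + ε) := ⟨le_refl _, by linarith⟩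
  have hmr : t + ε ∈ Icc (t - ε) (t + ε) := ⟨by linarith, le_refl _⟩
  have key : ∃ O : Set ℝ, IsOpen O ∧ g t ∈ O ∧ O ⊆ g '' Icc (t - ε) (t + ε) := by
    rcases hgc.strictMonoOn_of_injOn_Icc' hle hgi with h | h
    · refine ⟨Ioo (g (t - ε)) (g (t + ε)), isOpen_Ioo, ⟨h hml hmt (by linarith), h hmt hmr (by linarith)⟩, ?_⟩
      exact Ioo_subset_Icc_self.trans (intermediate_value_Icc hle hgc)
    · refine ⟨Ioo (g (t + ε)) (g (t - ε)), isOpen_Ioo, ⟨h hmt hmr (by linarith), h hml hmt (by linarith)⟩, ?_⟩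
      exact Ioo_subset_Icc_self.trans (intermediate_value_Icc' hle hgc)
  obtain ⟨O, hO, htO, hOs⟩ := key
  have h1 : e '' O ∈ 𝓝 (f t) := by
    refine (he.isOpenMap O hO).mem_nhds ⟨g t, htO, ?_⟩
    exact hPr _ (hsub hmt).2
  refine Filter.mem_of_superset h1 ?_
  rintro _ ⟨r, hr, rfl⟩
  obtain ⟨s, hs, rfl⟩ := hOs hr
  exact ⟨s, (hsub hs).1, (hPr _ (hsub hs).2).symm⟩

variable [T2Space C]

/-- the trace of a one-sided neighbourhood of a boundary point -/
theorem cls_oneSide {e h : ℝ → C} (he : IsOpenEmbedding e) (hh : IsOpenEmbedding h) {a b : ℝ}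
    (hab : a < b) (ha : h a ∉ range e) (hsub : ∀ s ∈ Ioc a b, h s ∈ range e) :
    ∃ c, e c = h b ∧ (e ⁻¹' (h '' Ioo a b) = Ioi c ∨ e ⁻¹' (h '' Ioo a b) = Iio c) := by
  obtain ⟨c, hc⟩ := hsub b ⟨hab, le_refl _⟩
  refine ⟨c, hc, ?_⟩
  set T := e ⁻¹' (h '' Ioo a b) with hT
  have hTo : IsOpen T := (hh.isOpenMap _ isOpen_Ioo).preimage he.continuous
  have hcT : c ∉ T := by
    rintro ⟨s, hs, hse⟩
    rw [hc] at hse
    exact hs.2.ne (hh.injective hse)
  have hcl : closure T ⊆ insert c T := by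
    have h1 : IsClosed (e ⁻¹' (h '' Icc a b)) :=
      (isCompact_Icc.image hh.continuous).isClosed.preimage he.continuous
    have h2 : e ⁻¹' (h '' Icc a b) ⊆ insert c T := by
      rintro t ⟨s, hs, hst⟩
      rcases eq_or_lt_of_le hs.1 with h3 | h3
      · exfalso
        apply ha
        rw [h3, hst]
        exact mem_range_self t
      rcases eq_or_lt_of_le hs.2 with h4 | h4
      · left
        apply he.injective
        rw [hc, ← h4, hst]
      · right
        exact ⟨s, ⟨h3, h4⟩, hst⟩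
    refine (closure_minimal ?_ h1).trans h2
    exact preimage_mono (image_mono Ioo_subset_Icc_self)
  have hTn : T.Nonempty := by
    have h1 : (a + b) / 2 ∈ Ioo a b := ⟨by linarith, by linarith⟩
    obtain ⟨t, ht⟩ := hsub _ (Ioo_subset_Ioc_self h1)
    exact ⟨t, _, h1, ht.symm⟩
  have hTc : IsPreconnected T := by
    refine (isPreconnected_Ioo.image h hh.continuous.continuousOn).preimage_of_isOpenMap
      he.injective he.isOpenMap ?_
    rintro _ ⟨s, hs, rfl⟩
    exact hsub s (Ioo_subset_Ioc_self hs)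
  have hR : (Ioi c ∩ T).Nonempty → Ioi c ⊆ T := by
    intro h1
    refine isPreconnected_Ioi.subset_of_closure_inter_subset hTo h1 ?_
    rintro t ⟨h2, h3⟩
    rcases hcl h2 with h4 | h4
    · exact absurd h4 (ne_of_gt h3)
    · exact h4
  have hL : (Iio c ∩ T).Nonempty → Iio c ⊆ T := by
    intro h1
    refine isPreconnected_Iio.subset_of_closure_inter_subset hTo h1 ?_
    rintro t ⟨h2, h3⟩
    rcases hcl h2 with h4 | h4
    · exact absurd h4 (ne_of_lt h3)
    · exact h4
  have hno : ¬ ((Ioi c ∩ T).Nonempty ∧ (Iio c ∩ T).Nonempty) := by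
    rintro ⟨⟨x, hx, hxT⟩, ⟨y, hy, hyT⟩⟩
    exact hcT (hTc.ordConnected.out hyT hxT ⟨le_of_lt hy, le_of_lt hx⟩)
  obtain ⟨t, ht⟩ := hTn
  rcases lt_trichotomy t c with h1 | h1 | h1
  · right
    have h2 : (Iio c ∩ T).Nonempty := ⟨t, h1, ht⟩
    refine Subset.antisymm ?_ (hL h2)
    intro s hs
    rcases lt_trichotomy s c with h3 | h3 | h3
    · exact h3
    · exact absurd (h3 ▸ hs) hcT
    · exact absurd ⟨⟨s, h3, hs⟩, h2⟩ hno
  · exact absurd (h1 ▸ ht) hcT
  · left
    have h2 : (Ioi c ∩ T).Nonempty := ⟨t, h1, ht⟩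
    refine Subset.antisymm ?_ (hR h2)
    intro s hs
    rcases lt_trichotomy s c with h3 | h3 | h3
    · exact absurd ⟨h2, ⟨s, h3, hs⟩⟩ hno
    · exact absurd (h3 ▸ hs) hcT
    · exact h3

/-- a bounded component -/
theorem cls_bounded {e h : ℝ → C} (he : IsOpenEmbedding e) (hh : IsOpenEmbedding h) {a b : ℝ}
    (hab : a < b) (ha : h a ∉ range e) (hb : h b ∉ range e)
    (hsub : ∀ s ∈ Ioo a b, h s ∈ range e) : range e ⊆ range h := by
  set T := e ⁻¹' (h '' Ioo a b) with hT
  have hTo : IsOpen T := (hh.isOpenMap _ isOpen_Ioo).preimage he.continuous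
  have hTcl : IsClosed T := by
    have h1 : IsClosed (e ⁻¹' (h '' Icc a b)) :=
      (isCompact_Icc.image hh.continuous).isClosed.preimage he.continuous
    have h2 : T = e ⁻¹' (h '' Icc a b) := by
      refine Subset.antisymm (preimage_mono (image_mono Ioo_subset_Icc_self)) ?_
      rintro t ⟨s, hs, hst⟩
      rcases eq_or_lt_of_le hs.1 with h3 | h3
      · exfalso
        apply ha
        rw [h3, hst]
        exact mem_range_self t
      rcases eq_or_lt_of_le hs.2 with h4 | h4
      · exfalso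
        apply hb
        rw [← h4, hst]
        exact mem_range_self t
      · exact ⟨s, ⟨h3, h4⟩, hst⟩
    rw [h2]
    exact h1
  have hTn : T.Nonempty := by
    have h1 : (a + b) / 2 ∈ Ioo a b := ⟨by linarith, by linarith⟩
    obtain ⟨t, ht⟩ := hsub _ h1
    exact ⟨t, _, h1, ht.symm⟩
  have hu : T = univ := IsClopen.eq_univ ⟨hTcl, hTo⟩ hTn
  rintro _ ⟨t, rfl⟩
  have : t ∈ T := hu ▸ mem_univ t
  obtain ⟨s, -, hs⟩ := this
  exact ⟨s, hs⟩

/-- the trace of a maximal interval contains rays -/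
theorem cls_ray {e h : ℝ → C} (he : IsOpenEmbedding e) (hh : IsOpenEmbedding h)
    (hmax : ¬ range e ⊆ range h) (h0 : h 0 ∉ range e) {p q : ℝ} (hp0 : 0 < p)
    (hp : h p ∈ range e) (hq : p < q) : h q ∈ range e := by
  by_contra hqn
  have hcl : IsClosed {s : ℝ | h s ∉ range e} :=
    (he.isOpen_range.preimage hh.continuous).isClosed_compl
  obtain ⟨a, ⟨ha1, ha2⟩, ha3⟩ := (isCompact_Icc.inter_left hcl : IsCompact ({s : ℝ | h s ∉ range e} ∩ Icc 0 p)).exists_isGreatest
    ⟨0, h0, le_refl _, hp0.le⟩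
  obtain ⟨b, ⟨hb1, hb2⟩, hb3⟩ := (isCompact_Icc.inter_left hcl : IsCompact ({s : ℝ | h s ∉ range e} ∩ Icc p q)).exists_isLeast
    ⟨q, hqn, hq.le, le_refl _⟩
  have hap : a < p := lt_of_le_of_ne ha2.2 (fun h1 => ha1 (h1 ▸ hp))
  have hpb : p < b := lt_of_le_of_ne hb2.1 (fun h1 => hb1 (h1 ▸ hp))
  refine hmax (cls_bounded he hh (hap.trans hpb) ha1 hb1 ?_)
  intro s hs
  by_contra hsn
  rcases le_total s p with h1 | h1
  · exact absurd (ha3 ⟨hsn, ha2.1.trans hs.1.le, h1⟩) (not_le.2 hs.1)
  · exact absurd (hb3 ⟨hsn, h1, hs.2.le.trans hb2.2⟩) (not_le.2 hs.2)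

omit [T2Space C] in
theorem cls_neg {e : ℝ → C} (he : IsOpenEmbedding e) : IsOpenEmbedding (fun t => e (-t)) :=
  he.comp (Homeomorph.neg ℝ).isOpenEmbedding

omit [TopologicalSpace C] [T2Space C] in
theorem cls_range_neg (e : ℝ → C) : range (fun t => e (-t)) = range e := by
  ext x
  constructor
  · rintro ⟨t, rfl⟩
    exact ⟨-t, rfl⟩
  · rintro ⟨t, rfl⟩
    exact ⟨-t, by simp⟩

omit [T2Space C] in
/-- gluing, oriented case -/
theorem cls_glue1 {e h : ℝ → C} (he : IsOpenEmbedding e) (hh : IsOpenEmbedding h) {a c : ℝ}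
    (ha : a < 0) (hn : ∀ s ∈ Ioc a 0, h s ∉ range e) (hc : e c = h 1)
    (hT : e ⁻¹' (h '' Ioo 0 1) = Ioi c) :
    ∃ E : ℝ → C, Continuous E ∧ Injective E ∧ range e ⊆ range E ∧ h 0 ∈ range E := by
  set E : ℝ → C := fun t => if t ≤ 0 then e (t + c) else h (a + (1 - a) * Real.exp (-t)) with hE
  have hEc : Continuous E := by
    refine Continuous.if_le ?_ ?_ continuous_id continuous_const ?_
    · exact he.continuous.comp (by fun_prop)
    · exact hh.continuous.comp (by fun_prop)
    · intro t ht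
      have h1 : t = 0 := ht
      rw [h1]
      simp [hc]
  have hr : ∀ t : ℝ, 0 < t → a + (1 - a) * Real.exp (-t) ∈ Ioo a 1 := by
    intro t ht
    have h1 : Real.exp (-t) < 1 := by
      rw [Real.exp_lt_one_iff]
      linarith
    have h2 := Real.exp_pos (-t)
    constructor
    · nlinarith
    · nlinarith
  have hno : ∀ s t : ℝ, s ≤ 0 → 0 < t → e (s + c) ≠ h (a + (1 - a) * Real.exp (-t)) := by
    intro s t hs ht h1
    obtain ⟨h2, h3⟩ := hr t ht
    rcases le_or_gt (a + (1 - a) * Real.exp (-t)) 0 with h4 | h4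
    · exact hn _ ⟨h2, h4⟩ (h1 ▸ mem_range_self _)
    · have h5 : s + c ∈ e ⁻¹' (h '' Ioo 0 1) := ⟨_, ⟨h4, h3⟩, h1.symm⟩
      rw [hT] at h5
      have h6 : c < s + c := h5
      linarith
  have hEl : ∀ t ≤ 0, E t = e (t + c) := fun t ht => if_pos ht
  have hEr : ∀ t, 0 < t → E t = h (a + (1 - a) * Real.exp (-t)) := fun t ht =>
    if_neg (not_le.2 ht)
  have hEi : Injective E := by
    intro s t hst
    rcases le_or_gt s 0 with hs | hs <;> rcases le_or_gt t 0 with ht | ht
    · rw [hEl s hs, hEl t ht] at hst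
      have := he.injective hst
      linarith
    · rw [hEl s hs, hEr t ht] at hst
      exact absurd hst (hno s t hs ht)
    · rw [hEr s hs, hEl t ht] at hst
      exact absurd hst.symm (hno t s ht hs)
    · rw [hEr s hs, hEr t ht] at hst
      have h1 := hh.injective hst
      have h2 : (1 - a) * (Real.exp (-s) - Real.exp (-t)) = 0 := by linarith
      rcases mul_eq_zero.1 h2 with h3 | h3
      · linarith
      · have h4 := Real.exp_injective (sub_eq_zero.1 h3)
        linarith
  have hsur : ∀ r ∈ Ioo a 1, h r ∈ range E := by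
    rintro r ⟨hr1, hr2⟩
    have h1 : 0 < (r - a) / (1 - a) := div_pos (by linarith) (by linarith)
    have h2 : (r - a) / (1 - a) < 1 := by
      rw [div_lt_one (by linarith)]
      linarith
    have h3 : 0 < -Real.log ((r - a) / (1 - a)) := by
      have := Real.log_neg h1 h2
      linarith
    refine ⟨-Real.log ((r - a) / (1 - a)), ?_⟩
    rw [hEr _ h3, neg_neg, Real.exp_log h1, mul_div_cancel₀ _ (by linarith : (1 - a) ≠ 0)]
    congr 1
    ring
  refine ⟨E, hEc, hEi, ?_, hsur 0 ⟨ha, zero_lt_one⟩⟩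
  rintro _ ⟨s, rfl⟩
  rcases le_or_gt s c with h1 | h1
  · refine ⟨s - c, ?_⟩
    rw [hEl _ (by linarith)]
    simp
  · have h2 : s ∈ e ⁻¹' (h '' Ioo 0 1) := by
      rw [hT]
      exact h1
    obtain ⟨r, hr1, hr2⟩ := h2
    rw [← hr2]
    exact hsur r ⟨ha.trans hr1.1, hr1.2⟩

/-- gluing -/
theorem cls_glue {e h : ℝ → C} (he : IsOpenEmbedding e) (hh : IsOpenEmbedding h) {a : ℝ}
    (ha : a < 0) (hn : ∀ s ∈ Ioc a 0, h s ∉ range e) (hp : ∀ s, 0 < s → h s ∈ range e) :
    ∃ E : ℝ → C, Continuous E ∧ Injective E ∧ range e ⊆ range E ∧ h 0 ∈ range E := by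
  obtain ⟨c, hc, h1 | h1⟩ := cls_oneSide he hh zero_lt_one (hn 0 ⟨ha, le_refl _⟩)
    (fun s hs => hp s hs.1)
  · exact cls_glue1 he hh ha hn hc h1
  · obtain ⟨E, hE1, hE2, hE3, hE4⟩ := cls_glue1 (c := -c) (cls_neg he) hh ha
      (by rwa [cls_range_neg]) (by simpa using hc) (by
        ext t
        have h2 : -t ∈ e ⁻¹' (h '' Ioo 0 1) ↔ -t ∈ Iio c := by rw [h1]
        have h3 : -t ∈ Iio c ↔ t ∈ Ioi (-c) := by
          simp only [mem_Iio, mem_Ioi]
          exact ⟨fun h => by linarith, fun h => by linarith⟩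
        exact h2.trans h3)
    rw [cls_range_neg] at hE3
    exact ⟨E, hE1, hE2, hE3, hE4⟩

/-- the circle -/
theorem cls_circ [ConnectedSpace C] {e h : ℝ → C} (he : IsOpenEmbedding e)
    (hh : IsOpenEmbedding h) (h0 : h 0 ∉ range e) (hne : ∀ s, s ≠ 0 → h s ∈ range e) :
    CompactSpace C ∧ range e = {h 0}ᶜ := by
  obtain ⟨c, hc, h1⟩ := cls_oneSide he hh zero_lt_one h0 (fun s hs => hne s hs.1.ne')
  obtain ⟨c', hc', h1'⟩ := cls_oneSide he (cls_neg hh) zero_lt_one (by simpa using h0)
    (fun s hs => hne _ (neg_ne_zero.2 hs.1.ne'))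
  have hdis : ∀ t, t ∈ e ⁻¹' (h '' Ioo 0 1) → t ∈ e ⁻¹' ((fun t => h (-t)) '' Ioo 0 1) → False := by
    rintro t ⟨s, hs, hst⟩ ⟨s', hs', hst'⟩
    have := hh.injective (hst.trans hst'.symm)
    linarith [hs.1, hs'.1]
  have hcov : ∀ t, |c| + |c'| < |t| → e t ∈ h '' Icc (-1) 1 := by
    intro t ht
    have i1 : t ∈ e ⁻¹' (h '' Ioo 0 1) → e t ∈ h '' Icc (-1) 1 := by
      rintro ⟨s, hs, hst⟩
      exact ⟨s, ⟨by linarith [hs.1], hs.2.le⟩, hst⟩
    have i2 : t ∈ e ⁻¹' ((fun t => h (-t)) '' Ioo 0 1) → e t ∈ h '' Icc (-1) 1 := by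
      rintro ⟨s, hs, hst⟩
      exact ⟨-s, ⟨by linarith [hs.2], by linarith [hs.1]⟩, hst⟩
    have a1 := neg_abs_le c
    have a2 := le_abs_self c
    have a3 := neg_abs_le c'
    have a4 := le_abs_self c'
    have a5 := abs_nonneg c
    have a6 := abs_nonneg c'
    rcases h1 with h1 | h1 <;> rcases h1' with h1' | h1'
    · exfalso
      apply hdis (|c| + |c'| + 1)
      · rw [h1]
        show c < _
        linarith
      · rw [h1']
        show c' < _
        linarith
    · rcases lt_abs.1 ht with h2 | h2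
      · apply i1
        rw [h1]
        show c < t
        linarith
      · apply i2
        rw [h1']
        show t < c'
        linarith
    · rcases lt_abs.1 ht with h2 | h2
      · apply i2
        rw [h1']
        show c' < t
        linarith
      · apply i1
        rw [h1]
        show t < c
        linarith
    · exfalso
      apply hdis (-(|c| + |c'| + 1))
      · rw [h1]
        show _ < c
        linarith
      · rw [h1']
        show _ < c'
        linarith
  have hZ : range e ∪ range h = e '' Icc (-(|c| + |c'|)) (|c| + |c'|) ∪ h '' Icc (-1) 1 := by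
    refine Subset.antisymm ?_ (union_subset_union (image_subset_range _ _) (image_subset_range _ _))
    have h2 : range e ⊆ e '' Icc (-(|c| + |c'|)) (|c| + |c'|) ∪ h '' Icc (-1) 1 := by
      rintro _ ⟨t, rfl⟩
      rcases le_or_gt |t| (|c| + |c'|) with h2 | h2
      · left
        exact ⟨t, abs_le.1 h2, rfl⟩
      · right
        exact hcov t h2
    refine union_subset h2 ?_
    rintro _ ⟨s, rfl⟩
    rcases eq_or_ne s 0 with rfl | hs
    · right
      exact ⟨0, ⟨by norm_num, by norm_num⟩, rfl⟩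
    · exact h2 (hne s hs)
  have hZc : IsCompact (range e ∪ range h) := by
    rw [hZ]
    exact (isCompact_Icc.image he.continuous).union (isCompact_Icc.image hh.continuous)
  have hZu : range e ∪ range h = univ :=
    IsClopen.eq_univ ⟨hZc.isClosed, he.isOpen_range.union hh.isOpen_range⟩
      ⟨e 0, Or.inl (mem_range_self 0)⟩
  refine ⟨⟨hZu ▸ hZc⟩, ?_⟩
  ext x
  rw [mem_compl_iff, mem_singleton_iff]
  constructor
  · intro hx h2
    exact h0 (h2 ▸ hx)
  · intro hx
    have : x ∈ range e ∪ range h := hZu ▸ mem_univ x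
    rcases this with h2 | ⟨s, rfl⟩
    · exact h2
    · apply hne
      rintro rfl
      exact hx rfl

theorem cls_case [ConnectedSpace C] {e h : ℝ → C} (he : IsOpenEmbedding e)
    (hh : IsOpenEmbedding h)
    (hmax : ∀ E : ℝ → C, Continuous E → Injective E → range e ⊆ range E → range E ⊆ range e)
    (h0 : h 0 ∉ range e) (hp : ∀ s, 0 < s → h s ∈ range e) :
    CompactSpace C ∧ range e = {h 0}ᶜ := by
  by_cases hneg : ∀ s, s < 0 → h s ∈ range e
  · refine cls_circ he hh h0 (fun s hs => ?_)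
    rcases lt_or_gt_of_ne hs with h1 | h1
    · exact hneg s h1
    · exact hp s h1
  · exfalso
    push Not at hneg
    obtain ⟨a, ha, han⟩ := hneg
    have hm : ¬ range e ⊆ range (fun t => h (-t)) := by
      intro h1
      rw [cls_range_neg] at h1
      exact h0 (hmax h hh.continuous hh.injective h1 (mem_range_self 0))
    have hn : ∀ s ∈ Ioc a 0, h s ∉ range e := by
      rintro s ⟨hs1, hs2⟩ hs
      rcases eq_or_lt_of_le hs2 with h1 | h1
      · exact h0 (h1 ▸ hs)
      · apply han
        have := cls_ray he (cls_neg hh) hm (by simpa using h0) (p := -s) (q := -a) (by linarith)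
          (by simpa using hs) (by linarith)
        simpa using this
    obtain ⟨E, hE1, hE2, hE3, hE4⟩ := cls_glue he hh ha hn hp
    exact h0 (hmax E hE1 hE2 hE3 hE4)

theorem cls_max [ConnectedSpace C] (hC : ∀ x : C, ∃ e : ℝ → C, IsOpenEmbedding e ∧ x ∈ range e)
    {e : ℝ → C} (he : IsOpenEmbedding e)
    (hmax : ∀ E : ℝ → C, Continuous E → Injective E → range e ⊆ range E → range E ⊆ range e) :
    range e = univ ∨ (CompactSpace C ∧ ∃ x, range e = {x}ᶜ) := by
  by_cases hu : range e = univ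
  · exact Or.inl hu
  right
  have hx : ∃ x, x ∈ closure (range e) ∧ x ∉ range e := by
    by_contra hno
    push Not at hno
    exact hu (IsClopen.eq_univ ⟨closure_subset_iff_isClosed.1 hno, he.isOpen_range⟩
      ⟨e 0, mem_range_self 0⟩)
  obtain ⟨x, hxc, hxn⟩ := hx
  obtain ⟨h', hh', ⟨t0, ht0⟩⟩ := hC x
  set h : ℝ → C := fun s => h' (s + t0) with hhd
  have hh : IsOpenEmbedding h := hh'.comp (Homeomorph.addRight t0).isOpenEmbedding
  have hx0 : h 0 = x := by simp [hhd, ht0]
  have h0 : h 0 ∉ range e := by rwa [hx0]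
  have hm : ¬ range e ⊆ range h := fun h1 =>
    h0 (hmax h hh.continuous hh.injective h1 (mem_range_self 0))
  have hm' : ¬ range e ⊆ range (fun t => h (-t)) := by rwa [cls_range_neg]
  have hcl : (0 : ℝ) ∈ closure (h ⁻¹' range e) := by
    rw [← hh.isOpenMap.preimage_closure_eq_closure_preimage hh.continuous]
    show h 0 ∈ closure (range e)
    rwa [hx0]
  have hcase : (∀ s, 0 < s → h s ∈ range e) ∨ (∀ s, s < 0 → h s ∈ range e) := by
    by_contra hno
    push Not at hno
    obtain ⟨⟨s1, hs1, hn1⟩, ⟨s2, hs2, hn2⟩⟩ := hno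
    obtain ⟨s, hs, hd⟩ := Metric.mem_closure_iff.1 hcl (min s1 (-s2)) (lt_min hs1 (by linarith))
    rw [Real.dist_eq, zero_sub, abs_neg, lt_min_iff] at hd
    have hsne : s ≠ 0 := by
      rintro rfl
      exact h0 hs
    rcases lt_or_gt_of_ne hsne with h1 | h1
    · apply hn2
      have h2 : |s| = -s := abs_of_neg h1
      have := cls_ray he (cls_neg hh) hm' (by simpa using h0) (p := -s) (q := -s2) (by linarith)
          (by simpa using hs) (by linarith)
      simpa using this
    · apply hn1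
      have h2 : |s| = s := abs_of_pos h1
      exact cls_ray he hh hm h0 h1 hs (by linarith)
  rcases hcase with h1 | h1
  · obtain ⟨h2, h3⟩ := cls_case he hh hmax h0 h1
    exact ⟨h2, _, h3⟩
  · obtain ⟨h2, h3⟩ := cls_case he (cls_neg hh) hmax (by simpa using h0)
      (fun s hs => h1 (-s) (by linarith))
    exact ⟨h2, _, h3⟩

/-- extension step, oriented case -/
theorem cls_step1 {E e' : ℝ → C} (he' : IsOpenEmbedding e') {g : ℝ → ℝ} (hg : Continuous g)
    (hgm : StrictMono g) (hgE : ∀ t, e' (g t) = E t) {a : ℝ} (ha : 0 ≤ a) {K : Set C}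
    (hK : IsCompact K) (hKs : K ⊆ range e') :
    ∃ E' : ℝ → C, (Continuous E' ∧ Injective E' ∧ range E' ⊆ range e') ∧
      EqOn E' E (Icc (-a) a) ∧ K ⊆ E' '' Icc (-(a + 1)) (a + 1) := by
  have hKc : IsCompact (e' ⁻¹' K) := (he'.isInducing.isCompact_preimage_iff hKs).2 hK
  obtain ⟨R, hR⟩ := hKc.isBounded.exists_norm_le
  set p : ℝ → ℝ := fun t => max (-a) (min a t) with hp
  set M : ℝ := |R| + |g a| + |g (-a)| + 1 with hM
  have hMp : 0 < M := by positivity
  set G : ℝ → ℝ := fun t => g (p t) + M * (t - p t) with hG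
  have hpc : Continuous p := by fun_prop
  have hGc : Continuous G := by fun_prop
  have hpid : ∀ t ∈ Icc (-a) a, p t = t := by
    rintro t ⟨h1, h2⟩
    simp only [hp]
    rw [min_eq_right h2, max_eq_right h1]
  have hpr : ∀ t, a ≤ t → p t = a := by
    intro t h1
    simp only [hp]
    rw [min_eq_left h1, max_eq_right (by linarith)]
  have hpl : ∀ t, t ≤ -a → p t = -a := by
    intro t h1
    simp only [hp]
    rw [min_eq_right (by linarith), max_eq_left h1]
  have hp3 : ∀ t, (t ≤ -a ∧ p t = -a) ∨ ((-a ≤ t ∧ t ≤ a) ∧ p t = t) ∨ (a ≤ t ∧ p t = a) := by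
    intro t
    rcases le_total t (-a) with h1 | h1
    · exact Or.inl ⟨h1, hpl t h1⟩
    · rcases le_total t a with h2 | h2
      · exact Or.inr (Or.inl ⟨⟨h1, h2⟩, hpid t ⟨h1, h2⟩⟩)
      · exact Or.inr (Or.inr ⟨h2, hpr t h2⟩)
  have hGm : StrictMono G := by
    intro s t hst
    have h1 : p s ≤ p t := by
      simp only [hp]
      gcongr
    have h2 : s - p s ≤ t - p t := by
      rcases hp3 s with ⟨i1, i2⟩ | ⟨i1, i2⟩ | ⟨i1, i2⟩ <;>
      rcases hp3 t with ⟨j1, j2⟩ | ⟨j1, j2⟩ | ⟨j1, j2⟩ <;> rw [i2, j2] <;>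
      linarith
    simp only [hG]
    rcases eq_or_lt_of_le h1 with h3 | h3
    · rw [h3] at h2 ⊢
      have h4 : s - p t < t - p t := by linarith
      nlinarith
    · have h4 := hgm h3
      nlinarith
  refine ⟨fun t => e' (G t), ⟨he'.continuous.comp hGc, he'.injective.comp hGm.injective, ?_⟩, ?_, ?_⟩
  · rintro _ ⟨t, rfl⟩
    exact mem_range_self _
  · intro t ht
    show e' (G t) = E t
    rw [← hgE t]
    congr 1
    simp only [hG]
    rw [hpid t ht]
    ring
  · intro x hx
    obtain ⟨r, rfl⟩ := hKs hx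
    have h1 := hR r hx
    rw [Real.norm_eq_abs] at h1
    have h2 := abs_le.1 h1
    have h3 : r ∈ Icc (G (-(a + 1))) (G (a + 1)) := by
      simp only [hG]
      rw [hpl (-(a + 1)) (by linarith), hpr (a + 1) (by linarith)]
      have i1 := le_abs_self R
      have i2 := neg_abs_le (g a)
      have i3 := le_abs_self (g (-a))
      have i4 := abs_nonneg (g a)
      have i5 := abs_nonneg (g (-a))
      have i6 : M * (-(a + 1) - -a) = -M := by ring
      have i7 : M * (a + 1 - a) = M := by ring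
      rw [i6, i7]
      constructor
      · linarith
      · linarith
    obtain ⟨t, ht, rfl⟩ := intermediate_value_Icc (by linarith) hGc.continuousOn h3
    exact ⟨t, ht, rfl⟩

/-- extension step -/
theorem cls_step {E e' : ℝ → C} (hE : Continuous E) (hEi : Injective E)
    (he' : IsOpenEmbedding e') (hsub : range E ⊆ range e') {a : ℝ} (ha : 0 ≤ a) {K : Set C}
    (hK : IsCompact K) (hKs : K ⊆ range e') :
    ∃ E' : ℝ → C, (Continuous E' ∧ Injective E' ∧ range E' ⊆ range e') ∧
      EqOn E' E (Icc (-a) a) ∧ K ⊆ E' '' Icc (-(a + 1)) (a + 1) := by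
  set P := he'.toOpenPartialHomeomorph e' with hP
  have hPc : ContinuousOn P.symm (range e') := by
    have := P.continuousOn_symm
    rwa [IsOpenEmbedding.toOpenPartialHomeomorph_target] at this
  have hPr : ∀ y ∈ range e', e' (P.symm y) = y := fun y hy =>
    he'.toOpenPartialHomeomorph_right_inv e' hy
  set g : ℝ → ℝ := fun s => P.symm (E s) with hg
  have hgE : ∀ t, e' (g t) = E t := fun t => hPr _ (hsub (mem_range_self t))
  have hgc : Continuous g := by
    rw [← continuousOn_univ]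
    exact hPc.comp hE.continuousOn (fun t _ => hsub (mem_range_self t))
  have hgi : Injective g := by
    intro s t h
    apply hEi
    rw [← hgE s, ← hgE t]
    exact congrArg e' h
  rcases hgc.strictMono_of_inj hgi with h | h
  · exact cls_step1 he' hgc h hgE ha hK hKs
  · have h1 := cls_step1 (E := E) (cls_neg he') (g := fun t => -g t) hgc.neg (fun s t hst => neg_lt_neg (h hst))
      (fun t => by rw [neg_neg]; exact hgE t) ha hK (by rwa [cls_range_neg])
    rwa [cls_range_neg] at h1

/-- an increasing union of intervals is contained in an interval -/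
theorem cls_union (e : ℕ → ℝ → C) (he : ∀ n, IsOpenEmbedding (e n))
    (hsub : ∀ n, range (e n) ⊆ range (e (n + 1))) :
    ∃ E : ℝ → C, Continuous E ∧ Injective E ∧ ∀ n, range (e n) ⊆ range E := by
  have hmono : Monotone (fun n => range (e n)) := monotone_nat_of_le_succ hsub
  set K : ℕ → Set C := fun n => ⋃ i ∈ Finset.range (n + 1), e i '' Icc (-(n : ℝ)) n with hK
  have hKc : ∀ n, IsCompact (K n) := fun n =>
    (Finset.range (n + 1)).isCompact_biUnion (fun i _ => isCompact_Icc.image (he i).continuous)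
  have hKs : ∀ n, K n ⊆ range (e n) := by
    intro n x hx
    simp only [hK, mem_iUnion] at hx
    obtain ⟨i, hi, t, -, rfl⟩ := hx
    exact hmono (Nat.lt_succ_iff.1 (Finset.mem_range.1 hi)) (mem_range_self t)
  have hstep : ∀ n, ∀ E : {E : ℝ → C // Continuous E ∧ Injective E ∧ range E ⊆ range (e n)},
      ∃ E' : {E : ℝ → C // Continuous E ∧ Injective E ∧ range E ⊆ range (e (n + 1))},
        EqOn E'.1 E.1 (Icc (-(n : ℝ)) n) ∧
        K (n + 1) ⊆ E'.1 '' Icc (-((n : ℝ) + 1)) ((n : ℝ) + 1) := by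
    rintro n ⟨E, hE1, hE2, hE3⟩
    obtain ⟨E', h1, h2, h3⟩ := cls_step hE1 hE2 (he (n + 1)) (hE3.trans (hsub n))
      (Nat.cast_nonneg n) (hKc (n + 1)) (hKs (n + 1))
    exact ⟨⟨E', h1⟩, h2, h3⟩
  choose F hF1 hF2 using hstep
  set S : (n : ℕ) → {E : ℝ → C // Continuous E ∧ Injective E ∧ range E ⊆ range (e n)} :=
    fun n => Nat.rec (motive := fun n =>
      {E : ℝ → C // Continuous E ∧ Injective E ∧ range E ⊆ range (e n)})
      ⟨e 0, (he 0).continuous, (he 0).injective, Subset.refl _⟩ (fun n E => F n E) n with hS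
  have hS1 : ∀ n, EqOn (S (n + 1)).1 (S n).1 (Icc (-(n : ℝ)) n) := fun n => hF1 n (S n)
  have hS2 : ∀ n, K (n + 1) ⊆ (S (n + 1)).1 '' Icc (-((n : ℝ) + 1)) ((n : ℝ) + 1) :=
    fun n => hF2 n (S n)
  have hS3 : ∀ (n m : ℕ) (_ : n ≤ m) (t : ℝ) (_ : |t| ≤ n), (S m).1 t = (S n).1 t := by
    intro n m hnm
    induction m, hnm using Nat.le_induction with
    | base => intro t _; rfl
    | succ m hm ih =>
      intro t ht
      rw [← ih t ht]
      apply hS1 m
      rw [mem_Icc, ← abs_le]
      exact ht.trans (by exact_mod_cast hm)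
  set E : ℝ → C := fun t => (S ⌈|t|⌉₊).1 t with hE
  have hES : ∀ (n : ℕ) (t : ℝ), |t| ≤ n → E t = (S n).1 t := by
    intro n t ht
    exact (hS3 _ n (Nat.ceil_le.2 ht) t (Nat.le_ceil _)).symm
  refine ⟨E, ?_, ?_, ?_⟩
  · rw [continuous_iff_continuousAt]
    intro t
    obtain ⟨n, hn⟩ := exists_nat_gt |t|
    refine ((S n).2.1.continuousAt (x := t)).congr ?_
    have h1 : ∀ᶠ s : ℝ in 𝓝 t, |s| < (n : ℝ) := (continuous_abs.tendsto t).eventually_lt_const hn
    filter_upwards [h1] with s hs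
    exact (hES n s hs.le).symm
  · intro s t hst
    obtain ⟨n, hn⟩ := exists_nat_gt (max |s| |t|)
    rw [hES n s ((le_max_left _ _).trans hn.le), hES n t ((le_max_right _ _).trans hn.le)] at hst
    exact (S n).2.2.1 hst
  · rintro i _ ⟨t, rfl⟩
    obtain ⟨n, hn⟩ := exists_nat_gt (max (i : ℝ) |t|)
    have h1 : e i t ∈ K (n + 1) := by
      simp only [hK, mem_iUnion]
      refine ⟨i, Finset.mem_range.2 ?_, t, ?_, rfl⟩
      · have : (i : ℝ) < n := (le_max_left _ _).trans_lt hn
        have : i < n := by exact_mod_cast this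
        omega
      · rw [mem_Icc, ← abs_le]
        push_cast
        have := (le_max_right (i : ℝ) |t|).trans hn.le
        linarith
    obtain ⟨s, hs, hst⟩ := hS2 n h1
    refine ⟨s, ?_⟩
    rw [hES (n + 1) s]
    · exact hst
    · push_cast
      exact abs_le.2 hs

/-- there is a maximal interval -/
theorem cls_exists_max [SecondCountableTopology C] [Nonempty C]
    (hC : ∀ x : C, ∃ e : ℝ → C, IsOpenEmbedding e ∧ x ∈ range e) :
    ∃ e : ℝ → C, IsOpenEmbedding e ∧
      ∀ E : ℝ → C, Continuous E → Injective E → range e ⊆ range E → range E ⊆ range e := by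
  obtain ⟨B, hBc, hBe, hB⟩ := TopologicalSpace.exists_countable_basis C
  obtain ⟨x0⟩ := ‹Nonempty C›
  obtain ⟨e0, he0, -⟩ := hC x0
  have hBn : B.Nonempty := by
    obtain ⟨O, hO, -⟩ := hB.exists_subset_of_mem_open (mem_univ x0) isOpen_univ
    exact ⟨O, hO⟩
  obtain ⟨O, hO⟩ := hBc.exists_eq_range hBn
  have hstep : ∀ (n : ℕ) (e : {e : ℝ → C // IsOpenEmbedding e}),
      ∃ e' : {e : ℝ → C // IsOpenEmbedding e}, range e.1 ⊆ range e'.1 ∧
        ((∃ e'' : {e : ℝ → C // IsOpenEmbedding e}, range e.1 ⊆ range e''.1 ∧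
          O n ⊆ range e''.1) → O n ⊆ range e'.1) := by
    intro n e
    by_cases h : ∃ e'' : {e : ℝ → C // IsOpenEmbedding e}, range e.1 ⊆ range e''.1 ∧
      O n ⊆ range e''.1
    · obtain ⟨e'', h1, h2⟩ := h
      exact ⟨e'', h1, fun _ => h2⟩
    · exact ⟨e, Subset.refl _, fun h1 => absurd h1 h⟩
  choose F hF1 hF2 using hstep
  set S : ℕ → {e : ℝ → C // IsOpenEmbedding e} :=
    fun n => Nat.rec (motive := fun _ => {e : ℝ → C // IsOpenEmbedding e}) ⟨e0, he0⟩
      (fun n e => F n e) n with hS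
  obtain ⟨E, hE1, hE2, hE3⟩ := cls_union (fun n => (S n).1) (fun n => (S n).2)
    (fun n => hF1 n (S n))
  refine ⟨E, cls_inv hC hE1 hE2, ?_⟩
  intro E' hE'1 hE'2 hsub x hx
  have hE'o := cls_inv hC hE'1 hE'2
  obtain ⟨V, hV, hxV, hVs⟩ := hB.exists_subset_of_mem_open hx hE'o.isOpen_range
  rw [hO] at hV
  obtain ⟨n, rfl⟩ := hV
  exact hE3 (n + 1) (hF2 n (S n) ⟨⟨E', hE'o⟩, (hE3 n).trans hsub, hVs⟩ hxV)

end cls

/-- the line as a punctured circle -/
theorem cls_addCircle : ∃ f : ℝ → AddCircle (1 : ℝ), IsEmbedding f ∧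
    range f = {((0 : ℝ) : AddCircle (1 : ℝ))}ᶜ := by
  have : Fact ((0 : ℝ) < 1) := ⟨zero_lt_one⟩
  set g : ℝ → ℝ := fun t => ((orderIsoIooNegOneOne ℝ t : ℝ) + 1) / 2 with hg
  set P := AddCircle.openPartialHomeomorphCoe (1 : ℝ) (0 : ℝ) with hP
  have hgr : ∀ t, g t ∈ Ioo (0 : ℝ) (0 + 1) := by
    intro t
    obtain ⟨h1, h2⟩ := (orderIsoIooNegOneOne ℝ t).2
    simp only [hg]
    constructor
    · linarith
    · linarith
  have hgs : ∀ r ∈ Ioo (0 : ℝ) (0 + 1), ∃ t, g t = r := by
    rintro r ⟨h1, h2⟩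
    refine ⟨(orderIsoIooNegOneOne ℝ).symm ⟨2 * r - 1, by linarith, by linarith⟩, ?_⟩
    simp only [hg]
    rw [OrderIso.apply_symm_apply]
    ring
  have hgc : Continuous g := by
    have h1 : Continuous (fun t => (orderIsoIooNegOneOne ℝ t : ℝ)) :=
      continuous_subtype_val.comp (orderIsoIooNegOneOne ℝ).continuous
    fun_prop
  have hgm : StrictMono g := by
    intro s t hst
    have h1 : (orderIsoIooNegOneOne ℝ s : ℝ) < orderIsoIooNegOneOne ℝ t :=
      (orderIsoIooNegOneOne ℝ).strictMono hst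
    simp only [hg]
    linarith
  have hgo : IsOpenMap g := by
    have h1 : IsEmbedding g := hgm.isEmbedding_of_ordConnected (by
      have : range g = Ioo (0 : ℝ) (0 + 1) := by
        ext r
        exact ⟨by rintro ⟨t, rfl⟩; exact hgr t, fun hr => hgs r hr⟩
      rw [this]
      exact ordConnected_Ioo)
    refine (IsOpenEmbedding.mk h1 ?_).isOpenMap
    have : range g = Ioo (0 : ℝ) (0 + 1) := by
      ext r
      exact ⟨by rintro ⟨t, rfl⟩; exact hgr t, fun hr => hgs r hr⟩
    rw [this]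
    exact isOpen_Ioo
  refine ⟨fun t => ((g t : ℝ) : AddCircle (1 : ℝ)), ?_, ?_⟩
  · refine (IsOpenEmbedding.of_continuous_injective_isOpenMap
      ((AddCircle.continuous_mk' (1 : ℝ)).comp hgc) ?_ ?_).isEmbedding
    · intro s t hst
      exact hgm.injective (P.injOn (hgr s) (hgr t) hst)
    · intro O hO
      have h5 : (fun t => ((g t : ℝ) : AddCircle (1 : ℝ))) '' O =
          (P : ℝ → AddCircle (1 : ℝ)) '' (g '' O) := by
        rw [image_image]
        rfl
      show IsOpen ((fun t => ((g t : ℝ) : AddCircle (1 : ℝ))) '' O)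
      rw [h5]
      refine P.isOpen_image_of_subset_source (hgo O hO) ?_
      rintro _ ⟨t, -, rfl⟩
      exact hgr t
  · ext x
    constructor
    · rintro ⟨t, rfl⟩
      exact P.map_source (hgr t)
    · intro hx
      obtain ⟨t, ht⟩ := hgs _ (P.map_target hx)
      refine ⟨t, ?_⟩
      show P (g t) = x
      rw [ht]
      exact P.right_inv hx

theorem classify (C : Type) [TopologicalSpace C] [T2Space C] [SecondCountableTopology C]
    [ConnectedSpace C] (hC : ∀ x : C, ∃ e : ℝ → C, IsOpenEmbedding e ∧ x ∈ range e) :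
    Nonempty (C ≃ₜ ℝ) ∨ Nonempty (C ≃ₜ AddCircle (1 : ℝ)) := by
  obtain ⟨e, he, hmax⟩ := cls_exists_max hC
  rcases cls_max hC he hmax with h | ⟨hc, x, hx⟩
  · left
    exact ⟨(he.isEmbedding.toHomeomorphOfSurjective (range_eq_univ.1 h)).symm⟩
  · right
    have : Fact ((0 : ℝ) < 1) := ⟨zero_lt_one⟩
    obtain ⟨f, hf, hfr⟩ := cls_addCircle
    exact ⟨(OnePoint.equivOfIsEmbeddingOfRangeEq x e he.isEmbedding hx).symm.trans
      (OnePoint.equivOfIsEmbeddingOfRangeEq _ f hf hfr)⟩

end Pool.Agent.H756.LS
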