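import Pool.Agent.H756.LS.Defs

set_option autoImplicit false

open Set Topology Function

namespace Pool.Agent.H756.LS

theorem dim_ne {N : Type} [TopologicalSpace N] (x : N) (e₁ : EuclideanSpace ℝ (Fin 1) → N)
    (h₁ : IsOpenEmbedding e₁) (hx₁ : x ∈ range e₁) (n : ℕ) (hn : 2 ≤ n)
    (e₂ : EuclideanSpace ℝ (Fin n) → N) (h₂ : IsOpenEmbedding e₂) (hx₂ : x ∈ range e₂) : False := by
  obtain ⟨c, rfl⟩ := hx₂
  -- the line
  let L : EuclideanSpace ℝ (Fin 1) ≃ₜ ℝ :=
    (EuclideanSpace.equiv (Fin 1) ℝ).toHomeomorph.trans (Homeomorph.funUnique (Fin 1) ℝ)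
  let e : ℝ → N := e₁ ∘ L.symm
  have he : IsOpenEmbedding e := h₁.comp L.symm.isOpenEmbedding
  have hre : range e = range e₁ := by
    simp [e, range_comp]
  have hxe : e₂ c ∈ range e := by rw [hre]; exact hx₁
  -- small ball
  obtain ⟨r, hr, hball⟩ := Metric.isOpen_iff.1 (he.isOpen_range.preimage h₂.continuous) c hxe
  -- punctured ball
  let P := OpenPartialHomeomorph.univBall (E := EuclideanSpace ℝ (Fin n)) c r
  have hPc : Continuous P := OpenPartialHomeomorph.continuous_univBall c r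
  have hPs : P.source = univ := OpenPartialHomeomorph.univBall_source c r
  have hPt : P.target = Metric.ball c r := OpenPartialHomeomorph.univBall_target c hr
  have hP0 : P 0 = c := OpenPartialHomeomorph.univBall_apply_zero c r
  have hPinj : Injective P := by
    intro a b hab
    exact P.injOn (by rw [hPs]; trivial) (by rw [hPs]; trivial) hab
  have hPr : range P = Metric.ball c r := by
    rw [← hPt, ← P.image_source_eq_target, hPs, image_univ]
  have hrank : 1 < Module.rank ℝ (EuclideanSpace ℝ (Fin n)) := by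
    rw [← Module.finrank_eq_rank]
    simp
    exact_mod_cast hn
  have hconn : IsPreconnected ({0}ᶜ : Set (EuclideanSpace ℝ (Fin n))) :=
    (isConnected_compl_singleton_of_one_lt_rank hrank 0).isPreconnected
  -- the map to the line
  have hmem : ∀ v, e₂ (P v) ∈ range e := fun v => hball (by rw [← hPr]; exact mem_range_self v)
  choose φ hφ using hmem
  have hφc : Continuous φ := by
    rw [he.isInducing.continuous_iff]
    have : e ∘ φ = e₂ ∘ P := funext hφ
    rw [this]
    exact h₂.continuous.comp hPc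
  have hφi : Injective φ := by
    intro a b hab
    have := hφ a
    rw [hab, hφ b] at this
    exact (hPinj (h₂.injective this)).symm
  have hopen : IsOpen (range φ) := by
    have : range φ = e ⁻¹' (e₂ '' Metric.ball c r) := by
      ext t
      constructor
      · rintro ⟨v, rfl⟩
        exact ⟨P v, by rw [← hPr]; exact mem_range_self v, (hφ v).symm⟩
      · rintro ⟨w, hw, hwt⟩
        rw [← hPr] at hw
        obtain ⟨v, rfl⟩ := hw
        exact ⟨v, he.injective ((hφ v).trans hwt)⟩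
    rw [this]
    exact (h₂.isOpenMap _ Metric.isOpen_ball).preimage he.continuous
  have himg : IsPreconnected (φ '' {0}ᶜ) := hconn.image φ hφc.continuousOn
  obtain ⟨δ, hδ, hδb⟩ := Metric.isOpen_iff.1 hopen (φ 0) (mem_range_self 0)
  have hin : ∀ s : ℝ, s ≠ φ 0 → dist s (φ 0) < δ → s ∈ φ '' {0}ᶜ := by
    intro s hs hd
    obtain ⟨v, rfl⟩ := hδb hd
    exact ⟨v, fun h => hs (by rw [h]), rfl⟩
  have h1 : φ 0 - δ / 2 ∈ φ '' {0}ᶜ := by
    refine hin _ (by linarith) ?_
    rw [Real.dist_eq, abs_lt]; constructor <;> linarith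
  have h2 : φ 0 + δ / 2 ∈ φ '' {0}ᶜ := by
    refine hin _ (by linarith) ?_
    rw [Real.dist_eq, abs_lt]; constructor <;> linarith
  have := himg.ordConnected.out h1 h2 (⟨by linarith, by linarith⟩ : φ 0 ∈ Icc _ _)
  obtain ⟨v, hv, hv2⟩ := this
  exact hv (hφi hv2)

theorem dim_closed {N : Type} [TopologicalSpace N] (hN : IsMfd N) (x : N)
    (h : x ∈ closure {y : N | ∃ n : ℕ, 2 ≤ n ∧ ∃ e : EuclideanSpace ℝ (Fin n) → N,
      IsOpenEmbedding e ∧ y ∈ range e}) :
    ∃ n : ℕ, 2 ≤ n ∧ ∃ e : EuclideanSpace ℝ (Fin n) → N, IsOpenEmbedding e ∧ x ∈ range e := by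
  obtain ⟨m, e, he, hx⟩ := hN.2.2 x
  obtain ⟨y, hy, n, hn, e', he', hy'⟩ := mem_closure_iff.1 h _ he.isOpen_range hx
  rcases Nat.lt_or_ge m 2 with hm | hm
  · interval_cases m
    · obtain ⟨a, rfl⟩ := hx
      obtain ⟨b, rfl⟩ := hy
      rw [Subsingleton.elim a b]
      exact ⟨n, hn, e', he', hy'⟩
    · exact (dim_ne y e he hy n hn e' he' hy').elim
  · exact ⟨m, hm, e, he, hx⟩

theorem dim_one_of {N : Type} [TopologicalSpace N] (hN : IsMfd N) (C : Set N)
    (hC : IsPreconnected C) (hiso : ∀ y ∈ C, ¬ IsOpen ({y} : Set N)) (x : N) (hx : x ∈ C)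
    (h : ∃ e : EuclideanSpace ℝ (Fin 1) → N, IsOpenEmbedding e ∧ x ∈ range e) :
    ∀ y ∈ C, ∃ e : EuclideanSpace ℝ (Fin 1) → N, IsOpenEmbedding e ∧ y ∈ range e := by
  intro y hy
  by_contra hcon
  let A : Set N := {y | ∃ e : EuclideanSpace ℝ (Fin 1) → N, IsOpenEmbedding e ∧ y ∈ range e}
  let B : Set N := {y | ∃ n : ℕ, 2 ≤ n ∧ ∃ e : EuclideanSpace ℝ (Fin n) → N,
      IsOpenEmbedding e ∧ y ∈ range e}
  have hA : IsOpen A := by
    rw [isOpen_iff_forall_mem_open]
    rintro z ⟨e, he, hz⟩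
    exact ⟨range e, fun w hw => ⟨e, he, hw⟩, he.isOpen_range, hz⟩
  have hB : IsOpen B := by
    rw [isOpen_iff_forall_mem_open]
    rintro z ⟨n, hn, e, he, hz⟩
    exact ⟨range e, fun w hw => ⟨n, hn, e, he, hw⟩, he.isOpen_range, hz⟩
  have hcov : ∀ z ∈ C, z ∈ A ∨ z ∈ B := by
    intro z hz
    obtain ⟨m, e, he, hze⟩ := hN.2.2 z
    rcases Nat.lt_or_ge m 2 with hm | hm
    · interval_cases m
      · exfalso
        apply hiso z hz
        obtain ⟨a, rfl⟩ := hze
        have : ({e a} : Set N) = range e := by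
          ext w
          constructor
          · rintro rfl; exact mem_range_self a
          · rintro ⟨b, rfl⟩; rw [Subsingleton.elim b a]; rfl
        rw [this]
        exact he.isOpen_range
      · exact Or.inl ⟨e, he, hze⟩
    · exact Or.inr ⟨m, hm, e, he, hze⟩
  have hyB : y ∈ B := (hcov y hy).resolve_left hcon
  obtain ⟨w, hw, ⟨e₁, he₁, hw₁⟩, n, hn, e₂, he₂, hw₂⟩ :=
    hC A B hA hB hcov ⟨x, hx, h⟩ ⟨y, hy, hyB⟩
  exact dim_ne w e₁ he₁ hw₁ n hn e₂ he₂ hw₂

end Pool.Agent.H756.LS
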