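import Pool.Agent.H756.LS.MfX

/-!
# The action of the level group on the flat part (task FLT)

* `locallyCompact`, `locallyConnected`: manifolds have these properties (charts).
* `isOpen_flat`: let `y ∈ flat f`, `B ∋ y` open with `f` constant on `B`. `exists_ball` gives an open
  `D ∋ y`, `D ⊆ B`, without isolated points; `D ⊆ flat f`.
* `lt_rst`: let `y ∈ flat f` and `B ∋ y` open in `flat f`; its image `B'` in `N` is open; let `B₁ ∋ y` be an
  open subset of `B'` on which `f` is constant, and `D` from `exists_ball` for `B₁`. A homeomorphism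
  supported in `D` belongs to the level group since `f` is constant on `D`.
* `p12_rst`: `B`, `y ∈ B`, `B₁` as before; `exists_flow` gives `g` supported in `B₁` (so in the level group)
  and `t, z` with `g t z ≠ z` (so `z ∈ B₁ ⊆ flat f`); take `γ = g (t/12)`, `γ ^ 12 = g t`.
-/

set_option autoImplicit false

open Set Topology Function

namespace Pool.Agent.H756.LS

theorem locallyCompact {N : Type} [TopologicalSpace N] (hN : IsMfd N) :
    LocallyCompactSpace N := by
  refine ⟨fun x U hU => ?_⟩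
  obtain ⟨n, e, he, v, rfl⟩ := hN.2.2 x
  have h1 : e ⁻¹' U ∈ 𝓝 v := he.continuous.continuousAt.preimage_mem_nhds hU
  obtain ⟨s, hs, hsU, hsc⟩ := local_compact_nhds h1
  exact ⟨e '' s, he.isOpenMap.image_mem_nhds hs, image_subset_iff.2 hsU, hsc.image he.continuous⟩

theorem locallyConnected {N : Type} [TopologicalSpace N] (hN : IsMfd N) :
    LocallyConnectedSpace N := by
  rw [locallyConnectedSpace_iff_subsets_isOpen_isConnected]
  intro x U hU
  obtain ⟨n, e, he, v, rfl⟩ := hN.2.2 x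
  have h1 : e ⁻¹' U ∈ 𝓝 v := he.continuous.continuousAt.preimage_mem_nhds hU
  obtain ⟨V, hV, hVo, hvV, hVc⟩ := locallyConnectedSpace_iff_subsets_isOpen_isConnected.1
    (inferInstance : LocallyConnectedSpace (EuclideanSpace ℝ (Fin n))) v _ h1
  exact ⟨e '' V, image_subset_iff.2 hV, he.isOpenMap V hVo, mem_image_of_mem e hvV,
    hVc.image e he.continuous.continuousOn⟩

theorem isOpen_flat {N : Type} [TopologicalSpace N] (hN : IsMfd N) (f : N → ℝ) :
    IsOpen (flat f) := by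
  rw [isOpen_iff_forall_mem_open]
  rintro y ⟨⟨B, hB, hyB, hc⟩, hiso⟩
  obtain ⟨D, hD, hyD, hDB, -, -, -, hDi, -⟩ := exists_ball hN y hiso B hB hyB
  refine ⟨D, fun z hz => ⟨⟨B, hB, hDB hz, fun w hw => ?_⟩, hDi z hz⟩, hD, hyD⟩
  rw [hc w hw, hc z (hDB hz)]

/-- a homeomorphism which is supported in a set on which `f` is constant -/
lemma flt_mem {N : Type} [TopologicalSpace N] {f : N → ℝ} {h : N ≃ₜ N} {D : Set N} {c : ℝ}
    (hh : Sup h D) (hD : ∀ z ∈ D, f z = c) : h ∈ levelGroup f := by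
  intro p
  by_cases hp : p ∈ D
  · have h1 : h p ∈ D := by
      by_contra h2
      have h3 := h.injective (hh _ h2)
      rw [h3] at h2
      exact h2 hp
    rw [hD p hp, hD _ h1]
  · rw [hh p hp]

/-- small neighbourhoods of a point of the flat part -/
lemma flt_nhd {N : Type} [TopologicalSpace N] (hN : IsMfd N) (f : N → ℝ) (x : flat f)
    (B : Set (flat f)) (hB : IsOpen B) (hx : x ∈ B) :
    ∃ B₁ : Set N, IsOpen B₁ ∧ x.1 ∈ B₁ ∧ B₁ ⊆ Subtype.val '' B ∧ ∀ z ∈ B₁, f z = f x.1 := by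
  obtain ⟨⟨B₀, hB₀, hxB, hc⟩, -⟩ := x.2
  refine ⟨Subtype.val '' B ∩ B₀, ((isOpen_flat hN f).isOpenMap_subtype_val B hB).inter hB₀,
    ⟨mem_image_of_mem _ hx, hxB⟩, inter_subset_left, fun z hz => hc z hz.2⟩

theorem lt_rst {N : Type} [TopologicalSpace N] (hN : IsMfd N) (f : N → ℝ) : LT (rst f) := by
  intro x B hB hx
  obtain ⟨B₁, hB₁, hxB₁, hBB, hc⟩ := flt_nhd hN f x B hB hx
  obtain ⟨D, hD, hxD, hDB, -, -, -, -, hmove⟩ := exists_ball hN x.1 x.2.2 B₁ hB₁ hxB₁
  have hsub : ∀ z : flat f, z.1 ∈ D → z ∈ B := by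
    intro z hz
    obtain ⟨w, hw, he⟩ := hBB (hDB hz)
    rwa [Subtype.ext he] at hw
  refine ⟨Subtype.val ⁻¹' D, hD.preimage continuous_subtype_val, hxD, hsub, fun y hy => ?_⟩
  obtain ⟨h, hsup, hxy⟩ := hmove y.1 hy
  refine ⟨⟨h, flt_mem hsup fun z hz => hc z (hDB hz)⟩, fun z hz => ?_, Subtype.ext hxy⟩
  exact Subtype.ext (hsup z.1 fun hzD => hz (hsub z hzD))

theorem p12_rst {N : Type} [TopologicalSpace N] (hN : IsMfd N) (f : N → ℝ) : P12 (rst f) := by
  rintro B hB ⟨x, hx⟩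
  obtain ⟨B₁, hB₁, hxB₁, hBB, hc⟩ := flt_nhd hN f x B hB hx
  obtain ⟨g, hadd, -, hsup, t, z, htz⟩ := exists_flow hN x.1 x.2.2 B₁ hB₁ hxB₁
  have hpow : ∀ (s : ℝ) (n : ℕ), g ((n + 1 : ℕ) * s) = g s ^ (n + 1) := by
    intro s n
    induction n with
    | zero => rw [zero_add, Nat.cast_one, one_mul, pow_one]
    | succ n ih =>
      rw [pow_succ, ← ih, ← hadd]
      congr 1
      push_cast
      ring
  have ht : g (t / 12) ^ 12 = g t := by
    have h1 := hpow (t / 12) 11
    rw [← h1]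
    congr 1
    push_cast
    ring
  have hzB : z ∈ B₁ := by
    by_contra h1
    exact htz (hsup t z h1)
  obtain ⟨w, hw, hwz⟩ := hBB hzB
  refine ⟨⟨g (t / 12), flt_mem (hsup _) hc⟩, fun y hy => ?_, fun h1 => ?_⟩
  · refine Subtype.ext (hsup _ y.1 fun hyB => hy ?_)
    obtain ⟨u, hu, he⟩ := hBB hyB
    rwa [Subtype.ext he] at hu
  · apply htz
    have h2 := congrArg (fun T : flat f ≃ₜ flat f => (T w : N)) h1
    have h3 : (g (t / 12) ^ 12 : N ≃ₜ N) w.1 = w.1 := h2
    rw [ht, hwz] at h3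
    exact h3

end Pool.Agent.H756.LS
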