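import Pool.Agent.H756.LS.Fix
import Pool.Agent.H756.LS.Flt
import Pool.Agent.H756.LS.Dim
import Pool.Agent.H756.LS.Cls

/-!
# A component with a wandering flat interval is a line (task CMP)

`S` is in the level group of `f` and maps the component `N₀` of `y₀` to itself; `J ⊆ N₀` is an open set, a maximal connected
subset of the flat part in the sense of `hmax`, moved off itself by all `S^k`, `k ≥ 1`; `N` has dimension one at `y₀`.

Paper proof. `N₀ = connectedComponent y₀` is clopen (`locallyConnected`), connected, contains the infinite set...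
its points are not isolated in `N` (otherwise `N₀` would be a single point, but `y₀` has a chart of dimension one), so by
`dim_one_of` every point of `N₀` has a chart of dimension one, whose range is contained in `N₀`;
by `classify` (for the subtype `N₀`; `ℝ ≃ₜ EuclideanSpace ℝ (Fin 1)`) there is a homeomorphism `u` of `N₀` with `ℝ` or with the circle
`AddCircle 1`. `S` restricts to a homeomorphism of `N₀` (`S '' N₀ = N₀`, since `S y₀ ∈ N₀`). Transport: `f' = f ∘ u⁻¹`, `S' = u S u⁻¹`,
`J' = u '' J` on `ℝ` (or the circle). `S'^k J'` is disjoint from `J'`. The maximality hypothesis of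
`line_fix` / `circle_case`: a preconnected set meeting `J'` at whose points `f'` is locally constant
corresponds to a preconnected subset of `N₀` (open in `N`, no isolated points) contained in `flat f` and
meeting `J`. So `circle_case` excludes the circle, and for the line `line_fix` says that `S` has no fixed point in `N₀`.
-/

set_option autoImplicit false

open Set Topology Function

namespace Pool.Agent.H756.LS

namespace CmpAux

/-- `ℝ` is homeomorphic to the Euclidean line. -/
noncomputable def lineHomeo : ℝ ≃ₜ EuclideanSpace ℝ (Fin 1) :=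
  (Homeomorph.funUnique (Fin 1) ℝ).symm.trans
    (EuclideanSpace.equiv (Fin 1) ℝ).toHomeomorph.symm

/-- The points of a component which contains a point with a chart of dimension one are not
isolated. -/
lemma not_isolated {N : Type} [TopologicalSpace N] [T2Space N] (y₀ : N)
    (h1 : ∃ e : EuclideanSpace ℝ (Fin 1) → N, IsOpenEmbedding e ∧ y₀ ∈ range e) :
    ∀ y ∈ connectedComponent y₀, ¬ IsOpen ({y} : Set N) := by
  intro y hy ho
  have hcl : IsClopen ({y} : Set N) := ⟨isClosed_singleton, ho⟩
  have hsub : connectedComponent y₀ ⊆ {y} :=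
    isPreconnected_connectedComponent.subset_isClopen hcl ⟨y, hy, rfl⟩
  have hy0 : y₀ = y := hsub mem_connectedComponent
  subst hy0
  obtain ⟨e, he, v, hv⟩ := h1
  have h2 : IsOpen (e ⁻¹' ({y₀} : Set N)) := ho.preimage he.continuous
  have h3 : e ⁻¹' ({y₀} : Set N) = {v} := by
    ext w
    constructor
    · intro hw
      have hw' : e w = y₀ := hw
      exact he.injective (hw'.trans hv.symm)
    · intro hw
      have hw' : w = v := hw
      show e w = y₀
      rw [hw']; exact hv
  rw [h3] at h2
  have h4 : IsOpen (lineHomeo ⁻¹' ({v} : Set (EuclideanSpace ℝ (Fin 1)))) :=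
    h2.preimage lineHomeo.continuous
  have h5 : lineHomeo ⁻¹' ({v} : Set (EuclideanSpace ℝ (Fin 1))) = {lineHomeo.symm v} := by
    ext w
    constructor
    · intro hw
      have hw' : lineHomeo w = v := hw
      show w = lineHomeo.symm v
      rw [← hw', Homeomorph.symm_apply_apply]
    · intro hw
      have hw' : w = lineHomeo.symm v := hw
      show lineHomeo w = v
      rw [hw', Homeomorph.apply_symm_apply]
  rw [h5] at h4
  exact not_isOpen_singleton (lineHomeo.symm v) h4

/-- Charts of the component by the line. -/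
lemma charts {N : Type} [TopologicalSpace N] (hN : IsMfd N) (y₀ : N)
    (h1 : ∃ e : EuclideanSpace ℝ (Fin 1) → N, IsOpenEmbedding e ∧ y₀ ∈ range e)
    (hiso : ∀ y ∈ connectedComponent y₀, ¬ IsOpen ({y} : Set N)) :
    ∀ x : connectedComponent y₀, ∃ e : ℝ → connectedComponent y₀,
      IsOpenEmbedding e ∧ x ∈ range e := by
  intro x
  obtain ⟨e, he, v, hv⟩ := dim_one_of hN (connectedComponent y₀)
    isPreconnected_connectedComponent hiso y₀ mem_connectedComponent h1 x.1 x.2
  have hsub : range e ⊆ connectedComponent y₀ := by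
    have h2 : IsPreconnected (range e) := by
      rw [← image_univ]
      exact isPreconnected_univ.image e he.continuous.continuousOn
    have h3 := h2.subset_connectedComponent (x := x.1) ⟨v, hv⟩
    rw [connectedComponent_eq x.2]
    exact h3
  refine ⟨fun t => ⟨e (lineHomeo t), hsub ⟨lineHomeo t, rfl⟩⟩, ?_, ?_⟩
  · have h4 : IsOpenEmbedding (fun t => e (lineHomeo t)) :=
      he.comp lineHomeo.isOpenEmbedding
    have h5 : IsEmbedding (fun t => (⟨e (lineHomeo t), hsub ⟨lineHomeo t, rfl⟩⟩ :
        connectedComponent y₀)) := by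
      apply IsEmbedding.of_comp (g := Subtype.val)
      · exact h4.continuous.subtype_mk _
      · exact continuous_subtype_val
      · exact h4.isEmbedding
    refine ⟨h5, ?_⟩
    have h6 : range (fun t => (⟨e (lineHomeo t), hsub ⟨lineHomeo t, rfl⟩⟩ :
        connectedComponent y₀)) = Subtype.val ⁻¹' (range (fun t => e (lineHomeo t))) := by
      ext z
      constructor
      · rintro ⟨t, rfl⟩
        exact ⟨t, rfl⟩
      · rintro ⟨t, ht⟩
        exact ⟨t, Subtype.ext ht⟩
    rw [h6]
    exact h4.isOpen_range.preimage continuous_subtype_val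
  · refine ⟨lineHomeo.symm v, ?_⟩
    apply Subtype.ext
    show e (lineHomeo (lineHomeo.symm v)) = x.1
    rw [Homeomorph.apply_symm_apply]
    exact hv

/-- Transport of the situation to a space homeomorphic with the component. -/
lemma transfer {N Y : Type} [TopologicalSpace N] [TopologicalSpace Y] (f : N → ℝ)
    (hf : Continuous f) (S : N ≃ₜ N) (hS : S ∈ levelGroup f) (C : Set N) (hCo : IsOpen C)
    (hSC : ∀ z, z ∈ C ↔ S z ∈ C) (hiso : ∀ y ∈ C, ¬ IsOpen ({y} : Set N))
    (J : Set N) (hJ : IsOpen J) (hne : J.Nonempty) (hJc : J ⊆ C)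
    (hdis : ∀ k : ℕ, 1 ≤ k → Disjoint ((S ^ k) '' J) J)
    (hmax : ∀ J' : Set N, IsPreconnected J' → (J ∩ J').Nonempty → J' ⊆ flat f → J' ⊆ J)
    (u : C ≃ₜ Y) :
    ∃ (f' : Y → ℝ) (S' : Y ≃ₜ Y) (J' : Set Y), Continuous f' ∧ (∀ y, f' (S' y) = f' y) ∧
      IsOpen J' ∧ J'.Nonempty ∧ (∀ k : ℕ, 1 ≤ k → Disjoint ((S' ^ k) '' J') J') ∧
      (∀ K : Set Y, IsPreconnected K → (J' ∩ K).Nonempty →
        (∀ y ∈ K, ∃ B : Set Y, IsOpen B ∧ y ∈ B ∧ ∀ z ∈ B, f' z = f' y) → K ⊆ J') ∧
      (∀ z ∈ C, S z = z → ∃ y, S' y = y) := by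
  have hSk : ∀ (k : ℕ) (z : N), z ∈ C → (S ^ k) z ∈ C := by
    intro k
    induction k with
    | zero => intro z hz; exact hz
    | succ k ih =>
      intro z hz
      rw [pow_succ]
      show (S ^ k) (S z) ∈ C
      exact ih _ ((hSC z).mp hz)
  set SC : C ≃ₜ C := S.subtype hSC with hSCdef
  have hSCv : ∀ c : C, ((SC c : C) : N) = S c.1 := fun c => rfl
  set S' : Y ≃ₜ Y := u.symm.trans (SC.trans u) with hS'
  have hS'v : ∀ y, (u.symm (S' y)).1 = S (u.symm y).1 := by
    intro y
    have h1 : S' y = u (SC (u.symm y)) := rfl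
    rw [h1, Homeomorph.symm_apply_apply]
    exact hSCv _
  have hS'k : ∀ (k : ℕ) (y : Y), (u.symm ((S' ^ k) y)).1 = (S ^ k) (u.symm y).1 := by
    intro k
    induction k with
    | zero => intro y; rfl
    | succ k ih =>
      intro y
      have h1 : (S' ^ (k + 1)) y = (S' ^ k) (S' y) := by rw [pow_succ]; rfl
      have h2 : (S ^ (k + 1)) (u.symm y).1 = (S ^ k) (S (u.symm y).1) := by rw [pow_succ]; rfl
      rw [h1, h2, ih, hS'v]
  have hvc : Continuous (fun y : Y => (u.symm y).1) :=
    continuous_subtype_val.comp u.symm.continuous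
  have hvo : IsOpenMap (fun y : Y => (u.symm y).1) :=
    hCo.isOpenMap_subtype_val.comp u.symm.isOpenMap
  refine ⟨fun y => f (u.symm y).1, S', {y | (u.symm y).1 ∈ J}, hf.comp hvc, ?_,
    hJ.preimage hvc, ?_, ?_, ?_, ?_⟩
  · intro y
    show f (u.symm (S' y)).1 = f (u.symm y).1
    rw [hS'v, hS]
  · obtain ⟨z, hz⟩ := hne
    refine ⟨u ⟨z, hJc hz⟩, ?_⟩
    show (u.symm (u ⟨z, hJc hz⟩)).1 ∈ J
    rw [Homeomorph.symm_apply_apply]
    exact hz
  · intro k hk
    rw [Set.disjoint_left]
    rintro _ ⟨y, hy, rfl⟩ hy2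
    have h3 : (S ^ k) (u.symm y).1 ∈ J := by
      rw [← hS'k]
      exact hy2
    exact Set.disjoint_left.mp (hdis k hk) ⟨_, hy, rfl⟩ h3
  · intro K hK hKJ hKc y hy
    have h1 : (fun y : Y => (u.symm y).1) '' K ⊆ J := by
      apply hmax
      · exact hK.image _ hvc.continuousOn
      · obtain ⟨w, hw1, hw2⟩ := hKJ
        exact ⟨(u.symm w).1, hw1, ⟨w, hw2, rfl⟩⟩
      · rintro _ ⟨w, hw, rfl⟩
        obtain ⟨B, hB, hwB, hBc⟩ := hKc w hw
        refine ⟨⟨(fun y : Y => (u.symm y).1) '' B, hvo B hB, ⟨w, hwB, rfl⟩, ?_⟩,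
          hiso _ (u.symm w).2⟩
        rintro _ ⟨v, hv, rfl⟩
        exact hBc v hv
    exact h1 ⟨y, hy, rfl⟩
  · intro z hz hzS
    refine ⟨u ⟨z, hz⟩, ?_⟩
    apply u.symm.injective
    apply Subtype.ext
    rw [hS'v, Homeomorph.symm_apply_apply]
    exact hzS

end CmpAux

theorem comp_case {N : Type} [TopologicalSpace N] (hN : IsMfd N) (f : N → ℝ)
    (hf : Continuous f) (S : N ≃ₜ N) (hS : S ∈ levelGroup f) (y₀ : N)
    (hcc : connectedComponent (S y₀) = connectedComponent y₀)
    (h1 : ∃ e : EuclideanSpace ℝ (Fin 1) → N, IsOpenEmbedding e ∧ y₀ ∈ range e)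
    (J : Set N) (hJ : IsOpen J) (hy₀ : y₀ ∈ J) (hJc : J ⊆ connectedComponent y₀)
    (hdis : ∀ k : ℕ, 1 ≤ k → Disjoint ((S ^ k) '' J) J)
    (hmax : ∀ J' : Set N, IsPreconnected J' → (J ∩ J').Nonempty → J' ⊆ flat f → J' ⊆ J) :
    Nonempty (connectedComponent y₀ ≃ₜ ℝ) ∧ ∀ z ∈ connectedComponent y₀, S z ≠ z := by
  have hT2 : T2Space N := hN.1
  have hSC2 : SecondCountableTopology N := hN.2.1
  have hLC : LocallyConnectedSpace N := locallyConnected hN
  have hCo : IsOpen (connectedComponent y₀) := isOpen_connectedComponent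
  have hiso := CmpAux.not_isolated y₀ h1
  have hmap : ∀ z, z ∈ connectedComponent y₀ ↔ S z ∈ connectedComponent y₀ := by
    intro z
    constructor
    · intro hz
      have h2 := S.continuous.image_connectedComponent_subset y₀ (mem_image_of_mem S hz)
      rw [hcc] at h2
      exact h2
    · intro hz
      rw [← hcc] at hz
      have h2 := S.symm.continuous.image_connectedComponent_subset (S y₀)
        (mem_image_of_mem S.symm hz)
      rw [S.symm_apply_apply, S.symm_apply_apply] at h2
      exact h2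
  have hconn : ConnectedSpace (connectedComponent y₀) :=
    Subtype.connectedSpace isConnected_connectedComponent
  rcases classify (connectedComponent y₀) (CmpAux.charts hN y₀ h1 hiso) with ⟨⟨u⟩⟩ | ⟨⟨u⟩⟩
  · refine ⟨⟨u⟩, ?_⟩
    obtain ⟨f', S', J', hf', hfS', hJ', hne', hdis', hmax', hfix⟩ :=
      CmpAux.transfer f hf S hS (connectedComponent y₀) hCo hmap hiso J hJ ⟨y₀, hy₀⟩ hJc hdis
        hmax u
    intro z hz hzS
    obtain ⟨y, hy⟩ := hfix z hz hzS
    exact line_fix f' hf' S' hfS' J' hJ' hne' hdis' hmax' y hy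
  · exfalso
    obtain ⟨f', S', J', hf', hfS', hJ', hne', hdis', hmax', hfix⟩ :=
      CmpAux.transfer f hf S hS (connectedComponent y₀) hCo hmap hiso J hJ ⟨y₀, hy₀⟩ hJc hdis
        hmax u
    exact circle_case f' hf' S' hfS' J' hJ' hne' hdis' hmax'

end Pool.Agent.H756.LS
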