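import Pool.Agent.H756.LS.Cmt1

/-!
# Rubin's disjointness lemma (task COM2)

`Γ` acts faithfully on the Hausdorff spaces `X` (by `ρ`) and `Y` (by `σ`), both actions satisfy `P12`.
If `ρ a`, `ρ b` have disjoint supports then `σ a` and `σ (b^12)` have disjoint sets of moved points.

Paper proof. Suppose `σ a y ≠ y` and `σ (b^12) y ≠ y`.
1. (`a` is algebraically disjoint from `b`.) For all `h : Γ` with `a h ≠ h a` there are `f₁ f₂ : Γ`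
   commuting with `b` such that `w = [f₁, [f₂, h]]` is not `1` and commutes with `b`
   (`[p,q] = p q p⁻¹ q⁻¹`). Indeed `ρ h` does not fix `A` pointwise (otherwise `ρ h`, which then
   preserves `A` and its complement, commutes with `ρ a`, supported in `A`; `ρ` is injective). So
   there is an open nonempty `V ⊆ A` with `h V ∩ V = ∅`. Take `f₁, f₂` supported in `V` with
   `ρ (f₁ f₂) ≠ ρ (f₂ f₁)` (`exists_noncomm`). `h f₂⁻¹ h⁻¹` is supported in `h V`, so it commutes with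
   `f₁, f₂`, hence `w = [f₁, f₂ (h f₂⁻¹ h⁻¹)] = [f₁, f₂] ≠ 1`, supported in `V ⊆ A`; elements supported
   in `A` commute with `b` because `ρ b` is supported in `B` and `A, B` are disjoint.
2. Write `α = σ a`, `β = σ b`. The points `y, β y, …, β⁴ y` are distinct: otherwise `β^d y = y` for
   some `d ∈ {1,2,3,4}`, and `d ∣ 12`. Choose an open `U ∋ y` with `α U ∩ U = ∅` and
   `β^i U` (`i = 0..4`) pairwise disjoint. By `P12 σ` there is `h` with `σ h` supported in `U`,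
   `σ h ≠ 1`. Then `a h ≠ h a` as `α σ(h) α⁻¹` is supported in `α U`. Take `f₁, f₂, w` from step 1. The
   moved points of `σ w` lie in `U ∪ f₁ U ∪ f₂ U ∪ f₁ f₂ U` (four sets). `σ w` moves some `u`, and
   as `w` commutes with `b` it moves `β^i u` for `i = 0..4`. By the pigeonhole principle there are
   `i < j ≤ 4` and `g ∈ {1, f₁, f₂, f₁ f₂}` with `β^i u, β^j u ∈ g U`. `g` commutes with `b`, so
   `v = g⁻¹ u` satisfies `β^i v ∈ U`, `β^j v ∈ U`, hence `β⁴ v ∈ β^(4-i) U ∩ β^(4-j) U = ∅`.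
-/

set_option autoImplicit false

open Set Topology Function

namespace Pool.Agent.H756.LS

section tools

variable {X : Type} [TopologicalSpace X] {Γ : Type} [Group Γ]

lemma c2_mem {S : X ≃ₜ X} {A : Set X} (h : Sup S A) {x : X} (hx : x ∈ A) : S x ∈ A := by
  by_contra hn
  have h1 := h _ hn
  have h2 : S x = x := S.injective h1
  rw [h2] at hn
  exact hn hx

lemma c2_mono {S : X ≃ₜ X} {A B : Set X} (h : Sup S A) (hAB : A ⊆ B) : Sup S B :=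
  fun x hx => h x fun hxA => hx (hAB hxA)

lemma c2_comm {S T : X ≃ₜ X} {A B : Set X} (hS : Sup S A) (hT : Sup T B) (hAB : Disjoint A B) :
    S * T = T * S := by
  ext x
  change S (T x) = T (S x)
  by_cases hx : x ∈ A
  · have h1 : x ∉ B := fun h => Set.disjoint_left.1 hAB hx h
    have h2 : S x ∉ B := fun h => Set.disjoint_left.1 hAB (c2_mem hS hx) h
    rw [hT x h1, hT _ h2]
  · rw [hS x hx]
    by_cases hxB : x ∈ B
    · have h2 : T x ∉ A := fun h => Set.disjoint_left.1 hAB h (c2_mem hT hxB)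
      rw [hS _ h2]
    · rw [hT x hxB, hS x hx]

lemma c2_mul (ρ : Γ →* (X ≃ₜ X)) (g h : Γ) (x : X) : ρ (g * h) x = ρ g (ρ h x) := by
  rw [map_mul]; rfl

lemma c2_one (ρ : Γ →* (X ≃ₜ X)) (x : X) : ρ 1 x = x := by
  rw [map_one]; rfl

lemma c2_inv (ρ : Γ →* (X ≃ₜ X)) (g : Γ) (x : X) : ρ g⁻¹ (ρ g x) = x := by
  rw [← c2_mul, inv_mul_cancel, c2_one]

lemma c2_inv' (ρ : Γ →* (X ≃ₜ X)) (g : Γ) (x : X) : ρ g (ρ g⁻¹ x) = x := by
  rw [← c2_mul, mul_inv_cancel, c2_one]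

lemma c2_supinv (ρ : Γ →* (X ≃ₜ X)) {g : Γ} {A : Set X} (h : Sup (ρ g) A) : Sup (ρ g⁻¹) A := by
  intro x hx
  have h1 := c2_inv ρ g x
  rw [h x hx] at h1
  exact h1

lemma c2_conj (ρ : Γ →* (X ≃ₜ X)) {g : Γ} {A : Set X} (h : Sup (ρ g) A) (k : Γ) :
    Sup (ρ (k * g * k⁻¹)) (ρ k '' A) := by
  intro x hx
  rw [c2_mul, c2_mul, h, c2_inv']
  intro h1
  exact hx ⟨_, h1, c2_inv' ρ k x⟩

lemma c2_gcomm (ρ : Γ →* (X ≃ₜ X)) (hρ : Injective ρ) {g h : Γ} {A B : Set X}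
    (hg : Sup (ρ g) A) (hh : Sup (ρ h) B) (hAB : Disjoint A B) : g * h = h * g := by
  apply hρ
  rw [map_mul, map_mul]
  exact c2_comm hg hh hAB

/-- a small neighbourhood of a moved point -/
lemma c2_nhd [T2Space X] (S : X ≃ₜ X) {x : X} (hx : S x ≠ x) :
    ∃ V : Set X, IsOpen V ∧ x ∈ V ∧ ∀ z ∈ V, S z ∉ V := by
  obtain ⟨U₁, U₂, h1, h2, h3, h4, h5⟩ := t2_separation hx
  refine ⟨U₂ ∩ S ⁻¹' U₁, h2.inter (h1.preimage S.continuous), ⟨h4, h3⟩, ?_⟩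
  rintro z ⟨-, hz⟩ ⟨hz2, -⟩
  exact Set.disjoint_left.1 h5 hz hz2

end tools

/-- step 1: `a` is algebraically disjoint from `b` -/
lemma c2_alg {X : Type} [TopologicalSpace X] [T2Space X] {Γ : Type} [Group Γ]
    (ρ : Γ →* (X ≃ₜ X)) (hρ : Injective ρ) (hP : P12 ρ) {A B : Set X} (hA : IsOpen A)
    (hAB : Disjoint A B) (a b : Γ) (ha : Sup (ρ a) A) (hb : Sup (ρ b) B) (h : Γ)
    (hah : a * h ≠ h * a) :
    ∃ f₁ f₂ : Γ, f₁ * b = b * f₁ ∧ f₂ * b = b * f₂ ∧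
      (f₁ * f₂ * h * (f₁ * f₂)⁻¹) * (f₁ * h⁻¹ * f₁⁻¹) * h * (f₂ * h⁻¹ * f₂⁻¹) ≠ 1 ∧
      ((f₁ * f₂ * h * (f₁ * f₂)⁻¹) * (f₁ * h⁻¹ * f₁⁻¹) * h * (f₂ * h⁻¹ * f₂⁻¹)) * b =
        b * ((f₁ * f₂ * h * (f₁ * f₂)⁻¹) * (f₁ * h⁻¹ * f₁⁻¹) * h * (f₂ * h⁻¹ * f₂⁻¹)) := by
  have hmv : ∃ x ∈ A, ρ h x ≠ x := by
    by_contra hcon
    push Not at hcon
    apply hah
    refine c2_gcomm ρ hρ ha (B := Aᶜ) ?_ disjoint_compl_right
    intro x hx
    exact hcon x (by simpa using hx)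
  obtain ⟨x, hxA, hx⟩ := hmv
  obtain ⟨V', hV', hxV', hVV'⟩ := c2_nhd (ρ h) hx
  obtain ⟨f₁, f₂, hf₁, hf₂, hne⟩ := exists_noncomm ρ hP (hV'.inter hA) ⟨x, hxV', hxA⟩
  have hsub : V' ∩ A ⊆ A := inter_subset_right
  have c₁ : f₁ * b = b * f₁ := c2_gcomm ρ hρ (c2_mono hf₁ hsub) hb hAB
  have c₂ : f₂ * b = b * f₂ := c2_gcomm ρ hρ (c2_mono hf₂ hsub) hb hAB
  have hdis : Disjoint (ρ h '' (V' ∩ A)) (V' ∩ A) := by
    rw [Set.disjoint_left]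
    rintro _ ⟨z, hz, rfl⟩ hz2
    exact hVV' z hz.1 hz2.1
  obtain ⟨k, hk⟩ : ∃ k : Γ, k = h * f₂⁻¹ * h⁻¹ := ⟨_, rfl⟩
  have hks : Sup (ρ k) (ρ h '' (V' ∩ A)) := by
    rw [hk]; exact c2_conj ρ (c2_supinv ρ hf₂) h
  have k1 : k * f₁ = f₁ * k := c2_gcomm ρ hρ hks hf₁ hdis
  have k2 : k * f₂ = f₂ * k := c2_gcomm ρ hρ hks hf₂ hdis
  have hw : (f₁ * f₂ * h * (f₁ * f₂)⁻¹) * (f₁ * h⁻¹ * f₁⁻¹) * h * (f₂ * h⁻¹ * f₂⁻¹) =
      f₁ * f₂ * f₁⁻¹ * f₂⁻¹ := by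
    have e1 : (f₁ * f₂ * h * (f₁ * f₂)⁻¹) * (f₁ * h⁻¹ * f₁⁻¹) * h * (f₂ * h⁻¹ * f₂⁻¹) =
        f₁ * f₂ * k * f₁⁻¹ * k⁻¹ * f₂⁻¹ := by
      rw [hk]; group
    have e2 : k * f₁⁻¹ * k⁻¹ = f₁⁻¹ := by
      have e3 : k * f₁⁻¹ = f₁⁻¹ * k := by
        have e4 : f₁ * (k * f₁⁻¹) = f₁ * (f₁⁻¹ * k) := by
          rw [← mul_assoc, ← k1, ← mul_assoc, mul_inv_cancel, one_mul, mul_assoc, mul_inv_cancel,
            mul_one]
        exact mul_left_cancel e4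
      rw [e3, mul_assoc, mul_inv_cancel, mul_one]
    rw [e1]
    calc f₁ * f₂ * k * f₁⁻¹ * k⁻¹ * f₂⁻¹ = f₁ * f₂ * (k * f₁⁻¹ * k⁻¹) * f₂⁻¹ := by group
      _ = f₁ * f₂ * f₁⁻¹ * f₂⁻¹ := by rw [e2]
  refine ⟨f₁, f₂, c₁, c₂, ?_, ?_⟩
  · rw [hw]
    intro h1
    apply hne
    congr 1
    have h2 : f₁ * f₂ * f₁⁻¹ * f₂⁻¹ * (f₂ * f₁) = f₂ * f₁ := by rw [h1, one_mul]
    rw [← h2]
    group
  · rw [hw]
    have s1 : Commute f₁ b := c₁
    have s2 : Commute f₂ b := c₂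
    exact ((s1.mul_left s2).mul_left s1.inv_left).mul_left s2.inv_left

theorem disj12 {X Y : Type} [TopologicalSpace X] [T2Space X] [TopologicalSpace Y] [T2Space Y]
    {Γ : Type} [Group Γ] (ρ : Γ →* (X ≃ₜ X)) (σ : Γ →* (Y ≃ₜ Y)) (hρ : Injective ρ)
    (hσ : Injective σ) (hP : P12 ρ) (hQ : P12 σ) {A B : Set X} (hA : IsOpen A) (hB : IsOpen B)
    (hAB : Disjoint A B) (a b : Γ) (ha : Sup (ρ a) A) (hb : Sup (ρ b) B) (y : Y) :
    σ a y = y ∨ σ (b ^ 12) y = y := by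
  by_contra hcon
  push Not at hcon
  obtain ⟨hya, hyb⟩ := hcon
  -- the powers of `b`
  have hpow : ∀ d, d ∣ 12 → σ (b ^ d) y ≠ y := by
    rintro d ⟨m, hm⟩ hd
    apply hyb
    rw [hm, pow_mul]
    have : ∀ j : ℕ, σ ((b ^ d) ^ j) y = y := by
      intro j
      induction j with
      | zero => rw [pow_zero, c2_one]
      | succ j ih => rw [pow_succ, c2_mul, hd, ih]
    exact this m
  obtain ⟨U₀, o₀, m₀, n₀⟩ := c2_nhd (σ a) hya
  obtain ⟨U₁, o₁, m₁, n₁⟩ := c2_nhd (σ (b ^ 1)) (hpow 1 (by norm_num))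
  obtain ⟨U₂, o₂, m₂, n₂⟩ := c2_nhd (σ (b ^ 2)) (hpow 2 (by norm_num))
  obtain ⟨U₃, o₃, m₃, n₃⟩ := c2_nhd (σ (b ^ 3)) (hpow 3 (by norm_num))
  obtain ⟨U₄, o₄, m₄, n₄⟩ := c2_nhd (σ (b ^ 4)) (hpow 4 (by norm_num))
  obtain ⟨U, hU⟩ : ∃ U : Set Y, U = U₀ ∩ (U₁ ∩ (U₂ ∩ (U₃ ∩ U₄))) := ⟨_, rfl⟩
  have oU : IsOpen U := by rw [hU]; exact o₀.inter (o₁.inter (o₂.inter (o₃.inter o₄)))
  have mU : y ∈ U := by rw [hU]; exact ⟨m₀, m₁, m₂, m₃, m₄⟩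
  have nU : ∀ z ∈ U, σ a z ∉ U := by
    intro z hz hz2
    rw [hU] at hz hz2
    exact n₀ z hz.1 hz2.1
  have dU : ∀ d : ℕ, 1 ≤ d → d ≤ 4 → ∀ z ∈ U, σ (b ^ d) z ∉ U := by
    intro d h1 h4 z hz hz2
    rw [hU] at hz hz2
    interval_cases d
    · exact n₁ z hz.2.1 hz2.2.1
    · exact n₂ z hz.2.2.1 hz2.2.2.1
    · exact n₃ z hz.2.2.2.1 hz2.2.2.2.1
    · exact n₄ z hz.2.2.2.2 hz2.2.2.2.2
  obtain ⟨h, hsup, hne⟩ := hQ U oU ⟨y, mU⟩
  have hh1 : σ h ≠ 1 := by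
    intro h1
    apply hne
    rw [map_pow, h1, one_pow]
  have hmv : ∃ z, σ h z ≠ z := by
    by_contra hcon
    push Not at hcon
    apply hh1
    ext z
    exact hcon z
  obtain ⟨z, hz⟩ := hmv
  have hzU : z ∈ U := by
    by_contra hzU
    exact hz (hsup z hzU)
  have hah : a * h ≠ h * a := by
    intro h1
    have h2 : σ a (σ h z) = σ h (σ a z) := by rw [← c2_mul, ← c2_mul, h1]
    rw [hsup _ (nU z hzU)] at h2
    exact hz ((σ a).injective h2)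
  obtain ⟨f₁, f₂, c₁, c₂, hw1, hwb⟩ := c2_alg ρ hρ hP hA hAB a b ha hb h hah
  obtain ⟨w, hw⟩ : ∃ w : Γ, w =
    (f₁ * f₂ * h * (f₁ * f₂)⁻¹) * (f₁ * h⁻¹ * f₁⁻¹) * h * (f₂ * h⁻¹ * f₂⁻¹) := ⟨_, rfl⟩
  rw [← hw] at hw1 hwb
  let G : Fin 4 → Γ := ![1, f₁, f₂, f₁ * f₂]
  have s1 : Commute f₁ b := c₁
  have s2 : Commute f₂ b := c₂
  have hG : ∀ i, Commute (G i) b := by
    intro i
    fin_cases i
    · exact Commute.one_left b
    · exact s1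
    · exact s2
    · exact s1.mul_left s2
  have hcov : ∀ p : Y, σ w p ≠ p → ∃ i, p ∈ σ (G i) '' U := by
    intro p hp
    by_contra hcon
    push Not at hcon
    apply hp
    have q0 : p ∉ U := by
      intro hpU
      exact hcon 0 ⟨p, hpU, c2_one σ p⟩
    have q1 : p ∉ σ f₁ '' U := hcon 1
    have q2 : p ∉ σ f₂ '' U := hcon 2
    have q3 : p ∉ σ (f₁ * f₂) '' U := hcon 3
    have hsi := c2_supinv σ hsup
    have t2 := c2_conj σ hsi f₂ p q2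
    have t1 := c2_conj σ hsi f₁ p q1
    have t3 := c2_conj σ hsup (f₁ * f₂) p q3
    have t0 := hsup p q0
    rw [hw, c2_mul, t2, c2_mul, t0, c2_mul, t1, t3]
  have hmvw : ∃ u, σ w u ≠ u := by
    by_contra hcon
    push Not at hcon
    apply hw1
    apply hσ
    rw [map_one]
    ext u
    exact hcon u
  obtain ⟨u, hu⟩ := hmvw
  have hwb' : Commute w b := hwb
  have hui : ∀ i : ℕ, σ w (σ (b ^ i) u) ≠ σ (b ^ i) u := by
    intro i h1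
    have h2 : w * b ^ i = b ^ i * w := hwb'.pow_right i
    rw [← c2_mul, h2, c2_mul] at h1
    exact hu ((σ (b ^ i)).injective h1)
  have hch : ∀ i : Fin 5, ∃ j : Fin 4, σ (b ^ (i : ℕ)) u ∈ σ (G j) '' U := fun i => hcov _ (hui i)
  choose φ hφ using hch
  obtain ⟨i, j, hij, hφij⟩ := Fintype.exists_ne_map_eq_of_card_lt φ (by simp)
  -- the contradiction
  have key : ∀ i j : Fin 5, i < j → φ i = φ j → False := by
    intro i j hij hφij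
    obtain ⟨p, hp, hp2⟩ := hφ i
    obtain ⟨r, hr, hr2⟩ := hφ j
    rw [← hφij] at hr2
    have hlt : (i : ℕ) < (j : ℕ) := hij
    have hj4 : (j : ℕ) ≤ 4 := by omega
    apply dU ((j : ℕ) - i) (by omega) (by omega) p hp
    have h1 : σ (G (φ i)) (σ (b ^ ((j : ℕ) - i)) p) = σ (G (φ i)) r := by
      have h2 : G (φ i) * b ^ ((j : ℕ) - i) = b ^ ((j : ℕ) - i) * G (φ i) :=
        (hG (φ i)).pow_right _
      rw [← c2_mul, h2, c2_mul, hp2, hr2, ← c2_mul, ← pow_add]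
      congr 2
      congr 1
      omega
    rw [(σ (G (φ i))).injective h1]
    exact hr
  rcases lt_or_gt_of_ne hij with h1 | h1
  · exact key i j h1 hφij
  · exact key j i h1 hφij.symm

end Pool.Agent.H756.LS
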