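import Pool.Agent.H756.LS.Cv2
import Pool.Agent.H756.LS.Flt

/-!
# The converse: clopen subsets
-/

set_option autoImplicit false

open Set Topology Function

namespace Pool.Agent.H756.LS

theorem levelGroup_eq {M : Type} [TopologicalSpace M] (f : M → ℝ) :
    levelGroup f = Cv.levelGroup f := rfl

/-- Transport of the level group by a homeomorphism. -/
theorem level_transport {M U : Type} [TopologicalSpace M] [TopologicalSpace U] (e : M ≃ₜ U)
    (f0 : M → ℝ) : Nonempty (levelGroup f0 ≃* levelGroup (fun u : U => f0 (e.symm u))) := by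
  refine ⟨{ toFun := fun T => ⟨(e.symm.trans T.1).trans e, fun u => ?_⟩
            invFun := fun S => ⟨(e.trans S.1).trans e.symm, fun x => ?_⟩
            left_inv := fun T => ?_
            right_inv := fun S => ?_
            map_mul' := fun S T => ?_ }⟩
  · show f0 (e.symm (e (T.1 (e.symm u)))) = _
    rw [e.symm_apply_apply]; exact T.2 _
  · show f0 (e.symm (S.1 (e x))) = _
    have := S.2 (e x)
    simp only [e.symm_apply_apply] at this
    exact this
  · apply Subtype.ext; ext x
    show e.symm (e (T.1 (e.symm (e x)))) = _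
    simp
  · apply Subtype.ext; ext x
    show e (e.symm (S.1 (e (e.symm x)))) = _
    simp
  · apply Subtype.ext; ext x
    show e (S.1 (T.1 (e.symm x))) = e (S.1 (e.symm (e (T.1 (e.symm x)))))
    simp

theorem conv {M N : Type} [TopologicalSpace M] [TopologicalSpace N] (hN : IsMfd N)
    (U : Set N) (hU : IsClopen U) (e : M ≃ₜ U) (f0 : M → ℝ) (hf0 : Continuous f0) :
    ∃ f : N → ℝ, Continuous f ∧ Nonempty (levelGroup f0 ≃* levelGroup f) := by
  have := hN.1
  have := hN.2.1
  have := locallyCompact hN
  obtain ⟨f, hf, -, φ, -⟩ := Cw.clopen_main U hU (fun u => f0 (e.symm u))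
    (hf0.comp e.symm.continuous)
  obtain ⟨ψ⟩ := level_transport e f0
  exact ⟨f, hf, ⟨ψ.trans φ⟩⟩

end Pool.Agent.H756.LS
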