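import Pool.Agent.H756.LS.Rub1

/-!
# Rubin's theorem, second part: the point relation is a homeomorphism (task RUB2)

Write `F_x = {y | Rel ρ σ x y}`, `F^y = {x | Rel ρ σ x y}` (`= {x | Rel σ ρ y x}`).
`Rel x y` iff `y ∈ closure (Mv ρ σ A)` for all open `A ∋ x` iff `x ∈ closure (Mv12 σ ρ B)` for all open
`B ∋ y` (see `mv_inter`, `rel_symm`).

Paper proof of `rel_unique`. Suppose `y₁ ≠ y₂` are both in `F_x`.
(ii) Let `B ⊆ Y` be open with `F_x ⊄ closure B`. Then `ρ c x = x` for all `c` with `σ c` supported in `B`: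
  take `y ∈ F_x`, `y ∉ closure B`, `B₂ = (closure B)ᶜ ∋ y`. `mv_disj` for `(σ, ρ)`:
  `Mv σ ρ B ∩ Mv12 σ ρ B₂ = ∅`, i.e. `ρ c` fixes `Mv12 σ ρ B₂` pointwise, and `x ∈ closure (Mv12 σ ρ B₂)`.
(i) `F_x` is open: let `y ∈ F_x`; another point `y'` of `F_x` exists; choose an open `B ∋ y` with
  `y' ∉ closure B`. By (ii) `ρ c x = x` for `c` supported in `B`, so by `rel_equiv`
  `σ c y ∈ F_x`; by `LT σ` these points fill a neighbourhood of `y`.
(iii) For each nonempty open `B₀ ⊆ F_x` there is `w ∈ B₀` such that `F^w` has at least two points: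
  choose `y ∈ B₀`, another point `y' ≠ y` of `F_x`, an open `B ∋ y` with `closure B ⊆ B₀` and
  `y' ∉ closure B` (locally compact Hausdorff spaces are regular). By (ii) `x ∉ Mv σ ρ B`, so `x ∉ Mv12 σ ρ B`.
  `Rel x y` gives `Mv12 σ ρ B ≠ ∅`; take `x'` in it, `x' ≠ x`. `F_{x'} ⊆ closure B`: with `B₁ = (closure B)ᶜ`,
  `Mv σ ρ B₁ ∩ Mv12 σ ρ B = ∅`, so the open set `A = Mv12 σ ρ B ∋ x'` is disjoint from `Mv12 σ ρ B₁`,
  by `mv_inter` `Mv ρ σ A ∩ B₁ = ∅`. Take `w ∈ F_{x'}` (`rel_exists`): `w ∈ closure B ⊆ B₀ ⊆ F_x`, so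
  `x, x' ∈ F^w`.
(iv) Fix `y ∈ F_x` and an open `B ∋ y` with `F_x ⊄ closure B`. `F_x \ closure B` is open and nonempty,
  so by (iii) there is `w ∈ F_x \ closure B` with `F^w` having two points. Take `x'' ∈ F^w`, `x'' ≠ x`,
  and an open `A ∋ x` with `x'' ∉ closure A`. By (ii) for the pair `(σ, ρ)`: `σ g w = w` for all `g`
  with `ρ g` supported in `A`. For such `g` and `z = ρ g x`: `F_z = σ g '' F_x` contains `w`
  and has two points, and `w ∉ closure B`, so by (ii) for `z` (which only needs `F_z ⊄ closure B`) `ρ c z = z` for all `c`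
  supported (through `σ`) in `B`. By `LT ρ` these `z` fill an open `D ∋ x`, so `D ∩ Mv σ ρ B = ∅`,
  in particular `D ∩ Mv12 σ ρ B = ∅`, contradicting `Rel x y` (`Mv ρ σ D ∩ B ≠ ∅` and `mv_inter`).

`rubin`. By `rel_exists` and `rel_unique` (for `(ρ, σ)` and `(σ, ρ)`) `Rel` is the graph of a bijection `θ`.
Continuity at `x`: take `A₁ ∋ x` with `C = closure (Mv ρ σ A₁)` compact; for `z ∈ A₁`, `θ z ∈ C`. For an
open `B ∋ θ x` cover the compact `C \ B` by finitely many `B_y` from `rel_open` and intersect the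
corresponding `A_y`. Equivariance: `rel_equiv` + uniqueness.
-/

set_option autoImplicit false

open Set Topology Function

namespace Pool.Agent.H756.LS

variable {X Y : Type} [TopologicalSpace X] [TopologicalSpace Y] {Γ : Type} [Group Γ]
variable {ρ : Γ →* (X ≃ₜ X)} {σ : Γ →* (Y ≃ₜ Y)}

/-- (ii): elements supported in `B` fix `x` if some point of `F_x` is outside of `closure B`. -/
theorem fix_of_not_closure [T2Space X] [T2Space Y] (hp : Pair ρ σ) {x : X} {y : Y}
    (h : Rel ρ σ x y) {B : Set Y} (hB : IsOpen B) (hy : y ∉ closure B) (c : Γ)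
    (hc : Sup (σ c) B) : ρ c x = x := by
  by_contra hne
  have hd := mv_disj hp.symm hB (isClosed_closure (s := B)).isOpen_compl
    (disjoint_left.2 fun z hz hz' => hz' (subset_closure hz))
  obtain ⟨z, hz1, hz2⟩ := mv_inter hp (isOpen_Mv B) (isClosed_closure (s := B)).isOpen_compl
    (h (Mv σ ρ B) (isOpen_Mv B) ⟨c, hc, hne⟩ _ (isClosed_closure (s := B)).isOpen_compl hy)
  exact disjoint_left.1 hd hz1 hz2

/-- separation of a point from another one by an open set with the closure condition -/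
theorem exists_sep [T2Space Y] {y y' : Y} (h : y ≠ y') :
    ∃ B : Set Y, IsOpen B ∧ y ∈ B ∧ y' ∉ closure B := by
  obtain ⟨U, V, hU, hV, hyU, hyV, hUV⟩ := t2_separation h
  refine ⟨U, hU, hyU, fun hc => ?_⟩
  obtain ⟨z, hzV, hzU⟩ := mem_closure_iff.1 hc V hV hyV
  exact disjoint_left.1 hUV hzU hzV

theorem rel_unique [T2Space X] [T2Space Y] [LocallyCompactSpace X] [LocallyCompactSpace Y]
    (hp : Pair ρ σ) {x : X} {y₁ y₂ : Y} (h₁ : Rel ρ σ x y₁) (h₂ : Rel ρ σ x y₂) : y₁ = y₂ := by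
  by_contra hne
  -- another point of `F_x`
  have hother : ∀ y : Y, ∃ y' : Y, Rel ρ σ x y' ∧ y ≠ y' := by
    intro y
    by_cases hy : y = y₁
    · exact ⟨y₂, h₂, fun h => hne (hy.symm.trans h)⟩
    · exact ⟨y₁, h₁, hy⟩
  -- (i)
  have hopen : IsOpen {y | Rel ρ σ x y} := by
    rw [isOpen_iff_forall_mem_open]
    intro y hy
    obtain ⟨y', hy', hyy⟩ := hother y
    obtain ⟨B, hB, hyB, hyc⟩ := exists_sep hyy
    obtain ⟨D, hD, hyD, -, hDt⟩ := hp.ltY y B hB hyB
    refine ⟨D, fun z hz => ?_, hD, hyD⟩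
    obtain ⟨g, hg, rfl⟩ := hDt z hz
    have h3 := rel_equiv (show Rel ρ σ x y from hy) g
    rw [fix_of_not_closure hp hy' hB hyc g hg] at h3
    exact h3
  -- (iii)
  have hiii : ∀ B₀ : Set Y, IsOpen B₀ → B₀.Nonempty → B₀ ⊆ {y | Rel ρ σ x y} →
      ∃ w ∈ B₀, ∃ x', x' ≠ x ∧ Rel ρ σ x' w := by
    intro B₀ hB₀ hne₀ hsub
    obtain ⟨y, hy⟩ := hne₀
    obtain ⟨y', hy', hyy⟩ := hother y
    obtain ⟨U, V, hU, hV, hyU, hyV, hUV⟩ := t2_separation hyy
    obtain ⟨K, hK, hKc, hKs⟩ := exists_mem_nhds_isClosed_subset ((hB₀.inter hU).mem_nhds ⟨hy, hyU⟩)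
    set B : Set Y := interior K with hBdef
    have hB : IsOpen B := isOpen_interior
    have hyB : y ∈ B := mem_interior_iff_mem_nhds.2 hK
    have hcl : closure B ⊆ B₀ ∩ U := (closure_minimal interior_subset hKc).trans hKs
    have hy'c : y' ∉ closure B := fun h => disjoint_left.1 hUV (hcl h).2 hyV
    have hxM : x ∉ Mv σ ρ B := by
      rintro ⟨c, hc, hcx⟩
      exact hcx (fix_of_not_closure hp hy' hB hy'c c hc)
    obtain ⟨x', -, hx'⟩ := mv_inter hp isOpen_univ hB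
      ((show Rel ρ σ x y from hsub hy) univ isOpen_univ (mem_univ x) B hB hyB)
    have hxx : x' ≠ x := by
      rintro rfl
      exact hxM (Mv12_subset B hx')
    obtain ⟨w, hw⟩ := rel_exists hp x'
    have hwc : w ∈ closure B := by
      by_contra hwc
      have hd := mv_disj hp.symm (isClosed_closure (s := B)).isOpen_compl hB
        (disjoint_left.2 fun z hz hz' => hz (subset_closure hz'))
      obtain ⟨z, hz1, hz2⟩ := mv_inter hp (isOpen_Mv12 B)
        (isClosed_closure (s := B)).isOpen_compl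
        (hw (Mv12 σ ρ B) (isOpen_Mv12 B) hx' _ (isClosed_closure (s := B)).isOpen_compl hwc)
      exact disjoint_left.1 hd (Mv12_subset _ hz2) hz1
    exact ⟨w, (hcl hwc).1, x', hxx, hw⟩
  -- (iv)
  obtain ⟨B, hB, hyB, hyc⟩ := exists_sep hne
  obtain ⟨w, hw, x'', hxx, hw''⟩ := hiii ({y | Rel ρ σ x y} ∩ (closure B)ᶜ)
    (hopen.inter isClosed_closure.isOpen_compl) ⟨y₂, h₂, hyc⟩ inter_subset_left
  obtain ⟨A, hA, hxA, hxc⟩ := exists_sep hxx.symm
  obtain ⟨D, hD, hxD, -, hDt⟩ := hp.ltX x A hA hxA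
  obtain ⟨z, hzD, hz⟩ := mv_inter hp hD hB (h₁ D hD hxD B hB hyB)
  obtain ⟨c, hc, hcz⟩ := Mv12_subset B hz
  obtain ⟨g, hg, rfl⟩ := hDt z hzD
  have h4 : σ g w = w := fix_of_not_closure hp.symm ((rel_symm hp).1 hw'') hA hxc g hg
  have h5 := rel_equiv (show Rel ρ σ x w from hw.1) g
  rw [h4] at h5
  exact hcz (fix_of_not_closure hp h5 hB hw.2 c hc)

/-- the point map is continuous -/
theorem cont_of_rel [T2Space X] [T2Space Y] [LocallyCompactSpace X] [LocallyCompactSpace Y]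
    (hp : Pair ρ σ) (θ : X → Y) (hθ : ∀ x, Rel ρ σ x (θ x)) : Continuous θ := by
  rw [continuous_iff_continuousAt]
  intro x
  obtain ⟨A₁, hA₁, hxA₁, hC⟩ := exists_compact hp x
  refine hC.tendsto_nhds_of_unique_mapClusterPt ?_ ?_
  · filter_upwards [hA₁.mem_nhds hxA₁] with z hz
    rw [mem_closure_iff]
    intro B hB hzB
    obtain ⟨y, hy1, hy2⟩ := hθ z A₁ hA₁ hz B hB hzB
    exact ⟨y, hy2, hy1⟩
  · intro y _ hy
    by_contra hne
    have h1 : ¬ Rel ρ σ x y := fun h => hne (rel_unique hp h (hθ x))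
    obtain ⟨A, B, hA, hB, hxA, hyB, hAB⟩ := rel_open h1
    obtain ⟨z, hz1, hz2⟩ := ((mapClusterPt_iff_frequently.1 hy B (hB.mem_nhds hyB)).and_eventually
      (hA.mem_nhds hxA)).exists
    exact hAB z hz2 _ hz1 (hθ z)

theorem rubin [T2Space X] [T2Space Y] [LocallyCompactSpace X] [LocallyCompactSpace Y]
    (hp : Pair ρ σ) : ∃ θ : X ≃ₜ Y, ∀ (g : Γ) (x : X), θ (ρ g x) = σ g (θ x) := by
  choose θ hθ using fun x => rel_exists hp x
  choose η hη using fun y => rel_exists hp.symm y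
  refine ⟨{ toFun := θ
            invFun := η
            left_inv := fun x => rel_unique hp.symm (hη (θ x)) ((rel_symm hp).1 (hθ x))
            right_inv := fun y => rel_unique hp (hθ (η y)) ((rel_symm hp).2 (hη y))
            continuous_toFun := cont_of_rel hp θ hθ
            continuous_invFun := cont_of_rel hp.symm η hη }, fun g x => ?_⟩
  exact rel_unique hp (hθ (ρ g x)) (rel_equiv (hθ x) g)

end Pool.Agent.H756.LS
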