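import Pool.Agent.H756.LS.Mvd
import Pool.Agent.H756.LS.Ac2
import Pool.Agent.H756.LS.Rub2

/-!
# Reconstruction of the flat part (task CORE)

Paper proof. `X = flat f0`, `Y = flat f`, `Γ = levelGroup f0`, acting on `X` by `rst f0` (faithful by
hypothesis) and on `Y` by `(rst f).comp φ`.
(1) For each `x ∈ X` there is `γ ∈ Γ` with `γ x ≠ x` and `φ γ` supported in `flat f`. Let `B₁ ∋ x` be open,
  `B₁ ⊆ flat f0`, `f0` constant on `B₁`, `D` from `exists_ball`, and `g` from `exists_flow` for `x ∈ D`: all homeomorphisms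
  supported in `D` are in `Γ`. The action of `g` on `X` is jointly continuous, so by `auto_cont`
  (`ρ = rst f0`, `p12_rst`; `X` is Hausdorff and second countable, `N` is locally compact etc.)
  `(t, y) ↦ φ (g t) y` is continuous. By `const_on_moved` (transitivity on `D`: from `x` to `y` and to `z`) `f` is constant
  on the open set `V` of the points of `N` moved by some `φ (g t)`. `V ⊆ flat f`: a point `y ∈ V` is not
  isolated, for if `{y}` is open then `{t | φ (g t) y = y}` is clopen and contains `0`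
  (`g 0 = 1`). So all `φ (g t)` are supported in `flat f`. Some `g t` moves some `z ∈ D`; take `h ∈ Γ` with
  `h z = x` and `γ = h (g t) h⁻¹`; `φ γ` is supported in `flat f` too (`flat f` is invariant).
(2) `rst f` is injective: let `rst f k = 1`, `a = φ⁻¹ k`. `L = {γ | Sup (φ γ) (flat f)}` is a normal
  subgroup of `Γ`, and `k` commutes with `φ γ` for `γ ∈ L` (`k` fixes `flat f` pointwise). By
  `fix_of_normal` and (1) `a` fixes every point of `X`, so `rst f0 a = 1`, `a = 1`, `k = 1`.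
(3) So `Pair (rst f0) ((rst f).comp φ)` (`LT`, `P12` for the second action follow from `lt_rst`, `p12_rst` and surjectivity
  of `φ`); `rubin` gives `θ` (open subspaces of locally compact Hausdorff spaces are locally compact).
-/

set_option autoImplicit false

open Set Topology Function

namespace Pool.Agent.H756.LS

theorem core_mem {M : Type} [TopologicalSpace M] {f0 : M → ℝ} {D : Set M} {x : M}
    (hD : ∀ z ∈ D, f0 z = f0 x) {h : M ≃ₜ M} (hh : Sup h D) : h ∈ levelGroup f0 := by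
  intro p
  by_cases hp : p ∈ D
  · have h1 : h p ∈ D := by
      by_contra h2
      have h3 := hh _ h2
      have h4 := h.injective h3
      rw [h4] at h2
      exact h2 hp
    rw [hD _ h1, hD _ hp]
  · rw [hh _ hp]

theorem core_conj {M N : Type} [TopologicalSpace M] [TopologicalSpace N] {f0 : M → ℝ} {f : N → ℝ}
    (φ : levelGroup f0 ≃* levelGroup f) {γ : levelGroup f0}
    (hγ : Sup (φ γ : N ≃ₜ N) (flat f)) (h : levelGroup f0) :
    Sup (φ (h * γ * h⁻¹) : N ≃ₜ N) (flat f) := by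
  intro z hz
  rw [map_mul, map_mul, map_inv]
  show (φ h : N ≃ₜ N) ((φ γ : N ≃ₜ N) ((((φ h)⁻¹ : levelGroup f) : N ≃ₜ N) z)) = z
  have h1 : (((φ h)⁻¹ : levelGroup f) : N ≃ₜ N) z ∉ flat f := by
    intro h2
    exact hz ((flat_apply_iff ((φ h)⁻¹).2).1 h2)
  rw [hγ _ h1]
  exact (φ h : N ≃ₜ N).apply_symm_apply z

theorem core1 {M N : Type} [TopologicalSpace M] [TopologicalSpace N] (hM : IsMfd M)
    (hN : IsMfd N) (f0 : M → ℝ) (f : N → ℝ) (hf : Continuous f)
    (φ : levelGroup f0 ≃* levelGroup f) (hfaith : Injective (rst f0)) (x : M)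
    (hx : x ∈ flat f0) :
    ∃ γ : levelGroup f0, (γ : M ≃ₜ M) x ≠ x ∧ Sup (φ γ : N ≃ₜ N) (flat f) := by
  have hM2 : T2Space M := hM.1
  have hM3 : SecondCountableTopology M := hM.2.1
  have hN2 : T2Space N := hN.1
  have hN3 : SecondCountableTopology N := hN.2.1
  have hN4 : LocallyCompactSpace N := locallyCompact hN
  obtain ⟨⟨B₁, hB₁, hxB₁, hc₁⟩, hiso⟩ := hx
  obtain ⟨D, hD, hxD, hDB, -, -, -, hDiso, hDtr⟩ := exists_ball hM x hiso B₁ hB₁ hxB₁
  have hDc : ∀ z ∈ D, f0 z = f0 x := fun z hz => hc₁ z (hDB hz)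
  obtain ⟨g, hg, hgc, hgs, t₀, y₀, hty⟩ := exists_flow hM x hiso D hD hxD
  let G : ℝ → levelGroup f0 := fun t => ⟨g t, core_mem hDc (hgs t)⟩
  have hG : ∀ s t, G (s + t) = G s * G t := fun s t => Subtype.ext (hg s t)
  have hDflat : D ⊆ flat f0 := by
    intro y hy
    refine ⟨⟨D, hD, hy, fun z hz => ?_⟩, hDiso y hy⟩
    rw [hDc z hz, hDc y hy]
  have hDtr' : ∀ y ∈ D, ∀ z ∈ D, ∃ h ∈ levelGroup f0, h y = z := by
    intro y hy z hz
    obtain ⟨h₁, hs₁, he₁⟩ := hDtr y hy
    obtain ⟨h₂, hs₂, he₂⟩ := hDtr z hz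
    refine ⟨h₂ * h₁⁻¹, (levelGroup f0).mul_mem (core_mem hDc hs₂)
      ((levelGroup f0).inv_mem (core_mem hDc hs₁)), ?_⟩
    show h₂ (h₁.symm y) = z
    rw [← he₁, h₁.symm_apply_apply, he₂]
  have hcX : Continuous fun p : ℝ × flat f0 => rst f0 (G p.1) p.2 := by
    refine Continuous.subtype_mk (f := fun p : ℝ × flat f0 => g p.1 p.2.1) ?_ _
    exact hgc.comp (continuous_fst.prodMk (continuous_subtype_val.comp continuous_snd))
  have hcN := auto_cont (rst f0) hfaith (p12_rst hM f0) f hf φ G hG hcX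
  have hconst := const_on_moved hM hN f0 f hf φ hfaith D hD hDflat hDtr' G hG hgs hcN
  have hG0 : G 0 = 1 := by
    have h1 := hG 0 0
    rw [add_zero] at h1
    exact left_eq_mul.1 h1
  have hVopen : IsOpen {y : N | ∃ t, (φ (G t) : N ≃ₜ N) y ≠ y} := by
    have h1 : {y : N | ∃ t, (φ (G t) : N ≃ₜ N) y ≠ y} =
        ⋃ t, {y : N | (φ (G t) : N ≃ₜ N) y ≠ y} := by
      ext y; simp
    rw [h1]
    exact isOpen_iUnion fun t => isOpen_ne_fun (φ (G t) : N ≃ₜ N).continuous continuous_id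
  have hVflat : ∀ y : N, (∃ t, (φ (G t) : N ≃ₜ N) y ≠ y) → y ∈ flat f := by
    intro y hy
    refine ⟨⟨_, hVopen, hy, fun z hz => hconst z y hz hy⟩, fun hop => ?_⟩
    obtain ⟨t, ht⟩ := hy
    have hcy : Continuous fun t : ℝ => (φ (G t) : N ≃ₜ N) y :=
      hcN.comp (continuous_id.prodMk continuous_const)
    have hcl : IsClopen ((fun t : ℝ => (φ (G t) : N ≃ₜ N) y) ⁻¹' {y}) :=
      ⟨isClosed_singleton.preimage hcy, hop.preimage hcy⟩
    rcases isClopen_iff.1 hcl with h2 | h2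
    · have h3 : (0 : ℝ) ∈ (fun t : ℝ => (φ (G t) : N ≃ₜ N) y) ⁻¹' {y} := by
        show (φ (G 0) : N ≃ₜ N) y = y
        rw [hG0, map_one]; rfl
      rw [h2] at h3
      exact h3
    · have h3 : t ∈ (fun t : ℝ => (φ (G t) : N ≃ₜ N) y) ⁻¹' {y} := by rw [h2]; trivial
      exact ht h3
  have hGs : Sup (φ (G t₀) : N ≃ₜ N) (flat f) := by
    intro z hz
    by_contra h1
    exact hz (hVflat z ⟨t₀, h1⟩)
  have hy₀ : y₀ ∈ D := by
    by_contra h1
    exact hty (hgs t₀ _ h1)
  obtain ⟨h, hh, hhy⟩ := hDtr' y₀ hy₀ x hxD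
  refine ⟨⟨h, hh⟩ * G t₀ * (⟨h, hh⟩ : levelGroup f0)⁻¹, ?_, core_conj φ hGs ⟨h, hh⟩⟩
  show h (g t₀ (h.symm x)) ≠ x
  rw [← hhy, h.symm_apply_apply]
  exact fun h1 => hty (h.injective h1)

/-- the elements acting on `N` with support in the flat part -/
def coreL {M N : Type} [TopologicalSpace M] [TopologicalSpace N] {f0 : M → ℝ} {f : N → ℝ}
    (φ : levelGroup f0 ≃* levelGroup f) : Subgroup (levelGroup f0) where
  carrier := {γ | Sup (φ γ : N ≃ₜ N) (flat f)}
  mul_mem' := by
    intro a b ha hb z hz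
    show (φ (a * b) : N ≃ₜ N) z = z
    rw [map_mul]
    show (φ a : N ≃ₜ N) ((φ b : N ≃ₜ N) z) = z
    rw [hb z hz, ha z hz]
  one_mem' := by
    intro z _
    rw [map_one]; rfl
  inv_mem' := by
    intro a ha z hz
    show (φ a⁻¹ : N ≃ₜ N) z = z
    rw [map_inv]
    show (φ a : N ≃ₜ N).symm z = z
    rw [Homeomorph.symm_apply_eq]
    exact (ha z hz).symm

theorem core2 {M N : Type} [TopologicalSpace M] [TopologicalSpace N] (hM : IsMfd M)
    (hN : IsMfd N) (f0 : M → ℝ) (f : N → ℝ) (hf : Continuous f)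
    (φ : levelGroup f0 ≃* levelGroup f) (hfaith : Injective (rst f0)) :
    Injective (rst f) := by
  have hM2 : T2Space M := hM.1
  rw [injective_iff_map_eq_one]
  intro k hk
  have hkf : ∀ y ∈ flat f, (k : N ≃ₜ N) y = y := by
    intro y hy
    have h1 : rst f k ⟨y, hy⟩ = ⟨y, hy⟩ := by rw [hk]; rfl
    exact congrArg Subtype.val h1
  have hnorm : (coreL φ).Normal := ⟨fun γ hγ h => core_conj φ hγ h⟩
  have ha : rst f0 (φ.symm k) = 1 := by
    ext x
    have h1 : rst f0 (φ.symm k) x = x := by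
      refine fix_of_normal (rst f0) (p12_rst hM f0) (coreL φ) (rst f0 (φ.symm k)) ?_ x ?_
      · intro g hg
        rw [← map_mul, ← map_mul]
        congr 1
        apply φ.injective
        rw [map_mul, map_mul, φ.apply_symm_apply]
        apply Subtype.ext
        ext y
        show (k : N ≃ₜ N) ((φ g : N ≃ₜ N) y) = (φ g : N ≃ₜ N) ((k : N ≃ₜ N) y)
        by_cases hy : y ∈ flat f
        · rw [hkf y hy, hkf _ (flat_apply (φ g).2 hy)]
        · have h2 : (k : N ≃ₜ N) y ∉ flat f := fun h3 => hy ((flat_apply_iff k.2).1 h3)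
          rw [hg y hy, hg _ h2]
      · obtain ⟨γ, hγ1, hγ2⟩ := core1 hM hN f0 f hf φ hfaith x.1 x.2
        exact ⟨γ, hγ2, fun h2 => hγ1 (congrArg Subtype.val h2)⟩
    rw [h1]; rfl
  have hb : φ.symm k = 1 := hfaith (ha.trans (map_one _).symm)
  rw [← φ.apply_symm_apply k, hb, map_one]

theorem core {M N : Type} [TopologicalSpace M] [TopologicalSpace N] (hM : IsMfd M)
    (hN : IsMfd N) (f0 : M → ℝ) (f : N → ℝ) (hf : Continuous f)
    (φ : levelGroup f0 ≃* levelGroup f) (hfaith : Injective (rst f0)) :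
    ∃ θ : flat f0 ≃ₜ flat f, ∀ (T : levelGroup f0) (x : flat f0),
      θ (rst f0 T x) = rst f (φ T) (θ x) := by
  have hM2 : T2Space M := hM.1
  have hN2 : T2Space N := hN.1
  have hM4 : LocallyCompactSpace M := locallyCompact hM
  have hN4 : LocallyCompactSpace N := locallyCompact hN
  have hX : LocallyCompactSpace (flat f0) := (isOpen_flat hM f0).locallyCompactSpace
  have hY : LocallyCompactSpace (flat f) := (isOpen_flat hN f).locallyCompactSpace
  have hp : Pair (rst f0) ((rst f).comp φ.toMonoidHom) := by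
    refine ⟨hfaith, (core2 hM hN f0 f hf φ hfaith).comp φ.injective, lt_rst hM f0, ?_,
      p12_rst hM f0, ?_⟩
    · intro x B hB hxB
      obtain ⟨D, hD, hxD, hDB, h⟩ := lt_rst hN f x B hB hxB
      refine ⟨D, hD, hxD, hDB, fun y hy => ?_⟩
      obtain ⟨g, hg1, hg2⟩ := h y hy
      have h1 : ((rst f).comp φ.toMonoidHom) (φ.symm g) = rst f g := by
        show rst f (φ (φ.symm g)) = rst f g
        rw [φ.apply_symm_apply]
      exact ⟨φ.symm g, by rw [h1]; exact hg1, by rw [h1]; exact hg2⟩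
    · intro B hB hBne
      obtain ⟨g, hg1, hg2⟩ := p12_rst hN f B hB hBne
      have h1 : ((rst f).comp φ.toMonoidHom) (φ.symm g) = rst f g := by
        show rst f (φ (φ.symm g)) = rst f g
        rw [φ.apply_symm_apply]
      refine ⟨φ.symm g, by rw [h1]; exact hg1, ?_⟩
      rw [map_pow, h1, ← map_pow]
      exact hg2
  obtain ⟨θ, hθ⟩ := rubin hp
  exact ⟨θ, hθ⟩

end Pool.Agent.H756.LS
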