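import Pool.Agent.H756.LS.Iso

/-!
# Mutual clopen embeddings
-/

set_option autoImplicit false

open Set Topology Function

namespace Pool.Agent.H756.LS

/-- Two locally connected spaces, each homeomorphic to a clopen subset of the other, are
homeomorphic. -/
theorem clopen_csb {M N : Type} [TopologicalSpace M] [TopologicalSpace N]
    [LocallyConnectedSpace M] (U : Set N) (hU : IsClopen U) (e : M ≃ₜ U) (V : Set M)
    (hV : IsClopen V) (k : N ≃ₜ V) : Nonempty (M ≃ₜ N) := by
  classical
  let f : M → N := fun x => e x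
  let g : N → M := fun y => k y
  have hf : IsOpenEmbedding f := hU.isOpen.isOpenEmbedding_subtypeVal.comp e.isOpenEmbedding
  have hg : IsOpenEmbedding g := hV.isOpen.isOpenEmbedding_subtypeVal.comp k.isOpenEmbedding
  have hrf : range f = U := by
    ext y
    constructor
    · rintro ⟨x, rfl⟩; exact (e x).2
    · intro hy; exact ⟨e.symm ⟨y, hy⟩, by simp [f]⟩
  have hrg : range g = V := by
    ext y
    constructor
    · rintro ⟨x, rfl⟩; exact (k x).2
    · intro hy; exact ⟨k.symm ⟨y, hy⟩, by simp [g]⟩
  have hfc : IsClosedEmbedding f := ⟨hf.isEmbedding, hrf ▸ hU.isClosed⟩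
  have hgc : IsClosedEmbedding g := ⟨hg.isEmbedding, hrg ▸ hV.isClosed⟩
  let B : ℕ → Set M := fun n => (g ∘ f)^[n] '' (range g)ᶜ
  have hB : ∀ n, IsClopen (B n) := by
    intro n
    induction n with
    | zero =>
      show IsClopen ((g ∘ f)^[0] '' (range g)ᶜ)
      simp only [Function.iterate_zero, image_id]
      rw [hrg]; exact hV.compl
    | succ n ih =>
      have : B (n + 1) = (g ∘ f) '' B n := by
        show (g ∘ f)^[n + 1] '' (range g)ᶜ = (g ∘ f) '' ((g ∘ f)^[n] '' (range g)ᶜ)
        rw [← image_comp, Function.iterate_succ']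
      rw [this]
      exact ⟨(hgc.comp hfc).isClosedMap _ ih.isClosed, (hg.comp hf).isOpenMap _ ih.isOpen⟩
  let A : Set M := ⋃ n, B n
  have hAo : IsOpen A := isOpen_iUnion fun n => (hB n).isOpen
  have hA : IsClopen A := by
    refine ⟨?_, hAo⟩
    rw [← isOpen_compl_iff, isOpen_iff_forall_mem_open]
    intro y hy
    refine ⟨connectedComponent y, ?_, isOpen_connectedComponent, mem_connectedComponent⟩
    intro z hz hzA
    obtain ⟨n, hn⟩ := mem_iUnion.1 hzA
    have h1 : connectedComponent z ⊆ B n := (hB n).connectedComponent_subset hn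
    exact hy (mem_iUnion.2 ⟨n, h1 (connectedComponent_eq hz ▸ mem_connectedComponent)⟩)
  have hrange : ∀ x, x ∉ A → x ∈ range g := by
    intro x hx
    by_contra hcon
    exact hx (mem_iUnion.2 ⟨0, x, hcon, rfl⟩)
  have hAgf : ∀ x ∈ A, g (f x) ∈ A := by
    intro x hx
    obtain ⟨n, z, hz, rfl⟩ := mem_iUnion.1 hx
    exact mem_iUnion.2 ⟨n + 1, z, hz, by rw [Function.iterate_succ_apply']; rfl⟩
  have hAg : ∀ y, g y ∈ A → ∃ x ∈ A, f x = y := by
    intro y hy
    obtain ⟨n, z, hz, hzy⟩ := mem_iUnion.1 hy
    rcases n with _ | n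
    · exfalso
      apply hz
      exact ⟨y, hzy.symm⟩
    · rw [Function.iterate_succ_apply'] at hzy
      exact ⟨(g ∘ f)^[n] z, mem_iUnion.2 ⟨n, z, hz, rfl⟩, hg.injective hzy⟩
  rcases isEmpty_or_nonempty N with hNe | hNe
  · have : IsEmpty M := ⟨fun x => hNe.elim (f x)⟩
    exact ⟨Homeomorph.empty⟩
  choose! s hs using hrange
  have hsc : ContinuousOn s Aᶜ :=
    hg.isInducing.continuousOn_iff.2 (continuousOn_id.congr fun x hx => hs x hx)
  let h : M → N := fun x => if x ∈ A then f x else s x
  have hc : Continuous h := by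
    rw [continuous_iff_continuousAt]
    intro x
    by_cases hx : x ∈ A
    · refine hf.continuous.continuousAt.congr ?_
      filter_upwards [hA.isOpen.mem_nhds hx] with y hy
      simp [h, hy]
    · have h1 : ContinuousAt s x := (hsc x hx).continuousAt (hA.compl.isOpen.mem_nhds hx)
      refine h1.congr ?_
      filter_upwards [hA.compl.isOpen.mem_nhds hx] with y hy
      have : y ∉ A := hy
      simp [h, this]
  have hinj : Injective h := by
    intro x y hxy
    by_cases hx : x ∈ A <;> by_cases hy : y ∈ A <;> simp only [h, hx, hy, if_true, if_false] at hxy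
    · exact hf.injective hxy
    · exfalso
      have h1 := hAgf x hx
      rw [hxy, hs y hy] at h1
      exact hy h1
    · exfalso
      have h1 := hAgf y hy
      rw [← hxy, hs x hx] at h1
      exact hx h1
    · rw [← hs x hx, ← hs y hy, hxy]
  have hsurj : Surjective h := by
    intro y
    by_cases hy : g y ∈ A
    · obtain ⟨x, hx, hxy⟩ := hAg y hy
      exact ⟨x, by simp [h, hx, hxy]⟩
    · refine ⟨g y, ?_⟩
      simp only [h, hy, if_false]
      exact hg.injective (hs (g y) hy)
  have hopen : IsOpenMap h := by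
    intro W hW
    have h1 : h '' W = f '' (W ∩ A) ∪ g ⁻¹' (W ∩ Aᶜ) := by
      ext y
      constructor
      · rintro ⟨x, hx, rfl⟩
        by_cases hxA : x ∈ A
        · left
          exact ⟨x, ⟨hx, hxA⟩, by simp [h, hxA]⟩
        · right
          have h2 : h x = s x := by simp [h, hxA]
          show g (h x) ∈ W ∩ Aᶜ
          rw [h2, hs x hxA]
          exact ⟨hx, hxA⟩
      · rintro (⟨x, ⟨hx, hxA⟩, rfl⟩ | hy)
        · exact ⟨x, hx, by simp [h, hxA]⟩
        · refine ⟨g y, hy.1, ?_⟩
          have hyA : g y ∉ A := hy.2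
          simp only [h, hyA, if_false]
          exact hg.injective (hs (g y) hyA)
    rw [h1]
    exact (hf.isOpenMap _ (hW.inter hA.isOpen)).union
      ((hW.inter hA.compl.isOpen).preimage hg.continuous)
  exact ⟨(Equiv.ofBijective h ⟨hinj, hsurj⟩).toHomeomorphOfContinuousOpen hc hopen⟩

end Pool.Agent.H756.LS
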