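import Mathlib

/-!
Level-set-preserving homeomorphism groups do not distinguish manifolds.
-/

namespace Pool.Agent.H756.LS.Cv

open Set Topology BoundedContinuousFunction

universe u

/-- A topological `n`-manifold: Hausdorff, second countable, and every point lies in the source of
a homeomorphism from an open set onto an open set of `ℝ^n`. -/
structure IsTopManifold (n : ℕ) (M : Type u) [TopologicalSpace M] : Prop where
  t2 : T2Space M
  secondCountable : SecondCountableTopology M
  locallyEuclidean : ∀ x : M, ∃ e : OpenPartialHomeomorph M (EuclideanSpace ℝ (Fin n)), x ∈ e.source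

/-- The group `G_f^M` of all self-homeomorphisms `T` of `M` with `f (T p) = f p` for all `p`,
as a subgroup of the group of self-homeomorphisms under composition. -/
def levelGroup {M : Type u} [TopologicalSpace M] (f : M → ℝ) : Subgroup (M ≃ₜ M) where
  carrier := {T | ∀ p, f (T p) = f p}
  mul_mem' := by
    intro S T hS hT p
    rw [Homeomorph.mul_apply, hS, hT]
  one_mem' := fun p => rfl
  inv_mem' := by
    intro T hT p
    have := hT (T⁻¹ p)
    rw [← this, ← Homeomorph.mul_apply, mul_inv_cancel, Homeomorph.one_apply]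

theorem mem_levelGroup {M : Type u} [TopologicalSpace M] {f : M → ℝ} {T : M ≃ₜ M} :
    T ∈ levelGroup f ↔ ∀ p, f (T p) = f p := Iff.rfl

section Rigid

variable {X : Type u} [TopologicalSpace X]

/-- `{f | f y < f x on L}` is open, `L` compact. -/
theorem isOpen_lt (L : Set X) (hL : IsCompact L) (x : X) :
    IsOpen {f : X →ᵇ ℝ | ∀ y ∈ L, f y < f x} := by
  rw [Metric.isOpen_iff]
  intro f hf
  rcases L.eq_empty_or_nonempty with rfl | hne
  · exact ⟨1, one_pos, fun g _ y hy => absurd hy (notMem_empty y)⟩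
  · obtain ⟨y₀, hy₀, hmax⟩ := hL.exists_isMaxOn hne f.continuous.continuousOn
    have hgap : 0 < f x - f y₀ := sub_pos.mpr (hf y₀ hy₀)
    refine ⟨(f x - f y₀) / 2, by linarith, ?_⟩
    intro g hg y hy
    rw [Metric.mem_ball] at hg
    have h1 := (BoundedContinuousFunction.dist_coe_le_dist (f := g) (g := f) y)
    have h2 := (BoundedContinuousFunction.dist_coe_le_dist (f := g) (g := f) x)
    rw [Real.dist_eq] at h1 h2
    have h3 := abs_le.mp h1
    have h4 := abs_le.mp h2
    have h5 : f y ≤ f y₀ := hmax hy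
    linarith [h3.2, h4.1]

variable [T2Space X] [LocallyCompactSpace X]

/-- Adding a small bump. -/
theorem exists_bump (f : X →ᵇ ℝ) {ε : ℝ} (hε : 0 < ε) {K C : Set X} (hK : IsCompact K)
    (hC : IsClosed C) (hd : Disjoint K C) :
    ∃ g : X →ᵇ ℝ, dist g f < ε ∧ (∀ x ∈ K, g x = f x + ε / 2) ∧ (∀ x ∈ C, g x = f x) := by
  obtain ⟨φ, h1, h0, hφ⟩ := exists_continuous_zero_one_of_isCompact' hK hC hd
  have hb : ∀ x, ‖φ x‖ ≤ 1 := by
    intro x
    rw [Real.norm_eq_abs, abs_le]
    constructor <;> linarith [(hφ x).1, (hφ x).2]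
  let ψ : X →ᵇ ℝ := BoundedContinuousFunction.ofNormedAddCommGroup φ φ.continuous 1 hb
  have hψ : ∀ x, ψ x = φ x := fun x => rfl
  refine ⟨f + (ε / 2) • ψ, ?_, ?_, ?_⟩
  · rw [dist_eq_norm, add_sub_cancel_left, norm_smul, Real.norm_eq_abs, abs_of_pos (by linarith)]
    have : ‖ψ‖ ≤ 1 := BoundedContinuousFunction.norm_ofNormedAddCommGroup_le _ zero_le_one _
    nlinarith
  · intro x hx
    have : φ x = 1 := h0 hx
    simp [hψ, this]
  · intro x hx
    have : φ x = 0 := h1 hx
    simp [hψ, this]

/-- The functions having a local maximum inside `U`, in an open form. -/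
def peak (U : Set X) : Set (X →ᵇ ℝ) :=
  {f | ∃ K V : Set X, ∃ x, IsCompact K ∧ IsOpen V ∧ K ⊆ U ∧ V ⊆ K ∧ x ∈ V ∧
    ∀ y ∈ K \ V, f y < f x}

theorem isOpen_peak (U : Set X) : IsOpen (peak U) := by
  have : peak U = ⋃ (K : Set X) (V : Set X) (x : X) (_ : IsCompact K ∧ IsOpen V ∧ K ⊆ U ∧
      V ⊆ K ∧ x ∈ V), {f : X →ᵇ ℝ | ∀ y ∈ K \ V, f y < f x} := by
    ext f
    simp only [peak, mem_ofPred_eq, mem_iUnion, exists_prop]
    constructor
    · rintro ⟨K, V, x, h1, h2, h3, h4, h5, h6⟩
      exact ⟨K, V, x, ⟨h1, h2, h3, h4, h5⟩, h6⟩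
    · rintro ⟨K, V, x, ⟨h1, h2, h3, h4, h5⟩, h6⟩
      exact ⟨K, V, x, h1, h2, h3, h4, h5, h6⟩
  rw [this]
  refine isOpen_iUnion fun K => isOpen_iUnion fun V => isOpen_iUnion fun x =>
    isOpen_iUnion fun h => isOpen_lt _ (h.1.diff h.2.1) x

theorem dense_peak {U : Set X} (hU : IsOpen U) (hne : U.Nonempty) : Dense (peak U) := by
  rw [Metric.dense_iff]
  intro f ε hε
  obtain ⟨x, hx⟩ := hne
  have hW : U ∩ {y | |f y - f x| < ε / 4} ∈ 𝓝 x := by
    apply (hU.inter _).mem_nhds
    · refine ⟨hx, ?_⟩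
      rw [mem_ofPred_eq, sub_self, abs_zero]
      linarith
    · exact _root_.isOpen_lt (by fun_prop) continuous_const
  obtain ⟨K, hKx, hKW, hK⟩ := local_compact_nhds hW
  obtain ⟨g, hgd, hg1, hg0⟩ := exists_bump f hε (isCompact_singleton (x := x))
    (isOpen_interior (s := K)).isClosed_compl (by
      rw [disjoint_singleton_left, mem_compl_iff, not_not]
      exact mem_interior_iff_mem_nhds.mpr hKx)
  refine ⟨g, hgd, K, interior K, x, hK, isOpen_interior, fun y hy => (hKW hy).1, interior_subset,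
    mem_interior_iff_mem_nhds.mpr hKx, ?_⟩
  rintro y ⟨hyK, hyV⟩
  rw [hg1 x rfl, hg0 y hyV]
  have h : |f y - f x| < ε / 4 := (hKW hyK).2
  have := (abs_lt.mp h).2
  linarith

/-- The functions whose maxima on `K` and `L` differ, in an open form. -/
def differ (K L : Set X) : Set (X →ᵇ ℝ) :=
  {f | (∃ x ∈ K, ∀ y ∈ L, f y < f x) ∨ (∃ x ∈ L, ∀ y ∈ K, f y < f x)}

theorem isOpen_differ {K L : Set X} (hK : IsCompact K) (hL : IsCompact L) :
    IsOpen (differ K L) := by
  have : differ K L = (⋃ x ∈ K, {f : X →ᵇ ℝ | ∀ y ∈ L, f y < f x}) ∪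
      (⋃ x ∈ L, {f : X →ᵇ ℝ | ∀ y ∈ K, f y < f x}) := by
    ext f
    simp only [differ, mem_ofPred_eq, mem_union, mem_iUnion, exists_prop]
  rw [this]
  exact (isOpen_biUnion fun x _ => isOpen_lt _ hL x).union
    (isOpen_biUnion fun x _ => isOpen_lt _ hK x)

theorem dense_differ {K L : Set X} (hK : IsCompact K) (hL : IsCompact L) (hne : K.Nonempty)
    (hd : Disjoint K L) : Dense (differ K L) := by
  rw [Metric.dense_iff]
  intro f ε hε
  by_cases hf : f ∈ differ K L
  · exact ⟨f, Metric.mem_ball_self hε, hf⟩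
  · obtain ⟨x₀, hx₀, hmax⟩ := hK.exists_isMaxOn hne f.continuous.continuousOn
    obtain ⟨g, hgd, hg1, hg0⟩ := exists_bump f hε hK hL.isClosed hd
    refine ⟨g, hgd, Or.inl ⟨x₀, hx₀, ?_⟩⟩
    intro y hy
    rw [hg1 x₀ hx₀, hg0 y hy]
    have h1 : ¬ ∃ x ∈ L, ∀ y ∈ K, f y < f x := fun h => hf (Or.inr h)
    push Not at h1
    obtain ⟨z, hz, hyz⟩ := h1 y hy
    have h2 : f z ≤ f x₀ := hmax hz
    linarith

variable [SecondCountableTopology X]

/-- Every locally compact, second countable Hausdorff space carries a bounded continuous function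
preserved by no homeomorphism except the identity. -/
theorem exists_rigid : ∃ g : X →ᵇ ℝ, ∀ T : X ≃ₜ X, (∀ p, g (T p) = g p) → T = 1 := by
  classical
  let B := TopologicalSpace.countableBasis X
  have hBc : B.Countable := TopologicalSpace.countable_countableBasis X
  have hBb := TopologicalSpace.isBasis_countableBasis X
  have hBo : ∀ U ∈ B, IsOpen U := fun U hU => TopologicalSpace.isOpen_of_mem_countableBasis hU
  have hBn : ∀ U ∈ B, U.Nonempty := fun U hU => TopologicalSpace.nonempty_of_mem_countableBasis hU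
  let S : Set (Set X × Set X) := {p | p.1 ∈ B ∧ p.2 ∈ B ∧ IsCompact (closure p.1) ∧
    IsCompact (closure p.2) ∧ Disjoint (closure p.1) (closure p.2)}
  have hSc : S.Countable := by
    refine (hBc.prod hBc).mono ?_
    intro p hp
    exact mk_mem_prod hp.1 hp.2.1
  have h1 : Dense (⋂ U ∈ B, peak U) :=
    dense_biInter_of_isOpen (fun U _ => isOpen_peak U) hBc
      (fun U hU => dense_peak (hBo U hU) (hBn U hU))
  have h1g : IsGδ (⋂ U ∈ B, peak U) := IsGδ.biInter hBc (fun U _ => (isOpen_peak U).isGδ)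
  have h2 : Dense (⋂ p ∈ S, differ (closure p.1) (closure p.2)) :=
    dense_biInter_of_isOpen (fun p hp => isOpen_differ hp.2.2.1 hp.2.2.2.1) hSc
      (fun p hp => dense_differ hp.2.2.1 hp.2.2.2.1 ((hBn _ hp.1).mono subset_closure)
        hp.2.2.2.2)
  have h2g : IsGδ (⋂ p ∈ S, differ (closure p.1) (closure p.2)) :=
    IsGδ.biInter hSc (fun p hp => (isOpen_differ hp.2.2.1 hp.2.2.2.1).isGδ)
  obtain ⟨g, hg1, hg2⟩ := (h1.inter_of_Gδ h1g h2g h2).nonempty
  refine ⟨g, fun T hT => ?_⟩
  -- every local maximum is fixed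
  have key : ∀ z : X, (∃ W ∈ 𝓝 z, ∀ y ∈ W, g y ≤ g z) → T z = z := by
    rintro z ⟨W, hW, hmax⟩
    by_contra hne
    have hmax' : ∀ y ∈ T.symm ⁻¹' W, g y ≤ g (T z) := by
      intro y hy
      have := hT (T.symm y)
      rw [T.apply_symm_apply] at this
      rw [this, hT z]
      exact hmax _ hy
    have hW' : T.symm ⁻¹' W ∈ 𝓝 (T z) := by
      apply T.symm.continuous.continuousAt.preimage_mem_nhds
      rw [T.symm_apply_apply]; exact hW
    obtain ⟨P, Q, hP, hQ, hzP, hzQ, hPQ⟩ := t2_separation (fun h => hne h.symm : z ≠ T z)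
    have small : ∀ (x : X) (N : Set X), N ∈ 𝓝 x → ∃ U ∈ B, x ∈ U ∧ closure U ⊆ N ∧
        IsCompact (closure U) := by
      intro x N hN
      obtain ⟨C, hCx, hCN, hC⟩ := local_compact_nhds hN
      obtain ⟨U, hU, hxU, hUC⟩ := hBb.mem_nhds_iff.mp hCx
      have h := closure_minimal hUC hC.isClosed
      exact ⟨U, hU, hxU, h.trans hCN, hC.of_isClosed_subset isClosed_closure h⟩
    obtain ⟨U, hU, hzU, hUN, hUc⟩ := small z (W ∩ P) (Filter.inter_mem hW (hP.mem_nhds hzP))
    obtain ⟨V, hV, hzV, hVN, hVc⟩ := small (T z) (T.symm ⁻¹' W ∩ Q)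
      (Filter.inter_mem hW' (hQ.mem_nhds hzQ))
    have hdis : Disjoint (closure U) (closure V) :=
      hPQ.mono (fun y hy => (hUN hy).2) (fun y hy => (hVN hy).2)
    have hd := mem_iInter₂.mp hg2 (U, V) ⟨hU, hV, hUc, hVc, hdis⟩
    rcases hd with ⟨x, hx, h⟩ | ⟨x, hx, h⟩
    · have h3 := h (T z) (subset_closure hzV)
      have h4 := hmax x (hUN hx).1
      rw [hT z] at h3
      linarith
    · have h3 := h z (subset_closure hzU)
      have h4 := hmax' x (hVN hx).1
      rw [hT z] at h4
      linarith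
  have hden : Dense {z | T z = z} := by
    rw [dense_iff_inter_open]
    intro O hO hOne
    obtain ⟨x, hx⟩ := hOne
    obtain ⟨U, hU, hxU, hUO⟩ := hBb.exists_subset_of_mem_open hx hO
    obtain ⟨K, V, w, hK, hV, hKU, hVK, hwV, hlt⟩ := mem_iInter₂.mp hg1 U hU
    obtain ⟨z, hz, hmax⟩ := hK.exists_isMaxOn ⟨w, hVK hwV⟩ g.continuous.continuousOn
    have hzV : z ∈ V := by
      by_contra hzV
      have h3 := hlt z ⟨hz, hzV⟩
      have h4 : g w ≤ g z := hmax (hVK hwV)
      linarith
    exact ⟨z, hUO (hKU hz), key z ⟨V, hV.mem_nhds hzV, fun y hy => hmax (hVK hy)⟩⟩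
  have hcl : IsClosed {z | T z = z} := isClosed_eq T.continuous continuous_id
  have huniv := hcl.closure_eq ▸ hden.closure_eq
  ext z
  exact (huniv.symm ▸ mem_univ z : z ∈ {z | T z = z})

end Rigid

section Sum

variable {M M' : Type u} [TopologicalSpace M] [TopologicalSpace M']

/-- A continuous map from a connected space to a disjoint union stays in one summand. -/
theorem left_or_right {Z : Type u} [TopologicalSpace Z] [PreconnectedSpace Z] {h : Z → M ⊕ M'}
    (hh : Continuous h) : (∀ z, ∃ x, h z = Sum.inl x) ∨ (∀ z, ∃ y, h z = Sum.inr y) := by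
  have hc : IsClopen (range (Sum.inl : M → M ⊕ M')) := ⟨isClosed_range_inl, isOpen_range_inl⟩
  have hclopen : IsClopen (h ⁻¹' range (Sum.inl : M → M ⊕ M')) := hc.preimage hh
  rcases isClopen_iff.mp hclopen with h0 | h1
  · right
    intro z
    have : z ∉ h ⁻¹' range (Sum.inl : M → M ⊕ M') := by rw [h0]; exact notMem_empty z
    rcases hz : h z with x | y
    · exact absurd ⟨x, hz.symm⟩ this
    · exact ⟨y, rfl⟩
  · left
    intro z
    have : z ∈ h ⁻¹' range (Sum.inl : M → M ⊕ M') := by rw [h1]; exact mem_univ z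
    obtain ⟨x, hx⟩ := this
    exact ⟨x, hx.symm⟩

/-- The homeomorphism of the left summand induced by a homeomorphism of the disjoint union. -/
theorem exists_restr_left (S : (M ⊕ M') ≃ₜ (M ⊕ M')) (h1 : ∀ z : M, ∃ x, S (Sum.inl z) = Sum.inl x)
    (h2 : ∀ z : M, ∃ x, S.symm (Sum.inl z) = Sum.inl x) :
    ∃ T : M ≃ₜ M, ∀ x, S (Sum.inl x) = Sum.inl (T x) := by
  choose a ha using h1
  choose b hb using h2
  have hac : Continuous a := by
    rw [IsOpenEmbedding.inl.isInducing.continuous_iff (Y := M) (Z := M ⊕ M')]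
    have : (Sum.inl : M → M ⊕ M') ∘ a = S ∘ Sum.inl := by
      funext z; exact (ha z).symm
    rw [this]
    exact S.continuous.comp continuous_inl
  have hbc : Continuous b := by
    rw [IsOpenEmbedding.inl.isInducing.continuous_iff (Y := M) (Z := M ⊕ M')]
    have : (Sum.inl : M → M ⊕ M') ∘ b = S.symm ∘ Sum.inl := by
      funext z; exact (hb z).symm
    rw [this]
    exact S.symm.continuous.comp continuous_inl
  refine ⟨⟨⟨a, b, ?_, ?_⟩, hac, hbc⟩, ha⟩
  · intro z
    have := hb (a z)
    rw [← ha z, S.symm_apply_apply] at this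
    exact (Sum.inl.inj this).symm
  · intro z
    have := ha (b z)
    rw [← hb z, S.apply_symm_apply] at this
    exact (Sum.inl.inj this).symm

theorem exists_restr_right (S : (M ⊕ M') ≃ₜ (M ⊕ M'))
    (h1 : ∀ z : M', ∃ x, S (Sum.inr z) = Sum.inr x)
    (h2 : ∀ z : M', ∃ x, S.symm (Sum.inr z) = Sum.inr x) :
    ∃ T : M' ≃ₜ M', ∀ x, S (Sum.inr x) = Sum.inr (T x) := by
  choose a ha using h1
  choose b hb using h2
  have hac : Continuous a := by
    rw [IsOpenEmbedding.inr.isInducing.continuous_iff (Y := M') (Z := M ⊕ M')]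
    have : (Sum.inr : M' → M ⊕ M') ∘ a = S ∘ Sum.inr := by
      funext z; exact (ha z).symm
    rw [this]
    exact S.continuous.comp continuous_inr
  have hbc : Continuous b := by
    rw [IsOpenEmbedding.inr.isInducing.continuous_iff (Y := M') (Z := M ⊕ M')]
    have : (Sum.inr : M' → M ⊕ M') ∘ b = S.symm ∘ Sum.inr := by
      funext z; exact (hb z).symm
    rw [this]
    exact S.symm.continuous.comp continuous_inr
  refine ⟨⟨⟨a, b, ?_, ?_⟩, hac, hbc⟩, ha⟩
  · intro z
    have := hb (a z)
    rw [← ha z, S.symm_apply_apply] at this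
    exact (Sum.inr.inj this).symm
  · intro z
    have := ha (b z)
    rw [← hb z, S.apply_symm_apply] at this
    exact (Sum.inr.inj this).symm

/-- Disjoint union with a rigid connected piece whose range differs does not change the group. -/
theorem sum_equiv [ConnectedSpace M] [ConnectedSpace M'] (f : M → ℝ) (g : M' → ℝ)
    (hg : ∀ T : M' ≃ₜ M', (∀ p, g (T p) = g p) → T = 1) (hr : range f ≠ range g) :
    Nonempty (levelGroup f ≃* levelGroup (Sum.elim f g)) := by
  let φ : levelGroup f →* levelGroup (Sum.elim f g) :=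
    { toFun := fun T => ⟨T.1.sumCongr (Homeomorph.refl M'), by
        rintro (x | y)
        · exact T.2 x
        · rfl⟩
      map_one' := by
        apply Subtype.ext
        ext p
        rcases p with x | y <;> rfl
      map_mul' := by
        intro S T
        apply Subtype.ext
        ext p
        rcases p with x | y <;> rfl }
  have hφl : ∀ T x, (φ T).1 (Sum.inl x) = Sum.inl (T.1 x) := fun T x => rfl
  have hφr : ∀ T y, (φ T).1 (Sum.inr y) = Sum.inr y := fun T y => rfl
  refine ⟨MulEquiv.ofBijective φ ⟨?_, ?_⟩⟩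
  · intro S T hST
    apply Subtype.ext
    ext x
    have h1 := hφl S x
    rw [hST, hφl T x] at h1
    exact (Sum.inl.inj h1).symm
  · rintro ⟨S, hS⟩
    have hS' : ∀ p, Sum.elim f g (S p) = Sum.elim f g p := hS
    have hS'' : ∀ p, Sum.elim f g (S.symm p) = Sum.elim f g p := by
      intro p
      have := hS' (S.symm p)
      rw [S.apply_symm_apply] at this
      exact this.symm
    obtain ⟨x₀⟩ := (inferInstance : Nonempty M)
    obtain ⟨y₀⟩ := (inferInstance : Nonempty M')
    -- `S` does not swap the pieces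
    have noswap : ∀ S : (M ⊕ M') ≃ₜ (M ⊕ M'), (∀ p, Sum.elim f g (S p) = Sum.elim f g p) →
        (∀ p, Sum.elim f g (S.symm p) = Sum.elim f g p) →
        ∀ z : M, ∃ x, S (Sum.inl z) = Sum.inl x := by
      intro S hS' hS''
      rcases left_or_right (S.continuous.comp (continuous_inl (X := M) (Y := M'))) with h | h
      · exact h
      · exfalso
        apply hr
        have h2 : ∀ z : M', ∃ x, S.symm (Sum.inr z) = Sum.inl x := by
          rcases left_or_right (S.symm.continuous.comp (continuous_inr (X := M) (Y := M')))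
            with h2 | h2
          · exact h2
          · exfalso
            obtain ⟨y, hy⟩ := h x₀
            obtain ⟨y', hy'⟩ := h2 y
            have : S.symm (Sum.inr y) = Sum.inr y' := hy'
            have hy1 : S (Sum.inl x₀) = Sum.inr y := hy
            rw [← hy1, S.symm_apply_apply] at this
            exact Sum.inl_ne_inr this
        apply Subset.antisymm
        · rintro _ ⟨x, rfl⟩
          obtain ⟨y, hy⟩ := h x
          have h3 := hS' (Sum.inl x)
          have hy1 : S (Sum.inl x) = Sum.inr y := hy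
          rw [hy1] at h3
          exact ⟨y, h3⟩
        · rintro _ ⟨y, rfl⟩
          obtain ⟨x, hx⟩ := h2 y
          have h3 := hS'' (Sum.inr y)
          rw [hx] at h3
          exact ⟨x, h3⟩
    have a1 := noswap S hS' hS''
    have a2 := noswap S.symm hS'' hS'
    have norm : ∀ S : (M ⊕ M') ≃ₜ (M ⊕ M'), (∀ z : M, ∃ x, S.symm (Sum.inl z) = Sum.inl x) →
        ∀ z : M', ∃ x, S (Sum.inr z) = Sum.inr x := by
      intro S a2 z
      rcases hz : S (Sum.inr z) with x | y
      · exfalso
        obtain ⟨x', hx'⟩ := a2 x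
        rw [← hz, S.symm_apply_apply] at hx'
        exact Sum.inr_ne_inl hx'
      · exact ⟨y, rfl⟩
    have b1 := norm S a2
    have b2 := norm S.symm a1
    obtain ⟨T, hT⟩ := exists_restr_left S a1 a2
    obtain ⟨R, hR⟩ := exists_restr_right S b1 b2
    have hR1 : R = 1 := by
      apply hg
      intro p
      have := hS' (Sum.inr p)
      rw [hR p] at this
      exact this
    refine ⟨⟨T, fun p => ?_⟩, ?_⟩
    · have := hS' (Sum.inl p)
      rw [hT p] at this
      exact this
    · apply Subtype.ext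
      ext p
      rcases p with x | y
      · exact (hT x).symm
      · have := hR y
        rw [hR1] at this
        exact this.symm

/-- A rigid function whose range avoids being a prescribed set. -/
theorem exists_rigid_range {X : Type u} [TopologicalSpace X] [T2Space X] [LocallyCompactSpace X]
    [SecondCountableTopology X] [Nonempty X] (R : Set ℝ) :
    ∃ g : X → ℝ, Continuous g ∧ (∀ T : X ≃ₜ X, (∀ p, g (T p) = g p) → T = 1) ∧ R ≠ range g := by
  obtain ⟨g, hg⟩ := exists_rigid (X := X)
  by_cases hR : R = range g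
  · refine ⟨fun x => g x + 1, g.continuous.add continuous_const, ?_, ?_⟩
    · intro T hT
      exact hg T (fun p => add_right_cancel (hT p))
    · intro h
      rw [hR] at h
      have hb : BddAbove (range g) := g.isBounded_range.bddAbove
      obtain ⟨x₀⟩ := (inferInstance : Nonempty X)
      have hlt : sSup (range g) - 1 < sSup (range g) := by linarith
      obtain ⟨_, ⟨x, rfl⟩, hx⟩ := exists_lt_of_lt_csSup ⟨_, mem_range_self x₀⟩ hlt
      have hmem : g x + 1 ∈ range g := by
        rw [h]; exact ⟨x, rfl⟩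
      have := le_csSup hb hmem
      linarith
  · exact ⟨g, g.continuous, hg, hR⟩

end Sum

/-! ### Manifolds -/

theorem IsTopManifold.locallyCompact {n : ℕ} {M : Type u} [TopologicalSpace M]
    (h : IsTopManifold n M) : LocallyCompactSpace M := by
  choose e he using h.locallyEuclidean
  let c : ChartedSpace (EuclideanSpace ℝ (Fin n)) M :=
    { atlas := range e
      chartAt := e
      mem_chart_source := he
      chart_mem_atlas := fun x => ⟨x, rfl⟩ }
  exact ChartedSpace.locallyCompactSpace (EuclideanSpace ℝ (Fin n)) M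

theorem IsTopManifold.sum {n : ℕ} {M M' : Type u} [TopologicalSpace M] [TopologicalSpace M']
    (h : IsTopManifold n M) (h' : IsTopManifold n M') : IsTopManifold n (M ⊕ M') := by
  have := h.t2
  have := h'.t2
  have := h.secondCountable
  have := h'.secondCountable
  refine ⟨inferInstance, inferInstance, ?_⟩
  rintro (x | y)
  · obtain ⟨e, he⟩ := h.locallyEuclidean x
    refine ⟨e.lift_openEmbedding IsOpenEmbedding.inl, ?_⟩
    rw [OpenPartialHomeomorph.lift_openEmbedding_source]
    exact ⟨x, he, rfl⟩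
  · obtain ⟨e, he⟩ := h'.locallyEuclidean y
    refine ⟨e.lift_openEmbedding IsOpenEmbedding.inr, ?_⟩
    rw [OpenPartialHomeomorph.lift_openEmbedding_source]
    exact ⟨y, he, rfl⟩

theorem IsTopManifold.punit : IsTopManifold 0 PUnit.{1} := by
  refine ⟨inferInstance, inferInstance, fun x => ?_⟩
  have e : PUnit.{1} ≃ₜ EuclideanSpace ℝ (Fin 0) :=
    { toFun := fun _ => 0
      invFun := fun _ => PUnit.unit
      left_inv := fun _ => rfl
      right_inv := fun _ => Subsingleton.elim _ _
      continuous_toFun := continuous_const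
      continuous_invFun := continuous_const }
  exact ⟨e.toOpenPartialHomeomorph, mem_univ x⟩

theorem IsTopManifold.euclidean (n : ℕ) : IsTopManifold n (EuclideanSpace ℝ (Fin n)) :=
  ⟨inferInstance, inferInstance, fun x => ⟨OpenPartialHomeomorph.refl _, mem_univ x⟩⟩

/-- The pair `(M, N)` answers Q1 negatively: `M` and `N` are not homeomorphic, and for every
continuous `f₀ : M → ℝ` there is a continuous `f : N → ℝ` with `G_{f₀}^M ≅ G_f^N`. -/
def NegativePair (M N : Type) [TopologicalSpace M] [TopologicalSpace N] : Prop :=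
  IsEmpty (M ≃ₜ N) ∧ ∀ f₀ : M → ℝ, Continuous f₀ →
    ∃ f : N → ℝ, Continuous f ∧ Nonempty (levelGroup f₀ ≃* levelGroup f)


end Pool.Agent.H756.LS.Cv
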