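import Mathlib

/-!
# Level-set-preserving homeomorphism groups: definitions (MP_b004e2_gt)
-/

set_option autoImplicit false

open Set Topology Function

namespace Pool.Agent.H756.LS

/-- The group `G_f^M` of the self-homeomorphisms `T` of `M` with `f ∘ T = f`. -/
def levelGroup {M : Type} [TopologicalSpace M] (f : M → ℝ) : Subgroup (M ≃ₜ M) where
  carrier := {T | ∀ p, f (T p) = f p}
  mul_mem' := by
    intro S T hS hT p
    show f (S (T p)) = f p
    rw [hS, hT]
  one_mem' := fun _ => rfl
  inv_mem' := by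
    intro T hT p
    have := hT (T.symm p)
    rw [T.apply_symm_apply] at this
    exact this.symm

/-- A (topological) manifold: a Hausdorff second countable space in which every point has an open
neighbourhood homeomorphic to a Euclidean space (the dimension may depend on the point). -/
def IsMfd (M : Type) [TopologicalSpace M] : Prop :=
  T2Space M ∧ SecondCountableTopology M ∧
    ∀ x : M, ∃ (n : ℕ) (e : EuclideanSpace ℝ (Fin n) → M), IsOpenEmbedding e ∧ x ∈ range e

variable {X : Type} [TopologicalSpace X] {Γ : Type} [Group Γ]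

/-- `h` is the identity outside `A`. -/
def Sup (h : X ≃ₜ X) (A : Set X) : Prop := ∀ x, x ∉ A → h x = x

/-- The action `ρ` is locally transitive: for `x ∈ B`, `B` open, the elements supported in `B`
move `x` to all points of a neighbourhood `D ⊆ B` of `x`. -/
def LT (ρ : Γ →* (X ≃ₜ X)) : Prop :=
  ∀ (x : X) (B : Set X), IsOpen B → x ∈ B → ∃ D : Set X, IsOpen D ∧ x ∈ D ∧ D ⊆ B ∧
    ∀ y ∈ D, ∃ g : Γ, Sup (ρ g) B ∧ ρ g x = y

/-- In each nonempty open set there is supported an element whose twelfth power acts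
nontrivially. -/
def P12 (ρ : Γ →* (X ≃ₜ X)) : Prop :=
  ∀ B : Set X, IsOpen B → B.Nonempty → ∃ g : Γ, Sup (ρ g) B ∧ ρ (g ^ 12) ≠ 1

/-- The flat part of a function: the non-isolated points near which the function is constant. -/
def flat {N : Type} [TopologicalSpace N] (f : N → ℝ) : Set N :=
  {y | (∃ B : Set N, IsOpen B ∧ y ∈ B ∧ ∀ z ∈ B, f z = f y) ∧ ¬ IsOpen ({y} : Set N)}

lemma flat_apply {N : Type} [TopologicalSpace N] {f : N → ℝ} {T : N ≃ₜ N}
    (hT : T ∈ levelGroup f) {y : N} (hy : y ∈ flat f) : T y ∈ flat f := by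
  obtain ⟨⟨B, hB, hyB, hc⟩, hiso⟩ := hy
  refine ⟨⟨T '' B, T.isOpenMap B hB, mem_image_of_mem T hyB, ?_⟩, fun h => hiso ?_⟩
  · rintro _ ⟨z, hz, rfl⟩
    rw [hT z, hT y, hc z hz]
  · have : ({y} : Set N) = T ⁻¹' {T y} := by
      ext z; simp
    rw [this]
    exact h.preimage T.continuous

lemma flat_apply_iff {N : Type} [TopologicalSpace N] {f : N → ℝ} {T : N ≃ₜ N}
    (hT : T ∈ levelGroup f) {y : N} : T y ∈ flat f ↔ y ∈ flat f := by
  refine ⟨fun h => ?_, flat_apply hT⟩
  have := flat_apply ((levelGroup f).inv_mem hT) h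
  have h2 : (T⁻¹ : N ≃ₜ N) (T y) = y := T.symm_apply_apply y
  rwa [h2] at this

/-- The action of the level group on the flat part. -/
def rst {N : Type} [TopologicalSpace N] (f : N → ℝ) :
    levelGroup f →* (flat f ≃ₜ flat f) where
  toFun T :=
    { toFun := fun y => ⟨T.1 y.1, flat_apply T.2 y.2⟩
      invFun := fun y => ⟨T.1.symm y.1, flat_apply ((levelGroup f).inv_mem T.2) y.2⟩
      left_inv := fun y => Subtype.ext (T.1.symm_apply_apply y.1)
      right_inv := fun y => Subtype.ext (T.1.apply_symm_apply y.1)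
      continuous_toFun := (T.1.continuous.comp continuous_subtype_val).subtype_mk _
      continuous_invFun := (T.1.symm.continuous.comp continuous_subtype_val).subtype_mk _ }
  map_one' := by ext y; rfl
  map_mul' := by intro S T; ext y; rfl

@[simp] lemma rst_apply {N : Type} [TopologicalSpace N] (f : N → ℝ) (T : levelGroup f)
    (y : flat f) : ((rst f T) y : N) = T.1 y.1 := rfl

end Pool.Agent.H756.LS
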