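import Pool.Agent.H756.LS.Uni
import Pool.Agent.H756.LS.Flt

/-!
# Long connected sets near the boundary of an open set (task END1)

`W` is a connected open subset of the manifold `N`, not closed, regular at its boundary points, and `N` has
dimension at least two at these points.

Paper proof. `N` is locally connected (`locallyConnected`) and locally compact. Take `p₀ ∈ closure W \ W`, `N₀` the
connected component of `p₀` (open); `W ⊆ N₀` (`W ∪ {p₀}` is connected). By `hreg` there is `a ∈ N₀ \ closure W`. Let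
`C = connectedComponentIn Wᶜ a`: closed, preconnected, `C ⊆ Wᶜ`, `C ⊆ N₀`. `N₀` is
preconnected and meets `C` and `Cᶜ ⊇ W`, so there is `p ∈ N₀ ∩ frontier C` (`IsPreconnected.inter_frontier_nonempty`-type
lemma), `p ∈ C`. `p ∈ closure W`: otherwise some connected open neighbourhood `G` of `p` is contained in `Wᶜ`, then `G ∪ C`
is connected, `G ⊆ C` and `p ∈ interior C`. So `p ∈ closure W \ W`; let `e` be a chart at `p` of dimension `n ≥ 2`,
`e 0 = p` (translate). Fix `w₀ ∈ W`. Choose `R > 0` such that `a, w₀ ∉ e '' closedBall 0 R`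
(`a ≠ p`, `w₀ ≠ p`). `O = e '' ball 0 R`.
Now let `K ⊆ W` be compact and `O'` open, `p ∈ O'`. Shrink `O'`: `O' = e '' ball 0 r'`, `r' < R`, `O' ∩ K = ∅`
(`p ∉ K`). Take `w ∈ W ∩ O'` and `E = connectedComponentIn (W \ K) w`: open (local connectedness), preconnected,
`w ∈ E ∩ O'`. Claim: `E ⊄ O`. Suppose `E ⊆ O`, `E' = e ⁻¹' E ⊆ ball 0 R`. Let `U` be from `uni` for `E'`, and
`Q = e '' Uᶜ` (compact, `⊆ e '' closedBall 0 R`), `F = e '' frontier U` (preconnected), `frontier Q ⊆ F`
(`Q` is compact so closed, and `e` is an open map). `F ⊆ closure E`, and `F ∩ E = ∅` because `E'` is open and contained in `Uᶜ`.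
`E` is relatively closed in `W \ K` (`closure E ∩ (W \ K) ⊆ E`, maximality), so `F ⊆ K ∪ Wᶜ`; `K` and `Wᶜ` are disjoint and closed, `F`
preconnected, so `F ⊆ Wᶜ` or `F ⊆ K`.
 * `F ⊆ Wᶜ`: `W` is connected, `w ∈ W ∩ Q` (`w ∈ E`, `E' ⊆ closure E' ⊆ Uᶜ`), `w₀ ∈ W \ Q`, so `W` meets
   `frontier Q ⊆ F ⊆ Wᶜ`: contradiction.
 * `F ⊆ K`: `O'` is connected, meets `Q` in `w`, and `O' ∩ frontier Q ⊆ O' ∩ K = ∅`, so `O' ⊆ Q`, `p ∈ Q`. `C` is
   preconnected, `p ∈ C ∩ Q`, `a ∈ C \ Q`, so `C` meets `frontier Q ⊆ F ⊆ K ⊆ W`, but `C ⊆ Wᶜ`: contradiction.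
-/

set_option autoImplicit false

open Set Topology Function

namespace Pool.Agent.H756.LS

/-- A preconnected set which meets `A` and its complement meets the frontier of `A`. -/
lemma end1_frontier {X : Type} [TopologicalSpace X] {S A : Set X} (hS : IsPreconnected S)
    {x y : X} (hx : x ∈ S) (hxA : x ∈ A) (hy : y ∈ S) (hyA : y ∉ A) :
    ∃ z ∈ S, z ∈ frontier A := by
  by_contra hcon
  push Not at hcon
  have hcov : S ⊆ interior A ∪ (closure A)ᶜ := by
    intro z hz
    by_cases h1 : z ∈ interior A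
    · exact Or.inl h1
    · refine Or.inr fun h2 => hcon z hz ⟨h2, h1⟩
  have h1 : (S ∩ interior A).Nonempty := by
    refine ⟨x, hx, ?_⟩
    rcases hcov hx with h | h
    · exact h
    · exact absurd (subset_closure hxA) h
  have h2 : (S ∩ (closure A)ᶜ).Nonempty := by
    refine ⟨y, hy, ?_⟩
    rcases hcov hy with h | h
    · exact absurd (interior_subset h) hyA
    · exact h
  obtain ⟨z, -, hz1, hz2⟩ := hS _ _ isOpen_interior isClosed_closure.isOpen_compl hcov h1 h2
  exact hz2 (subset_closure (interior_subset hz1))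

theorem end1 {N : Type} [TopologicalSpace N] (hN : IsMfd N) (W : Set N) (hW : IsOpen W)
    (hc : IsConnected W) (hreg : ∀ p ∈ closure W, p ∉ W → p ∈ closure (closure W)ᶜ)
    (hdim : ∀ p ∈ closure W, p ∉ W → ∃ n : ℕ, 2 ≤ n ∧
      ∃ e : EuclideanSpace ℝ (Fin n) → N, IsOpenEmbedding e ∧ p ∈ range e)
    (hncl : ¬ IsClosed W) :
    ∃ p ∈ closure W, p ∉ W ∧ ∃ O : Set N, IsOpen O ∧ p ∈ O ∧
      ∀ K : Set N, IsCompact K → K ⊆ W → ∀ O' : Set N, IsOpen O' → p ∈ O' →
        ∃ E : Set N, IsOpen E ∧ IsPreconnected E ∧ E ⊆ W \ K ∧ (E ∩ O').Nonempty ∧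
          ¬ E ⊆ O := by
  have : T2Space N := hN.1
  have : LocallyConnectedSpace N := locallyConnected hN
  obtain ⟨w₀, hw₀⟩ := hc.1
  -- a boundary point and its component
  obtain ⟨p₀, hp₀, hp₀W⟩ : ∃ p₀ ∈ closure W, p₀ ∉ W := by
    by_contra hcon
    push Not at hcon
    exact hncl (isClosed_of_closure_subset fun x hx => hcon x hx)
  have hWN₀ : W ⊆ connectedComponent p₀ := by
    have h1 : IsPreconnected (insert p₀ W) :=
      hc.2.subset_closure (subset_insert _ _) (insert_subset hp₀ subset_closure)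
    exact (subset_insert _ _).trans (h1.subset_connectedComponent (mem_insert _ _))
  have hN₀ : IsOpen (connectedComponent p₀) := isOpen_connectedComponent
  obtain ⟨a, haN, haW⟩ : ∃ a ∈ connectedComponent p₀, a ∈ (closure W)ᶜ :=
    mem_closure_iff.1 (hreg p₀ hp₀ hp₀W) _ hN₀ mem_connectedComponent
  have haW' : a ∈ Wᶜ := fun h => haW (subset_closure h)
  -- the component of `a` in the complement
  set C : Set N := connectedComponentIn Wᶜ a with hC
  have hCc : IsPreconnected C := isPreconnected_connectedComponentIn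
  have hCW : C ⊆ Wᶜ := connectedComponentIn_subset _ _
  have haC : a ∈ C := mem_connectedComponentIn haW'
  have hCcl : IsClosed C := by
    refine isClosed_of_closure_subset ?_
    refine IsPreconnected.subset_connectedComponentIn hCc.closure (subset_closure haC) ?_
    exact closure_minimal hCW hW.isClosed_compl
  obtain ⟨p, hpN, hpC⟩ := end1_frontier (A := C) isPreconnected_connectedComponent haN haC
    (hWN₀ hw₀) (fun h => hCW h hw₀)
  have hpC' : p ∈ C := hCcl.frontier_subset hpC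
  have hpW : p ∉ W := hCW hpC'
  have hpcl : p ∈ closure W := by
    by_contra hcon
    have h1 : (closure W)ᶜ ∈ 𝓝 p := isClosed_closure.isOpen_compl.mem_nhds hcon
    set G : Set N := connectedComponentIn (closure W)ᶜ p with hG
    have hG1 : G ∈ 𝓝 p := connectedComponentIn_mem_nhds h1
    have hG2 : IsPreconnected G := isPreconnected_connectedComponentIn
    have hG3 : G ⊆ Wᶜ := fun x hx h => connectedComponentIn_subset _ _ hx (subset_closure h)
    have hpG : p ∈ G := mem_of_mem_nhds hG1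
    have h2 : IsPreconnected (G ∪ C) := IsPreconnected.union p hpG hpC' hG2 hCc
    have h3 : G ∪ C ⊆ C :=
      h2.subset_connectedComponentIn (Or.inr haC) (union_subset hG3 hCW)
    have h4 : C ∈ 𝓝 p := Filter.mem_of_superset hG1 (subset_union_left.trans h3)
    exact hpC.2 (mem_interior_iff_mem_nhds.2 h4)
  -- the chart
  obtain ⟨n, hn, e₀, he₀, v₀, hv₀⟩ := hdim p hpcl hpW
  set e : EuclideanSpace ℝ (Fin n) → N := fun v => e₀ (v + v₀) with he_def
  have he : IsOpenEmbedding e := he₀.comp (Homeomorph.addRight v₀).isOpenEmbedding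
  have he0 : e 0 = p := by simp [he_def, hv₀]
  have hap : a ≠ p := fun h => haW (h ▸ hpcl)
  have hwp : w₀ ≠ p := fun h => hpW (h ▸ hw₀)
  obtain ⟨R, hR, hR1⟩ : ∃ R > 0, Metric.closedBall (0 : EuclideanSpace ℝ (Fin n)) R ⊆
      e ⁻¹' ({a, w₀} : Set N)ᶜ := by
    have h1 : IsOpen (e ⁻¹' ({a, w₀} : Set N)ᶜ) :=
      (Set.toFinite ({a, w₀} : Set N)).isClosed.isOpen_compl.preimage he.continuous
    have h2 : (0 : EuclideanSpace ℝ (Fin n)) ∈ e ⁻¹' ({a, w₀} : Set N)ᶜ := by
      simp only [mem_preimage, he0, mem_compl_iff, mem_insert_iff, mem_singleton_iff, not_or]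
      exact ⟨hap.symm, hwp.symm⟩
    exact Metric.nhds_basis_closedBall.mem_iff.1 (h1.mem_nhds h2)
  have haR : a ∉ e '' Metric.closedBall 0 R := by
    rintro ⟨v, hv, hva⟩
    exact hR1 hv (by simp [hva])
  have hwR : w₀ ∉ e '' Metric.closedBall 0 R := by
    rintro ⟨v, hv, hva⟩
    exact hR1 hv (by simp [hva])
  refine ⟨p, hpcl, hpW, e '' Metric.ball 0 R, he.isOpenMap _ Metric.isOpen_ball,
    ⟨0, Metric.mem_ball_self hR, he0⟩, ?_⟩
  intro K hK hKW O' hO' hpO'
  -- a small ball
  obtain ⟨r, hr, hr1⟩ : ∃ r > 0, Metric.ball (0 : EuclideanSpace ℝ (Fin n)) r ⊆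
      e ⁻¹' (O' ∩ Kᶜ) := by
    have h1 : IsOpen (e ⁻¹' (O' ∩ Kᶜ)) :=
      (hO'.inter hK.isClosed.isOpen_compl).preimage he.continuous
    have h2 : (0 : EuclideanSpace ℝ (Fin n)) ∈ e ⁻¹' (O' ∩ Kᶜ) := by
      show e 0 ∈ O' ∩ Kᶜ
      rw [he0]
      exact ⟨hpO', fun h => hpW (hKW h)⟩
    exact Metric.isOpen_iff.1 h1 0 h2
  set B : Set N := e '' Metric.ball 0 r with hB
  have hBo : IsOpen B := he.isOpenMap _ Metric.isOpen_ball
  have hpB : p ∈ B := ⟨0, Metric.mem_ball_self hr, he0⟩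
  have hBO' : B ⊆ O' := by
    rintro _ ⟨v, hv, rfl⟩
    exact (hr1 hv).1
  have hBK : ∀ x ∈ B, x ∉ K := by
    rintro _ ⟨v, hv, rfl⟩
    exact (hr1 hv).2
  have hBc : IsPreconnected B :=
    (convex_ball _ _).isPreconnected.image _ he.continuous.continuousOn
  obtain ⟨w, hwB, hwW⟩ : (B ∩ W).Nonempty := mem_closure_iff.1 hpcl B hBo hpB
  have hwK : w ∉ K := hBK w hwB
  have hWK : IsOpen (W \ K) := hW.sdiff hK.isClosed
  set E : Set N := connectedComponentIn (W \ K) w with hE
  have hEo : IsOpen E := hWK.connectedComponentIn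
  have hEc : IsPreconnected E := isPreconnected_connectedComponentIn
  have hEW : E ⊆ W \ K := connectedComponentIn_subset _ _
  have hwE : w ∈ E := mem_connectedComponentIn ⟨hwW, hwK⟩
  refine ⟨E, hEo, hEc, hEW, ⟨w, hwE, hBO' hwB⟩, ?_⟩
  intro hEO
  -- `E` seen in the chart
  set E' : Set (EuclideanSpace ℝ (Fin n)) := e ⁻¹' E with hE'
  have hEr : E ⊆ range e := hEO.trans (image_subset_range _ _)
  have hEE' : e '' E' = E := by
    rw [hE', image_preimage_eq_inter_range, inter_eq_left.2 hEr]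
  have hE'c : IsPreconnected E' := by
    rw [← he.isInducing.isPreconnected_image, hEE']
    exact hEc
  have hE'b : E' ⊆ Metric.ball 0 R := by
    intro v hv
    obtain ⟨v', hv', hvv⟩ := hEO hv
    rwa [← he.injective hvv]
  obtain ⟨U, hU, hUR, hEU, hUE, hUc⟩ := uni n hn E' hE'c R hR hE'b
  set Q : Set N := e '' Uᶜ with hQ
  have hQR : Q ⊆ e '' Metric.closedBall 0 R := image_mono hUR
  have hQcl : IsClosed Q := by
    have h1 : IsCompact (Uᶜ) :=
      (isCompact_closedBall (0 : EuclideanSpace ℝ (Fin n)) R).of_isClosed_subset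
        hU.isClosed_compl hUR
    exact (h1.image he.continuous).isClosed
  set F : Set N := e '' frontier U with hF
  have hFc : IsPreconnected F := hUc.image _ he.continuous.continuousOn
  have hQF : frontier Q ⊆ F := by
    intro x hx
    obtain ⟨v, hv, rfl⟩ := hQcl.frontier_subset hx
    refine ⟨v, ?_, rfl⟩
    by_contra hcon
    have h1 : v ∈ interior Uᶜ := by
      rw [← frontier_compl] at hcon
      by_contra h2
      exact hcon ⟨subset_closure hv, h2⟩
    have h2 : e v ∈ interior Q := by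
      refine mem_interior.2 ⟨e '' interior Uᶜ, image_mono interior_subset,
        he.isOpenMap _ isOpen_interior, ⟨v, h1, rfl⟩⟩
    exact hx.2 h2
  have hFE : F ⊆ closure E := by
    rintro _ ⟨v, hv, rfl⟩
    have h1 : e v ∈ e '' closure E' := ⟨v, hUE hv, rfl⟩
    have h2 := image_closure_subset_closure_image he.continuous h1
    rwa [hEE'] at h2
  have hFnE : ∀ x ∈ F, x ∉ E := by
    rintro _ ⟨v, hv, rfl⟩ hvE
    have h1 : IsOpen E' := hEo.preimage he.continuous
    have h2 : v ∈ closure U := frontier_subset_closure hv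
    obtain ⟨u, hu1, hu2⟩ := mem_closure_iff.1 h2 E' h1 hvE
    exact hEU (subset_closure hu1) hu2
  have hEcl : ∀ x ∈ closure E, x ∈ W \ K → x ∈ E := by
    intro x hx hxW
    have h1 : IsPreconnected (insert x E) :=
      hEc.subset_closure (subset_insert _ _) (insert_subset hx subset_closure)
    exact h1.subset_connectedComponentIn (mem_insert_of_mem _ hwE) (insert_subset hxW hEW)
      (mem_insert _ _)
  have hFKW : F ⊆ K ∪ Wᶜ := by
    intro x hx
    by_contra hcon
    simp only [mem_union, mem_compl_iff, not_or, not_not] at hcon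
    exact hFnE x hx (hEcl x (hFE hx) ⟨hcon.2, hcon.1⟩)
  have hwQ : w ∈ Q := by
    obtain ⟨v, hv⟩ := hEr hwE
    have h1 : v ∈ E' := by
      show e v ∈ E
      rw [hv]; exact hwE
    exact ⟨v, hEU (subset_closure h1), hv⟩
  have hw₀Q : w₀ ∉ Q := fun h => hwR (hQR h)
  have haQ : a ∉ Q := fun h => haR (hQR h)
  -- a point of `F` in `W`, hence in `K`
  obtain ⟨z, hzW, hzF⟩ := end1_frontier (A := Q) hc.2 hwW hwQ hw₀ hw₀Q
  have hzF' : z ∈ F := hQF hzF
  have hzK : z ∈ K := by
    rcases hFKW hzF' with h | h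
    · exact h
    · exact absurd hzW h
  have hFK : F ⊆ K := by
    intro x hx
    by_contra hxK
    have hxW : x ∈ Wᶜ := (hFKW hx).resolve_left hxK
    obtain ⟨y, -, hy1, hy2⟩ := (isPreconnected_closed_iff.1 hFc) K Wᶜ hK.isClosed
      hW.isClosed_compl hFKW ⟨z, hzF', hzK⟩ ⟨x, hx, hxW⟩
    exact hy2 (hKW hy1)
  have hpQ : p ∈ Q := by
    by_contra hcon
    obtain ⟨y, hyB, hyQ⟩ := end1_frontier (A := Q) hBc hwB hwQ hpB hcon
    exact hBK y hyB (hFK (hQF hyQ))
  obtain ⟨y, hyC, hyQ⟩ := end1_frontier (A := Q) hCc hpC' hpQ haC haQ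
  exact hCW hyC (hKW (hFK (hQF hyQ)))

end Pool.Agent.H756.LS
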