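import Pool.Agent.H756.LS.Flt

/-!
# A homeomorphism of an open set which does not extend (task END2)

Paper proof. `N` is locally compact, Hausdorff, second countable; `W` is open, so there is an exhaustion
`K_0 ⊆ K_1 ⊆ …` of `W` by compact sets with `K_j ⊆ interior K_{j+1}` and union `W`
(`CompactExhaustion` of the subtype `W`, or by hand). Let `O'_0 ⊇ O'_1 ⊇ …` be a neighbourhood basis of `p` (open
sets; `N` is first countable). Construct by recursion compact sets `L_k ⊆ W`, points `x_k, y_k ∈ L_k` and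
homeomorphisms `h_k : N ≃ₜ N` with `Sup h_k L_k`, `h_k x_k = y_k`, `x_k ∈ O'_k`, `y_k ∉ O`, and `L_k` disjoint
from `K_k ∪ L_0 ∪ … ∪ L_{k-1}`: apply `H` to the compact set `K_k ∪ L_0 ∪ … ∪ L_{k-1}` and `O'_k` to get `E`, choose
`x_k ∈ E ∩ O'_k`, `y_k ∈ E \ O`, and `exists_move` for `E` (all points of `W` are non-isolated).
The family `(L_k)` is pairwise disjoint and locally finite in `W` (`interior K_j` misses `L_k` for `k ≥ j`).
Define `h : W ≃ₜ W` by `h z = h_{2k} z` for `z ∈ L_{2k}` and `h z = z` if `z` is in no `L_{2k}` (`h_{2k}` maps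
`L_{2k}` onto itself). On `interior K_j` (an open cover of `W`) `h` agrees with the finite composition
`h_0 ∘ h_2 ∘ … ∘ h_{2j}` (disjoint supports), so `h` is continuous, and so is its inverse.
Suppose `T : N ≃ₜ N` satisfies `T w = h w` for all `w ∈ W`. `x_k → p`, so `T p = lim T x_{2k} = lim y_{2k} ∉ O` (`Oᶜ` is
closed), and `T p = lim T x_{2k+1} = lim x_{2k+1} = p ∈ O` (`x_{2k+1} ∈ L_{2k+1}` is in no `L_{2j}`): contradiction.
-/

set_option autoImplicit false

open Set Topology Function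

namespace Pool.Agent.H756.LS

namespace End2

/-- local continuity of a map which is `g k` on the disjoint closed sets `L k` and the identity
elsewhere -/
theorem contAt {N : Type} [TopologicalSpace N] (L : ℕ → Set N) (hcl : ∀ k, IsClosed (L k))
    (hdis : ∀ i k, i ≠ k → Disjoint (L i) (L k)) (g : ℕ → N → N) (hg : ∀ k, Continuous (g k))
    (hs : ∀ k z, z ∉ L k → g k z = z) (F : N → N) (hF1 : ∀ k z, z ∈ L k → F z = g k z)
    (hF2 : ∀ z, (∀ k, z ∉ L k) → F z = z) (w : N) (U : Set N) (hU : U ∈ 𝓝 w) (j : ℕ)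
    (hfin : ∀ k, j ≤ k → Disjoint (L k) U) : ContinuousAt F w := by
  classical
  by_cases hw : ∃ k, w ∈ L k
  · obtain ⟨k0, hk0⟩ := hw
    have hV : U ∩ (⋃ k ∈ (Finset.range j).filter (fun k => k ≠ k0), L k)ᶜ ∈ 𝓝 w := by
      refine Filter.inter_mem hU ?_
      apply IsOpen.mem_nhds
      · exact (isClosed_biUnion_finset (fun k _ => hcl k)).isOpen_compl
      · simp only [mem_compl_iff, mem_iUnion, not_exists]
        intro k hk hwk
        exact (disjoint_left.1 (hdis k k0 (Finset.mem_filter.1 hk).2)) hwk hk0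
    have hE : F =ᶠ[𝓝 w] g k0 := by
      filter_upwards [hV] with z hz
      by_cases hz0 : z ∈ L k0
      · exact hF1 k0 z hz0
      · rw [hs k0 z hz0]
        apply hF2
        intro k hk
        have hkj : k < j := by
          by_contra hcon
          exact disjoint_left.1 (hfin k (not_lt.1 hcon)) hk hz.1
        apply hz.2
        simp only [mem_iUnion]
        refine ⟨k, Finset.mem_filter.2 ⟨Finset.mem_range.2 hkj, ?_⟩, hk⟩
        rintro rfl
        exact hz0 hk
    exact ((hg k0).continuousAt).congr hE.symm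
  · push Not at hw
    have hV : U ∩ (⋃ k ∈ (Finset.range j), L k)ᶜ ∈ 𝓝 w := by
      refine Filter.inter_mem hU ?_
      apply IsOpen.mem_nhds
      · exact (isClosed_biUnion_finset (fun k _ => hcl k)).isOpen_compl
      · simp only [mem_compl_iff, mem_iUnion, not_exists]
        intro k _
        exact hw k
    have hE : F =ᶠ[𝓝 w] fun z => z := by
      filter_upwards [hV] with z hz
      apply hF2
      intro k hk
      have hkj : k < j := by
        by_contra hcon
        exact disjoint_left.1 (hfin k (not_lt.1 hcon)) hk hz.1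
      apply hz.2
      simp only [mem_iUnion]
      exact ⟨k, Finset.mem_range.2 hkj, hk⟩
    exact (continuousAt_id).congr hE.symm

theorem sup_mem {N : Type} [TopologicalSpace N] {h : N ≃ₜ N} {L : Set N} (hs : Sup h L) {z : N}
    (hz : z ∈ L) : h z ∈ L := by
  by_contra hcon
  have h1 : h z = z := h.injective (hs (h z) hcon)
  rw [h1] at hcon
  exact hcon hz

theorem sup_symm {N : Type} [TopologicalSpace N] {h : N ≃ₜ N} {L : Set N} (hs : Sup h L) :
    Sup h.symm L := by
  intro z hz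
  rw [Homeomorph.symm_apply_eq]
  exact (hs z hz).symm

/-- the glued homeomorphism -/
theorem glue {N : Type} [TopologicalSpace N] (W : Set N) (L : ℕ → Set N)
    (hcl : ∀ k, IsClosed (L k)) (hLW : ∀ k, L k ⊆ W)
    (hdis : ∀ i k, i ≠ k → Disjoint (L i) (L k)) (g : ℕ → (N ≃ₜ N))
    (hs : ∀ k, Sup (g k) (L k))
    (hloc : ∀ w ∈ W, ∃ U ∈ 𝓝 w, ∃ j : ℕ, ∀ k, j ≤ k → Disjoint (L k) U) :
    ∃ h : W ≃ₜ W, ∀ k (w : W), (w : N) ∈ L k → (h w : N) = g k w := by
  classical
  -- the map glued from a family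
  have key : ∀ g : ℕ → (N ≃ₜ N), (∀ k, Sup (g k) (L k)) → ∃ F : N → N,
      (∀ k z, z ∈ L k → F z = g k z) ∧ (∀ z, (∀ k, z ∉ L k) → F z = z) := by
    intro g _
    refine ⟨fun z => if hz : ∃ k, z ∈ L k then g hz.choose z else z, ?_, ?_⟩
    · intro k z hz
      have hex : ∃ k, z ∈ L k := ⟨k, hz⟩
      have hk : hex.choose = k := by
        by_contra hne
        exact disjoint_left.1 (hdis _ _ hne) hex.choose_spec hz
      simp only [hex, dite_true]
      rw [hk]
    · intro z hz
      have hex : ¬ ∃ k, z ∈ L k := by push Not; exact hz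
      simp only [hex, dite_false]
  obtain ⟨F, hF1, hF2⟩ := key g hs
  obtain ⟨G, hG1, hG2⟩ := key (fun k => (g k).symm) (fun k => sup_symm (hs k))
  have hFW : ∀ z ∈ W, F z ∈ W := by
    intro z hz
    by_cases hk : ∃ k, z ∈ L k
    · obtain ⟨k, hk⟩ := hk
      rw [hF1 k z hk]
      exact hLW k (sup_mem (hs k) hk)
    · push Not at hk
      rw [hF2 z hk]; exact hz
  have hGW : ∀ z ∈ W, G z ∈ W := by
    intro z hz
    by_cases hk : ∃ k, z ∈ L k
    · obtain ⟨k, hk⟩ := hk
      rw [hG1 k z hk]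
      exact hLW k (sup_mem (sup_symm (hs k)) hk)
    · push Not at hk
      rw [hG2 z hk]; exact hz
  have hGF : ∀ z, G (F z) = z := by
    intro z
    by_cases hk : ∃ k, z ∈ L k
    · obtain ⟨k, hk⟩ := hk
      rw [hF1 k z hk, hG1 k _ (sup_mem (hs k) hk)]
      exact (g k).symm_apply_apply z
    · push Not at hk
      rw [hF2 z hk, hG2 z hk]
  have hFG : ∀ z, F (G z) = z := by
    intro z
    by_cases hk : ∃ k, z ∈ L k
    · obtain ⟨k, hk⟩ := hk
      rw [hG1 k z hk, hF1 k _ (sup_mem (sup_symm (hs k)) hk)]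
      exact (g k).apply_symm_apply z
    · push Not at hk
      rw [hG2 z hk, hF2 z hk]
  have hFc : ContinuousOn F W := by
    intro w hw
    obtain ⟨U, hU, j, hj⟩ := hloc w hw
    exact (contAt L hcl hdis (fun k => g k) (fun k => (g k).continuous) hs F hF1 hF2 w U hU j
      hj).continuousWithinAt
  have hGc : ContinuousOn G W := by
    intro w hw
    obtain ⟨U, hU, j, hj⟩ := hloc w hw
    exact (contAt L hcl hdis (fun k => (g k).symm) (fun k => (g k).symm.continuous)
      (fun k => sup_symm (hs k)) G hG1 hG2 w U hU j hj).continuousWithinAt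
  refine ⟨{ toFun := fun w => ⟨F w.1, hFW w.1 w.2⟩
            invFun := fun w => ⟨G w.1, hGW w.1 w.2⟩
            left_inv := fun w => Subtype.ext (hGF w.1)
            right_inv := fun w => Subtype.ext (hFG w.1)
            continuous_toFun := (continuousOn_iff_continuous_domRestrict.1 hFc).subtype_mk _
            continuous_invFun := (continuousOn_iff_continuous_domRestrict.1 hGc).subtype_mk _ }, ?_⟩
  intro k w hw
  exact hF1 k w.1 hw

/-- the recursion -/
theorem recur {N : Type} [TopologicalSpace N] (W : Set N) (K : ℕ → Set N)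
    (hK : ∀ k, IsCompact (K k)) (hKW : ∀ k, K k ⊆ W) (O : Set N) (O' : ℕ → Set N)
    (step : ∀ (k : ℕ) (C : Set N), IsCompact C → C ⊆ W → ∃ (L : Set N) (x y : N) (h : N ≃ₜ N),
      IsCompact L ∧ L ⊆ W \ C ∧ x ∈ L ∧ y ∈ L ∧ x ∈ O' k ∧ y ∉ O ∧ Sup h L ∧ h x = y) :
    ∃ (L : ℕ → Set N) (x y : ℕ → N) (h : ℕ → (N ≃ₜ N)),
      (∀ k, IsCompact (L k)) ∧ (∀ k, L k ⊆ W) ∧ (∀ k, Disjoint (L k) (K k)) ∧
      (∀ i k, i ≠ k → Disjoint (L i) (L k)) ∧ (∀ k, x k ∈ L k) ∧ (∀ k, x k ∈ O' k) ∧
      (∀ k, y k ∉ O) ∧ (∀ k, Sup (h k) (L k)) ∧ (∀ k, h k (x k) = y k) := by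
  classical
  choose L x y h hL1 hL2 hx hy hxO hyO hs hxy using step
  -- accumulated compact sets
  let S : ℕ → {C : Set N // IsCompact C ∧ C ⊆ W} := fun k =>
    Nat.rec ⟨∅, isCompact_empty, empty_subset _⟩
      (fun k C => ⟨C.1 ∪ L k (K k ∪ C.1) ((hK k).union C.2.1) (union_subset (hKW k) C.2.2),
        C.2.1.union (hL1 _ _ _ _),
        union_subset C.2.2 ((hL2 _ _ _ _).trans sdiff_subset)⟩) k
  have hS : ∀ k, (S (k + 1)).1 = (S k).1 ∪
      L k (K k ∪ (S k).1) ((hK k).union (S k).2.1) (union_subset (hKW k) (S k).2.2) :=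
    fun k => rfl
  let L' : ℕ → Set N := fun k =>
    L k (K k ∪ (S k).1) ((hK k).union (S k).2.1) (union_subset (hKW k) (S k).2.2)
  have hmono : ∀ i k, i ≤ k → (S i).1 ⊆ (S k).1 := by
    intro i k hik
    induction hik with
    | refl => exact Subset.rfl
    | step _ ih => exact ih.trans (by rw [hS]; exact subset_union_left)
  have hsub : ∀ i k, i < k → L' i ⊆ (S k).1 := by
    intro i k hik
    refine Subset.trans ?_ (hmono (i + 1) k hik)
    rw [hS]
    exact subset_union_right
  have hlt : ∀ i k, i < k → Disjoint (L' i) (L' k) := by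
    intro i k hik
    rw [disjoint_left]
    intro z hz hz'
    exact ((hL2 _ _ _ _) hz').2 (Or.inr (hsub i k hik hz))
  refine ⟨L', fun k => x k _ ((hK k).union (S k).2.1) (union_subset (hKW k) (S k).2.2),
    fun k => y k _ ((hK k).union (S k).2.1) (union_subset (hKW k) (S k).2.2),
    fun k => h k _ ((hK k).union (S k).2.1) (union_subset (hKW k) (S k).2.2),
    fun k => hL1 _ _ _ _, fun k => (hL2 _ _ _ _).trans sdiff_subset, ?_, ?_, fun k => hx _ _ _ _,
    fun k => hxO _ _ _ _, fun k => hyO _ _ _ _, fun k => hs _ _ _ _, fun k => hxy _ _ _ _⟩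
  · intro k
    rw [disjoint_left]
    intro z hz hz'
    exact ((hL2 _ _ _ _) hz).2 (Or.inl hz')
  · intro i k hik
    rcases lt_or_gt_of_ne hik with h | h
    · exact hlt i k h
    · exact (hlt k i h).symm

end End2

theorem end2 {N : Type} [TopologicalSpace N] (hN : IsMfd N) (W : Set N) (hW : IsOpen W)
    (hiso : ∀ y ∈ W, ¬ IsOpen ({y} : Set N)) (p : N) (hp : p ∉ W) (O : Set N) (hO : IsOpen O)
    (hpO : p ∈ O)
    (H : ∀ K : Set N, IsCompact K → K ⊆ W → ∀ O' : Set N, IsOpen O' → p ∈ O' →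
        ∃ E : Set N, IsOpen E ∧ IsPreconnected E ∧ E ⊆ W \ K ∧ (E ∩ O').Nonempty ∧
          ¬ E ⊆ O) :
    ∃ h : W ≃ₜ W, ∀ T : N ≃ₜ N, ∃ w : W, T w ≠ h w := by
  classical
  have : T2Space N := hN.1
  have : SecondCountableTopology N := hN.2.1
  have : LocallyCompactSpace N := locallyCompact hN
  have : LocallyCompactSpace W := hW.locallyCompactSpace
  let X : CompactExhaustion W := CompactExhaustion.choice W
  let K : ℕ → Set N := fun k => Subtype.val '' (X k)
  have hK : ∀ k, IsCompact (K k) := fun k => (X.isCompact k).image continuous_subtype_val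
  have hKW : ∀ k, K k ⊆ W := fun k => by
    rintro _ ⟨w, _, rfl⟩; exact w.2
  obtain ⟨B, hB⟩ := (𝓝 p).exists_antitone_basis
  let O' : ℕ → Set N := fun k => interior (B k)
  have hO'p : ∀ k, p ∈ O' k := fun k => mem_interior_iff_mem_nhds.2 (hB.1.mem_of_mem trivial)
  have step : ∀ (k : ℕ) (C : Set N), IsCompact C → C ⊆ W →
      ∃ (L : Set N) (x y : N) (h : N ≃ₜ N),
      IsCompact L ∧ L ⊆ W \ C ∧ x ∈ L ∧ y ∈ L ∧ x ∈ O' k ∧ y ∉ O ∧ Sup h L ∧ h x = y := by
    intro k C hC hCW
    obtain ⟨E, hEo, hEc, hEW, ⟨x, hxE, hxO⟩, hEO⟩ := H C hC hCW (O' k) isOpen_interior (hO'p k)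
    obtain ⟨y, hyE, hyO⟩ := not_subset.1 hEO
    obtain ⟨h, K₁, hK₁, hK₁E, hs, hxy⟩ := exists_move hN E hEo hEc
      (fun z hz => hiso z (hEW hz).1) x y hxE hyE
    refine ⟨K₁ ∪ {x} ∪ {y}, x, y, h, (hK₁.union isCompact_singleton).union isCompact_singleton,
      ?_, Or.inl (Or.inr rfl), Or.inr rfl, hxO, hyO, ?_, hxy⟩
    · refine Subset.trans (union_subset (union_subset hK₁E ?_) ?_) hEW
      · exact singleton_subset_iff.2 hxE
      · exact singleton_subset_iff.2 hyE
    · intro z hz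
      exact hs z (fun h' => hz (Or.inl (Or.inl h')))
  obtain ⟨L, x, y, g, hL1, hL2, hL3, hL4, hx1, hx2, hy, hs, hxy⟩ :=
    End2.recur W K hK hKW O O' step
  -- alternate with the identity
  let g' : ℕ → (N ≃ₜ N) := fun k => if k % 2 = 0 then g k else Homeomorph.refl N
  have hs' : ∀ k, Sup (g' k) (L k) := by
    intro k z hz
    by_cases hk : k % 2 = 0
    · simp only [g', hk, if_true]
      exact hs k z hz
    · simp only [g', hk, if_false]
      rfl
  have hloc : ∀ w ∈ W, ∃ U ∈ 𝓝 w, ∃ j : ℕ, ∀ k, j ≤ k → Disjoint (L k) U := by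
    intro w hw
    obtain ⟨j, hj⟩ := X.exists_mem ⟨w, hw⟩
    have hj' : (⟨w, hw⟩ : W) ∈ interior (X (j + 1)) := X.subset_interior_succ j hj
    refine ⟨Subtype.val '' interior (X (j + 1)), ?_, j + 1, ?_⟩
    · apply IsOpen.mem_nhds
      · exact hW.isOpenEmbedding_subtypeVal.isOpenMap _ isOpen_interior
      · exact ⟨_, hj', rfl⟩
    · intro k hk
      refine (hL3 k).mono_right ?_
      exact image_mono (interior_subset.trans (X.subset hk))
  obtain ⟨h, hh⟩ := End2.glue W L (fun k => (hL1 k).isClosed) hL2 hL4 g' hs' hloc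
  refine ⟨h, fun T => ?_⟩
  by_contra hcon
  push Not at hcon
  have hxlim : Filter.Tendsto x Filter.atTop (𝓝 p) :=
    hB.tendsto (fun k => interior_subset (hx2 k))
  have hT : Filter.Tendsto (fun k => T (x k)) Filter.atTop (𝓝 (T p)) :=
    (T.continuous.tendsto p).comp hxlim
  have hodd : Filter.Tendsto (fun k : ℕ => 2 * k + 1) Filter.atTop Filter.atTop :=
    Filter.tendsto_atTop_mono (fun k => (by simp only [id]; omega : id k ≤ 2 * k + 1))
      Filter.tendsto_id
  have heven : Filter.Tendsto (fun k : ℕ => 2 * k) Filter.atTop Filter.atTop :=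
    Filter.tendsto_atTop_mono (fun k => (by simp only [id]; omega : id k ≤ 2 * k))
      Filter.tendsto_id
  have hTx : ∀ k, T (x k) = g' k (x k) := by
    intro k
    have h1 := hcon ⟨x k, hL2 k (hx1 k)⟩
    have h2 := hh k ⟨x k, hL2 k (hx1 k)⟩ (hx1 k)
    rw [h2] at h1
    exact h1
  have h1 : ∀ k, T (x (2 * k + 1)) = x (2 * k + 1) := by
    intro k
    rw [hTx]
    have : ¬ (2 * k + 1) % 2 = 0 := by omega
    simp only [g', this, if_false]
    rfl
  have h2 : ∀ k, T (x (2 * k)) = y (2 * k) := by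
    intro k
    rw [hTx]
    have : (2 * k) % 2 = 0 := by omega
    simp only [g', this, if_true]
    exact hxy _
  have hTp : T p = p := by
    refine tendsto_nhds_unique (hT.comp hodd) ?_
    have : (fun k => T (x k)) ∘ (fun k : ℕ => 2 * k + 1) = x ∘ (fun k : ℕ => 2 * k + 1) := by
      funext k; exact h1 k
    rw [this]
    exact hxlim.comp hodd
  have h3 := (hT.comp heven).eventually (hO.mem_nhds (hTp.symm ▸ hpO))
  obtain ⟨k, hk⟩ := h3.exists
  apply hy (2 * k)
  rw [← h2]
  exact hk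

end Pool.Agent.H756.LS
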