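import Pool.Agent.H756.LS.Flt

/-!
# Gluing components (task GLU)

* `glue`: each component `C` of `M` is open and `κ` is an open embedding on `C`, so `κ` is continuous and open; injective by `hdis`.
  `κ '' C` is clopen, connected and nonempty, so it is a component of `N`; `range κ` is a union of components of the locally
  connected space `N`, so its complement is a union of (open) components too.
-/

set_option autoImplicit false

open Set Topology Function

namespace Pool.Agent.H756.LS

theorem glue {M N : Type} [TopologicalSpace M] [TopologicalSpace N] (hM : IsMfd M)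
    (hN : IsMfd N) (κ : M → N)
    (hloc : ∀ x : M, IsOpenEmbedding (fun z : connectedComponent x => κ z))
    (hcl : ∀ x : M, IsClosed (κ '' connectedComponent x))
    (hdis : ∀ x y : M, connectedComponent x ≠ connectedComponent y →
      Disjoint (κ '' connectedComponent x) (κ '' connectedComponent y)) :
    IsOpenEmbedding κ ∧ IsClopen (range κ) := by
  have h1 := locallyConnected hM
  have h2 := locallyConnected hN
  have hCo : ∀ x : M, IsOpen (connectedComponent x) := fun x => isOpen_connectedComponent
  have hcont : Continuous κ := by
    rw [continuous_iff_continuousAt]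
    intro x
    have h3 : ContinuousOn κ (connectedComponent x) :=
      continuousOn_iff_continuous_domRestrict.2 (hloc x).continuous
    exact h3.continuousAt ((hCo x).mem_nhds mem_connectedComponent)
  have himg : ∀ (x : M) (U : Set M), IsOpen U → IsOpen (κ '' (connectedComponent x ∩ U)) := by
    intro x U hU
    have h3 := (hloc x).isOpenMap (Subtype.val ⁻¹' U) (hU.preimage continuous_subtype_val)
    have h4 : (fun z : connectedComponent x => κ z) '' (Subtype.val ⁻¹' U) =
        κ '' (connectedComponent x ∩ U) := by
      ext y
      constructor
      · rintro ⟨z, hz, rfl⟩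
        exact ⟨z.1, ⟨z.2, hz⟩, rfl⟩
      · rintro ⟨z, ⟨hz1, hz2⟩, rfl⟩
        exact ⟨⟨z, hz1⟩, hz2, rfl⟩
    rwa [h4] at h3
  have hopen : IsOpenMap κ := by
    intro U hU
    have h3 : κ '' U = ⋃ x : M, κ '' (connectedComponent x ∩ U) := by
      ext y
      constructor
      · rintro ⟨z, hz, rfl⟩
        exact mem_iUnion.2 ⟨z, z, ⟨mem_connectedComponent, hz⟩, rfl⟩
      · intro hy
        obtain ⟨x, z, hz, rfl⟩ := mem_iUnion.1 hy
        exact ⟨z, hz.2, rfl⟩
    rw [h3]
    exact isOpen_iUnion fun x => himg x U hU
  have hinj : Injective κ := by
    intro x y hxy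
    by_cases hc : connectedComponent x = connectedComponent y
    · have hy : y ∈ connectedComponent x := by
        rw [hc]
        exact mem_connectedComponent
      have h3 := (hloc x).injective
        (a₁ := ⟨x, mem_connectedComponent⟩) (a₂ := ⟨y, hy⟩) hxy
      exact congrArg Subtype.val h3
    · exfalso
      refine (Set.disjoint_left.1 (hdis x y hc)) (mem_image_of_mem κ mem_connectedComponent) ?_
      rw [hxy]
      exact mem_image_of_mem κ mem_connectedComponent
  refine ⟨IsOpenEmbedding.of_continuous_injective_isOpenMap hcont hinj hopen, ?_, ?_⟩
  · rw [← isOpen_compl_iff, isOpen_iff_forall_mem_open]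
    intro y hy
    refine ⟨connectedComponent y, ?_, isOpen_connectedComponent, mem_connectedComponent⟩
    rintro z hz ⟨x, rfl⟩
    have h3 : IsClopen (κ '' connectedComponent x) := by
      refine ⟨hcl x, ?_⟩
      have h4 := himg x univ isOpen_univ
      rwa [inter_univ] at h4
    have h4 : connectedComponent (κ x) ⊆ κ '' connectedComponent x :=
      h3.connectedComponent_subset (mem_image_of_mem κ mem_connectedComponent)
    have h5 : y ∈ connectedComponent (κ x) := by
      rw [← connectedComponent_eq hz]
      exact mem_connectedComponent
    obtain ⟨w, -, hw⟩ := h4 h5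
    exact hy ⟨w, hw⟩
  · exact hopen.isOpen_range

end Pool.Agent.H756.LS
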