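import Pool.Agent.H756.LS.Swp
import Pool.Agent.H756.LS.Cmp

/-!
# Line components go to line components (task LIN)

Notation: `c t = θ (h t) ∈ N` for flat `h t` (i.e. `1/4 < |t - round t|`, `P_flat`), `τ` the shift (`shift`), `T = φ τ`; so
`T (c t) = c (t + 1)`; `y₀ = θ x0 = c (1/2)`; `N_k = connectedComponent (c (k + 1/2)) = T^k '' N_0`. For each `k ∈ ℤ` the set
`J_k = {c t | k + 1/4 < t < k + 3/4} ⊆ N_k` is open in `N`, connected.

Paper proof.
(1) There is `q ≥ 1` with `connectedComponent ((T^q) y₀) = connectedComponent y₀`. Suppose not. Then `N_0, N_1, N_2` are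
  different (`N_2 = N_1` would give `N_1 = N_0` applying `T⁻¹`). Let `T'` be from `swap` for `T` and `y₀`: `T' (c (1/2)) = c (3/2)`,
  `T' (c (3/2)) = c (1/2)`, `T' (c t) = c t` for `t ∈ (9/4, 11/4)` (`c t ∈ N_2`). Let `g' = φ⁻¹ T'`; by `hθ` and
  injectivity of `θ`, `g' (h (1/2)) = h (3/2)` etc.; `no_swap` gives a contradiction.
(2) Apply `comp_case` to `S = T^q`, `J = J_0`: the chart of dimension one at `y₀` is
  `EuclideanSpace ℝ (Fin 1) ≃ₜ ℝ ≃ₜ Ioo (1/4) (3/4) → h → θ` (an open embedding into `N`, `isOpen_flat`). `S^k J_0 = J_{qk}` is disjoint from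
  `J_0`. `hmax` : for a preconnected `J' ⊆ flat f` meeting `J_0`, `θ⁻¹ J'` is a preconnected subset of `flat f0` meeting
  `h '' Ioo (1/4) (3/4)`, use `interval_max`.
(3) So `connectedComponent y₀ ≃ₜ ℝ` and `S` has no fixed point in it. If `x1 ∉ range h` then `τ x1 = x1`, so `T` and `S` fix `θ x1`,
  which is therefore not in the component of `y₀`.
-/

set_option autoImplicit false

open Set Topology Function

namespace Pool.Agent.H756.LS

namespace LinAux

theorem cc_apply {N : Type} [TopologicalSpace N] (T : N ≃ₜ N) {y z : N}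
    (h : connectedComponent y = connectedComponent z) :
    connectedComponent (T y) = connectedComponent (T z) := by
  have h1 : y ∈ connectedComponent z := h ▸ mem_connectedComponent
  have h2 : T y ∈ connectedComponent (T z) :=
    T.continuous.image_connectedComponent_subset z (mem_image_of_mem T h1)
  exact (connectedComponent_eq h2).symm

theorem cc_iff {N : Type} [TopologicalSpace N] (T : N ≃ₜ N) {y z : N} :
    connectedComponent (T y) = connectedComponent (T z) ↔
      connectedComponent y = connectedComponent z := by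
  refine ⟨fun h => ?_, cc_apply T⟩
  have := cc_apply T.symm h
  simpa using this

/-- the one dimensional chart -/
theorem chart1 : ∃ b : EuclideanSpace ℝ (Fin 1) → ℝ, IsOpenEmbedding b ∧
    range b = Ioo (1 / 4 : ℝ) (3 / 4) := by
  let u : EuclideanSpace ℝ (Fin 1) ≃ₜ ℝ :=
    (EuclideanSpace.equiv (Fin 1) ℝ).toHomeomorph.trans (Homeomorph.funUnique (Fin 1) ℝ)
  let b := OpenPartialHomeomorph.univBall (1 / 2 : ℝ) (1 / 4)
  have hb : IsOpenEmbedding b := OpenPartialHomeomorph.isOpenEmbedding _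
    (OpenPartialHomeomorph.univBall_source _ _)
  have hr : range b = Ioo (1 / 4 : ℝ) (3 / 4) := by
    rw [← image_univ, ← OpenPartialHomeomorph.univBall_source (1 / 2 : ℝ) (1 / 4),
      b.image_source_eq_target, OpenPartialHomeomorph.univBall_target _ (by norm_num),
      Real.ball_eq_Ioo]
    norm_num
  refine ⟨b ∘ u, hb.comp u.isOpenEmbedding, ?_⟩
  rw [range_comp, u.surjective.range_eq, image_univ, hr]

section
variable {M N : Type} [TopologicalSpace M] [TopologicalSpace N] {f0 : M → ℝ} {f : N → ℝ}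
  (φ : levelGroup f0 ≃* levelGroup f) (θ : flat f0 ≃ₜ flat f)

/-- the map between the flat parts -/
def cc (z : M) (hz : z ∈ flat f0) : N := (θ ⟨z, hz⟩ : N)

theorem cc_inj {z w : M} {hz : z ∈ flat f0} {hw : w ∈ flat f0} (h : cc θ z hz = cc θ w hw) :
    z = w := by
  have h1 : θ ⟨z, hz⟩ = θ ⟨w, hw⟩ := Subtype.ext h
  exact congrArg Subtype.val (θ.injective h1)

theorem cc_congr {z w : M} {hz : z ∈ flat f0} (h : z = w) :
    cc θ z hz = cc θ w (h ▸ hz) := by
  subst h; rfl

variable {φ θ}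
variable (hθ : ∀ (T : levelGroup f0) (x : flat f0), θ (rst f0 T x) = rst f (φ T) (θ x))
include hθ

theorem cc_equi (g : levelGroup f0) (z : M) (hz : z ∈ flat f0) :
    (φ g).1 (cc θ z hz) = cc θ (g.1 z) (flat_apply g.2 hz) := by
  have h := hθ g ⟨z, hz⟩
  exact (congrArg Subtype.val h).symm

theorem cc_symm {T' : N ≃ₜ N} (hT' : T' ∈ levelGroup f) {z w : M} {hz : z ∈ flat f0}
    {hw : w ∈ flat f0} (h : T' (cc θ z hz) = cc θ w hw) :
    (φ.symm ⟨T', hT'⟩).1 z = w := by
  have h1 := cc_equi hθ (φ.symm ⟨T', hT'⟩) z hz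
  rw [MulEquiv.apply_symm_apply] at h1
  exact cc_inj θ (h1.symm.trans h)

end

end LinAux

open LinAux

theorem line_case {M N : Type} [TopologicalSpace M] [TopologicalSpace N] (hM : IsMfd M)
    (hN : IsMfd N) (f0 : M → ℝ) (f : N → ℝ) (hf : Continuous f)
    (φ : levelGroup f0 ≃* levelGroup f) (θ : flat f0 ≃ₜ flat f)
    (hθ : ∀ (T : levelGroup f0) (x : flat f0), θ (rst f0 T x) = rst f (φ T) (θ x))
    (h : ℝ → M) (hh : IsOpenEmbedding h) (hcl : IsClosed (range h))
    (hlev : ∀ z t, f0 z = f0 (h t) → z ∈ range h)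
    (hP : ∀ t, f0 (h t) = f0 (h (1 / 2)) + P t) (x0 : flat f0) (hx0 : (x0 : M) = h (1 / 2)) :
    Nonempty (connectedComponent (θ x0 : N) ≃ₜ ℝ) ∧
      ∀ x1 : flat f0, (x1 : M) ∉ range h → (θ x1 : N) ∉ connectedComponent (θ x0 : N) := by
  have hT2 : T2Space M := hM.1
  obtain ⟨τ, hτ, hτ1, hτ2⟩ := shift f0 h hh hcl hP
  obtain ⟨hI1, hI2⟩ := interval_max f0 h hh hcl hP
  have hfl : ∀ t ∈ Ioo (1 / 4 : ℝ) (3 / 4), h t ∈ flat f0 :=
    fun t ht => hI1 (mem_image_of_mem h ht)
  -- the powers of the shift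
  let T : levelGroup f := φ ⟨τ, hτ⟩
  have hflk : ∀ (m : ℕ) (t : ℝ), h t ∈ flat f0 → h (t + m) ∈ flat f0 := by
    intro m t ht
    induction m with
    | zero => simpa using ht
    | succ m ih =>
      have h1 := flat_apply hτ ih
      rw [hτ1] at h1
      have h2 : t + (m : ℝ) + 1 = t + ((m + 1 : ℕ) : ℝ) := by push_cast; ring
      rwa [h2] at h1
  have hTk : ∀ (m : ℕ) (t : ℝ) (ht : h t ∈ flat f0),
      (T.1 ^ m) (cc θ (h t) ht) = cc θ (h (t + m)) (hflk m t ht) := by
    intro m t ht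
    induction m with
    | zero =>
      rw [pow_zero]
      show cc θ (h t) ht = _
      exact cc_congr θ (by simp)
    | succ m ih =>
      rw [pow_succ']
      show T.1 ((T.1 ^ m) (cc θ (h t) ht)) = _
      rw [ih]
      show (φ ⟨τ, hτ⟩).1 _ = _
      rw [cc_equi hθ ⟨τ, hτ⟩]
      refine cc_congr θ ?_
      show τ (h (t + m)) = _
      rw [hτ1]
      congr 1
      push_cast
      ring
  have h12 : (1 / 2 : ℝ) ∈ Ioo (1 / 4 : ℝ) (3 / 4) := by constructor <;> norm_num
  have hy0 : (θ x0 : N) = cc θ (h (1 / 2)) (hfl _ h12) := by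
    have h1 : x0 = ⟨h (1 / 2), hfl _ h12⟩ := Subtype.ext hx0
    rw [h1]
    rfl
  -- the interval `J`
  let J : Set N := {y | ∃ t, ∃ ht : t ∈ Ioo (1 / 4 : ℝ) (3 / 4), y = cc θ (h t) (hfl t ht)}
  let hI : Ioo (1 / 4 : ℝ) (3 / 4) → flat f0 := fun t => ⟨h t, hfl t t.2⟩
  have hIe : IsOpenEmbedding hI := by
    have h1 : IsOpenEmbedding (Subtype.val ∘ hI) :=
      hh.comp isOpen_Ioo.isOpenEmbedding_subtypeVal
    exact IsOpenEmbedding.of_comp _ (isOpen_flat hM f0).isOpenEmbedding_subtypeVal h1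
  have hJe : IsOpenEmbedding (fun t => (θ (hI t) : N)) :=
    (isOpen_flat hN f).isOpenEmbedding_subtypeVal.comp (θ.isOpenEmbedding.comp hIe)
  have hJr : J = range (fun t => (θ (hI t) : N)) := by
    ext y
    constructor
    · rintro ⟨t, ht, rfl⟩
      exact ⟨⟨t, ht⟩, rfl⟩
    · rintro ⟨t, rfl⟩
      exact ⟨t, t.2, rfl⟩
  have hJo : IsOpen J := hJr ▸ hJe.isOpen_range
  have hJc : IsPreconnected J := by
    rw [hJr]
    have : PreconnectedSpace (Ioo (1 / 4 : ℝ) (3 / 4)) :=
      isPreconnected_iff_preconnectedSpace.1 isPreconnected_Ioo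
    exact isPreconnected_range hJe.continuous
  have hyJ : (θ x0 : N) ∈ J := ⟨1 / 2, h12, hy0⟩
  have hJcc : J ⊆ connectedComponent (θ x0 : N) := hJc.subset_connectedComponent hyJ
  -- step 1
  have hq : ∃ q : ℕ, 1 ≤ q ∧
      connectedComponent ((T.1 ^ q) (θ x0 : N)) = connectedComponent (θ x0 : N) := by
    by_contra hcon
    push Not at hcon
    have hc1 : connectedComponent (T.1 (θ x0 : N)) ≠ connectedComponent (θ x0 : N) := by
      have := hcon 1 le_rfl
      rwa [pow_one] at this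
    have hc2 : connectedComponent (T.1 (T.1 (θ x0 : N))) ≠ connectedComponent (θ x0 : N) := by
      have := hcon 2 one_le_two
      rwa [pow_two] at this
    have hc3 : connectedComponent (T.1 (T.1 (θ x0 : N))) ≠
        connectedComponent (T.1 (θ x0 : N)) := fun h1 => hc1 ((cc_iff T.1).1 h1)
    obtain ⟨T', hT', ha, hb, hc⟩ := swap hN f T.1 T.2 (θ x0 : N) hc1
    have f32 : h (3 / 2) ∈ flat f0 := by
      have := hflk 1 (1 / 2) (hfl _ h12)
      have h2 : (1 / 2 : ℝ) + ((1 : ℕ) : ℝ) = 3 / 2 := by norm_num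
      rwa [h2] at this
    have hT1 : T.1 (θ x0 : N) = cc θ (h (3 / 2)) f32 := by
      have h1 := hTk 1 (1 / 2) (hfl _ h12)
      rw [pow_one] at h1
      rw [hy0, h1]
      exact cc_congr θ (by congr 1; norm_num)
    refine no_swap f0 h hh hlev (φ.symm ⟨T', hT'⟩).1 (φ.symm ⟨T', hT'⟩).2 ?_ ?_ ?_
    · apply cc_symm hθ hT' (hz := hfl _ h12) (hw := f32)
      rw [← hT1, ← hy0]
      exact ha _ mem_connectedComponent
    · apply cc_symm hθ hT' (hz := f32) (hw := hfl _ h12)
      rw [← hT1, ← hy0]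
      exact hb _ mem_connectedComponent
    · intro t ht
      have ht' : t - 2 ∈ Ioo (1 / 4 : ℝ) (3 / 4) := by
        constructor
        · linarith [ht.1]
        · linarith [ht.2]
      have hft : h t ∈ flat f0 := by
        have := hflk 2 (t - 2) (hfl _ ht')
        have h2 : t - 2 + ((2 : ℕ) : ℝ) = t := by norm_num
        rwa [h2] at this
      have hTt : T.1 (T.1 (cc θ (h (t - 2)) (hfl _ ht'))) = cc θ (h t) hft := by
        have h1 := hTk 2 (t - 2) (hfl _ ht')
        rw [pow_two] at h1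
        refine h1.trans ?_
        exact cc_congr θ (by congr 1; norm_num)
      have hmem : connectedComponent (cc θ (h t) hft) =
          connectedComponent (T.1 (T.1 (θ x0 : N))) := by
        rw [← hTt]
        apply cc_apply
        apply cc_apply
        exact (connectedComponent_eq (hJcc ⟨t - 2, ht', rfl⟩)).symm
      apply cc_symm hθ hT' (hz := hft) (hw := hft)
      apply hc
      · intro h1
        apply hc2
        rw [← hmem]
        exact (connectedComponent_eq h1).symm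
      · intro h1
        apply hc3
        rw [← hmem]
        exact (connectedComponent_eq h1).symm
  obtain ⟨q, hq1, hq2⟩ := hq
  -- step 2
  have hS : T.1 ^ q ∈ levelGroup f := (levelGroup f).pow_mem T.2 q
  have hcc := comp_case hN f hf (T.1 ^ q) hS (θ x0 : N) hq2 ?_ J hJo hyJ hJcc ?_ ?_
  · refine ⟨hcc.1, fun x1 hx1 hmem => hcc.2 _ hmem ?_⟩
    have hTx : T.1 (θ x1 : N) = (θ x1 : N) := by
      have h1 := cc_equi hθ ⟨τ, hτ⟩ (x1 : M) x1.2
      refine h1.trans ?_
      exact cc_congr θ (hτ2 _ hx1)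
    have hpow : ∀ m : ℕ, (T.1 ^ m) (θ x1 : N) = (θ x1 : N) := by
      intro m
      induction m with
      | zero => rfl
      | succ m ih =>
        rw [pow_succ']
        show T.1 ((T.1 ^ m) (θ x1 : N)) = _
        rw [ih, hTx]
    exact hpow q
  · obtain ⟨b, hb, hbr⟩ := chart1
    have hbm : ∀ v, b v ∈ Ioo (1 / 4 : ℝ) (3 / 4) := fun v => hbr ▸ mem_range_self v
    let b' : EuclideanSpace ℝ (Fin 1) → Ioo (1 / 4 : ℝ) (3 / 4) := fun v => ⟨b v, hbm v⟩
    have hb' : IsOpenEmbedding b' :=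
      IsOpenEmbedding.of_comp _ isOpen_Ioo.isOpenEmbedding_subtypeVal hb
    refine ⟨(fun t => (θ (hI t) : N)) ∘ b', hJe.comp hb', ?_⟩
    have h1 : (1 / 2 : ℝ) ∈ range b := hbr ▸ h12
    obtain ⟨v, hv⟩ := h1
    refine ⟨v, ?_⟩
    have h2 : b' v = ⟨1 / 2, h12⟩ := Subtype.ext hv
    show (θ (hI (b' v)) : N) = _
    rw [h2, hy0]
    rfl
  · intro k hk
    rw [Set.disjoint_left]
    rintro _ ⟨y, ⟨t, ht, rfl⟩, rfl⟩ ⟨t', ht', he⟩
    rw [← pow_mul, hTk] at he
    have h1 := hh.injective (cc_inj θ he)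
    have h2 : (1 : ℝ) ≤ ((q * k : ℕ) : ℝ) := by
      have : 1 ≤ q * k := Nat.mul_pos hq1 hk
      exact_mod_cast this
    have h3 := ht.1
    have h4 := ht'.2
    linarith
  · intro J' hJ' hne hJf
    obtain ⟨y, hyJ, hyJ'⟩ := hne
    -- the preimage of `J'`
    let J1 : Set (flat f) := Subtype.val ⁻¹' J'
    have hJ1 : IsPreconnected J1 := by
      rw [← Topology.IsInducing.subtypeVal.isPreconnected_image, image_preimage_eq_inter_range,
        Subtype.range_coe, inter_eq_left.2 hJf]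
      exact hJ'
    let J2 : Set M := (fun v => (θ.symm v : M)) '' J1
    have hJ2 : IsPreconnected J2 :=
      hJ1.image _ (continuous_subtype_val.comp θ.symm.continuous).continuousOn
    have hJ2f : J2 ⊆ flat f0 := by
      rintro _ ⟨v, -, rfl⟩
      exact (θ.symm v).2
    have hJ2n : (h '' Ioo (1 / 4) (3 / 4) ∩ J2).Nonempty := by
      obtain ⟨t, ht, rfl⟩ := hyJ
      refine ⟨h t, mem_image_of_mem h ht, θ ⟨h t, hfl t ht⟩, hyJ', ?_⟩
      show (θ.symm (θ ⟨h t, hfl t ht⟩) : M) = h t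
      rw [θ.symm_apply_apply]
    have hsub := hI2 J2 hJ2 hJ2n hJ2f
    intro w hw
    have h1 : (θ.symm ⟨w, hJf hw⟩ : M) ∈ J2 := ⟨⟨w, hJf hw⟩, hw, rfl⟩
    obtain ⟨t, ht, hte⟩ := hsub h1
    refine ⟨t, ht, ?_⟩
    have h2 : (⟨h t, hfl t ht⟩ : flat f0) = θ.symm ⟨w, hJf hw⟩ := Subtype.ext hte
    show w = (θ ⟨h t, hfl t ht⟩ : N)
    rw [h2, θ.apply_symm_apply]

end Pool.Agent.H756.LS
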