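import Pool.Agent.H756.LS.Swp

/-!
# The special function on a manifold without isolated points (task SPC)

* `exists_special`: `M` is locally connected and second countable, so it has countably many components, all clopen:
  let `ι : ConnectedComponents M → ℕ` be injective. For each component homeomorphic to `ℝ` choose a
  homeomorphism `ψ`. Put `f0 x = ι [x] + P (ψ x)` if the component of `x` is a line, `f0 x = ι [x]` otherwise. `0 ≤ P ≤ 1/4`, so different
  components have disjoint sets of values. `h = ψ⁻¹`; `P (1/2) = 0`. `P` is continuous (distance to the nearest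
  integer: `|t - round t|` is `1`-Lipschitz, e.g. it is the infimum of `|t - m|`, `m ∈ ℤ`).
* `faith`: let `T ∈ levelGroup f0` fix the flat part pointwise. `T` maps each component to itself (values of `f0`). If `f0` is
  constant on the component of `x` then `x ∈ flat f0` (`M` has no isolated points, components are open) and `T x = x`. On a line component,
  `u = h⁻¹ T h : ℝ → ℝ` is a continuous injection with `P (u t) = P t`, `u t = t` if `1/4 < |t - round t|` (`P_flat`), so `u` is increasing,
  `u t = t` for `1/4 ≤ |t - round t|` by continuity, `u` maps `[k - 1/4, k + 1/4]` to itself (`k ∈ ℤ`, monotone), `u k = k` (the unique maximum of `P`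
  there), and `P` is injective on `[k - 1/4, k]` and `[k, k + 1/4]`, which `u` preserves; so `u = id`.
-/

set_option autoImplicit false

open Set Topology Function

namespace Pool.Agent.H756.LS

theorem spc_P_cont : Continuous P := by
  have h1 : Continuous fun t : ℝ => ‖(t : UnitAddCircle)‖ :=
    continuous_norm.comp (AddCircle.continuous_mk' (1 : ℝ))
  have h2 : P = fun t : ℝ => max 0 (1 / 4 - ‖(t : UnitAddCircle)‖) := by
    funext t
    rw [UnitAddCircle.norm_eq]
    rfl
  rw [h2]
  fun_prop

theorem spc_P_nonneg (t : ℝ) : 0 ≤ P t := le_max_left _ _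

theorem spc_P_le (t : ℝ) : P t ≤ 1 / 4 := by
  unfold P
  apply max_le (by norm_num)
  linarith [abs_nonneg (t - round t)]

theorem spc_round {k : ℤ} {s : ℝ} (h1 : (k : ℝ) - 1 / 2 ≤ s) (h2 : s < k + 1 / 2) :
    round s = k := by
  rw [round_eq, Int.floor_eq_iff]
  constructor <;> linarith

theorem spc_P_near {k : ℤ} {s : ℝ} (h1 : (k : ℝ) - 1 / 4 ≤ s) (h2 : s ≤ k + 1 / 4) :
    P s = 1 / 4 - |s - k| := by
  unfold P
  rw [spc_round (k := k) (by linarith) (by linarith)]
  apply max_eq_right
  have : |s - k| ≤ 1 / 4 := abs_le.2 ⟨by linarith, by linarith⟩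
  linarith

/-- `C` is an open line -/
def SpcLine {M : Type} [TopologicalSpace M] (C : Set M) : Prop :=
  ∃ h : ℝ → M, IsOpenEmbedding h ∧ range h = C

open Classical in
/-- the function on the component `C` -/
noncomputable def spcG {M : Type} [TopologicalSpace M] (C : Set M) (z : M) : ℝ :=
  if H : SpcLine C then P (invFun H.choose z) else 0

theorem spcG_nonneg {M : Type} [TopologicalSpace M] (C : Set M) (z : M) : 0 ≤ spcG C z := by
  unfold spcG
  split_ifs
  · exact spc_P_nonneg _
  · exact le_rfl

theorem spcG_le {M : Type} [TopologicalSpace M] (C : Set M) (z : M) : spcG C z ≤ 1 / 4 := by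
  unfold spcG
  split_ifs
  · exact spc_P_le _
  · norm_num

theorem spcG_line {M : Type} [TopologicalSpace M] (C : Set M) (H : SpcLine C) :
    ∃ h : ℝ → M, IsOpenEmbedding h ∧ range h = C ∧ ∀ s, spcG C (h s) = P s := by
  obtain ⟨h1, h2⟩ := H.choose_spec
  refine ⟨H.choose, h1, h2, fun s => ?_⟩
  unfold spcG
  rw [dif_pos H, leftInverse_invFun h1.injective s]

theorem exists_special {M : Type} [TopologicalSpace M] (hM : IsMfd M) :
    ∃ f0 : M → ℝ, Continuous f0 ∧
      (∀ z w, f0 z = f0 w → connectedComponent z = connectedComponent w) ∧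
      ∀ x : M, (¬ Nonempty (connectedComponent x ≃ₜ ℝ) ∧
          ∀ z ∈ connectedComponent x, f0 z = f0 x) ∨
        (∃ h : ℝ → M, IsOpenEmbedding h ∧ range h = connectedComponent x ∧
          ∀ t, f0 (h t) = f0 (h (1 / 2)) + P t) := by
  classical
  rcases isEmpty_or_nonempty M with hE | hN
  · exact ⟨fun _ => 0, continuous_const, fun z => (IsEmpty.false z).elim,
      fun x => (IsEmpty.false x).elim⟩
  have := locallyConnected hM
  have := hM.2.1
  -- the enumeration of the components
  obtain ⟨ι, hι⟩ : ∃ ι : Set M → ℕ, ι = fun C => sInf {n | TopologicalSpace.denseSeq M n ∈ C} :=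
    ⟨_, rfl⟩
  have hιm : ∀ x : M, TopologicalSpace.denseSeq M (ι (connectedComponent x)) ∈
      connectedComponent x := by
    intro x
    have hne : {n | TopologicalSpace.denseSeq M n ∈ connectedComponent x}.Nonempty := by
      obtain ⟨_, h1, n, rfl⟩ := (TopologicalSpace.denseRange_denseSeq M).inter_open_nonempty
        (connectedComponent x) isOpen_connectedComponent ⟨x, mem_connectedComponent⟩
      exact ⟨n, h1⟩
    rw [hι]
    exact Nat.sInf_mem hne
  have hinj : ∀ z w : M, ι (connectedComponent z) = ι (connectedComponent w) →
      connectedComponent z = connectedComponent w := by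
    intro z w h
    have h1 := connectedComponent_eq (hιm z)
    have h2 := connectedComponent_eq (hιm w)
    rw [h1, h2, h]
  obtain ⟨f0, hf0⟩ : ∃ f0 : M → ℝ, f0 = fun z => (ι (connectedComponent z) : ℝ) +
      spcG (connectedComponent z) z := ⟨_, rfl⟩
  have hcc : ∀ x z : M, z ∈ connectedComponent x → connectedComponent z = connectedComponent x :=
    fun x z hz => (connectedComponent_eq hz).symm
  -- the two alternatives
  have hno : ∀ x : M, ¬ SpcLine (connectedComponent x) → ∀ z ∈ connectedComponent x,
      f0 z = f0 x := by
    intro x hx z hz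
    rw [hf0]
    simp only
    rw [hcc x z hz]
    unfold spcG
    rw [dif_neg hx, dif_neg hx]
  have hyes : ∀ x : M, SpcLine (connectedComponent x) → ∃ h : ℝ → M, IsOpenEmbedding h ∧
      range h = connectedComponent x ∧ ∀ t, f0 (h t) = f0 (h (1 / 2)) + P t := by
    intro x hx
    obtain ⟨h, hh1, hh2, hh3⟩ := spcG_line _ hx
    refine ⟨h, hh1, hh2, fun t => ?_⟩
    have key : ∀ s : ℝ, f0 (h s) = (ι (connectedComponent x) : ℝ) + P s := by
      intro s
      have hs : h s ∈ connectedComponent x := by
        rw [← hh2]
        exact mem_range_self s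
      rw [hf0]
      simp only
      rw [hcc x _ hs, hh3]
    rw [key, key]
    have h12 : P (1 / 2) = 0 := by
      unfold P
      have h3 : round (1 / 2 : ℝ) = 1 := by
        rw [round_eq, Int.floor_eq_iff]
        norm_num
      rw [h3]
      apply max_eq_left
      push_cast
      rw [abs_of_nonpos (by norm_num)]
      norm_num
    rw [h12]
    ring
  refine ⟨f0, ?_, ?_, ?_⟩
  · rw [continuous_iff_continuousAt]
    intro x
    by_cases hx : SpcLine (connectedComponent x)
    · obtain ⟨h, hh, hr, hP⟩ := hyes x hx
      obtain ⟨t, ht⟩ : x ∈ range h := by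
        rw [hr]
        exact mem_connectedComponent
      rw [← ht, ← hh.continuousAt_iff]
      have e : f0 ∘ h = fun t => f0 (h (1 / 2)) + P t := funext hP
      rw [e]
      exact (continuous_const.add spc_P_cont).continuousAt
    · have h1 : f0 =ᶠ[𝓝 x] fun _ => f0 x := by
        filter_upwards [(isOpen_connectedComponent (x := x)).mem_nhds mem_connectedComponent] with z hz
        exact hno x hx z hz
      exact continuousAt_const.congr h1.symm
  · intro z w h
    apply hinj
    rw [hf0] at h
    simp only at h
    have a1 := spcG_nonneg (connectedComponent z) z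
    have a2 := spcG_le (connectedComponent z) z
    have b1 := spcG_nonneg (connectedComponent w) w
    have b2 := spcG_le (connectedComponent w) w
    have h1 : ((ι (connectedComponent z) : ℕ) : ℝ) < (ι (connectedComponent w) : ℕ) + 1 := by
      linarith
    have h2 : ((ι (connectedComponent w) : ℕ) : ℝ) < (ι (connectedComponent z) : ℕ) + 1 := by
      linarith
    have h3 : ι (connectedComponent z) < ι (connectedComponent w) + 1 := by exact_mod_cast h1
    have h4 : ι (connectedComponent w) < ι (connectedComponent z) + 1 := by exact_mod_cast h2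
    omega
  · intro x
    by_cases hx : SpcLine (connectedComponent x)
    · exact Or.inr (hyes x hx)
    · refine Or.inl ⟨?_, hno x hx⟩
      rintro ⟨φ⟩
      apply hx
      refine ⟨Subtype.val ∘ φ.symm,
        (isOpen_connectedComponent (x := x)).isOpenEmbedding_subtypeVal.comp
          φ.symm.isOpenEmbedding, ?_⟩
      rw [range_comp, φ.symm.surjective.range_eq, image_univ, Subtype.range_val]

/-- a continuous injection of the line preserving `P` and fixing its flat points -/
theorem spc_line (u : ℝ → ℝ) (hu : Continuous u) (hi : Injective u) (hP : ∀ t, P (u t) = P t)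
    (hf : ∀ t : ℝ, 1 / 4 < |t - round t| → u t = t) (t : ℝ) : u t = t := by
  have hfk : ∀ (k : ℤ) (s : ℝ), (k : ℝ) - 1 / 2 ≤ s → s < k + 1 / 2 → 1 / 4 < |s - k| →
      u s = s := by
    intro k s h1 h2 h3
    apply hf
    rw [spc_round h1 h2]
    exact h3
  have hm : StrictMono u := by
    rcases hu.strictMono_of_inj hi with h | h
    · exact h
    · exfalso
      have e1 := hfk 1 (1 / 2) (by norm_num) (by norm_num) (by
        push_cast
        rw [abs_of_nonpos (by norm_num)]
        norm_num)
      have e2 := hfk 2 (3 / 2) (by norm_num) (by norm_num) (by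
        push_cast
        rw [abs_of_nonpos (by norm_num)]
        norm_num)
      have := h (show (1 / 2 : ℝ) < 3 / 2 by norm_num)
      rw [e1, e2] at this
      linarith
  by_cases ht : 1 / 4 < |t - round t|
  · exact hf t ht
  · push Not at ht
    obtain ⟨k, hk⟩ : ∃ k : ℤ, k = round t := ⟨_, rfl⟩
    rw [← hk] at ht
    have hmap : ∀ s : ℝ, (k : ℝ) - 1 / 4 ≤ s → s ≤ k + 1 / 4 →
        (k : ℝ) - 1 / 4 ≤ u s ∧ u s ≤ k + 1 / 4 := by
      intro s h1 h2
      constructor
      · by_contra hcon
        push Not at hcon
        obtain ⟨r, hr1, hr2⟩ := exists_between (max_lt hcon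
          (show (k : ℝ) - 1 / 2 < k - 1 / 4 by linarith))
        have hr3 := lt_of_le_of_lt (le_max_left _ _) hr1
        have hr4 := lt_of_le_of_lt (le_max_right _ _) hr1
        have e := hfk k r hr4.le (by linarith) (by
          rw [abs_of_nonpos (by linarith)]
          linarith)
        have := hm (show r < s by linarith)
        rw [e] at this
        linarith
      · by_contra hcon
        push Not at hcon
        obtain ⟨r, hr1, hr2⟩ := exists_between (lt_min hcon
          (show (k : ℝ) + 1 / 4 < k + 1 / 2 by linarith))
        have hr3 := lt_of_lt_of_le hr2 (min_le_left _ _)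
        have hr4 := lt_of_lt_of_le hr2 (min_le_right _ _)
        have e := hfk k r (by linarith) hr4 (by
          rw [abs_of_nonneg (by linarith)]
          linarith)
        have := hm (show s < r by linarith)
        rw [e] at this
        linarith
    have habs : ∀ s : ℝ, (k : ℝ) - 1 / 4 ≤ s → s ≤ k + 1 / 4 → |u s - k| = |s - k| := by
      intro s h1 h2
      obtain ⟨h3, h4⟩ := hmap s h1 h2
      have h5 := hP s
      rw [spc_P_near h1 h2, spc_P_near h3 h4] at h5
      linarith
    obtain ⟨t1, t2⟩ := abs_le.1 ht
    have hkk : u k = k := by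
      have := habs k (by linarith) (by linarith)
      rw [sub_self, abs_zero, abs_eq_zero] at this
      linarith
    have hta := habs t (by linarith) (by linarith)
    rcases lt_trichotomy t k with h | h | h
    · have h6 := hm h
      rw [hkk] at h6
      rw [abs_of_neg (by linarith), abs_of_neg (by linarith)] at hta
      linarith
    · rw [h, hkk]
    · have h6 := hm h
      rw [hkk] at h6
      rw [abs_of_pos (by linarith), abs_of_pos (by linarith)] at hta
      linarith

theorem faith {M : Type} [TopologicalSpace M] (hM : IsMfd M)
    (hiso : ∀ x : M, ¬ IsOpen ({x} : Set M)) (f0 : M → ℝ)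
    (h1 : ∀ z w, f0 z = f0 w → connectedComponent z = connectedComponent w)
    (h2 : ∀ x : M, (∀ z ∈ connectedComponent x, f0 z = f0 x) ∨
        (∃ h : ℝ → M, IsOpenEmbedding h ∧ range h = connectedComponent x ∧
          ∀ t, f0 (h t) = f0 (h (1 / 2)) + P t)) : Injective (rst f0) := by
  have := locallyConnected hM
  rw [injective_iff_map_eq_one]
  intro T hT
  have hfix : ∀ y ∈ flat f0, T.1 y = y := by
    intro y hy
    have h3 := rst_apply f0 T ⟨y, hy⟩
    rw [hT] at h3
    exact h3.symm
  apply Subtype.ext
  ext x
  show T.1 x = x
  rcases h2 x with hc | ⟨h, hh, hr, hP⟩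
  · exact hfix x ⟨⟨connectedComponent x, isOpen_connectedComponent, mem_connectedComponent,
      hc⟩, hiso x⟩
  · have hTr : ∀ t, ∃ s, T.1 (h t) = h s := by
      intro t
      have h3 : connectedComponent (T.1 (h t)) = connectedComponent (h t) := h1 _ _ (T.2 (h t))
      have h4 : h t ∈ connectedComponent x := by
        rw [← hr]
        exact mem_range_self t
      have h5 : T.1 (h t) ∈ connectedComponent x := by
        rw [connectedComponent_eq h4, ← h3]
        exact mem_connectedComponent
      rw [← hr] at h5
      obtain ⟨s, hs⟩ := h5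
      exact ⟨s, hs.symm⟩
    choose u hu using hTr
    have huc : Continuous u := by
      rw [hh.isInducing.continuous_iff]
      have e : h ∘ u = fun t => T.1 (h t) := funext fun t => (hu t).symm
      rw [e]
      exact T.1.continuous.comp hh.continuous
    have hui : Injective u := by
      intro s t hst
      apply hh.injective
      apply T.1.injective
      rw [hu, hu, hst]
    have huP : ∀ t, P (u t) = P t := by
      intro t
      have h3 : f0 (T.1 (h t)) = f0 (h t) := T.2 (h t)
      rw [hu, hP (u t), hP t] at h3
      linarith
    have huf : ∀ t : ℝ, 1 / 4 < |t - round t| → u t = t := by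
      intro t ht
      apply hh.injective
      rw [← hu]
      exact hfix _ ((P_flat f0 h hh hP t).2 ht)
    obtain ⟨t, ht⟩ : x ∈ range h := by
      rw [hr]
      exact mem_connectedComponent
    rw [← ht, hu, spc_line u huc hui huP huf t]

end Pool.Agent.H756.LS
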