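import Pool.Agent.H756.LS.Nonl
import Pool.Agent.H756.LS.Lin
import Pool.Agent.H756.LS.Spc
import Pool.Agent.H756.LS.Glu
import Pool.Agent.H756.LS.Conv

/-!
# Assembly
-/

set_option autoImplicit false

open Set Topology Function

namespace Pool.Agent.H756.LS

variable {M N : Type} [TopologicalSpace M] [TopologicalSpace N]

/-- An open embedding of a component from a homeomorphism with a component. -/
theorem piece_of (hN : IsMfd N) (x : M) (y : N)
    (E : connectedComponent x ≃ₜ connectedComponent y) :
    ∃ κ : M → N, IsOpenEmbedding (fun z : connectedComponent x => κ z) ∧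
      κ '' connectedComponent x = connectedComponent y := by
  classical
  have := locallyConnected hN
  refine ⟨fun z => if hz : z ∈ connectedComponent x then ((E ⟨z, hz⟩ : connectedComponent y) : N)
    else y, ?_, ?_⟩
  · have h : (fun z : connectedComponent x => (if hz : (z : M) ∈ connectedComponent x then
        ((E ⟨z, hz⟩ : connectedComponent y) : N) else y)) = Subtype.val ∘ E := by
      funext z
      simp
    rw [h]
    exact (isOpen_connectedComponent.isOpenEmbedding_subtypeVal).comp E.isOpenEmbedding
  · ext w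
    constructor
    · rintro ⟨z, hz, rfl⟩
      simp only [hz, dite_true]
      exact (E ⟨z, hz⟩).2
    · intro hw
      refine ⟨(E.symm ⟨w, hw⟩ : connectedComponent x), (E.symm ⟨w, hw⟩).2, ?_⟩
      simp

theorem piece (hM : IsMfd M) (hN : IsMfd N)
    (hiso : ∀ x : M, ¬ IsOpen ({x} : Set M)) (f0 : M → ℝ) (hf0 : Continuous f0) (f : N → ℝ)
    (hf : Continuous f) (φ : levelGroup f0 ≃* levelGroup f) (θ : flat f0 ≃ₜ flat f)
    (hθ : ∀ (T : levelGroup f0) (x : flat f0), θ (rst f0 T x) = rst f (φ T) (θ x))
    (h1 : ∀ z w, f0 z = f0 w → connectedComponent z = connectedComponent w) (x : M)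
    (h2 : (¬ Nonempty (connectedComponent x ≃ₜ ℝ) ∧ ∀ z ∈ connectedComponent x, f0 z = f0 x) ∨
        (∃ h : ℝ → M, IsOpenEmbedding h ∧ range h = connectedComponent x ∧
          ∀ t, f0 (h t) = f0 (h (1 / 2)) + P t)) :
    ∃ κ : M → N, IsOpenEmbedding (fun z : connectedComponent x => κ z) ∧
      ∃ x0 : flat f0, (x0 : M) ∈ connectedComponent x ∧
        κ '' connectedComponent x = connectedComponent (θ x0 : N) ∧
        ∀ x1 : flat f0, (x1 : M) ∉ connectedComponent x →
          (θ x1 : N) ∉ connectedComponent (θ x0 : N) := by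
  have hlcM := locallyConnected hM
  have hlcN := locallyConnected hN
  rcases h2 with ⟨hnl, hc⟩ | ⟨h, hh, hr, hP⟩
  · -- not a line
    have hCo : IsOpen (connectedComponent x) := isOpen_connectedComponent
    have hCf : connectedComponent x ⊆ flat f0 := by
      intro z hz
      refine ⟨⟨connectedComponent x, hCo, hz, fun w hw => ?_⟩, hiso z⟩
      rw [hc w hw, hc z hz]
    have hcl := nonline hM hN f0 f hf φ θ hθ (connectedComponent x)
      ⟨isClosed_connectedComponent, hCo⟩ isConnected_connectedComponent hCf
      (fun z hz w hw => by rw [hc w hw, hc z hz]) hnl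
    set W : Set N := (fun x : flat f0 => (θ x : N)) '' {z | (z : M) ∈ connectedComponent x} with hW
    let x0 : flat f0 := ⟨x, hCf mem_connectedComponent⟩
    have hx0 : (θ x0 : N) ∈ W := ⟨x0, mem_connectedComponent, rfl⟩
    have hoe : IsOpenEmbedding (fun x : flat f0 => (θ x : N)) :=
      ((isOpen_flat hN f).isOpenEmbedding_subtypeVal).comp θ.isOpenEmbedding
    have hWo : IsOpen W := hoe.isOpenMap _ (hCo.preimage continuous_subtype_val)
    have hWc : IsPreconnected W := by
      have h3 : IsPreconnected {z : flat f0 | (z : M) ∈ connectedComponent x} := by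
        have h4 := (isOpen_flat hM f0).isOpenEmbedding_subtypeVal.isEmbedding
        have h5 : (Subtype.val : flat f0 → M) '' {z : flat f0 | (z : M) ∈ connectedComponent x} =
            connectedComponent x := by
          ext w
          constructor
          · rintro ⟨z, hz, rfl⟩; exact hz
          · intro hw; exact ⟨⟨w, hCf hw⟩, hw, rfl⟩
        have h6 : IsPreconnected ((Subtype.val : flat f0 → M) ''
            {z : flat f0 | (z : M) ∈ connectedComponent x}) := by
          rw [h5]; exact isPreconnected_connectedComponent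
        exact (h4.isInducing.isPreconnected_image).1 h6
      exact h3.image _ (hoe.continuous.continuousOn)
    have hWe : W = connectedComponent (θ x0 : N) := by
      apply Subset.antisymm
      · exact hWc.subset_connectedComponent hx0
      · exact (isPreconnected_connectedComponent).subset_isClopen ⟨hcl, hWo⟩
          ⟨_, mem_connectedComponent, hx0⟩
    refine ⟨fun z => by
      classical exact if hz : z ∈ flat f0 then (θ ⟨z, hz⟩ : N) else (θ x0 : N), ?_, x0,
      mem_connectedComponent, ?_, ?_⟩
    · have h3 : (fun z : connectedComponent x => (by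
          classical exact if hz : (z : M) ∈ flat f0 then (θ ⟨z, hz⟩ : N) else (θ x0 : N))) =
          (fun x : flat f0 => (θ x : N)) ∘ (inclusion hCf) := by
        funext z
        have : (z : M) ∈ flat f0 := hCf z.2
        simp [this, inclusion]
      rw [h3]
      refine hoe.comp ?_
      refine ⟨⟨?_, inclusion_injective hCf⟩, ?_⟩
      · exact (Topology.IsEmbedding.inclusion hCf).isInducing
      · have : range (inclusion hCf) = {z : flat f0 | (z : M) ∈ connectedComponent x} := by
          ext w
          constructor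
          · rintro ⟨z, rfl⟩; exact z.2
          · intro hw; exact ⟨⟨w.1, hw⟩, rfl⟩
        rw [this]
        exact hCo.preimage continuous_subtype_val
    · rw [← hWe, hW]
      ext w
      constructor
      · rintro ⟨z, hz, rfl⟩
        have hz' := hCf hz
        simp only [hz', dite_true]
        exact ⟨⟨z, hz'⟩, hz, rfl⟩
      · rintro ⟨z, hz, rfl⟩
        exact ⟨z, hz, by simp⟩
    · intro x1 hx1 hcon
      rw [← hWe] at hcon
      obtain ⟨z, hz, hzz⟩ := hcon
      have : z = x1 := θ.injective (Subtype.ext hzz)
      exact hx1 (this ▸ hz)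
  · -- a line
    have hfl : h (1 / 2) ∈ flat f0 := by
      rw [P_flat f0 h hh hP]
      have : round ((1 : ℝ) / 2) = 1 := by
        rw [round_eq]; norm_num
      rw [this]; norm_num
    let x0 : flat f0 := ⟨h (1 / 2), hfl⟩
    have hx0 : (x0 : M) ∈ connectedComponent x := hr ▸ mem_range_self _
    have hlev : ∀ z t, f0 z = f0 (h t) → z ∈ range h := by
      intro z t hz
      have h3 := h1 _ _ hz
      have h4 : h t ∈ connectedComponent x := hr ▸ mem_range_self t
      rw [hr, connectedComponent_eq h4, ← h3]
      exact mem_connectedComponent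
    obtain ⟨⟨k⟩, hk⟩ := line_case hM hN f0 f hf φ θ hθ h hh
      (hr ▸ isClosed_connectedComponent) hlev hP x0 rfl
    have E1 : ℝ ≃ₜ range h := hh.isEmbedding.toHomeomorph
    have E2 : range h ≃ₜ connectedComponent x := Homeomorph.setCongr hr
    obtain ⟨κ, hκ, hκ2⟩ := piece_of hN x (θ x0 : N) ((E1.trans E2).symm.trans k.symm)
    exact ⟨κ, hκ, x0, hx0, hκ2, fun x1 hx1 => hk x1 (by rwa [hr])⟩

theorem forward (hM : IsMfd M) (hN : IsMfd N) (hiso : ∀ x : M, ¬ IsOpen ({x} : Set M))
    (H : ∀ f0 : M → ℝ, Continuous f0 →
      ∃ f : N → ℝ, Continuous f ∧ Nonempty (levelGroup f0 ≃* levelGroup f)) :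
    ∃ U : Set N, IsClopen U ∧ Nonempty (M ≃ₜ U) := by
  obtain ⟨f0, hf0, h1, h2⟩ := exists_special hM
  obtain ⟨f, hf, ⟨φ⟩⟩ := H f0 hf0
  have hfaith := faith hM hiso f0 h1 (fun x => (h2 x).imp And.right id)
  obtain ⟨θ, hθ⟩ := core hM hN f0 f hf φ hfaith
  have hp := fun x => piece hM hN hiso f0 hf0 f hf φ θ hθ h1 x (h2 x)
  choose κ' hκ' x0 hx0 himg hdis using hp
  -- representatives
  let r : M → M := fun x => Quotient.out (ConnectedComponents.mk x)
  have hr : ∀ x, connectedComponent (r x) = connectedComponent x := by
    intro x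
    have : (ConnectedComponents.mk (r x)) = ConnectedComponents.mk x := Quotient.out_eq _
    exact ConnectedComponents.coe_eq_coe.1 this
  have hr2 : ∀ x z, z ∈ connectedComponent x → r z = r x := by
    intro x z hz
    have : ConnectedComponents.mk z = ConnectedComponents.mk x :=
      ConnectedComponents.coe_eq_coe.2 (connectedComponent_eq hz).symm
    simp only [r, this]
  let κ : M → N := fun z => κ' (r z) z
  have hκeq : ∀ x z, z ∈ connectedComponent x → κ z = κ' (r x) z := by
    intro x z hz
    simp only [κ, hr2 x z hz]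
  have himg' : ∀ x, κ '' connectedComponent x = connectedComponent (θ (x0 (r x)) : N) := by
    intro x
    rw [← himg (r x), hr x]
    exact image_congr fun z hz => hκeq x z hz
  have hg := glue hM hN κ ?_ ?_ ?_
  · refine ⟨range κ, hg.2, ⟨hg.1.isEmbedding.toHomeomorph⟩⟩
  · intro x
    have h3 := hκ' (r x)
    rw [hr x] at h3
    have h4 : (fun z : connectedComponent x => κ z) =
        fun z : connectedComponent x => κ' (r x) z := by
      funext z; exact hκeq x z z.2
    rw [h4]; exact h3
  · intro x
    rw [himg' x]
    exact isClosed_connectedComponent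
  · intro x y hxy
    rw [himg' x, himg' y]
    have h5 : (x0 (r y) : M) ∉ connectedComponent (r x) := by
      intro hcon
      have h6 := hx0 (r y)
      rw [hr] at hcon h6
      exact hxy ((connectedComponent_eq hcon).trans (connectedComponent_eq h6).symm)
    have h7 := hdis (r x) (x0 (r y)) h5
    rw [Set.disjoint_iff_inter_eq_empty, Set.eq_empty_iff_forall_notMem]
    rintro w ⟨hw1, hw2⟩
    apply h7
    rw [connectedComponent_eq hw1, ← connectedComponent_eq hw2]
    exact mem_connectedComponent

theorem main (hM : IsMfd M) (hN : IsMfd N) (hiso : ∀ x : M, ¬ IsOpen ({x} : Set M)) :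
    (∀ f0 : M → ℝ, Continuous f0 →
      ∃ f : N → ℝ, Continuous f ∧ Nonempty (levelGroup f0 ≃* levelGroup f)) ↔
    ∃ U : Set N, IsClopen U ∧ Nonempty (M ≃ₜ U) := by
  refine ⟨forward hM hN hiso, ?_⟩
  rintro ⟨U, hU, ⟨e⟩⟩ f0 hf0
  exact conv hN U hU e f0 hf0

end Pool.Agent.H756.LS
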