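import Pool.Agent.H756.LS.Defs

set_option autoImplicit false

open Set Topology Function Filter

namespace Pool.Agent.H756.LS

lemma fix_core (f T : ℝ → ℝ) (hf : Continuous f) (hT : Continuous T) (hm : StrictMono T)
    (hfT : ∀ y, f (T y) = f y) (p z w : ℝ) (hp : T p = p) (hpz : p < z) (hz : T z < z)
    (hw : T w = z) :
    ∃ a, a < T z ∧ ∀ x ∈ Ioo a w, ∀ y ∈ Ioo a w, f x = f y := by
  have hanti : Antitone (fun n : ℕ => T^[n] z) :=
    hm.monotone.antitone_iterate_of_map_le hz.le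
  have hpn : ∀ n : ℕ, T^[n] p = p := fun n => iterate_fixed hp n
  have hbd : BddBelow (range (fun n : ℕ => T^[n] z)) := by
    refine ⟨p, ?_⟩
    rintro _ ⟨n, rfl⟩
    show p ≤ T^[n] z
    have := (hm.iterate n).monotone hpz.le
    rwa [hpn n] at this
  have hlim : Tendsto (fun n : ℕ => T^[n] z) atTop (𝓝 (⨅ n : ℕ, T^[n] z)) :=
    tendsto_atTop_ciInf hanti hbd
  set a := ⨅ n : ℕ, T^[n] z with ha
  have hfix : T a = a := isFixedPt_of_tendsto_iterate hlim hT.continuousAt
  have haz : a < T z := by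
    have h1 : a ≤ T^[2] z := ciInf_le hbd 2
    have h2 : T^[2] z < T z := by
      show T (T z) < T z
      exact hm hz
    linarith
  have han : ∀ n : ℕ, T^[n] a = a := fun n => iterate_fixed hfix n
  have hfn : ∀ (n : ℕ) (y : ℝ), f (T^[n] y) = f y := by
    intro n
    induction n with
    | zero => intro y; rfl
    | succ n ih => intro y; rw [iterate_succ_apply, ih, hfT]
  have key : ∀ x ∈ Ioo a w, f x = f a := by
    intro x hx
    have h1 : Tendsto (fun n : ℕ => T^[n + 1] x) atTop (𝓝 a) := by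
      refine tendsto_of_tendsto_of_tendsto_of_le_of_le tendsto_const_nhds hlim ?_ ?_
      · intro n
        have := (hm.iterate (n + 1)).monotone hx.1.le
        rwa [han] at this
      · intro n
        have := (hm.iterate (n + 1)).monotone hx.2.le
        rwa [iterate_succ_apply T n w, hw] at this
    have h2 : Tendsto (fun n : ℕ => f (T^[n + 1] x)) atTop (𝓝 (f a)) :=
      (hf.tendsto a).comp h1
    have h3 : (fun n : ℕ => f (T^[n + 1] x)) = fun _ => f x := funext fun n => hfn _ _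
    rw [h3] at h2
    exact tendsto_nhds_unique tendsto_const_nhds h2
  exact ⟨a, haz, fun x hx y hy => by rw [key x hx, key y hy]⟩

lemma fix_core2 (f : ℝ → ℝ) (hf : Continuous f) (T : ℝ ≃ₜ ℝ) (hm : StrictMono T)
    (hfT : ∀ y, f (T y) = f y) (p z : ℝ) (hp : T p = p) (hpz : p < z) (hz : T z ≠ z) :
    ∃ I : Set ℝ, IsPreconnected I ∧ IsOpen I ∧ z ∈ I ∧ T z ∈ I ∧
      ∀ x ∈ I, ∀ y ∈ I, f x = f y := by
  have hms : StrictMono T.symm := by
    intro x y hxy
    by_contra hcon
    have := hm.monotone (not_lt.1 hcon)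
    rw [T.apply_symm_apply, T.apply_symm_apply] at this
    linarith
  rcases lt_or_gt_of_ne hz with h | h
  · obtain ⟨a, ha, hc⟩ := fix_core f T hf T.continuous hm hfT p z (T.symm z) hp hpz h
      (T.apply_symm_apply z)
    have h1 : z < T.symm z := by
      have := hms h
      rwa [T.symm_apply_apply] at this
    exact ⟨Ioo a (T.symm z), isPreconnected_Ioo, isOpen_Ioo, ⟨ha.trans h, h1⟩,
      ⟨ha, h.trans h1⟩, hc⟩
  · obtain ⟨a, ha, hc⟩ := fix_core f T.symm hf T.symm.continuous hms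
      (fun y => by rw [← hfT (T.symm y), T.apply_symm_apply]) p (T z) (T (T z))
      (by rw [T.symm_apply_eq, hp]) (hpz.trans h) (by rw [T.symm_apply_apply]; exact h)
      (T.symm_apply_apply _)
    rw [T.symm_apply_apply] at ha
    have h1 : T z < T (T z) := hm h
    exact ⟨Ioo a (T (T z)), isPreconnected_Ioo, isOpen_Ioo, ⟨ha, h.trans h1⟩,
      ⟨ha.trans h, h1⟩, hc⟩

lemma fix_core3 (f : ℝ → ℝ) (hf : Continuous f) (T : ℝ ≃ₜ ℝ) (hm : StrictMono T)
    (hfT : ∀ y, f (T y) = f y) (p z : ℝ) (hp : T p = p) (hz : T z ≠ z) :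
    ∃ I : Set ℝ, IsPreconnected I ∧ IsOpen I ∧ z ∈ I ∧ T z ∈ I ∧
      ∀ x ∈ I, ∀ y ∈ I, f x = f y := by
  rcases lt_trichotomy p z with h | h | h
  · exact fix_core2 f hf T hm hfT p z hp h hz
  · exact (hz (h ▸ hp)).elim
  · let T' : ℝ ≃ₜ ℝ := ((Homeomorph.neg ℝ).trans T).trans (Homeomorph.neg ℝ)
    have hT' : ∀ x, T' x = - T (-x) := fun x => rfl
    obtain ⟨I, hI1, hI2, hI3, hI4, hI5⟩ := fix_core2 (fun x => f (-x)) (hf.comp continuous_neg) T'
      (fun x y hxy => by
        rw [hT', hT']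
        exact neg_lt_neg (hm (neg_lt_neg hxy)))
      (fun y => by
        show f (- T' y) = f (-y)
        rw [hT', neg_neg, hfT])
      (-p) (-z) (by rw [hT', neg_neg, hp]) (neg_lt_neg h)
      (by rw [hT', neg_neg]; exact fun h => hz (neg_injective h))
    refine ⟨(fun x => -x) ⁻¹' I, ?_, hI2.preimage continuous_neg, hI3, ?_, ?_⟩
    · have : (fun x : ℝ => -x) ⁻¹' I = (fun x => -x) '' I := by
        ext x
        constructor
        · intro hx; exact ⟨-x, hx, neg_neg x⟩
        · rintro ⟨y, hy, rfl⟩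
          show - -y ∈ I
          rwa [neg_neg]
      rw [this]
      exact hI1.image _ continuous_neg.continuousOn
    · show - T z ∈ I
      rw [hT', neg_neg] at hI4
      exact hI4
    · intro x hx y hy
      have := hI5 _ hx _ hy
      simpa using this

lemma sq_strictMono (S : ℝ ≃ₜ ℝ) : StrictMono (fun x => S (S x)) := by
  rcases S.continuous.strictMono_of_inj S.injective with h | h
  · exact fun x y hxy => h (h hxy)
  · exact fun x y hxy => h (h hxy)

theorem line_fix (f : ℝ → ℝ) (hf : Continuous f) (S : ℝ ≃ₜ ℝ) (hS : ∀ y, f (S y) = f y)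
    (J : Set ℝ) (hJ : IsOpen J) (hne : J.Nonempty)
    (hdis : ∀ k : ℕ, 1 ≤ k → Disjoint ((S ^ k) '' J) J)
    (hmax : ∀ J' : Set ℝ, IsPreconnected J' → (J ∩ J').Nonempty →
      (∀ y ∈ J', ∃ B : Set ℝ, IsOpen B ∧ y ∈ B ∧ ∀ z ∈ B, f z = f y) → J' ⊆ J) (y : ℝ) :
    S y ≠ y := by
  intro hy
  obtain ⟨z, hz⟩ := hne
  have hS2 : ∀ x, (S ^ 2 : ℝ ≃ₜ ℝ) x = S (S x) := fun x => rfl
  have hd := hdis 2 (by norm_num)
  have hzz : (S ^ 2 : ℝ ≃ₜ ℝ) z ≠ z := by
    intro h
    exact Set.disjoint_left.1 hd ⟨z, hz, h⟩ hz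
  obtain ⟨I, hI1, hI2, hI3, hI4, hI5⟩ := fix_core3 f hf (S ^ 2) (sq_strictMono S)
    (fun y => by rw [hS2, hS, hS]) y z (by rw [hS2, hy, hy]) hzz
  have hsub := hmax I hI1 ⟨z, hz, hI3⟩ (fun y hy => ⟨I, hI2, hy, fun x hx => hI5 x hx y hy⟩)
  exact Set.disjoint_left.1 hd ⟨z, hz, rfl⟩ (hsub hI4)

/-! ### The circle -/

lemma coe_eq_iff (x y : ℝ) :
    ((x : AddCircle (1 : ℝ)) = y) ↔ ∃ k : ℤ, x = y + k := by
  rw [QuotientAddGroup.eq, AddSubgroup.mem_zmultiples_iff]
  constructor
  · rintro ⟨k, hk⟩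
    refine ⟨-k, ?_⟩
    simp at hk
    push_cast
    linarith
  · rintro ⟨k, hk⟩
    refine ⟨-k, ?_⟩
    simp
    linarith

lemma coe_add_int (x : ℝ) (k : ℤ) : ((x + k : ℝ) : AddCircle (1 : ℝ)) = x :=
  (coe_eq_iff _ _).2 ⟨k, rfl⟩

lemma exists_lift (S : AddCircle (1 : ℝ) → AddCircle (1 : ℝ)) (hS : Continuous S) :
    ∃ s : ℝ → ℝ, Continuous s ∧ ∀ x : ℝ, ((s x : ℝ) : AddCircle (1 : ℝ)) = S x := by
  obtain ⟨e, he⟩ := QuotientAddGroup.mk_surjective (s := AddSubgroup.zmultiples (1 : ℝ))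
    (S ((0 : ℝ) : AddCircle (1 : ℝ)))
  obtain ⟨F, ⟨-, hF⟩, -⟩ := (AddCircle.isCoveringMap_coe (1 : ℝ)).existsUnique_continuousMap_lifts
    (⟨fun x : ℝ => S x, hS.comp (AddCircle.continuous_mk' 1)⟩ : C(ℝ, AddCircle (1 : ℝ))) 0 e he
  exact ⟨F, F.continuous, fun x => congrFun hF x⟩

lemma lift_unique (s t : ℝ → ℝ) (hs : Continuous s) (ht : Continuous t)
    (h : ∀ x, ((s x : ℝ) : AddCircle (1 : ℝ)) = (t x : ℝ)) : ∃ k : ℤ, ∀ x, s x = t x + k := by
  obtain ⟨k, hk⟩ := (coe_eq_iff _ _).1 (h 0)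
  refine ⟨k, fun x => ?_⟩
  have := (AddCircle.isCoveringMap_coe (1 : ℝ)).eq_of_comp_eq (g₁ := s) (g₂ := fun x => t x + k)
    hs (ht.add continuous_const)
    (by funext x; show ((s x : ℝ) : AddCircle (1 : ℝ)) = ((t x + k : ℝ) : AddCircle (1 : ℝ))
        rw [coe_add_int, h]) 0 hk
  exact congrFun this x

lemma exists_lift_homeo (S : AddCircle (1 : ℝ) ≃ₜ AddCircle (1 : ℝ)) :
    ∃ s : ℝ ≃ₜ ℝ, ∀ x : ℝ, ((s x : ℝ) : AddCircle (1 : ℝ)) = S x := by
  obtain ⟨s, hs, hs'⟩ := exists_lift S S.continuous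
  obtain ⟨t, ht, ht'⟩ := exists_lift S.symm S.symm.continuous
  obtain ⟨m, hm⟩ := lift_unique (fun x => t (s x)) (fun x => x) (ht.comp hs) continuous_id
    (fun x => by rw [ht', hs', S.symm_apply_apply])
  obtain ⟨m', hm'⟩ := lift_unique (fun x => s (t x)) (fun x => x) (hs.comp ht) continuous_id
    (fun x => by rw [hs', ht', S.apply_symm_apply])
  have hsurj : ∀ x, ∃ u, s u = x := fun x => ⟨t (x - m'), by
    have := hm' (x - m')
    rw [this]; ring⟩
  have hleft : ∀ u, t (s u) - m = u := fun u => by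
    have := hm u
    rw [this]; ring
  exact ⟨{ toFun := s
           invFun := fun x => t x - m
           left_inv := hleft
           right_inv := fun x => by
            obtain ⟨u, rfl⟩ := hsurj x
            show s (t (s u) - m) = s u
            rw [hleft]
           continuous_toFun := hs
           continuous_invFun := ht.sub continuous_const }, hs'⟩

/-- the lift of the square of a circle homeomorphism -/
lemma exists_lift_sq (S : AddCircle (1 : ℝ) ≃ₜ AddCircle (1 : ℝ)) :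
    ∃ T : ℝ ≃ₜ ℝ, StrictMono T ∧ (∀ x : ℝ, ((T x : ℝ) : AddCircle (1 : ℝ)) = S (S x)) ∧
      ∀ x, T (x + 1) = T x + 1 := by
  obtain ⟨s, hs⟩ := exists_lift_homeo S
  refine ⟨s.trans s, sq_strictMono s, fun x => ?_, fun x => ?_⟩
  · show ((s (s x) : ℝ) : AddCircle (1 : ℝ)) = S (S x)
    rw [hs, hs]
  · set T : ℝ ≃ₜ ℝ := s.trans s with hTdef
    have hm : StrictMono T := sq_strictMono s
    have hT : ∀ x : ℝ, ((T x : ℝ) : AddCircle (1 : ℝ)) = S (S x) := by
      intro x
      show ((s (s x) : ℝ) : AddCircle (1 : ℝ)) = S (S x)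
      rw [hs, hs]
    have h1 : ((T (x + 1) : ℝ) : AddCircle (1 : ℝ)) = (T x : ℝ) := by
      have h2 := coe_add_int x 1
      rw [Int.cast_one] at h2
      rw [hT, hT, h2]
    obtain ⟨d, hd⟩ := (coe_eq_iff _ _).1 h1
    have hd1 : 1 ≤ d := by
      have h2 : T x < T (x + 1) := hm (by linarith)
      rw [hd] at h2
      have h3 : (0 : ℝ) < d := by linarith
      exact_mod_cast h3
    rcases hd1.eq_or_lt with h | h
    · rw [hd, ← h]; simp
    · exfalso
      set x' := T.symm (T x + 1) with hx'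
      have hTx' : T x' = T x + 1 := T.apply_symm_apply _
      have h2 : x < x' := by
        rw [← hm.lt_iff_lt, hTx']; linarith
      have h3 : x' < x + 1 := by
        rw [← hm.lt_iff_lt, hTx', hd]
        have : (1 : ℝ) < d := by exact_mod_cast h
        linarith
      have h4 : S (S x') = S (S x) := by
        rw [← hT, ← hT, hTx']
        have h2 := coe_add_int (T x) 1
        rwa [Int.cast_one] at h2
      have h5 := S.injective (S.injective h4)
      obtain ⟨k, hk⟩ := (coe_eq_iff _ _).1 h5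
      have h6 : (0 : ℝ) < k := by linarith
      have h7 : (k : ℝ) < 1 := by linarith
      have h8 : (0 : ℤ) < k := by exact_mod_cast h6
      have h9 : k < (1 : ℤ) := by exact_mod_cast h7
      omega

lemma osc_core (F : ℝ → ℝ) (R : ℝ ≃ₜ ℝ) (hm : StrictMono R) (hFR : ∀ x, F (R x) = F x)
    (hnf : ∀ x, R x ≠ x) (z : ℝ) (hz : z < R z) (ε : ℝ)
    (h : ∀ x, z ≤ x → x ≤ R z → |F x - F z| ≤ ε) : ∀ w, z ≤ w → |F w - F z| ≤ ε := by
  intro w hw
  have hmono : Monotone (fun n : ℕ => R^[n] z) :=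
    hm.monotone.monotone_iterate_of_le_map hz.le
  have hunb : ∃ n : ℕ, w < R^[n] z := by
    by_contra hcon
    push Not at hcon
    have hbd : BddAbove (range (fun n : ℕ => R^[n] z)) := ⟨w, by rintro _ ⟨n, rfl⟩; exact hcon n⟩
    have hlim := tendsto_atTop_ciSup hmono hbd
    exact hnf _ (isFixedPt_of_tendsto_iterate hlim R.continuous.continuousAt)
  have hFn : ∀ (n : ℕ) (y : ℝ), F (R^[n] y) = F y := by
    intro n
    induction n with
    | zero => intro y; rfl
    | succ n ih => intro y; rw [iterate_succ_apply, ih, hFR]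
  classical
  let N := Nat.find hunb
  have hN : w < R^[N] z := Nat.find_spec hunb
  have hN0 : N ≠ 0 := by
    intro h0
    rw [h0] at hN
    simp at hN
    linarith
  obtain ⟨n, hn⟩ := Nat.exists_eq_succ_of_ne_zero hN0
  have hn' : R^[n] z ≤ w := by
    by_contra hcon
    push Not at hcon
    have : N ≤ n := Nat.find_min' hunb hcon
    omega
  obtain ⟨x, hx⟩ : ∃ x, R^[n] x = w := by
    have : Surjective (R^[n]) := R.surjective.iterate n
    exact this w
  have h1 : z ≤ x := by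
    rw [← (hm.iterate n).le_iff_le, hx]; exact hn'
  have h2 : x ≤ R z := by
    rw [← (hm.iterate n).le_iff_le, hx, ← iterate_succ_apply]
    rw [hn] at hN
    exact hN.le
  rw [← hx, hFn]
  exact h x h1 h2

theorem circle_case (f : AddCircle (1 : ℝ) → ℝ) (hf : Continuous f)
    (S : AddCircle (1 : ℝ) ≃ₜ AddCircle (1 : ℝ)) (hS : ∀ y, f (S y) = f y)
    (J : Set (AddCircle (1 : ℝ))) (hJ : IsOpen J) (hne : J.Nonempty)
    (hdis : ∀ k : ℕ, 1 ≤ k → Disjoint ((S ^ k) '' J) J)
    (hmax : ∀ J' : Set (AddCircle (1 : ℝ)), IsPreconnected J' → (J ∩ J').Nonempty →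
      (∀ y ∈ J', ∃ B : Set (AddCircle (1 : ℝ)), IsOpen B ∧ y ∈ B ∧ ∀ z ∈ B, f z = f y) → J' ⊆ J) :
    False := by
  obtain ⟨T, hTm, hTS, hT1⟩ := exists_lift_sq S
  let F : ℝ → ℝ := fun x => f (x : AddCircle (1 : ℝ))
  have hπ : Continuous (fun x : ℝ => (x : AddCircle (1 : ℝ))) := AddCircle.continuous_mk' 1
  have hF : Continuous F := hf.comp hπ
  have hFp : ∀ (x : ℝ) (k : ℤ), F (x + k) = F x := fun x k => by
    show f ((x + k : ℝ) : AddCircle (1 : ℝ)) = f x
    rw [coe_add_int]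
  -- the maps R q m
  let R : ℕ → ℤ → (ℝ ≃ₜ ℝ) := fun q m => (T ^ q).trans (Homeomorph.addRight (m : ℝ))
  have hR : ∀ q m x, R q m x = (T ^ q : ℝ ≃ₜ ℝ) x + m := fun q m x => rfl
  have hTsucc : ∀ (q : ℕ) (x : ℝ), (T ^ (q + 1) : ℝ ≃ₜ ℝ) x = (T ^ q : ℝ ≃ₜ ℝ) (T x) := by
    intro q x
    rw [pow_succ]; rfl
  have hTm' : ∀ q : ℕ, StrictMono (T ^ q : ℝ ≃ₜ ℝ) := by
    intro q
    induction q with
    | zero => exact fun x y h => h
    | succ q ih => intro x y h; rw [hTsucc, hTsucc]; exact ih (hTm h)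
  have hT1' : ∀ (q : ℕ) (x : ℝ), (T ^ q : ℝ ≃ₜ ℝ) (x + 1) = (T ^ q : ℝ ≃ₜ ℝ) x + 1 := by
    intro q
    induction q with
    | zero => exact fun x => rfl
    | succ q ih => intro x; rw [hTsucc, hTsucc, hT1, ih]
  have hRm : ∀ q m, StrictMono (R q m) := by
    intro q m x y h
    rw [hR, hR]
    have := hTm' q h
    linarith
  have hSpow : ∀ (q : ℕ) (x : ℝ),
      (((T ^ q : ℝ ≃ₜ ℝ) x : ℝ) : AddCircle (1 : ℝ)) = (S ^ (2 * q) : AddCircle (1:ℝ) ≃ₜ AddCircle (1:ℝ)) x := by
    intro q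
    induction q with
    | zero => exact fun x => rfl
    | succ q ih =>
      intro x
      rw [hTsucc, ih, hTS, show 2 * (q + 1) = 2 * q + 2 from by ring, pow_add]
      rfl
  have hRS : ∀ (q : ℕ) (m : ℤ) (x : ℝ),
      ((R q m x : ℝ) : AddCircle (1 : ℝ)) = (S ^ (2 * q) : AddCircle (1:ℝ) ≃ₜ AddCircle (1:ℝ)) x := by
    intro q m x
    rw [hR, coe_add_int, hSpow]
  have hfS : ∀ (k : ℕ) (y : AddCircle (1 : ℝ)), f ((S ^ k : AddCircle (1:ℝ) ≃ₜ AddCircle (1:ℝ)) y) = f y := by
    intro k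
    induction k with
    | zero => exact fun y => rfl
    | succ k ih =>
      intro y
      have : (S ^ (k + 1) : AddCircle (1:ℝ) ≃ₜ AddCircle (1:ℝ)) y
        = (S ^ k : AddCircle (1:ℝ) ≃ₜ AddCircle (1:ℝ)) (S y) := by rw [pow_succ]; rfl
      rw [this, ih, hS]
  have hFR : ∀ (q : ℕ) (m : ℤ) (x : ℝ), F (R q m x) = F x := by
    intro q m x
    show f ((R q m x : ℝ) : AddCircle (1 : ℝ)) = f x
    rw [hRS, hfS]
  by_cases hcase : ∃ (q : ℕ) (m : ℤ) (p : ℝ), 1 ≤ q ∧ R q m p = p
  · -- case (a)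
    obtain ⟨q, m, p, hq, hp⟩ := hcase
    obtain ⟨y, hy⟩ := hne
    obtain ⟨z, rfl⟩ := QuotientAddGroup.mk_surjective (s := AddSubgroup.zmultiples (1 : ℝ)) y
    have hd := hdis (2 * q) (by omega)
    have hz : R q m z ≠ z := by
      intro h
      have h1 := hRS q m z
      rw [h] at h1
      exact Set.disjoint_left.1 hd ⟨_, hy, h1.symm⟩ hy
    obtain ⟨I, hI1, hI2, hI3, hI4, hI5⟩ := fix_core3 F hF (R q m) (hRm q m) (hFR q m) p z hp hz
    have hopen : IsOpen ((fun x : ℝ => (x : AddCircle (1 : ℝ))) '' I) :=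
      (AddCircle.isLocalHomeomorph_coe (1 : ℝ)).isOpenMap I hI2
    have hsub := hmax ((fun x : ℝ => (x : AddCircle (1 : ℝ))) '' I)
      (hI1.image _ hπ.continuousOn) ⟨_, hy, z, hI3, rfl⟩ (by
        intro y hy
        refine ⟨_, hopen, hy, ?_⟩
        obtain ⟨u, hu, rfl⟩ := hy
        rintro _ ⟨v, hv, rfl⟩
        exact hI5 v hv u hu)
    exact Set.disjoint_left.1 hd ⟨_, hy, (hRS q m z).symm⟩ (hsub ⟨_, hI4, rfl⟩)
  · -- case (b): `F` is constant
    push Not at hcase
    have hconst : ∀ u v : ℝ, F u = F v := by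
      have hkey : ∀ ε : ℝ, 0 < ε → ∀ u v : ℝ, |F u - F v| ≤ ε + ε := by
        intro ε hε
        obtain ⟨δ, hδ, hunif⟩ := Metric.uniformContinuous_iff.1
          (CompactSpace.uniformContinuous_of_continuous hf) ε hε
        -- two close points of the orbit
        obtain ⟨i, j, hij, hd⟩ : ∃ i j : ℕ, i < j ∧
            dist ((((T ^ j : ℝ ≃ₜ ℝ) 0 : ℝ)) : AddCircle (1 : ℝ)) (((T ^ i : ℝ ≃ₜ ℝ) 0 : ℝ)) < δ := by
          obtain ⟨a, φ, hφ, hlim⟩ := CompactSpace.tendsto_subseq
            (fun n : ℕ => ((((T ^ n : ℝ ≃ₜ ℝ) 0 : ℝ)) : AddCircle (1 : ℝ)))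
          obtain ⟨N, hN⟩ := Metric.cauchySeq_iff.1 hlim.cauchySeq δ hδ
          exact ⟨φ N, φ (N + 1), hφ (Nat.lt_succ_self N), hN (N + 1) (Nat.le_succ N) N le_rfl⟩
        set z := (T ^ i : ℝ ≃ₜ ℝ) 0 with hz
        have hj : (T ^ j : ℝ ≃ₜ ℝ) 0 = (T ^ (j - i) : ℝ ≃ₜ ℝ) z := by
          rw [hz]
          have : T ^ j = T ^ (j - i) * T ^ i := by rw [← pow_add]; congr 1; omega
          rw [this]; rfl
        rw [hj] at hd
        set q := j - i with hq
        have hq1 : 1 ≤ q := by omega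
        rw [dist_eq_norm] at hd
        have hnorm : ∃ m : ℤ, |R q m z - z| < δ := by
          refine ⟨-round ((T ^ q : ℝ ≃ₜ ℝ) z - z), ?_⟩
          have h1 := UnitAddCircle.norm_eq (x := (T ^ q : ℝ ≃ₜ ℝ) z - z)
          have h2 : (((T ^ q : ℝ ≃ₜ ℝ) z - z : ℝ) : UnitAddCircle)
            = ((((T ^ q : ℝ ≃ₜ ℝ) z : ℝ)) : UnitAddCircle) - ((z : ℝ) : UnitAddCircle) := rfl
          rw [h2] at h1
          have h3 : ‖((((T ^ q : ℝ ≃ₜ ℝ) z : ℝ)) : UnitAddCircle) - ((z : ℝ) : UnitAddCircle)‖ < δ := hd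
          rw [h1] at h3
          rw [hR]
          push_cast
          have h4 : (T ^ q : ℝ ≃ₜ ℝ) z + -(round ((T ^ q : ℝ ≃ₜ ℝ) z - z) : ℝ) - z
            = (T ^ q : ℝ ≃ₜ ℝ) z - z - (round ((T ^ q : ℝ ≃ₜ ℝ) z - z) : ℝ) := by ring
          rw [h4]
          exact h3
        obtain ⟨m, hm⟩ := hnorm
        have hclose : ∀ x y : ℝ, |x - y| < δ → |F x - F y| < ε := by
          intro x y hxy
          have h1 : dist (x : AddCircle (1 : ℝ)) (y : AddCircle (1 : ℝ)) < δ := by
            rw [dist_eq_norm]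
            have h2 : ((x - y : ℝ) : UnitAddCircle) = (x : UnitAddCircle) - (y : UnitAddCircle) := rfl
            have h1 := UnitAddCircle.norm_eq (x := x - y)
            rw [h2] at h1
            have h3 : ‖(x : UnitAddCircle) - (y : UnitAddCircle)‖ < δ := by
              rw [h1]
              refine lt_of_le_of_lt ?_ hxy
              have := round_le (x - y) 0
              simpa using this
            exact h3
          have h4 := hunif h1
          rw [Real.dist_eq] at h4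
          exact h4
        -- one point base
        have hbase : ∃ z0 : ℝ, ∀ w, z0 ≤ w → |F w - F z0| ≤ ε := by
          rcases lt_or_gt_of_ne (hcase q m z hq1) with h | h
          · -- R z < z : use the inverse
            refine ⟨R q m z, osc_core F (R q m).symm ?_ ?_ ?_ _ ?_ ε ?_⟩
            · intro x y hxy
              rw [← (hRm q m).lt_iff_lt, (R q m).apply_symm_apply, (R q m).apply_symm_apply]
              exact hxy
            · intro x
              rw [← hFR q m ((R q m).symm x), (R q m).apply_symm_apply]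
            · intro x hx
              apply hcase q m x hq1
              rw [← hx, (R q m).apply_symm_apply, hx]
            · rw [(R q m).symm_apply_apply]; exact h
            · intro x hx1 hx2
              rw [(R q m).symm_apply_apply] at hx2
              refine (hclose _ _ ?_).le
              rw [abs_of_nonneg (by linarith)]
              rw [abs_of_neg (by linarith)] at hm
              linarith
          · refine ⟨z, osc_core F (R q m) (hRm q m) (hFR q m) (fun x => hcase q m x hq1) z h ε ?_⟩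
            intro x hx1 hx2
            refine (hclose _ _ ?_).le
            rw [abs_of_nonneg (by linarith)]
            rw [abs_of_pos (by linarith)] at hm
            linarith
        obtain ⟨z0, hz0⟩ := hbase
        have hall : ∀ u, |F u - F z0| ≤ ε := by
          intro u
          obtain ⟨k, hk⟩ := exists_nat_ge (z0 - u)
          have h1 := hFp u (k : ℤ)
          rw [← h1]
          apply hz0
          push_cast
          linarith
        intro u v
        have h1 := hall u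
        have h2 := hall v
        rw [abs_le] at h1 h2 ⊢
        constructor <;> linarith [h1.1, h1.2, h2.1, h2.2]
      intro u v
      by_contra hne'
      have h1 : 0 < |F u - F v| := abs_pos.2 (sub_ne_zero.2 hne')
      have h2 := hkey (|F u - F v| / 4) (by linarith) u v
      linarith
    have hconst' : ∀ x y : AddCircle (1 : ℝ), f x = f y := by
      intro x y
      obtain ⟨u, rfl⟩ := QuotientAddGroup.mk_surjective (s := AddSubgroup.zmultiples (1 : ℝ)) x
      obtain ⟨v, rfl⟩ := QuotientAddGroup.mk_surjective (s := AddSubgroup.zmultiples (1 : ℝ)) y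
      exact hconst u v
    have huniv : IsPreconnected (univ : Set (AddCircle (1 : ℝ))) := by
      have : (univ : Set (AddCircle (1 : ℝ))) = (fun x : ℝ => (x : AddCircle (1 : ℝ))) '' univ := by
        rw [image_univ]
        exact (QuotientAddGroup.mk_surjective (s := AddSubgroup.zmultiples (1 : ℝ))).range_eq.symm
      rw [this]
      exact isPreconnected_univ.image _ hπ.continuousOn
    obtain ⟨y, hy⟩ := hne
    have hsub := hmax univ huniv ⟨y, hy, mem_univ y⟩
      (fun y _ => ⟨univ, isOpen_univ, mem_univ y, fun z _ => hconst' z y⟩)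
    exact Set.disjoint_left.1 (hdis 1 le_rfl) ⟨y, hy, rfl⟩ (hsub (mem_univ _))

end Pool.Agent.H756.LS
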