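import Pool.Agent.H756.LS.Fin

/-!
# Isolated points
-/

set_option autoImplicit false

open Set Topology Function

namespace Pool.Agent.H756.LS

/-- The part of `M` of positive dimension: the points which are not isolated. -/
def posPart (M : Type) [TopologicalSpace M] : Set M := {x | ¬ IsOpen ({x} : Set M)}

theorem mfd_clopen {M : Type} [TopologicalSpace M] (hM : IsMfd M) (U : Set M)
    (hU : IsClopen U) : IsMfd U := by
  have := hM.1
  have := hM.2.1
  refine ⟨inferInstance, inferInstance, fun x => ?_⟩
  obtain ⟨n, e, he, t, ht⟩ := hM.2.2 x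
  have hin : ∀ s, e s ∈ U := by
    intro s
    have h1 : IsClopen (e ⁻¹' U) := hU.preimage he.continuous
    have h2 : e ⁻¹' U = univ := by
      rcases isClopen_iff.1 h1 with h | h
      · exfalso
        have : t ∈ e ⁻¹' U := by
          show e t ∈ U
          rw [ht]; exact x.2
        rw [h] at this; exact this
      · exact h
    exact (h2 ▸ mem_univ s : s ∈ e ⁻¹' U)
  refine ⟨n, fun s => ⟨e s, hin s⟩, ?_, t, Subtype.ext ht⟩
  have h3 := hU.isOpen.isOpenEmbedding_subtypeVal
  exact (IsOpenEmbedding.of_comp_iff (g := (Subtype.val : U → M)) _ h3).1 he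

theorem posPart_clopen {M : Type} [TopologicalSpace M] (hM : IsMfd M) : IsClopen (posPart M) := by
  constructor
  · rw [← isOpen_compl_iff, isOpen_iff_forall_mem_open]
    intro x hx
    have hx' : IsOpen ({x} : Set M) := not_not.1 hx
    exact ⟨{x}, singleton_subset_iff.2 hx, hx', rfl⟩
  · rw [isOpen_iff_forall_mem_open]
    intro x hx
    obtain ⟨n, e, he, t, ht⟩ := hM.2.2 x
    rcases Nat.eq_zero_or_pos n with hn | hn
    · exfalso
      subst hn
      apply hx
      have h1 : range e = {x} := by
        ext y
        constructor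
        · rintro ⟨s, rfl⟩
          rw [mem_singleton_iff, ← ht]
          congr 1
          exact Subsingleton.elim _ _
        · rintro rfl
          exact ⟨t, ht⟩
      rw [← h1]
      exact he.isOpen_range
    · refine ⟨range e, ?_, he.isOpen_range, t, ht⟩
      rintro _ ⟨s, rfl⟩ hs
      have h2 : IsOpen ({s} : Set (EuclideanSpace ℝ (Fin n))) := by
        have : ({s} : Set (EuclideanSpace ℝ (Fin n))) = e ⁻¹' {e s} := by
          ext u
          constructor
          · rintro rfl; rfl
          · intro hu; exact he.injective hu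
        rw [this]
        exact hs.preimage he.continuous
      have : Nonempty (Fin n) := ⟨⟨0, hn⟩⟩
      have : Nontrivial (EuclideanSpace ℝ (Fin n)) := inferInstance
      have h4 := Module.punctured_nhds_neBot ℝ (EuclideanSpace ℝ (Fin n)) s
      exact not_isOpen_singleton s h2

theorem posPart_inv {M : Type} [TopologicalSpace M] (T : M ≃ₜ M) (x : M) :
    T x ∈ posPart M ↔ x ∈ posPart M := by
  have h : ∀ (S : M ≃ₜ M) (y : M), IsOpen ({y} : Set M) → IsOpen ({S y} : Set M) := by
    intro S y hy
    have : ({S y} : Set M) = S '' {y} := by simp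
    rw [this]
    exact S.isOpenMap _ hy
  refine not_congr ⟨fun hy => ?_, h T x⟩
  have := h T.symm _ hy
  rwa [T.symm_apply_apply] at this

/-- The level group of a function all of whose symmetries are the identity outside a clopen
invariant set. -/
theorem level_restrict {M : Type} [TopologicalSpace M] (A : Set M) (hA : IsClopen A)
    (hinv : ∀ (T : M ≃ₜ M) (x : M), T x ∈ A ↔ x ∈ A) (f0 : M → ℝ)
    (hfix : ∀ T ∈ levelGroup f0, ∀ x ∉ A, T x = x) :
    Nonempty (levelGroup f0 ≃* levelGroup (fun a : A => f0 a)) := by
  classical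
  have hc : ∀ S : A ≃ₜ A, Continuous (fun x : M => if h : x ∈ A then (S ⟨x, h⟩ : M) else x) := by
    intro S
    rw [continuous_iff_continuousAt]
    intro x
    by_cases hx : x ∈ A
    · have h1 : Continuous (fun a : A => (if h : (a : M) ∈ A then (S ⟨a, h⟩ : M) else a)) := by
        have : (fun a : A => (if h : (a : M) ∈ A then (S ⟨a, h⟩ : M) else a)) =
            fun a : A => (S a : M) := by
          funext a; simp
        rw [this]
        exact continuous_subtype_val.comp S.continuous
      exact (hA.isOpen.isOpenEmbedding_subtypeVal.continuousAt_iff (x := ⟨x, hx⟩)).1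
        h1.continuousAt
    · have h1 : (fun x : M => if h : x ∈ A then (S ⟨x, h⟩ : M) else x) =ᶠ[𝓝 x] id := by
        filter_upwards [hA.compl.isOpen.mem_nhds hx] with y hy
        have : y ∉ A := hy
        simp [this]
      exact continuousAt_id.congr h1.symm
  let ex : (A ≃ₜ A) → (M ≃ₜ M) := fun S =>
    { toFun := fun x => if h : x ∈ A then (S ⟨x, h⟩ : M) else x
      invFun := fun x => if h : x ∈ A then (S.symm ⟨x, h⟩ : M) else x
      left_inv := by
        intro x
        by_cases h : x ∈ A <;> simp [h]
      right_inv := by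
        intro x
        by_cases h : x ∈ A <;> simp [h]
      continuous_toFun := hc S
      continuous_invFun := hc S.symm }
  let re : (M ≃ₜ M) → (A ≃ₜ A) := fun T =>
    { toFun := fun a => ⟨T a, (hinv T a).2 a.2⟩
      invFun := fun a => ⟨T.symm a, (hinv T.symm a).2 a.2⟩
      left_inv := fun a => Subtype.ext (T.symm_apply_apply _)
      right_inv := fun a => Subtype.ext (T.apply_symm_apply _)
      continuous_toFun := (T.continuous.comp continuous_subtype_val).subtype_mk _
      continuous_invFun := (T.symm.continuous.comp continuous_subtype_val).subtype_mk _ }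
  refine ⟨{ toFun := fun T => ⟨re T.1, fun a => T.2 a⟩
            invFun := fun S => ⟨ex S.1, fun x => ?_⟩
            left_inv := fun T => ?_
            right_inv := fun S => ?_
            map_mul' := fun S T => ?_ }⟩
  · by_cases h : x ∈ A
    · have h1 : ex S.1 x = S.1 ⟨x, h⟩ := by
        show (if h : x ∈ A then (S.1 ⟨x, h⟩ : M) else x) = _
        simp [h]
      rw [h1]
      exact S.2 ⟨x, h⟩
    · have h1 : ex S.1 x = x := by
        show (if h : x ∈ A then (S.1 ⟨x, h⟩ : M) else x) = _
        simp [h]
      rw [h1]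
  · apply Subtype.ext
    apply Homeomorph.ext
    intro x
    show (if h : x ∈ A then (re T.1 ⟨x, h⟩ : M) else x) = T.1 x
    by_cases h : x ∈ A
    · simp only [h, dite_true]; rfl
    · simp only [h, dite_false]
      exact (hfix T.1 T.2 x h).symm
  · apply Subtype.ext
    apply Homeomorph.ext
    intro a
    apply Subtype.ext
    show (if h : (a : M) ∈ A then (S.1 ⟨a, h⟩ : M) else a) = S.1 a
    simp
  · apply Subtype.ext
    apply Homeomorph.ext
    intro a
    rfl

/-- Every function on the part of positive dimension extends to `M` with the same level group. -/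
theorem level_extend {M : Type} [TopologicalSpace M] (hM : IsMfd M) (g : posPart M → ℝ)
    (hg : Continuous g) : ∃ f0 : M → ℝ, Continuous f0 ∧
      Nonempty (levelGroup f0 ≃* levelGroup g) := by
  classical
  have := hM.1
  have := hM.2.1
  have hA := posPart_clopen hM
  have hcount : Countable ((posPart M)ᶜ : Set M) := by
    have hd : DiscreteTopology ((posPart M)ᶜ : Set M) := by
      rw [discreteTopology_iff_isOpen_singleton]
      intro a
      have h1 : IsOpen ({(a : M)} : Set M) := not_not.1 a.2
      have h2 : ({a} : Set ((posPart M)ᶜ : Set M)) = Subtype.val ⁻¹' {(a : M)} := by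
        ext b
        simp [Subtype.ext_iff]
      rw [h2]
      exact h1.preimage continuous_subtype_val
    exact TopologicalSpace.separableSpace_iff_countable.1 inferInstance
  obtain ⟨u, hu⟩ := exists_injective_nat ((posPart M)ᶜ : Set M)
  let f0 : M → ℝ := fun x => if h : x ∈ posPart M then g ⟨x, h⟩ else (u ⟨x, h⟩ : ℝ)
  have hc : Continuous f0 := by
    rw [continuous_iff_continuousAt]
    intro x
    by_cases hx : x ∈ posPart M
    · have h1 : Continuous (fun a : posPart M => f0 a) := by
        have : (fun a : posPart M => f0 a) = g := by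
          funext a
          show (if h : (a : M) ∈ posPart M then g ⟨a, h⟩ else _) = _
          simp
        rw [this]; exact hg
      exact (hA.isOpen.isOpenEmbedding_subtypeVal.continuousAt_iff (x := ⟨x, hx⟩)).1
        h1.continuousAt
    · have h1 : IsOpen ({x} : Set M) := not_not.1 hx
      exact (continuousAt_const (y := f0 x)).congr (by
        filter_upwards [h1.mem_nhds rfl] with y hy
        rw [hy])
  have hres : (fun a : posPart M => f0 a) = g := by
    funext a
    show (if h : (a : M) ∈ posPart M then g ⟨a, h⟩ else _) = _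
    simp
  refine ⟨f0, hc, ?_⟩
  have h := level_restrict (posPart M) hA posPart_inv f0 (by
    intro T hT x hx
    have h1 : T x ∉ posPart M := fun h => hx ((posPart_inv T x).1 h)
    have h2 := hT x
    have h3 : f0 (T x) = (u ⟨T x, h1⟩ : ℝ) := by
      show (if h : T x ∈ posPart M then g ⟨T x, h⟩ else (u ⟨T x, h⟩ : ℝ)) = _
      rw [dif_neg h1]
    have h4 : f0 x = (u ⟨x, hx⟩ : ℝ) := by
      show (if h : x ∈ posPart M then g ⟨x, h⟩ else (u ⟨x, h⟩ : ℝ)) = _
      rw [dif_neg hx]
    rw [h3, h4] at h2
    have h5 := hu (Nat.cast_injective h2)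
    exact congrArg Subtype.val h5)
  rw [hres] at h
  exact h

theorem main_pos {M N : Type} [TopologicalSpace M] [TopologicalSpace N] (hM : IsMfd M)
    (hN : IsMfd N)
    (H : ∀ f0 : M → ℝ, Continuous f0 →
      ∃ f : N → ℝ, Continuous f ∧ Nonempty (levelGroup f0 ≃* levelGroup f)) :
    ∃ U : Set N, IsClopen U ∧ Nonempty (posPart M ≃ₜ U) := by
  have hA := posPart_clopen hM
  refine forward (mfd_clopen hM _ hA) hN ?_ ?_
  · intro x hx
    apply x.2
    have h1 : ({(x : M)} : Set M) = Subtype.val '' ({x} : Set (posPart M)) := by simp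
    rw [h1]
    exact hA.isOpen.isOpenEmbedding_subtypeVal.isOpenMap _ hx
  · intro g hg
    obtain ⟨f0, hf0, ⟨φ⟩⟩ := level_extend hM g hg
    obtain ⟨f, hf, ⟨ψ⟩⟩ := H f0 hf0
    exact ⟨f, hf, ⟨φ.symm.trans ψ⟩⟩

theorem main_iff {M N : Type} [TopologicalSpace M] [TopologicalSpace N] (hM : IsMfd M)
    (hN : IsMfd N) (h1 : ∀ x y : M, IsOpen ({x} : Set M) → IsOpen ({y} : Set M) → x = y) :
    (∀ f0 : M → ℝ, Continuous f0 →
      ∃ f : N → ℝ, Continuous f ∧ Nonempty (levelGroup f0 ≃* levelGroup f)) ↔
    ∃ U : Set N, IsClopen U ∧ Nonempty (posPart M ≃ₜ U) := by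
  refine ⟨main_pos hM hN, ?_⟩
  rintro ⟨U, hU, ⟨e⟩⟩ f0 hf0
  obtain ⟨f, hf, ⟨ψ⟩⟩ := conv hN U hU e (fun a => f0 a) (hf0.comp continuous_subtype_val)
  obtain ⟨φ⟩ := level_restrict (posPart M) (posPart_clopen hM) posPart_inv f0 (by
    intro T _ x hx
    have h2 : T x ∉ posPart M := fun h => hx ((posPart_inv T x).1 h)
    exact h1 _ _ (not_not.1 h2) (not_not.1 hx))
  exact ⟨f, hf, ⟨φ.trans ψ⟩⟩

end Pool.Agent.H756.LS
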