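import Pool.Agent.H756.LS.Defs

/-!
# Two families of homeomorphisms of Euclidean space (task MfE)

* `push`: `h x = x + max 0 (1 - ‖x‖) • v` with `‖v‖ < 1`. The perturbation of the identity is Lipschitz
  with constant `‖v‖ < 1`, so `h` is a homeomorphism (e.g. `ApproximatesLinearOn.toHomeomorph` with
  `f' = ContinuousLinearEquiv.refl`, or the contraction principle); `h 0 = v`, `h x = x` for `‖x‖ ≥ 1`.
* `radial`: for `‖x‖ < 1` put `g t x = ‖x‖ ^ (exp t - 1) • x` (so `‖g t x‖ = ‖x‖ ^ (exp t)`), `g t x = x` for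
  `‖x‖ ≥ 1`. `g (s + t) = g s ∘ g t` because `exp (s+t) = exp s * exp t` and
  `(r ^ (exp t)) ^ (exp s) = r ^ (exp s * exp t)`; `g 0 = id`. Joint continuity: away from `x = 0` clear
  (at `‖x‖ = 1` both formulas agree), at `x = 0` from `‖g t x‖ = ‖x‖ ^ (exp t) ≤ ‖x‖ ^ c` for `t` near `t₀`
  (`c = exp (t₀ - 1)`, `‖x‖ ≤ 1`). A convenient uniform formula: `g t x = (m x) ^ (exp t - 1) • x` with
  `m x = min 1 ‖x‖`. `g 1` moves all points with `0 < ‖x‖ < 1` (such points exist for `n ≥ 1`).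
-/

set_option autoImplicit false

open Set Topology Function

namespace Pool.Agent.H756.LS

theorem push (n : ℕ) (v : EuclideanSpace ℝ (Fin n)) (hv : ‖v‖ < 1) :
    ∃ h : EuclideanSpace ℝ (Fin n) ≃ₜ EuclideanSpace ℝ (Fin n),
      (∀ x, 1 ≤ ‖x‖ → h x = x) ∧ h 0 = v := by
  set f : EuclideanSpace ℝ (Fin n) → EuclideanSpace ℝ (Fin n) :=
    fun x => x + max 0 (1 - ‖x‖) • v with hf
  have hA : ApproximatesLinearOn f
      ((ContinuousLinearEquiv.refl ℝ (EuclideanSpace ℝ (Fin n)) :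
        EuclideanSpace ℝ (Fin n) ≃L[ℝ] EuclideanSpace ℝ (Fin n)) :
        EuclideanSpace ℝ (Fin n) →L[ℝ] EuclideanSpace ℝ (Fin n)) univ ‖v‖₊ := by
    intro x _ y _
    have h1 : f x - f y - ((ContinuousLinearEquiv.refl ℝ (EuclideanSpace ℝ (Fin n)) :
        EuclideanSpace ℝ (Fin n) ≃L[ℝ] EuclideanSpace ℝ (Fin n)) :
        EuclideanSpace ℝ (Fin n) →L[ℝ] EuclideanSpace ℝ (Fin n)) (x - y) =
        (max 0 (1 - ‖x‖) - max 0 (1 - ‖y‖)) • v := by
      simp only [hf, ContinuousLinearEquiv.coe_coe, ContinuousLinearEquiv.refl_apply, sub_smul]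
      abel
    rw [h1, norm_smul, mul_comm, coe_nnnorm]
    refine mul_le_mul_of_nonneg_left ?_ (norm_nonneg v)
    rw [Real.norm_eq_abs]
    calc |max 0 (1 - ‖x‖) - max 0 (1 - ‖y‖)| ≤ |(1 - ‖x‖) - (1 - ‖y‖)| := by
          have := abs_max_sub_max_le_abs (1 - ‖x‖) (1 - ‖y‖) (0 : ℝ)
          rwa [max_comm (1 - ‖x‖) 0, max_comm (1 - ‖y‖) 0] at this
      _ = |‖y‖ - ‖x‖| := by congr 1; ring
      _ = |‖x‖ - ‖y‖| := abs_sub_comm _ _
      _ ≤ ‖x - y‖ := abs_norm_sub_norm_le x y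
  have hc : Subsingleton (EuclideanSpace ℝ (Fin n)) ∨
      ‖v‖₊ < ‖((ContinuousLinearEquiv.refl ℝ (EuclideanSpace ℝ (Fin n))).symm :
        EuclideanSpace ℝ (Fin n) →L[ℝ] EuclideanSpace ℝ (Fin n))‖₊⁻¹ := by
    rcases subsingleton_or_nontrivial (EuclideanSpace ℝ (Fin n)) with h | h
    · exact Or.inl h
    · right
      have h2 : ‖((ContinuousLinearEquiv.refl ℝ (EuclideanSpace ℝ (Fin n))).symm :
        EuclideanSpace ℝ (Fin n) →L[ℝ] EuclideanSpace ℝ (Fin n))‖₊ = 1 := by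
        have h3 : ((ContinuousLinearEquiv.refl ℝ (EuclideanSpace ℝ (Fin n))).symm :
          EuclideanSpace ℝ (Fin n) →L[ℝ] EuclideanSpace ℝ (Fin n)) =
            ContinuousLinearMap.id ℝ (EuclideanSpace ℝ (Fin n)) := rfl
        rw [h3]
        exact ContinuousLinearMap.nnnorm_id
      rw [h2, inv_one]
      exact_mod_cast hv
  refine ⟨hA.toHomeomorph f hc, ?_, ?_⟩
  · intro x hx
    change f x = x
    simp only [hf]
    rw [max_eq_left (by linarith), zero_smul, add_zero]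
  · change f 0 = v
    simp [hf]

namespace MfEL

variable {n : ℕ}

/-- the flow -/
noncomputable def gg (t : ℝ) (x : EuclideanSpace ℝ (Fin n)) : EuclideanSpace ℝ (Fin n) :=
  (min 1 ‖x‖) ^ (Real.exp t - 1) • x

theorem min_nonneg' (x : EuclideanSpace ℝ (Fin n)) : 0 ≤ min 1 ‖x‖ :=
  le_min zero_le_one (norm_nonneg x)

theorem gg_zero (x : EuclideanSpace ℝ (Fin n)) : gg 0 x = x := by
  simp [gg]

theorem gg_of_one_le {x : EuclideanSpace ℝ (Fin n)} (hx : 1 ≤ ‖x‖) (t : ℝ) : gg t x = x := by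
  simp [gg, min_eq_left hx]

theorem norm_gg {x : EuclideanSpace ℝ (Fin n)} (hx : ‖x‖ ≤ 1) (t : ℝ) :
    ‖gg t x‖ = ‖x‖ ^ (Real.exp t) := by
  rcases eq_or_ne x 0 with h0 | h0
  · subst h0
    rw [gg, smul_zero, norm_zero, Real.zero_rpow (Real.exp_ne_zero t)]
  · have hp : 0 < ‖x‖ := norm_pos_iff.2 h0
    rw [gg, norm_smul, min_eq_right hx, Real.norm_of_nonneg (Real.rpow_nonneg hp.le _),
      Real.rpow_sub_one hp.ne', div_mul_cancel₀ _ hp.ne']

theorem min_gg (x : EuclideanSpace ℝ (Fin n)) (t : ℝ) :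
    min 1 ‖gg t x‖ = (min 1 ‖x‖) ^ (Real.exp t) := by
  rcases le_or_gt 1 ‖x‖ with hx | hx
  · rw [gg_of_one_le hx, min_eq_left hx, Real.one_rpow]
  · rw [norm_gg hx.le, min_eq_right hx.le, min_eq_right]
    exact Real.rpow_le_one (norm_nonneg x) hx.le (Real.exp_pos t).le

theorem gg_gg (s t : ℝ) (x : EuclideanSpace ℝ (Fin n)) : gg s (gg t x) = gg (s + t) x := by
  rcases eq_or_ne x 0 with h0 | h0
  · subst h0
    simp [gg]
  · have hp : 0 < ‖x‖ := norm_pos_iff.2 h0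
    have hm : 0 < min 1 ‖x‖ := lt_min zero_lt_one hp
    have h1 : gg s (gg t x) = (min 1 ‖gg t x‖) ^ (Real.exp s - 1) • gg t x := rfl
    rw [h1, min_gg, ← Real.rpow_mul hm.le]
    have h2 : gg t x = (min 1 ‖x‖) ^ (Real.exp t - 1) • x := rfl
    rw [h2, smul_smul, ← Real.rpow_add hm]
    have h3 : gg (s + t) x = (min 1 ‖x‖) ^ (Real.exp (s + t) - 1) • x := rfl
    rw [h3, Real.exp_add]
    congr 2
    ring

theorem cont : Continuous (fun p : ℝ × EuclideanSpace ℝ (Fin n) => gg p.1 p.2) := by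
  rw [continuous_iff_continuousAt]
  rintro ⟨t, x⟩
  rcases eq_or_ne x 0 with h0 | h0
  · subst h0
    have h1 : Filter.Tendsto (fun p : ℝ × EuclideanSpace ℝ (Fin n) => ‖p.2‖ ^ (Real.exp p.1))
        (𝓝 (t, (0 : EuclideanSpace ℝ (Fin n)))) (𝓝 0) := by
      have h2 : ContinuousAt (fun p : ℝ × EuclideanSpace ℝ (Fin n) => ‖p.2‖ ^ (Real.exp p.1))
          (t, (0 : EuclideanSpace ℝ (Fin n))) := by
        refine ContinuousAt.rpow ?_ ?_ (Or.inr (Real.exp_pos _))
        · exact (continuous_norm.comp continuous_snd).continuousAt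
        · exact (Real.continuous_exp.comp continuous_fst).continuousAt
      have h3 := h2.tendsto
      simpa [Real.zero_rpow (Real.exp_ne_zero t)] using h3
    have h4 : gg t (0 : EuclideanSpace ℝ (Fin n)) = 0 := by simp [gg]
    change Filter.Tendsto (fun p : ℝ × EuclideanSpace ℝ (Fin n) => gg p.1 p.2)
      (𝓝 (t, (0 : EuclideanSpace ℝ (Fin n)))) (𝓝 (gg t (0 : EuclideanSpace ℝ (Fin n))))
    rw [h4, tendsto_zero_iff_norm_tendsto_zero]
    refine h1.congr' ?_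
    have h5 : ∀ᶠ p : ℝ × EuclideanSpace ℝ (Fin n) in 𝓝 (t, (0 : EuclideanSpace ℝ (Fin n))),
        ‖p.2‖ < 1 := by
      have h6 : Filter.Tendsto (fun p : ℝ × EuclideanSpace ℝ (Fin n) => ‖p.2‖)
          (𝓝 (t, (0 : EuclideanSpace ℝ (Fin n)))) (𝓝 ‖(0 : EuclideanSpace ℝ (Fin n))‖) :=
        (continuous_norm.comp continuous_snd).continuousAt
      rw [norm_zero] at h6
      exact h6.eventually_lt_const zero_lt_one
    filter_upwards [h5] with p hp
    exact (norm_gg hp.le p.1).symm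
  · have hp : 0 < ‖x‖ := norm_pos_iff.2 h0
    have hm : 0 < min 1 ‖x‖ := lt_min zero_lt_one hp
    have h1 : ContinuousAt (fun p : ℝ × EuclideanSpace ℝ (Fin n) => min 1 ‖p.2‖) (t, x) :=
      (continuous_const.min (continuous_norm.comp continuous_snd)).continuousAt
    have h2 : ContinuousAt (fun p : ℝ × EuclideanSpace ℝ (Fin n) => Real.exp p.1 - 1) (t, x) :=
      ((Real.continuous_exp.comp continuous_fst).sub continuous_const).continuousAt
    exact (h1.rpow h2 (Or.inl hm.ne')).smul continuous_snd.continuousAt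

theorem cont_t (t : ℝ) : Continuous (gg (n := n) t) := by
  have h : Continuous
      (fun x : EuclideanSpace ℝ (Fin n) => ((t, x) : ℝ × EuclideanSpace ℝ (Fin n))) := by
    fun_prop
  exact (cont.comp h).congr fun x => rfl

/-- the homeomorphism at time `t` -/
noncomputable def gh (t : ℝ) : EuclideanSpace ℝ (Fin n) ≃ₜ EuclideanSpace ℝ (Fin n) where
  toFun := gg t
  invFun := gg (-t)
  left_inv x := by rw [gg_gg, neg_add_cancel, gg_zero]
  right_inv x := by rw [gg_gg, add_neg_cancel, gg_zero]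
  continuous_toFun := cont_t t
  continuous_invFun := cont_t (-t)

end MfEL

theorem radial (n : ℕ) (hn : 1 ≤ n) :
    ∃ g : ℝ → (EuclideanSpace ℝ (Fin n) ≃ₜ EuclideanSpace ℝ (Fin n)),
      (∀ s t, g (s + t) = g s * g t) ∧
      Continuous (fun p : ℝ × EuclideanSpace ℝ (Fin n) => g p.1 p.2) ∧
      (∀ t x, 1 ≤ ‖x‖ → g t x = x) ∧ ∃ t x, g t x ≠ x := by
  refine ⟨MfEL.gh, ?_, MfEL.cont, fun t x hx => MfEL.gg_of_one_le hx t, Real.log 2,
    EuclideanSpace.single (⟨0, hn⟩ : Fin n) (1 / 2 : ℝ), ?_⟩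
  · intro s t
    ext1 x
    exact (MfEL.gg_gg s t x).symm
  · set x : EuclideanSpace ℝ (Fin n) := EuclideanSpace.single (⟨0, hn⟩ : Fin n) (1 / 2 : ℝ) with hx
    have hnx : ‖x‖ = 1 / 2 := by
      rw [hx, PiLp.norm_single]
      norm_num
    intro h
    have h1 : MfEL.gg (Real.log 2) x = x := h
    have h2 := MfEL.norm_gg (x := x) (by rw [hnx]; norm_num) (Real.log 2)
    rw [h1, Real.exp_log (by norm_num), hnx, Real.rpow_two] at h2
    norm_num at h2

end Pool.Agent.H756.LS
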