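import Pool.Agent.H756.LS.MfE

/-!
# Local homeomorphisms of manifolds (task MfX)

* `exists_chart_in`: at a non-isolated point `x` take a chart (its dimension `n` is `≥ 1`, since a chart of
  dimension `0` has range `{x}` open), translate it so that `0 ↦ x`, and shrink it: compose with an
  open embedding `ℝⁿ → ball 0 ε ⊆ ℝⁿ` fixing `0` (e.g. `Homeomorph.unitBall` scaled by `ε`, or
  `v ↦ (ε / (1 + ‖v‖)) • v`).
* `ext_chart`: `H = e ∘ h ∘ e⁻¹` on `range e`, identity elsewhere. `e '' closedBall 0 1` is compact, hence closed;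
  `M` is the union of the open sets `range e` and `(e '' closedBall 0 1)ᶜ`, on which the formula is
  continuous; the same for `h.symm`.
* `exists_ball`: take a chart `e` with `e 0 = x` and range in `B`, `D = e '' ball 0 1`; the homeomorphisms are
  extensions of `push`. `closure D = e '' closedBall 0 1`. Points of `D` are not isolated as `n ≥ 1`.
* `exists_flow`: extend the flow `radial` through the chart of `exists_chart_in`; joint continuity as in
  `ext_chart` (on `ℝ × M`, the union of the open sets `ℝ × range e` and `ℝ × (e '' closedBall 0 1)ᶜ`).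
* `exists_move`: `x ~ y` iff there are such `h, K`; this is an equivalence relation on `U` (`K ∪ K'`), its
  classes are open by `exists_ball` (with `K = closure D`), `U` is preconnected.
-/

set_option autoImplicit false

open Set Topology Function

namespace Pool.Agent.H756.LS

theorem exists_chart_in {M : Type} [TopologicalSpace M] (hM : IsMfd M) (x : M)
    (hx : ¬ IsOpen ({x} : Set M)) (B : Set M) (hB : IsOpen B) (hxB : x ∈ B) :
    ∃ (n : ℕ) (e : EuclideanSpace ℝ (Fin n) → M), 1 ≤ n ∧ IsOpenEmbedding e ∧ e 0 = x ∧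
      range e ⊆ B := by
  obtain ⟨n, e, he, v0, hv0⟩ := hM.2.2 x
  have hn : 1 ≤ n := by
    rcases Nat.eq_zero_or_pos n with h0 | h0
    · exfalso
      subst h0
      refine hx ?_
      have h1 : range e = {x} := by
        ext y
        constructor
        · rintro ⟨w, rfl⟩
          rw [mem_singleton_iff, ← hv0]
          exact congrArg e (Subsingleton.elim _ _)
        · intro hy
          rw [mem_singleton_iff] at hy
          exact ⟨v0, by rw [hv0, hy]⟩
      rw [← h1]
      exact he.isOpen_range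
    · exact h0
  have hopen : IsOpen (e ⁻¹' B) := hB.preimage he.continuous
  have hmem : v0 ∈ e ⁻¹' B := by
    show e v0 ∈ B
    rw [hv0]
    exact hxB
  obtain ⟨ε, hε, hball⟩ := Metric.isOpen_iff.1 hopen v0 hmem
  have hu : IsOpenEmbedding (OpenPartialHomeomorph.univBall (E := EuclideanSpace ℝ (Fin n)) v0 ε) :=
    OpenPartialHomeomorph.isOpenEmbedding _ (OpenPartialHomeomorph.univBall_source _ _)
  refine ⟨n, e ∘ (OpenPartialHomeomorph.univBall (E := EuclideanSpace ℝ (Fin n)) v0 ε), hn,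
    he.comp hu, ?_, ?_⟩
  · show e (OpenPartialHomeomorph.univBall (E := EuclideanSpace ℝ (Fin n)) v0 ε 0) = x
    rw [OpenPartialHomeomorph.univBall_apply_zero, hv0]
  · rintro y ⟨w, rfl⟩
    show e (OpenPartialHomeomorph.univBall (E := EuclideanSpace ℝ (Fin n)) v0 ε w) ∈ B
    refine hball ?_
    have h1 := (OpenPartialHomeomorph.univBall (E := EuclideanSpace ℝ (Fin n)) v0 ε).map_source
      (x := w) (by rw [OpenPartialHomeomorph.univBall_source]; exact mem_univ _)
    rwa [OpenPartialHomeomorph.univBall_target _ hε] at h1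

namespace MfXAux

open Classical in
/-- the extension of a map of the model by the identity -/
noncomputable def extf {M : Type} {E : Type} [Nonempty E] (e : E → M) (h : E → E) (x : M) : M :=
  if x ∈ range e then e (h (invFun e x)) else x

lemma extf_e {M : Type} {E : Type} [Nonempty E] (e : E → M) (he : Injective e) (h : E → E)
    (v : E) : extf e h (e v) = e (h v) := by
  unfold extf
  rw [if_pos (mem_range_self v), leftInverse_invFun he v]

lemma extf_out {M : Type} {E : Type} [Nonempty E] (e : E → M) (h : E → E) (x : M)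
    (hx : x ∉ range e) : extf e h x = x := by
  unfold extf
  rw [if_neg hx]

lemma extf_comp {M : Type} {E : Type} [Nonempty E] (e : E → M) (he : Injective e) (h k : E → E)
    (x : M) : extf e h (extf e k x) = extf e (h ∘ k) x := by
  by_cases hx : x ∈ range e
  · obtain ⟨v, rfl⟩ := hx
    rw [extf_e e he, extf_e e he, extf_e e he]
    rfl
  · rw [extf_out e k x hx, extf_out e h x hx, extf_out e _ x hx]

lemma extf_id {M : Type} {E : Type} [Nonempty E] (e : E → M) (he : Injective e) (h : E → E)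
    (hh : ∀ v, h v = v) (x : M) : extf e h x = x := by
  by_cases hx : x ∈ range e
  · obtain ⟨v, rfl⟩ := hx
    rw [extf_e e he, hh]
  · rw [extf_out e h x hx]

variable {M : Type} [TopologicalSpace M] [T2Space M] {n : ℕ}

lemma isClosed_S (e : EuclideanSpace ℝ (Fin n) → M) (he : IsOpenEmbedding e) :
    IsClosed (e '' Metric.closedBall 0 1) :=
  ((isCompact_closedBall _ _).image he.continuous).isClosed

omit [T2Space M] in
lemma extf_fix (e : EuclideanSpace ℝ (Fin n) → M) (he : IsOpenEmbedding e)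
    (h : EuclideanSpace ℝ (Fin n) → EuclideanSpace ℝ (Fin n)) (hh : ∀ x, 1 ≤ ‖x‖ → h x = x)
    (x : M) (hx : x ∉ e '' Metric.ball 0 1) : extf e h x = x := by
  by_cases hx1 : x ∈ range e
  · obtain ⟨v, rfl⟩ := hx1
    rw [extf_e e he.injective, hh]
    by_contra hlt
    push Not at hlt
    exact hx ⟨v, by simpa using hlt, rfl⟩
  · exact extf_out e h x hx1

/-- joint continuity with a parameter -/
lemma cont_param {T : Type} [TopologicalSpace T] (e : EuclideanSpace ℝ (Fin n) → M)
    (he : IsOpenEmbedding e)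
    (h : T → EuclideanSpace ℝ (Fin n) → EuclideanSpace ℝ (Fin n))
    (hc : Continuous fun p : T × EuclideanSpace ℝ (Fin n) => h p.1 p.2)
    (hh : ∀ t x, 1 ≤ ‖x‖ → h t x = x) :
    Continuous fun p : T × M => extf e (h p.1) p.2 := by
  rw [continuous_iff_continuousAt]
  rintro ⟨t, x⟩
  by_cases hx : x ∈ range e
  · obtain ⟨v, rfl⟩ := hx
    have h1 : IsOpenEmbedding (Prod.map (id : T → T) e) := IsOpenEmbedding.id.prodMap he
    have h2 := (h1.continuousAt_iff (g := fun p : T × M => extf e (h p.1) p.2) (x := (t, v))).1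
    refine h2 ?_
    have h3 : (fun p : T × M => extf e (h p.1) p.2) ∘ Prod.map (id : T → T) e =
        fun p => e (h p.1 p.2) := by
      funext p
      exact extf_e e he.injective _ _
    rw [h3]
    exact (he.continuous.comp hc).continuousAt
  · have hS : IsOpen ((e '' Metric.closedBall 0 1)ᶜ : Set M) := (isClosed_S e he).isOpen_compl
    have hxS : x ∈ ((e '' Metric.closedBall 0 1)ᶜ : Set M) := by
      rintro ⟨v, -, rfl⟩
      exact hx (mem_range_self v)
    have hev : (fun p : T × M => extf e (h p.1) p.2) =ᶠ[𝓝 (t, x)] fun p => p.2 := by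
      filter_upwards [(isOpen_univ.prod hS).mem_nhds ⟨mem_univ t, hxS⟩] with p hp
      refine extf_fix e he (h p.1) (hh p.1) p.2 ?_
      rintro ⟨v, hv, hv2⟩
      exact hp.2 ⟨v, Metric.ball_subset_closedBall hv, hv2⟩
    exact continuousAt_snd.congr hev.symm

lemma cont_extf (e : EuclideanSpace ℝ (Fin n) → M) (he : IsOpenEmbedding e)
    (h : EuclideanSpace ℝ (Fin n) → EuclideanSpace ℝ (Fin n)) (hc : Continuous h)
    (hh : ∀ x, 1 ≤ ‖x‖ → h x = x) : Continuous (extf e h) := by
  have h1 := cont_param (T := Unit) e he (fun _ => h) (hc.comp continuous_snd) (fun _ => hh)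
  exact h1.comp (continuous_const.prodMk continuous_id : Continuous fun x : M => ((), x))

/-- the extension of a homeomorphism of the model by the identity -/
noncomputable def exth (e : EuclideanSpace ℝ (Fin n) → M) (he : IsOpenEmbedding e)
    (h : EuclideanSpace ℝ (Fin n) ≃ₜ EuclideanSpace ℝ (Fin n)) (hh : ∀ x, 1 ≤ ‖x‖ → h x = x) :
    M ≃ₜ M where
  toFun := extf e h
  invFun := extf e h.symm
  left_inv := fun x => by
    rw [extf_comp e he.injective]
    exact extf_id e he.injective _ (fun v => h.symm_apply_apply v) x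
  right_inv := fun x => by
    rw [extf_comp e he.injective]
    exact extf_id e he.injective _ (fun v => h.apply_symm_apply v) x
  continuous_toFun := cont_extf e he h h.continuous hh
  continuous_invFun := cont_extf e he h.symm h.symm.continuous (fun x hx => by
    rw [Homeomorph.symm_apply_eq]
    exact (hh x hx).symm)

lemma exth_apply (e : EuclideanSpace ℝ (Fin n) → M) (he : IsOpenEmbedding e)
    (h : EuclideanSpace ℝ (Fin n) ≃ₜ EuclideanSpace ℝ (Fin n)) (hh : ∀ x, 1 ≤ ‖x‖ → h x = x)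
    (x : M) : exth e he h hh x = extf e h x := rfl

end MfXAux

open MfXAux

theorem ext_chart {M : Type} [TopologicalSpace M] [T2Space M] (n : ℕ)
    (e : EuclideanSpace ℝ (Fin n) → M) (he : IsOpenEmbedding e)
    (h : EuclideanSpace ℝ (Fin n) ≃ₜ EuclideanSpace ℝ (Fin n)) (hh : ∀ x, 1 ≤ ‖x‖ → h x = x) :
    ∃ H : M ≃ₜ M, (∀ v, H (e v) = e (h v)) ∧ ∀ x, x ∉ e '' Metric.ball 0 1 → H x = x :=
  ⟨exth e he h hh, fun v => extf_e e he.injective h v, fun x hx => extf_fix e he h hh x hx⟩

theorem exists_ball {M : Type} [TopologicalSpace M] (hM : IsMfd M) (x : M)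
    (hx : ¬ IsOpen ({x} : Set M)) (B : Set M) (hB : IsOpen B) (hxB : x ∈ B) :
    ∃ D : Set M, IsOpen D ∧ x ∈ D ∧ D ⊆ B ∧ IsPreconnected D ∧ IsCompact (closure D) ∧
      closure D ⊆ B ∧ (∀ y ∈ D, ¬ IsOpen ({y} : Set M)) ∧
      ∀ y ∈ D, ∃ h : M ≃ₜ M, Sup h D ∧ h x = y := by
  have := hM.1
  obtain ⟨n, e, hn, he, he0, heB⟩ := exists_chart_in hM x hx B hB hxB
  have hcomp : IsCompact (e '' Metric.closedBall 0 1) :=
    (isCompact_closedBall _ _).image he.continuous
  have hcl : closure (e '' Metric.ball 0 1) ⊆ e '' Metric.closedBall 0 1 :=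
    closure_minimal (image_mono Metric.ball_subset_closedBall) hcomp.isClosed
  refine ⟨e '' Metric.ball 0 1, he.isOpenMap _ Metric.isOpen_ball,
    ⟨0, Metric.mem_ball_self one_pos, he0⟩, (image_subset_range _ _).trans heB,
    ((convex_ball _ _).isPreconnected).image e he.continuous.continuousOn,
    hcomp.of_isClosed_subset isClosed_closure hcl,
    hcl.trans ((image_subset_range _ _).trans heB), ?_, ?_⟩
  · rintro y ⟨v, -, rfl⟩ hop
    have h1 : IsOpen ({v} : Set (EuclideanSpace ℝ (Fin n))) := by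
      have h2 : e ⁻¹' {e v} = {v} := by
        ext w
        simp [he.injective.eq_iff]
      rw [← h2]
      exact hop.preimage he.continuous
    have : Nonempty (Fin n) := ⟨⟨0, hn⟩⟩
    have : Nontrivial (EuclideanSpace ℝ (Fin n)) := inferInstance
    have : (𝓝[≠] v).NeBot := Module.punctured_nhds_neBot ℝ (EuclideanSpace ℝ (Fin n)) v
    exact not_isOpen_singleton v h1
  · rintro y ⟨v, hv, rfl⟩
    obtain ⟨h, hh, h0⟩ := push n v (by simpa using hv)
    obtain ⟨H, hH1, hH2⟩ := ext_chart n e he h hh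
    refine ⟨H, hH2, ?_⟩
    rw [← he0, hH1, h0]

theorem exists_flow {M : Type} [TopologicalSpace M] (hM : IsMfd M) (x : M)
    (hx : ¬ IsOpen ({x} : Set M)) (B : Set M) (hB : IsOpen B) (hxB : x ∈ B) :
    ∃ g : ℝ → (M ≃ₜ M), (∀ s t, g (s + t) = g s * g t) ∧
      Continuous (fun p : ℝ × M => g p.1 p.2) ∧ (∀ t, Sup (g t) B) ∧ ∃ t y, g t y ≠ y := by
  have := hM.1
  obtain ⟨n, e, hn, he, he0, heB⟩ := exists_chart_in hM x hx B hB hxB
  obtain ⟨g, hg1, hg2, hg3, t0, v0, hg4⟩ := radial n hn
  refine ⟨fun t => exth e he (g t) (hg3 t), ?_, ?_, ?_, t0, e v0, ?_⟩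
  · intro s t
    ext y
    show extf e (g (s + t)) y = extf e (g s) (extf e (g t) y)
    rw [extf_comp e he.injective, hg1]
    rfl
  · exact cont_param (T := ℝ) e he (fun t => g t) hg2 hg3
  · intro t y hy
    show extf e (g t) y = y
    exact extf_out e _ y (fun h => hy (heB h))
  · show extf e (g t0) (e v0) ≠ e v0
    rw [extf_e e he.injective]
    exact fun h => hg4 (he.injective h)

theorem exists_move {M : Type} [TopologicalSpace M] (hM : IsMfd M) (U : Set M) (hU : IsOpen U)
    (hc : IsPreconnected U) (hiso : ∀ y ∈ U, ¬ IsOpen ({y} : Set M)) (x y : M) (hx : x ∈ U)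
    (hy : y ∈ U) :
    ∃ h : M ≃ₜ M, ∃ K : Set M, IsCompact K ∧ K ⊆ U ∧ Sup h K ∧ h x = y := by
  obtain ⟨r, hr⟩ : ∃ r : M → M → Prop, r = fun a b =>
    ∃ h : M ≃ₜ M, ∃ K : Set M, IsCompact K ∧ K ⊆ U ∧ Sup h K ∧ h a = b := ⟨_, rfl⟩
  have hrefl : ∀ a, r a a := by
    intro a
    rw [hr]
    exact ⟨1, ∅, isCompact_empty, empty_subset _, fun _ _ => rfl, rfl⟩
  have hsymm : ∀ a b, r a b → r b a := by
    intro a b hab
    rw [hr] at hab ⊢
    obtain ⟨h, K, hK, hKU, hS, rfl⟩ := hab
    refine ⟨h.symm, K, hK, hKU, fun z hz => ?_, h.symm_apply_apply a⟩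
    rw [Homeomorph.symm_apply_eq]
    exact (hS z hz).symm
  have htrans : ∀ a b c, r a b → r b c → r a c := by
    intro a b c hab hbc
    rw [hr] at hab hbc ⊢
    obtain ⟨h, K, hK, hKU, hS, rfl⟩ := hab
    obtain ⟨h', K', hK', hKU', hS', rfl⟩ := hbc
    refine ⟨h.trans h', K ∪ K', hK.union hK', union_subset hKU hKU', fun z hz => ?_, rfl⟩
    show h' (h z) = z
    rw [hS z (fun hz1 => hz (Or.inl hz1)), hS' z (fun hz1 => hz (Or.inr hz1))]
  have hloc : ∀ a ∈ U, ∃ D : Set M, IsOpen D ∧ a ∈ D ∧ D ⊆ U ∧ ∀ b ∈ D, r a b := by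
    intro a ha
    obtain ⟨D, hD, haD, hDU, -, hDc, hDcl, -, hDt⟩ := exists_ball hM a (hiso a ha) U hU ha
    refine ⟨D, hD, haD, hDU, fun b hb => ?_⟩
    obtain ⟨h, hS, hab⟩ := hDt b hb
    rw [hr]
    exact ⟨h, closure D, hDc, hDcl, fun z hz => hS z (fun hz1 => hz (subset_closure hz1)), hab⟩
  have hA : IsOpen {b | b ∈ U ∧ r x b} := by
    rw [isOpen_iff_forall_mem_open]
    rintro a ⟨haU, hxa⟩
    obtain ⟨D, hD, haD, hDU, hDr⟩ := hloc a haU
    exact ⟨D, fun b hb => ⟨hDU hb, htrans _ _ _ hxa (hDr b hb)⟩, hD, haD⟩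
  have hA' : IsOpen {b | b ∈ U ∧ ¬ r x b} := by
    rw [isOpen_iff_forall_mem_open]
    rintro a ⟨haU, hxa⟩
    obtain ⟨D, hD, haD, hDU, hDr⟩ := hloc a haU
    exact ⟨D, fun b hb => ⟨hDU hb, fun hxb => hxa (htrans _ _ _ hxb (hsymm _ _ (hDr b hb)))⟩,
      hD, haD⟩
  by_contra hcon
  have hxy : ¬ r x y := by
    rw [hr]
    exact hcon
  have h1 := hc _ _ hA hA' (fun b hb => by
    by_cases hxb : r x b
    · exact Or.inl ⟨hb, hxb⟩
    · exact Or.inr ⟨hb, hxb⟩) ⟨x, hx, hx, hrefl x⟩ ⟨y, hy, hy, hxy⟩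
  obtain ⟨b, -, hb1, hb2⟩ := h1
  exact hb2.2 hb1.2

end Pool.Agent.H756.LS
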