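import Pool.Agent.H756.LS.Flt
import Pool.Agent.H756.LS.Cmt1

/-!
# The function is constant on the set of points moved by a small flow (task MVD)

Paper proof. Write `Γ = levelGroup f0`, `ψ t = φ (g t)`. Suppose `f y < c < f y'` (or the other way round)
with `ψ t₁ y ≠ y`, `ψ t₂ y' ≠ y'`. Let `r₁ : ℝ → ℝ` be continuous, `0` on `[c, ∞)`, `r₁ (f y) = t₁`, and `r₂`
continuous, `0` on `(-∞, c]`, `r₂ (f y') = t₂`. Put `T_i z = ψ (r_i (f z)) z`. As `f (ψ t z) = f z`,
`T_i` is a homeomorphism (inverse `z ↦ ψ (-r_i (f z)) z`) in the level group of `f`; `T₁` is the identity on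
`{f ≥ c}` and moves `y`, `T₂` is the identity on `{f ≤ c}` and moves `y'`. Let `g_i = φ⁻¹ T_i ≠ 1`.
(1) If `h ∈ Γ` fixes the points of `D`, then `h` commutes with all `g t` (supported in `D`), so
  `φ h` commutes with all `ψ t` and preserves `f`, hence commutes with `T_i`, and `h` commutes with `g_i`.
(2) So `g_i` commutes with all `h` such that `rst f0 h` is supported in the open subset `A` of `flat f0`
  of the points outside `closure D`; by `fix_of_comm` (with `p12_rst`) `rst f0 g_i` fixes `A` pointwise. As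
  `rst f0 g_i ≠ 1` (`hfaith`), the open set of the points of `flat f0` moved by `g_i` is nonempty and
  contained in `closure D`, so it meets `D`: there are `x_i ∈ D` with `g_i x_i ≠ x_i`.
(3) Let `L` be the normal closure of `g₁` in `Γ`. For `l ∈ L`, `φ l` is the identity on `{f ≥ c}` (these
  elements form a normal subgroup of the level group). So `φ l` commutes with `T₂` and `l` commutes with `g₂`. Take
  `h ∈ Γ` with `h x₁ = x₂` (`hDtr`): `h g₁ h⁻¹ ∈ L` moves `x₂`. By `fix_of_normal`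
  (`X = flat f0`, `T = rst f0 g₂`) `g₂ x₂ = x₂`: contradiction.
-/

set_option autoImplicit false

open Set Topology Function

namespace Pool.Agent.H756.LS

namespace MvdAux

/-- A one-parameter group is trivial at `0`. -/
lemma one_at_zero {G : Type} [Group G] (ψ : ℝ → G) (hψ : ∀ s t, ψ (s + t) = ψ s * ψ t) :
    ψ 0 = 1 := by
  have h := hψ 0 0
  rw [add_zero] at h
  exact (mul_eq_left.mp h.symm)

/-- The time change `z ↦ ψ (r (f z)) z` of a flow preserving `f`. -/
noncomputable def tch {N : Type} [TopologicalSpace N] (f : N → ℝ) (hf : Continuous f)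
    (ψ : ℝ → (N ≃ₜ N)) (hψ : ∀ s t, ψ (s + t) = ψ s * ψ t)
    (hlev : ∀ t z, f (ψ t z) = f z)
    (hcont : Continuous fun p : ℝ × N => ψ p.1 p.2) (r : ℝ → ℝ) (hr : Continuous r) : N ≃ₜ N where
  toFun z := ψ (r (f z)) z
  invFun z := ψ (-r (f z)) z
  left_inv := by
    intro z
    show ψ (-r (f (ψ (r (f z)) z))) (ψ (r (f z)) z) = z
    rw [hlev]
    have h : (ψ (-r (f z)) * ψ (r (f z))) z = z := by
      rw [← hψ, neg_add_cancel, one_at_zero ψ hψ]
      rfl
    exact h
  right_inv := by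
    intro z
    show ψ (r (f (ψ (-r (f z)) z))) (ψ (-r (f z)) z) = z
    rw [hlev]
    have h : (ψ (r (f z)) * ψ (-r (f z))) z = z := by
      rw [← hψ, add_neg_cancel, one_at_zero ψ hψ]
      rfl
    exact h
  continuous_toFun :=
    hcont.comp ((hr.comp hf).prodMk continuous_id)
  continuous_invFun :=
    hcont.comp ((hr.comp hf).neg.prodMk continuous_id)

lemma tch_apply {N : Type} [TopologicalSpace N] (f : N → ℝ) (hf : Continuous f)
    (ψ : ℝ → (N ≃ₜ N)) (hψ : ∀ s t, ψ (s + t) = ψ s * ψ t)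
    (hlev : ∀ t z, f (ψ t z) = f z)
    (hcont : Continuous fun p : ℝ × N => ψ p.1 p.2) (r : ℝ → ℝ) (hr : Continuous r) (z : N) :
    tch f hf ψ hψ hlev hcont r hr z = ψ (r (f z)) z := rfl

/-- The homeomorphisms of the level group which are the identity on `A`, when `A` is a union of
level sets. -/
def idOn {N : Type} [TopologicalSpace N] (f : N → ℝ) (A : Set ℝ) : Subgroup (levelGroup f) where
  carrier := {T | ∀ z, f z ∈ A → (T : N ≃ₜ N) z = z}
  mul_mem' := by
    intro S T hS hT z hz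
    show (S : N ≃ₜ N) ((T : N ≃ₜ N) z) = z
    rw [hT z hz, hS z hz]
  one_mem' := fun _ _ => rfl
  inv_mem' := by
    intro T hT z hz
    show (T : N ≃ₜ N).symm z = z
    rw [Homeomorph.symm_apply_eq]
    exact (hT z hz).symm

instance idOn_normal {N : Type} [TopologicalSpace N] (f : N → ℝ) (A : Set ℝ) :
    (idOn f A).Normal := by
  constructor
  intro T hT S z hz
  show (S : N ≃ₜ N) ((T : N ≃ₜ N) ((S : N ≃ₜ N).symm z)) = z
  have h1 : f ((S : N ≃ₜ N).symm z) = f z := (levelGroup f).inv_mem S.2 z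
  have h2 : (T : N ≃ₜ N) ((S : N ≃ₜ N).symm z) = (S : N ≃ₜ N).symm z := by
    apply hT
    rw [h1]; exact hz
  rw [h2, Homeomorph.apply_symm_apply]

/-- An element fixing the points of `D` commutes with an element supported in `D`. -/
lemma comm_of_fix {M : Type} [TopologicalSpace M] (D : Set M) (h k : M ≃ₜ M)
    (hh : ∀ x ∈ D, h x = x) (hk : Sup k D) : h * k = k * h := by
  ext x
  show h (k x) = k (h x)
  by_cases hx : x ∈ D
  · have h1 : k x ∈ D := by
      by_contra hc
      have h2 := hk (k x) hc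
      have h3 : k x = x := k.injective h2
      apply hc
      rw [h3]
      exact hx
    rw [hh _ h1, hh x hx]
  · have h1 : h x ∉ D := by
      intro hc
      have h2 := hh (h x) hc
      have h3 : h x = x := h.injective h2
      apply hx
      rw [h3] at hc
      exact hc
    rw [hk x hx, hk (h x) h1]

/-- Step (2): an element of `levelGroup f0` which commutes with all elements fixing the points of
`D` and which is not the identity moves a point of `D`. -/
lemma exists_moved {M : Type} [TopologicalSpace M] (hM : IsMfd M) (f0 : M → ℝ)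
    (hfaith : Injective (rst f0)) (D : Set M) (hDflat : D ⊆ flat f0)
    (k : levelGroup f0) (hk1 : k ≠ 1)
    (hk : ∀ h : levelGroup f0, (∀ x ∈ D, (h : M ≃ₜ M) x = x) → k * h = h * k) :
    ∃ x ∈ D, (k : M ≃ₜ M) x ≠ x := by
  have : T2Space M := hM.1
  set A : Set (flat f0) := {x | x.1 ∉ closure D} with hAdef
  have hA : IsOpen A := by
    have h1 : IsOpen (closure D)ᶜ := isClosed_closure.isOpen_compl
    exact h1.preimage continuous_subtype_val
  have hfix : ∀ x ∈ A, rst f0 k x = x := by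
    apply fix_of_comm (rst f0) (p12_rst hM f0) hA
    intro g hg
    have h1 : ∀ x ∈ D, (g : M ≃ₜ M) x = x := by
      intro x hx
      have h2 := hg ⟨x, hDflat hx⟩ (by
        intro hc
        exact hc (subset_closure hx))
      exact congrArg Subtype.val h2
    have h2 : k * g = g * k := hk g h1
    have h3 : k * g ^ 12 = g ^ 12 * k := by
      have h4 : Commute k g := h2
      exact (h4.pow_right 12)
    rw [← map_mul, ← map_mul, h3]
  have hne : rst f0 k ≠ 1 := by
    intro hc
    apply hk1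
    apply hfaith
    rw [hc, map_one]
  have hex : ∃ x : flat f0, rst f0 k x ≠ x := by
    by_contra hc
    push Not at hc
    apply hne
    ext x
    exact congrArg Subtype.val (hc x)
  obtain ⟨x, hx⟩ := hex
  have hxc : x.1 ∈ closure D := by
    by_contra hc
    exact hx (hfix x hc)
  have hW : IsOpen {z : M | z ∈ flat f0 ∧ (k : M ≃ₜ M) z ≠ z} := by
    apply (isOpen_flat hM f0).inter
    exact isOpen_ne_fun (k : M ≃ₜ M).continuous continuous_id
  have hxW : x.1 ∈ {z : M | z ∈ flat f0 ∧ (k : M ≃ₜ M) z ≠ z} := by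
    refine ⟨x.2, ?_⟩
    intro hc
    apply hx
    apply Subtype.ext
    exact hc
  obtain ⟨z, hzW, hzD⟩ := mem_closure_iff.mp hxc _ hW hxW
  exact ⟨z, hzD, hzW.2⟩

/-- The main step, under `f y < f y'`. -/
lemma no_lt {M N : Type} [TopologicalSpace M] [TopologicalSpace N] (hM : IsMfd M)
    (f0 : M → ℝ) (f : N → ℝ) (hf : Continuous f)
    (φ : levelGroup f0 ≃* levelGroup f) (hfaith : Injective (rst f0)) (D : Set M)
    (hDflat : D ⊆ flat f0)
    (hDtr : ∀ y ∈ D, ∀ z ∈ D, ∃ h ∈ levelGroup f0, h y = z)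
    (g : ℝ → levelGroup f0) (hg : ∀ s t, g (s + t) = g s * g t)
    (hsup : ∀ t, Sup (g t : M ≃ₜ M) D)
    (hcont : Continuous fun p : ℝ × N => (φ (g p.1) : N ≃ₜ N) p.2) (y y' : N)
    (hy : ∃ t, (φ (g t) : N ≃ₜ N) y ≠ y) (hy' : ∃ t, (φ (g t) : N ≃ₜ N) y' ≠ y')
    (hlt : f y < f y') : False := by
  have : T2Space M := hM.1
  obtain ⟨t₁, ht₁⟩ := hy
  obtain ⟨t₂, ht₂⟩ := hy'
  set ψ : ℝ → (N ≃ₜ N) := fun t => (φ (g t) : N ≃ₜ N) with hψdef
  have hψ : ∀ s t, ψ (s + t) = ψ s * ψ t := by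
    intro s t
    show ((φ (g (s + t)) : levelGroup f) : N ≃ₜ N) = _
    rw [hg, map_mul]
    rfl
  have hlev : ∀ t z, f (ψ t z) = f z := fun t z => (φ (g t)).2 z
  obtain ⟨c, hc1, hc2⟩ := exists_between hlt
  -- the time changes
  set r₁ : ℝ → ℝ := fun s => t₁ * (max 0 (c - s) / (c - f y)) with hr₁def
  set r₂ : ℝ → ℝ := fun s => t₂ * (max 0 (s - c) / (f y' - c)) with hr₂def
  have hr₁ : Continuous r₁ := by
    apply continuous_const.mul
    apply Continuous.div_const
    exact continuous_const.max (continuous_const.sub continuous_id)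
  have hr₂ : Continuous r₂ := by
    apply continuous_const.mul
    apply Continuous.div_const
    exact continuous_const.max (continuous_id.sub continuous_const)
  set T₁ : levelGroup f := ⟨tch f hf ψ hψ hlev hcont r₁ hr₁, fun z => hlev _ z⟩ with hT₁
  set T₂ : levelGroup f := ⟨tch f hf ψ hψ hlev hcont r₂ hr₂, fun z => hlev _ z⟩ with hT₂
  have hψ0 : ∀ z, ψ 0 z = z := by
    intro z
    rw [one_at_zero ψ hψ]
    rfl
  have hT₁c : ∀ z, c ≤ f z → (T₁ : N ≃ₜ N) z = z := by
    intro z hz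
    show ψ (t₁ * (max 0 (c - f z) / (c - f y))) z = z
    rw [max_eq_left (by linarith), zero_div, mul_zero]
    exact hψ0 z
  have hT₂c : ∀ z, f z ≤ c → (T₂ : N ≃ₜ N) z = z := by
    intro z hz
    show ψ (t₂ * (max 0 (f z - c) / (f y' - c))) z = z
    rw [max_eq_left (by linarith), zero_div, mul_zero]
    exact hψ0 z
  have hT₁y : (T₁ : N ≃ₜ N) y ≠ y := by
    show ψ (t₁ * (max 0 (c - f y) / (c - f y))) y ≠ y
    rw [max_eq_right (by linarith), div_self (by linarith), mul_one]
    exact ht₁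
  have hT₂y : (T₂ : N ≃ₜ N) y' ≠ y' := by
    show ψ (t₂ * (max 0 (f y' - c) / (f y' - c))) y' ≠ y'
    rw [max_eq_right (by linarith), div_self (by linarith), mul_one]
    exact ht₂
  -- commutation of time changes with elements which commute with the flow
  have hcomm : ∀ (r : ℝ → ℝ) (hr : Continuous r) (T : levelGroup f),
      (∀ z, (T : N ≃ₜ N) z = ψ (r (f z)) z) →
      ∀ h : levelGroup f0, (∀ x ∈ D, (h : M ≃ₜ M) x = x) → φ.symm T * h = h * φ.symm T := by
    intro r hr T hT h hh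
    have h1 : ∀ t, h * g t = g t * h := by
      intro t
      apply Subtype.ext
      exact comm_of_fix D (h : M ≃ₜ M) (g t : M ≃ₜ M) hh (hsup t)
    have h2 : ∀ t z, (φ h : N ≃ₜ N) (ψ t z) = ψ t ((φ h : N ≃ₜ N) z) := by
      intro t z
      have h3 : φ h * φ (g t) = φ (g t) * φ h := by
        rw [← map_mul, h1, map_mul]
      have h4 := congrArg (fun S : levelGroup f => (S : N ≃ₜ N) z) h3
      exact h4
    have h5 : T * φ h = φ h * T := by
      apply Subtype.ext
      ext z
      show (T : N ≃ₜ N) ((φ h : N ≃ₜ N) z) = (φ h : N ≃ₜ N) ((T : N ≃ₜ N) z)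
      rw [hT, hT, h2]
      have h6 : f ((φ h : N ≃ₜ N) z) = f z := (φ h).2 z
      rw [h6]
    apply φ.injective
    rw [map_mul, map_mul, φ.apply_symm_apply]
    exact h5
  have hne : ∀ T : levelGroup f, (∃ z, (T : N ≃ₜ N) z ≠ z) → φ.symm T ≠ 1 := by
    intro T ⟨z, hz⟩ hc
    apply hz
    have h1 : T = 1 := by
      have h2 := congrArg φ hc
      rw [φ.apply_symm_apply, map_one] at h2
      exact h2
    rw [h1]
    rfl
  obtain ⟨x₁, hx₁D, hx₁⟩ := exists_moved hM f0 hfaith D hDflat (φ.symm T₁)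
    (hne T₁ ⟨y, hT₁y⟩) (hcomm r₁ hr₁ T₁ (fun z => rfl))
  obtain ⟨x₂, hx₂D, hx₂⟩ := exists_moved hM f0 hfaith D hDflat (φ.symm T₂)
    (hne T₂ ⟨y', hT₂y⟩) (hcomm r₂ hr₂ T₂ (fun z => rfl))
  -- the normal closure
  set L : Subgroup (levelGroup f0) := Subgroup.normalClosure {φ.symm T₁} with hL
  have : L.Normal := Subgroup.normalClosure_normal
  have hLle : L ≤ (idOn f (Set.Ici c)).comap φ.toMonoidHom := by
    have : ((idOn f (Set.Ici c)).comap φ.toMonoidHom).Normal :=
      Subgroup.Normal.comap (idOn_normal f (Set.Ici c)) φ.toMonoidHom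
    apply Subgroup.normalClosure_le_normal
    rintro _ rfl
    show φ (φ.symm T₁) ∈ idOn f (Set.Ici c)
    rw [φ.apply_symm_apply]
    intro z hz
    exact hT₁c z hz
  have hLcomm : ∀ l ∈ L, φ.symm T₂ * l = l * φ.symm T₂ := by
    intro l hl
    have h1 : ∀ z, c ≤ f z → (φ l : N ≃ₜ N) z = z := fun z hz => hLle hl z hz
    have h2 : T₂ * φ l = φ l * T₂ := by
      apply Subtype.ext
      ext z
      show (T₂ : N ≃ₜ N) ((φ l : N ≃ₜ N) z) = (φ l : N ≃ₜ N) ((T₂ : N ≃ₜ N) z)
      rcases le_total c (f z) with hz | hz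
      · rw [h1 z hz]
        have h3 : f ((T₂ : N ≃ₜ N) z) = f z := T₂.2 z
        rw [h1 _ (by rw [h3]; exact hz)]
      · have h3 : f ((φ l : N ≃ₜ N) z) = f z := (φ l).2 z
        rw [hT₂c z hz, hT₂c _ (by rw [h3]; exact hz)]
    apply φ.injective
    rw [map_mul, map_mul, φ.apply_symm_apply]
    exact h2
  obtain ⟨h, hhl, hh⟩ := hDtr x₁ hx₁D x₂ hx₂D
  have hfin : rst f0 (φ.symm T₂) ⟨x₂, hDflat hx₂D⟩ = ⟨x₂, hDflat hx₂D⟩ := by
    apply fix_of_normal (rst f0) (p12_rst hM f0) L (rst f0 (φ.symm T₂))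
    · intro l hl
      rw [← map_mul, ← map_mul, hLcomm l hl]
    · refine ⟨⟨h, hhl⟩ * φ.symm T₁ * (⟨h, hhl⟩ : levelGroup f0)⁻¹, ?_, ?_⟩
      · apply Subgroup.Normal.conj_mem
        · infer_instance
        · exact Subgroup.subset_normalClosure rfl
      · intro hc
        have h1 : h ((φ.symm T₁ : M ≃ₜ M) (h.symm x₂)) = x₂ := congrArg Subtype.val hc
        have h2 : h.symm x₂ = x₁ := by
          rw [Homeomorph.symm_apply_eq]; exact hh.symm
        rw [h2, ← hh] at h1
        exact hx₁ (h.injective h1)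
  exact hx₂ (congrArg Subtype.val hfin)

end MvdAux

theorem const_on_moved {M N : Type} [TopologicalSpace M] [TopologicalSpace N] (hM : IsMfd M)
    (hN : IsMfd N) (f0 : M → ℝ) (f : N → ℝ) (hf : Continuous f)
    (φ : levelGroup f0 ≃* levelGroup f) (hfaith : Injective (rst f0)) (D : Set M)
    (hD : IsOpen D) (hDflat : D ⊆ flat f0)
    (hDtr : ∀ y ∈ D, ∀ z ∈ D, ∃ h ∈ levelGroup f0, h y = z)
    (g : ℝ → levelGroup f0) (hg : ∀ s t, g (s + t) = g s * g t)
    (hsup : ∀ t, Sup (g t : M ≃ₜ M) D)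
    (hcont : Continuous fun p : ℝ × N => (φ (g p.1) : N ≃ₜ N) p.2) (y y' : N)
    (hy : ∃ t, (φ (g t) : N ≃ₜ N) y ≠ y) (hy' : ∃ t, (φ (g t) : N ≃ₜ N) y' ≠ y') :
    f y = f y' := by
  rcases lt_trichotomy (f y) (f y') with h | h | h
  · exact (MvdAux.no_lt hM f0 f hf φ hfaith D hDflat hDtr g hg hsup hcont y y' hy hy' h).elim
  · exact h
  · exact (MvdAux.no_lt hM f0 f hf φ hfaith D hDflat hDtr g hg hsup hcont y' y hy' hy h).elim

end Pool.Agent.H756.LS
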