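import Pool.Agent.H756.LS.Core
import Pool.Agent.H756.LS.End1
import Pool.Agent.H756.LS.End2
import Pool.Agent.H756.LS.Dim
import Pool.Agent.H756.LS.Cls

/-!
# Components which are not lines go to closed sets (task NONL)

`C` is a component of `M` (clopen and connected) on which `f0` is constant, with a value not taken elsewhere, all points of `C` are
in the flat part, and `C` is not homeomorphic to `ℝ`. `θ` is the equivariant homeomorphism of the flat parts.
`W = θ(C)` (as a subset of `N`).

Paper proof. `W` is open in `N` (`isOpen_flat`), connected, homeomorphic to `C`. `{x : flat f0 | x ∈ C}` is clopen, so `W` is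
closed in `flat f`: `closure W ∩ flat f = W`. `f` is locally constant on `W`, so `f = c` on `W`
(connectedness), hence on `closure W`.
Suppose `W` is not closed. `hreg`: let `p ∈ closure W \ W`; `p ∉ flat f`, `p` is not isolated (`{p}` open would meet `W`), so
`f` is not locally constant at `p`: in each neighbourhood of `p` there is `z` with `f z ≠ f p = c`, so `z ∉ closure W`.
Dimension: suppose some `x ∈ C` has a chart of dimension one in `M`. The points of `C` are not isolated (they are in the flat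
part), so by `dim_one_of` all points of `C` have such charts; restricted to `C` (clopen and connected: the range of a chart meeting
`C` is contained in `C`) they satisfy the hypothesis of `classify` for the subtype `C` (compose with
`ℝ ≃ₜ EuclideanSpace ℝ (Fin 1)`): `C` is homeomorphic to `ℝ` (excluded) or to the circle; then `C` and `W` are
compact, so `W` is closed. So all points of `C` have charts of dimension `≥ 2` (dimension `0` is excluded as the points are not
isolated); composing with `θ` (charts with connected range stay in `C ⊆ flat f0`) the points of `W` have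
charts of dimension `≥ 2` in `N`, and `dim_closed` gives `hdim` for `end1`.
`end1` and `end2` give `h : W ≃ₜ W` which is not the restriction of any `T : N ≃ₜ N`. Let `G : M ≃ₜ M` be
`θ⁻¹ h θ` on the clopen set `C` and the identity elsewhere; `G ∈ levelGroup f0` as `f0` is constant on `C`. Then `T = φ G` satisfies
`T (θ x) = θ (G x) = h (θ x)` for `x ∈ C`: contradiction.
-/

set_option autoImplicit false

open Set Topology Function

namespace Pool.Agent.H756.LS

namespace Nonl

/-- a homeomorphism of a clopen set extends by the identity -/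
theorem exists_ext {M : Type} [TopologicalSpace M] (C : Set M) (hC : IsClopen C) (g : C ≃ₜ C) :
    ∃ G : M ≃ₜ M, (∀ c : C, G c = g c) ∧ ∀ x, x ∉ C → G x = x := by
  classical
  have hcont : ∀ g : C ≃ₜ C, Continuous
      (fun x : M => if hx : x ∈ C then ((g ⟨x, hx⟩ : C) : M) else x) := by
    intro g
    rw [continuous_iff_continuousAt]
    intro x
    by_cases hx : x ∈ C
    · have h1 : ContinuousOn (fun x : M => if hx : x ∈ C then ((g ⟨x, hx⟩ : C) : M) else x) C := by
        rw [continuousOn_iff_continuous_domRestrict]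
        have e : C.domRestrict (fun x : M => if hx : x ∈ C then ((g ⟨x, hx⟩ : C) : M) else x) =
            fun c : C => ((g c : C) : M) := by
          funext c
          show (if hx : (c : M) ∈ C then ((g ⟨c, hx⟩ : C) : M) else (c : M)) = g c
          rw [dif_pos c.2]
        rw [e]
        exact continuous_subtype_val.comp g.continuous
      exact h1.continuousAt (hC.isOpen.mem_nhds hx)
    · have h1 : ContinuousOn (fun x : M => if hx : x ∈ C then ((g ⟨x, hx⟩ : C) : M) else x)
          Cᶜ := by
        refine continuousOn_id.congr ?_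
        intro y hy
        have hy' : y ∉ C := hy
        simp only [id]
        rw [dif_neg hy']
      exact h1.continuousAt (hC.compl.isOpen.mem_nhds hx)
  have hinv : ∀ g : C ≃ₜ C, ∀ x : M,
      (fun x : M => if hx : x ∈ C then ((g.symm ⟨x, hx⟩ : C) : M) else x)
        ((fun x : M => if hx : x ∈ C then ((g ⟨x, hx⟩ : C) : M) else x) x) = x := by
    intro g x
    by_cases hx : x ∈ C
    · have h1 : (fun x : M => if hx : x ∈ C then ((g ⟨x, hx⟩ : C) : M) else x) x =
          ((g ⟨x, hx⟩ : C) : M) := by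
        simp only
        rw [dif_pos hx]
      rw [h1]
      simp only
      rw [dif_pos (g ⟨x, hx⟩).2]
      simp
    · have h1 : (fun x : M => if hx : x ∈ C then ((g ⟨x, hx⟩ : C) : M) else x) x = x := by
        simp only
        rw [dif_neg hx]
      rw [h1]
      simp only
      rw [dif_neg hx]
  refine ⟨{ toFun := fun x : M => if hx : x ∈ C then ((g ⟨x, hx⟩ : C) : M) else x
            invFun := fun x : M => if hx : x ∈ C then ((g.symm ⟨x, hx⟩ : C) : M) else x
            left_inv := hinv g
            right_inv := hinv g.symm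
            continuous_toFun := hcont g
            continuous_invFun := hcont g.symm }, ?_, ?_⟩
  · intro c
    show (if hx : (c : M) ∈ C then ((g ⟨c, hx⟩ : C) : M) else (c : M)) = g c
    rw [dif_pos c.2]
  · intro x hx
    show (if hx : x ∈ C then ((g ⟨x, hx⟩ : C) : M) else x) = x
    rw [dif_neg hx]

/-- a chart which meets a clopen set is a chart of the clopen set -/
theorem chart_clopen {M X : Type} [TopologicalSpace M] [TopologicalSpace X] [ConnectedSpace X]
    (C : Set M) (hC : IsClopen C) (e : X → M) (he : IsOpenEmbedding e) (x : C)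
    (hx : (x : M) ∈ range e) : ∃ e' : X → C, IsOpenEmbedding e' ∧ x ∈ range e' := by
  have hsub : range e ⊆ C :=
    (isPreconnected_range he.continuous).subset_isClopen hC ⟨x, hx, x.2⟩
  have hval : IsOpenEmbedding (Subtype.val : C → M) := hC.isOpen.isOpenEmbedding_subtypeVal
  refine ⟨fun y => ⟨e y, hsub ⟨y, rfl⟩⟩, ?_, ?_⟩
  · have h1 : IsOpenEmbedding (Subtype.val ∘ fun y => (⟨e y, hsub ⟨y, rfl⟩⟩ : C)) := he
    exact (IsOpenEmbedding.of_comp_iff _ hval).1 h1
  · obtain ⟨y, hy⟩ := hx
    exact ⟨y, Subtype.ext hy⟩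

/-- a point with a chart of dimension zero is isolated -/
theorem isolated {M : Type} [TopologicalSpace M] (e : EuclideanSpace ℝ (Fin 0) → M)
    (he : IsOpenEmbedding e) (x : M) (hx : x ∈ range e) : IsOpen ({x} : Set M) := by
  have : range e = {x} := by
    obtain ⟨y, rfl⟩ := hx
    ext z
    constructor
    · rintro ⟨w, rfl⟩
      rw [Subsingleton.elim w y]
      rfl
    · intro hz
      exact ⟨y, hz.symm⟩
  rw [← this]
  exact he.isOpen_range

end Nonl

open Nonl

theorem nonline {M N : Type} [TopologicalSpace M] [TopologicalSpace N] (hM : IsMfd M)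
    (hN : IsMfd N) (f0 : M → ℝ) (f : N → ℝ) (hf : Continuous f)
    (φ : levelGroup f0 ≃* levelGroup f) (θ : flat f0 ≃ₜ flat f)
    (hθ : ∀ (T : levelGroup f0) (x : flat f0), θ (rst f0 T x) = rst f (φ T) (θ x))
    (C : Set M) (hC : IsClopen C) (hCc : IsConnected C) (hCf : C ⊆ flat f0)
    (hconst : ∀ z ∈ C, ∀ w ∈ C, f0 z = f0 w) (hnl : ¬ Nonempty (C ≃ₜ ℝ)) :
    IsClosed ((fun x : flat f0 => (θ x : N)) '' {x | (x : M) ∈ C}) := by
  have : T2Space M := hM.1
  have : SecondCountableTopology M := hM.2.1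
  have : T2Space N := hN.1
  have : ConnectedSpace C := Subtype.connectedSpace hCc
  have hoM : IsOpen (flat f0) := isOpen_flat hM f0
  have hoN : IsOpen (flat f) := isOpen_flat hN f
  have hval : IsOpenEmbedding (Subtype.val : C → M) := hC.isOpen.isOpenEmbedding_subtypeVal
  have hvalM : IsOpenEmbedding (Subtype.val : flat f0 → M) := hoM.isOpenEmbedding_subtypeVal
  have hvalN : IsOpenEmbedding (Subtype.val : flat f → N) := hoN.isOpenEmbedding_subtypeVal
  have hinc : IsOpenEmbedding (fun c : C => (⟨c, hCf c.2⟩ : flat f0)) := by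
    have h1 : IsOpenEmbedding (Subtype.val ∘ fun c : C => (⟨c, hCf c.2⟩ : flat f0)) := hval
    exact (IsOpenEmbedding.of_comp_iff _ hvalM).1 h1
  obtain ⟨j, hj⟩ : ∃ j : C → N, ∀ c, j c = (θ ⟨c, hCf c.2⟩ : N) := ⟨_, fun _ => rfl⟩
  have hje : IsOpenEmbedding j := by
    have h1 : IsOpenEmbedding (Subtype.val ∘ θ ∘ fun c : C => (⟨c, hCf c.2⟩ : flat f0)) :=
      hvalN.comp (θ.isOpenEmbedding.comp hinc)
    have e : j = Subtype.val ∘ θ ∘ fun c : C => (⟨c, hCf c.2⟩ : flat f0) := funext hj
    rw [e]
    exact h1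
  have hW : (fun x : flat f0 => (θ x : N)) '' {x | (x : M) ∈ C} = range j := by
    ext y
    constructor
    · rintro ⟨x, hx, rfl⟩
      exact ⟨⟨x, hx⟩, hj _⟩
    · rintro ⟨c, rfl⟩
      exact ⟨⟨c, hCf c.2⟩, c.2, (hj c).symm⟩
  -- `W` is closed in the flat part
  have hWc : ∀ y ∈ closure (range j), y ∈ flat f → y ∈ range j := by
    intro y hy hyf
    have hcl : IsClosed (θ.symm ⁻¹' {x : flat f0 | (x : M) ∈ C}) :=
      (hC.isClosed.preimage continuous_subtype_val).preimage θ.symm.continuous
    obtain ⟨F, hF, hFe⟩ := isClosed_induced_iff.1 hcl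
    have h1 : range j ⊆ F := by
      rintro _ ⟨c, rfl⟩
      have h2 : θ ⟨c, hCf c.2⟩ ∈ Subtype.val ⁻¹' F := by
        rw [hFe]
        show ((θ.symm (θ ⟨c, hCf c.2⟩) : flat f0) : M) ∈ C
        rw [θ.symm_apply_apply]
        exact c.2
      rw [hj c]
      exact h2
    have h3 : y ∈ F := closure_minimal h1 hF hy
    have h4 : (⟨y, hyf⟩ : flat f) ∈ θ.symm ⁻¹' {x : flat f0 | (x : M) ∈ C} := by
      rw [← hFe]
      exact h3
    refine ⟨⟨θ.symm ⟨y, hyf⟩, h4⟩, ?_⟩
    rw [hj]
    show ((θ (θ.symm ⟨y, hyf⟩) : flat f) : N) = y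
    rw [θ.apply_symm_apply]
  have hWf : ∀ y ∈ range j, y ∈ flat f := by
    rintro _ ⟨c, rfl⟩
    rw [hj c]
    exact (θ ⟨c, hCf c.2⟩).2
  -- `f` is constant on `W`
  have hloc : IsLocallyConstant (fun c : C => f (j c)) := by
    rw [IsLocallyConstant.iff_exists_open]
    intro c
    obtain ⟨⟨B, hB, hyB, hc⟩, -⟩ := hWf (j c) ⟨c, rfl⟩
    exact ⟨j ⁻¹' B, hB.preimage hje.continuous, hyB, fun c' hc' => hc _ hc'⟩
  obtain ⟨c0⟩ : Nonempty C := inferInstance
  have hfW : ∀ y ∈ closure (range j), f y = f (j c0) := by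
    intro y hy
    have hcl : IsClosed {y : N | f y = f (j c0)} := isClosed_eq hf continuous_const
    refine closure_minimal ?_ hcl hy
    rintro _ ⟨c, rfl⟩
    exact hloc.apply_eq_of_preconnectedSpace c c0
  rw [hW]
  by_contra hncl
  have hreg : ∀ p ∈ closure (range j), p ∉ range j → p ∈ closure (closure (range j))ᶜ := by
    intro p hp hpW
    have hpf : p ∉ flat f := fun h => hpW (hWc p hp h)
    have hiso : ¬ IsOpen ({p} : Set N) := by
      intro ho
      obtain ⟨q, hq, hqW⟩ := mem_closure_iff.1 hp {p} ho rfl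
      rw [mem_singleton_iff.1 hq] at hqW
      exact hpW hqW
    rw [mem_closure_iff]
    intro O hO hpO
    by_contra hemp
    apply hpf
    refine ⟨⟨O, hO, hpO, fun z hz => ?_⟩, hiso⟩
    have hz' : z ∈ closure (range j) := by
      by_contra hzc
      exact hemp ⟨z, hz, hzc⟩
    rw [hfW z hz', hfW p hp]
  -- charts
  have hdimC : ∀ x ∈ C, ∃ n : ℕ, 2 ≤ n ∧ ∃ e : EuclideanSpace ℝ (Fin n) → M,
      IsOpenEmbedding e ∧ x ∈ range e := by
    intro x hx
    by_contra hno
    obtain ⟨n, e, he, hxe⟩ := hM.2.2 x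
    have hn : n < 2 := by
      by_contra hn
      exact hno ⟨n, by omega, e, he, hxe⟩
    have hiso : ∀ y ∈ C, ¬ IsOpen ({y} : Set M) := fun y hy => (hCf hy).2
    have h1 : ∃ e : EuclideanSpace ℝ (Fin 1) → M, IsOpenEmbedding e ∧ x ∈ range e := by
      interval_cases n
      · exact absurd (isolated e he x hxe) (hiso x hx)
      · exact ⟨e, he, hxe⟩
    have h2 := dim_one_of hM C hCc.isPreconnected hiso x hx h1
    have h3 : ∀ c : C, ∃ e : ℝ → C, IsOpenEmbedding e ∧ c ∈ range e := by
      intro c
      obtain ⟨e1, he1, hc1⟩ := h2 c c.2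
      let u : ℝ ≃ₜ EuclideanSpace ℝ (Fin 1) :=
        ((EuclideanSpace.equiv (Fin 1) ℝ).toHomeomorph.trans (Homeomorph.funUnique (Fin 1) ℝ)).symm
      have hx1 : (c : M) ∈ range (e1 ∘ u) := by
        rw [u.surjective.range_comp]
        exact hc1
      exact chart_clopen C hC (e1 ∘ u) (he1.comp u.isOpenEmbedding) c hx1
    rcases classify C h3 with h4 | h4
    · exact hnl h4
    · obtain ⟨v⟩ := h4
      have : Fact ((0 : ℝ) < 1) := ⟨one_pos⟩
      have : CompactSpace C := v.symm.compactSpace
      exact hncl (isCompact_range hje.continuous).isClosed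
  have hdimW : ∀ y ∈ range j, ∃ n : ℕ, 2 ≤ n ∧ ∃ e : EuclideanSpace ℝ (Fin n) → N,
      IsOpenEmbedding e ∧ y ∈ range e := by
    rintro _ ⟨c, rfl⟩
    obtain ⟨n, hn, e, he, hce⟩ := hdimC c c.2
    obtain ⟨e', he', ⟨z, hz⟩⟩ := chart_clopen C hC e he c hce
    exact ⟨n, hn, j ∘ e', hje.comp he', z, by rw [comp_apply, hz]⟩
  have hdim : ∀ p ∈ closure (range j), p ∉ range j → ∃ n : ℕ, 2 ≤ n ∧
      ∃ e : EuclideanSpace ℝ (Fin n) → N, IsOpenEmbedding e ∧ p ∈ range e :=
    fun p hp _ => dim_closed hN p (closure_mono hdimW hp)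
  have hWconn : IsConnected (range j) := isConnected_range hje.continuous
  obtain ⟨p, hp, hpW, O, hO, hpO, H⟩ := end1 hN (range j) hje.isOpen_range hWconn hreg hdim hncl
  obtain ⟨h, hh⟩ := end2 hN (range j) hje.isOpen_range (fun y hy => (hWf y hy).2) p hpW O hO hpO H
  let e : C ≃ₜ range j := hje.isEmbedding.toHomeomorph
  have hee : ∀ c : C, ((e c : range j) : N) = j c := fun c => rfl
  obtain ⟨G, hG1, hG2⟩ := exists_ext C hC (e.trans (h.trans e.symm))
  have hGm : G ∈ levelGroup f0 := by
    intro x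
    by_cases hx : x ∈ C
    · have h1 := hG1 ⟨x, hx⟩
      rw [h1]
      exact hconst _ (Subtype.coe_prop _) _ hx
    · rw [hG2 x hx]
  obtain ⟨w, hw⟩ := hh (φ ⟨G, hGm⟩).1
  apply hw
  obtain ⟨c, hc⟩ := e.surjective w
  have h1 := hθ ⟨G, hGm⟩ ⟨c, hCf c.2⟩
  have h2 := congrArg (Subtype.val : flat f → N) h1
  rw [rst_apply] at h2
  have h3 : rst f0 ⟨G, hGm⟩ ⟨c, hCf c.2⟩ =
      ⟨((e.trans (h.trans e.symm)) c : C), hCf (Subtype.coe_prop _)⟩ := by
    apply Subtype.ext
    rw [rst_apply]
    exact hG1 c
  rw [h3, ← hj, ← hj] at h2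
  rw [← hc, hee, ← h2, ← hee]
  simp

end Pool.Agent.H756.LS
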