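import Pool.Agent.H756.LS.Cmt2

/-!
# Rubin's theorem, first part: the point relation (task RUB1)

`Pair ρ σ` : the group `Γ` acts faithfully on `X` and `Y` with the local properties `LT`, `P12`.
`Mv ρ σ A ⊆ Y` is the set of points moved by `σ g` for some `g` supported (through `ρ`) in `A ⊆ X`,
`Mv12 ρ σ A` is the same with `σ (g^12)`. By symmetry we also have `Mv σ ρ B ⊆ X` for `B ⊆ Y`.

Paper proofs.
* `mv_disj`: immediate from `disj12`.
* `mv_inter` : suppose `A ∩ Mv12 σ ρ B = ∅`. Let `g` be supported in `A` (through `ρ`), `c` supported in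
  `B` (through `σ`). `ρ (c^12)` fixes `A` pointwise, hence commutes with `ρ g` (supported in `A`); `ρ`
  injective, so `g` commutes with `c^12`, so `σ g` commutes with `σ (c^12)` for all such `c`; by
  `fix_of_comm` `σ g` fixes `B` pointwise. So `Mv ρ σ A ∩ B = ∅`.
* `rel_symm` from `mv_inter` used for `(ρ, σ)` and `(σ, ρ)` and `Mv12 ⊆ Mv`.
* `mv_image` : `σ g '' (Mv ρ σ A) = Mv ρ σ (ρ g '' A)` (conjugation), the same for `Mv12`;
  `rel_equiv` follows.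
* `exists_compact` : let `A₀` be any open neighbourhood of `x` (e.g. `univ`), `D ∋ x` from `LT` (each
  `z ∈ D` is `ρ g x`, `g` supported in `A₀`). `Mv ρ σ D ≠ ∅` (by `P12` and injectivity of `σ`) is open;
  choose a nonempty open `B₀ ⊆ Mv ρ σ D` with compact closure. By `mv_inter`, `V' = D ∩ Mv12 σ ρ B₀ ≠ ∅`.
  Claim: `Mv ρ σ V' ⊆ closure B₀`. With `B₁ = (closure B₀)ᶜ` (disjoint from `B₀`), `mv_disj` for
  `(σ, ρ)` gives `Mv σ ρ B₁ ∩ Mv12 σ ρ B₀ = ∅`, so `V' ∩ Mv12 σ ρ B₁ = ∅`, so by `mv_inter`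
  `Mv ρ σ V' ∩ B₁ = ∅`. Take `z ∈ V'`, `g` with `ρ g x = z`, and `A = (ρ g)⁻¹ '' V' ∋ x`:
  `Mv ρ σ A = (σ g)⁻¹ '' (Mv ρ σ V')` has compact closure.
* `rel_exists` : with `A₁ ∋ x` such that `closure (Mv ρ σ A₁)` is compact, the closed sets
  `closure (Mv ρ σ A) ∩ closure (Mv ρ σ A₁)` (`A ∋ x` open) contain the nonempty sets
  `Mv ρ σ (A ∩ A₁)`, they are directed, so there is a common point `y`; then `Rel ρ σ x y`.
* `rel_open` : by definition.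
-/

set_option autoImplicit false

open Set Topology Function

namespace Pool.Agent.H756.LS

/-- The group `Γ` acts faithfully on `X` and `Y`, and both actions have the local properties. -/
structure Pair {X Y : Type} [TopologicalSpace X] [TopologicalSpace Y] {Γ : Type} [Group Γ]
    (ρ : Γ →* (X ≃ₜ X)) (σ : Γ →* (Y ≃ₜ Y)) : Prop where
  injX : Injective ρ
  injY : Injective σ
  ltX : LT ρ
  ltY : LT σ
  pX : P12 ρ
  pY : P12 σ

variable {X Y : Type} [TopologicalSpace X] [TopologicalSpace Y] {Γ : Type} [Group Γ]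

theorem Pair.symm {ρ : Γ →* (X ≃ₜ X)} {σ : Γ →* (Y ≃ₜ Y)} (h : Pair ρ σ) : Pair σ ρ :=
  ⟨h.injY, h.injX, h.ltY, h.ltX, h.pY, h.pX⟩

/-- The points of `Y` moved by elements whose action on `X` is supported in `A`. -/
def Mv (ρ : Γ →* (X ≃ₜ X)) (σ : Γ →* (Y ≃ₜ Y)) (A : Set X) : Set Y :=
  {y | ∃ g : Γ, Sup (ρ g) A ∧ σ g y ≠ y}

/-- The points of `Y` moved by twelfth powers of elements whose action on `X` is supported in
`A`. -/
def Mv12 (ρ : Γ →* (X ≃ₜ X)) (σ : Γ →* (Y ≃ₜ Y)) (A : Set X) : Set Y :=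
  {y | ∃ g : Γ, Sup (ρ g) A ∧ σ (g ^ 12) y ≠ y}

/-- The point relation. -/
def Rel (ρ : Γ →* (X ≃ₜ X)) (σ : Γ →* (Y ≃ₜ Y)) (x : X) (y : Y) : Prop :=
  ∀ A : Set X, IsOpen A → x ∈ A → ∀ B : Set Y, IsOpen B → y ∈ B → (Mv ρ σ A ∩ B).Nonempty

variable {ρ : Γ →* (X ≃ₜ X)} {σ : Γ →* (Y ≃ₜ Y)}

theorem rub1_sup_pow {A : Set X} {g : Γ} (h : Sup (ρ g) A) (n : ℕ) : Sup (ρ (g ^ n)) A := by
  intro x hx
  induction n with
  | zero => rw [pow_zero, map_one]; rfl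
  | succ n ih =>
    rw [pow_succ, map_mul]
    show ρ (g ^ n) (ρ g x) = x
    rw [h x hx, ih]

theorem rub1_sup_mono {h : X ≃ₜ X} {A B : Set X} (hAB : A ⊆ B) (hs : Sup h A) : Sup h B :=
  fun x hx => hs x fun hxA => hx (hAB hxA)

theorem rub1_inv_apply (g : Γ) (x : X) : ρ g⁻¹ (ρ g x) = x := by
  have h : (ρ g⁻¹ * ρ g) x = x := by
    rw [← map_mul, inv_mul_cancel, map_one]
    rfl
  exact h

theorem rub1_apply_inv (g : Γ) (x : X) : ρ g (ρ g⁻¹ x) = x := by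
  have h : (ρ g * ρ g⁻¹) x = x := by
    rw [← map_mul, mul_inv_cancel, map_one]
    rfl
  exact h

theorem isOpen_Mv [T2Space Y] (A : Set X) : IsOpen (Mv ρ σ A) := by
  have h : Mv ρ σ A = ⋃ g ∈ {g : Γ | Sup (ρ g) A}, {y | σ g y ≠ y} := by
    ext y
    rw [mem_iUnion₂]
    exact ⟨fun ⟨g, h1, h2⟩ => ⟨g, h1, h2⟩, fun ⟨g, h1, h2⟩ => ⟨g, h1, h2⟩⟩
  rw [h]
  exact isOpen_biUnion fun g _ => isOpen_ne_fun (σ g).continuous continuous_id

theorem isOpen_Mv12 [T2Space Y] (A : Set X) : IsOpen (Mv12 ρ σ A) := by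
  have h : Mv12 ρ σ A = ⋃ g ∈ {g : Γ | Sup (ρ g) A}, {y | σ (g ^ 12) y ≠ y} := by
    ext y
    rw [mem_iUnion₂]
    exact ⟨fun ⟨g, h1, h2⟩ => ⟨g, h1, h2⟩, fun ⟨g, h1, h2⟩ => ⟨g, h1, h2⟩⟩
  rw [h]
  exact isOpen_biUnion fun g _ => isOpen_ne_fun (σ (g ^ 12)).continuous continuous_id

theorem Mv12_subset (A : Set X) : Mv12 ρ σ A ⊆ Mv ρ σ A := by
  rintro y ⟨g, h1, h2⟩
  exact ⟨g ^ 12, rub1_sup_pow h1 12, h2⟩

theorem Mv_mono {A B : Set X} (h : A ⊆ B) : Mv ρ σ A ⊆ Mv ρ σ B := by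
  rintro y ⟨g, h1, h2⟩
  exact ⟨g, rub1_sup_mono h h1, h2⟩

theorem Mv12_mono {A B : Set X} (h : A ⊆ B) : Mv12 ρ σ A ⊆ Mv12 ρ σ B := by
  rintro y ⟨g, h1, h2⟩
  exact ⟨g, rub1_sup_mono h h1, h2⟩

theorem Mv_nonempty (hp : Pair ρ σ) {A : Set X} (hA : IsOpen A) (hne : A.Nonempty) :
    (Mv ρ σ A).Nonempty := by
  obtain ⟨g, h1, h2⟩ := hp.pX A hA hne
  by_contra hcon
  apply h2
  have h3 : σ (g ^ 12) = 1 := by
    apply Homeomorph.ext
    intro y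
    by_contra hy
    exact hcon ⟨y, Mv12_subset A ⟨g, h1, hy⟩⟩
  have h4 : g ^ 12 = 1 := hp.injY (h3.trans (map_one σ).symm)
  rw [h4, map_one]

theorem mv_disj [T2Space X] [T2Space Y] (hp : Pair ρ σ) {A B : Set X} (hA : IsOpen A)
    (hB : IsOpen B) (hAB : Disjoint A B) : Disjoint (Mv ρ σ A) (Mv12 ρ σ B) := by
  rw [Set.disjoint_left]
  rintro y ⟨a, ha, hay⟩ ⟨b, hb, hby⟩
  rcases disj12 ρ σ hp.injX hp.injY hp.pX hp.pY hA hB hAB a b ha hb y with h | h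
  · exact hay h
  · exact hby h

theorem mv_inter [T2Space X] [T2Space Y] (hp : Pair ρ σ) {A : Set X} {B : Set Y} (hA : IsOpen A)
    (hB : IsOpen B) (h : (Mv ρ σ A ∩ B).Nonempty) : (A ∩ Mv12 σ ρ B).Nonempty := by
  by_contra hcon
  obtain ⟨y, ⟨g, hg, hgy⟩, hyB⟩ := h
  apply hgy
  refine fix_of_comm σ hp.pY hB (σ g) (fun c hc => ?_) y hyB
  have hfix : ∀ x ∈ A, ρ (c ^ 12) x = x := by
    intro x hx
    by_contra hne
    exact hcon ⟨x, hx, c, hc, hne⟩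
  have hcomm : g * c ^ 12 = c ^ 12 * g := by
    apply hp.injX
    rw [map_mul, map_mul]
    apply Homeomorph.ext
    intro x
    show ρ g (ρ (c ^ 12) x) = ρ (c ^ 12) (ρ g x)
    by_cases hx : x ∈ A
    · have h1 : ρ g x ∈ A := by
        by_contra hn
        have h2 := (ρ g).injective (hg (ρ g x) hn)
        rw [h2] at hn
        exact hn hx
      rw [hfix x hx, hfix _ h1]
    · have h1 : ρ (c ^ 12) x ∉ A := by
        intro hn
        have h2 := (ρ (c ^ 12)).injective (hfix _ hn)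
        rw [h2] at hn
        exact hx hn
      rw [hg x hx, hg _ h1]
  rw [← map_mul, ← map_mul, hcomm]

theorem rub1_image_sub (g : Γ) (A : Set X) : σ g '' (Mv ρ σ A) ⊆ Mv ρ σ (ρ g '' A) := by
  rintro _ ⟨y, ⟨a, ha, hay⟩, rfl⟩
  refine ⟨g * a * g⁻¹, ?_, ?_⟩
  · intro x hx
    rw [map_mul, map_mul]
    show ρ g (ρ a (ρ g⁻¹ x)) = x
    rw [ha (ρ g⁻¹ x) (fun h => hx ⟨_, h, rub1_apply_inv g x⟩), rub1_apply_inv]
  · rw [map_mul, map_mul]
    show σ g (σ a (σ g⁻¹ (σ g y))) ≠ σ g y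
    rw [rub1_inv_apply]
    exact fun h => hay ((σ g).injective h)

theorem mv_image (g : Γ) (A : Set X) : σ g '' (Mv ρ σ A) = Mv ρ σ (ρ g '' A) := by
  apply Subset.antisymm (rub1_image_sub g A)
  intro y hy
  have h1 := rub1_image_sub (ρ := ρ) (σ := σ) g⁻¹ (ρ g '' A) ⟨y, hy, rfl⟩
  have h2 : ρ g⁻¹ '' (ρ g '' A) = A := by
    rw [← image_comp]
    ext x
    constructor
    · rintro ⟨z, hz, rfl⟩
      show ρ g⁻¹ (ρ g z) ∈ A
      rwa [rub1_inv_apply]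
    · intro hx
      exact ⟨x, hx, rub1_inv_apply g x⟩
  rw [h2] at h1
  exact ⟨_, h1, rub1_apply_inv g y⟩

theorem rel_symm [T2Space X] [T2Space Y] (hp : Pair ρ σ) {x : X} {y : Y} :
    Rel ρ σ x y ↔ Rel σ ρ y x := by
  constructor
  · intro h B hB hy A hA hx
    obtain ⟨z, h1, h2⟩ := mv_inter hp hA hB (h A hA hx B hB hy)
    exact ⟨z, Mv12_subset B h2, h1⟩
  · intro h A hA hx B hB hy
    obtain ⟨z, h1, h2⟩ := mv_inter hp.symm hB hA (h B hB hy A hA hx)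
    exact ⟨z, Mv12_subset A h2, h1⟩

theorem rel_equiv {x : X} {y : Y} (h : Rel ρ σ x y) (g : Γ) : Rel ρ σ (ρ g x) (σ g y) := by
  intro A hA hx B hB hy
  obtain ⟨z, h1, h2⟩ := h (ρ g ⁻¹' A) (hA.preimage (ρ g).continuous) hx (σ g ⁻¹' B)
    (hB.preimage (σ g).continuous) hy
  refine ⟨σ g z, ?_, h2⟩
  have h3 : σ g z ∈ Mv ρ σ (ρ g '' (ρ g ⁻¹' A)) := by
    rw [← mv_image]
    exact ⟨z, h1, rfl⟩
  exact Mv_mono (image_preimage_subset _ _) h3

theorem rel_open {x : X} {y : Y} (h : ¬ Rel ρ σ x y) :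
    ∃ A : Set X, ∃ B : Set Y, IsOpen A ∧ IsOpen B ∧ x ∈ A ∧ y ∈ B ∧
      ∀ x' ∈ A, ∀ y' ∈ B, ¬ Rel ρ σ x' y' := by
  unfold Rel at h
  push Not at h
  obtain ⟨A, hA, hx, B, hB, hy, hne⟩ := h
  refine ⟨A, B, hA, hB, hx, hy, fun x' hx' y' hy' h' => ?_⟩
  have h1 := h' A hA hx' B hB hy'
  rw [hne] at h1
  exact h1.ne_empty rfl

theorem exists_compact [T2Space X] [T2Space Y] [LocallyCompactSpace Y] (hp : Pair ρ σ) (x : X) :
    ∃ A : Set X, IsOpen A ∧ x ∈ A ∧ IsCompact (closure (Mv ρ σ A)) := by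
  obtain ⟨D, hD, hxD, -, hDt⟩ := hp.ltX x univ isOpen_univ (mem_univ x)
  obtain ⟨y₀, hy₀⟩ := Mv_nonempty hp hD ⟨x, hxD⟩
  obtain ⟨K, hK, hyK, hKM⟩ := exists_compact_subset (isOpen_Mv (ρ := ρ) (σ := σ) D) hy₀
  have hcK : IsCompact (closure (interior K)) := hK.closure_of_subset interior_subset
  obtain ⟨z, hzD, hz12⟩ := mv_inter hp hD isOpen_interior ⟨y₀, hy₀, hyK⟩
  have hV : IsOpen (D ∩ Mv12 σ ρ (interior K)) := hD.inter (isOpen_Mv12 _)
  have hB1 : IsOpen (closure (interior K))ᶜ := isClosed_closure.isOpen_compl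
  have hdis : Disjoint (Mv σ ρ (closure (interior K))ᶜ) (Mv12 σ ρ (interior K)) := by
    refine mv_disj hp.symm hB1 isOpen_interior ?_
    rw [Set.disjoint_left]
    intro w hw hw'
    exact hw (subset_closure hw')
  have hsub : Mv ρ σ (D ∩ Mv12 σ ρ (interior K)) ⊆ closure (interior K) := by
    intro w hw
    by_contra hwn
    obtain ⟨v, hv1, hv2⟩ := mv_inter hp hV hB1 ⟨w, hw, hwn⟩
    exact Set.disjoint_left.1 hdis (Mv12_subset _ hv2) hv1.2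
  obtain ⟨g, -, hgx⟩ := hDt z hzD
  refine ⟨ρ g ⁻¹' (D ∩ Mv12 σ ρ (interior K)), hV.preimage (ρ g).continuous, ?_, ?_⟩
  · show ρ g x ∈ D ∩ Mv12 σ ρ (interior K)
    rw [hgx]
    exact ⟨hzD, hz12⟩
  · have hc : IsCompact (σ g ⁻¹' closure (interior K)) := (σ g).isCompact_preimage.2 hcK
    refine hc.closure_of_subset ?_
    intro w hw
    apply hsub
    have h1 : σ g w ∈ Mv ρ σ (ρ g '' (ρ g ⁻¹' (D ∩ Mv12 σ ρ (interior K)))) := by
      rw [← mv_image]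
      exact ⟨w, hw, rfl⟩
    exact Mv_mono (image_preimage_subset _ _) h1

theorem rel_exists [T2Space X] [T2Space Y] [LocallyCompactSpace Y] (hp : Pair ρ σ) (x : X) :
    ∃ y : Y, Rel ρ σ x y := by
  obtain ⟨A₁, hA₁, hx₁, hK⟩ := exists_compact hp x
  have key : (⋂ A : {A : Set X // IsOpen A ∧ x ∈ A}, closure (Mv ρ σ (A.1 ∩ A₁))).Nonempty := by
    haveI : Nonempty {A : Set X // IsOpen A ∧ x ∈ A} := ⟨⟨univ, isOpen_univ, mem_univ x⟩⟩
    refine IsCompact.nonempty_iInter_of_directed_nonempty_isCompact_isClosed _ ?_ ?_ ?_ ?_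
    · intro A B
      refine ⟨⟨A.1 ∩ B.1, A.2.1.inter B.2.1, A.2.2, B.2.2⟩, ?_, ?_⟩
      · exact closure_mono (Mv_mono (inter_subset_inter_left _ inter_subset_left))
      · exact closure_mono (Mv_mono (inter_subset_inter_left _ inter_subset_right))
    · intro A
      exact (Mv_nonempty hp (A.2.1.inter hA₁) ⟨x, A.2.2, hx₁⟩).closure
    · intro A
      exact hK.of_isClosed_subset isClosed_closure (closure_mono (Mv_mono inter_subset_right))
    · intro A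
      exact isClosed_closure
  obtain ⟨y, hy⟩ := key
  refine ⟨y, fun A hA hx B hB hyB => ?_⟩
  have h1 := mem_iInter.1 hy ⟨A, hA, hx⟩
  obtain ⟨w, hw1, hw2⟩ := mem_closure_iff.1 h1 B hB hyB
  exact ⟨w, Mv_mono inter_subset_left hw2, hw1⟩

end Pool.Agent.H756.LS
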