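import Pool.Agent.H756.LS.Flt

/-!
# Swapping two components; the periodic function on a line component (task SWP)
-/

set_option autoImplicit false

open Set Topology Function

namespace Pool.Agent.H756.LS

/-- The periodic function with flat intervals. -/
noncomputable def P (t : ℝ) : ℝ := max 0 (1 / 4 - |t - round t|)

lemma swp_continuous_ite {X Y : Type} [TopologicalSpace X] [TopologicalSpace Y] (A : Set X)
    (hA : IsClopen A) [DecidablePred (· ∈ A)] (f g : X → Y) (hf : Continuous f)
    (hg : Continuous g) : Continuous (fun x => if x ∈ A then f x else g x) := by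
  refine Continuous.if ?_ hf hg
  intro a ha
  have : frontier {x | x ∈ A} = ∅ := hA.frontier_eq
  rw [this] at ha
  exact ha.elim

theorem swap {N : Type} [TopologicalSpace N] (hN : IsMfd N) (f : N → ℝ) (T : N ≃ₜ N)
    (hT : T ∈ levelGroup f) (y : N) (h : connectedComponent (T y) ≠ connectedComponent y) :
    ∃ T' ∈ levelGroup f, (∀ z ∈ connectedComponent y, T' z = T z) ∧
      (∀ z ∈ connectedComponent y, T' (T z) = z) ∧
      ∀ z, z ∉ connectedComponent y → z ∉ connectedComponent (T y) → T' z = z := by
  classical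
  haveI := locallyConnected hN
  set A := connectedComponent y with hAdef
  set B := connectedComponent (T y) with hBdef
  have hA : IsClopen A := ⟨isClosed_connectedComponent, isOpen_connectedComponent⟩
  have hB : IsClopen B := ⟨isClosed_connectedComponent, isOpen_connectedComponent⟩
  have hAB : ∀ z ∈ A, T z ∈ B := by
    intro z hz
    have h1 : IsPreconnected (T '' A) := isPreconnected_connectedComponent.image _
      T.continuous.continuousOn
    exact h1.subset_connectedComponent ⟨y, mem_connectedComponent, rfl⟩ ⟨z, hz, rfl⟩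
  have hBA : ∀ z ∈ B, T.symm z ∈ A := by
    intro z hz
    have h1 : IsPreconnected (T.symm '' B) := isPreconnected_connectedComponent.image _
      T.symm.continuous.continuousOn
    exact h1.subset_connectedComponent ⟨T y, mem_connectedComponent, T.symm_apply_apply y⟩
      ⟨z, hz, rfl⟩
  have hdis : ∀ z ∈ A, z ∉ B := by
    intro z hzA hzB
    exact Set.disjoint_left.1 (connectedComponent_disjoint h) hzB hzA
  let F : N → N := fun z => if z ∈ A then T z else if z ∈ B then T.symm z else z
  have hFA : ∀ z ∈ A, F z = T z := fun z hz => if_pos hz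
  have hFB : ∀ z ∈ B, F z = T.symm z := fun z hz => by
    show (if z ∈ A then T z else if z ∈ B then T.symm z else z) = T.symm z
    rw [if_neg (fun h => hdis z h hz), if_pos hz]
  have hFn : ∀ z, z ∉ A → z ∉ B → F z = z := fun z h1 h2 => by
    show (if z ∈ A then T z else if z ∈ B then T.symm z else z) = z
    rw [if_neg h1, if_neg h2]
  have hFc : Continuous F :=
    swp_continuous_ite A hA _ _ T.continuous
      (swp_continuous_ite B hB _ _ T.symm.continuous continuous_id)
  have hinv : Function.Involutive F := by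
    intro z
    by_cases hzA : z ∈ A
    · rw [hFA z hzA, hFB _ (hAB z hzA), T.symm_apply_apply]
    · by_cases hzB : z ∈ B
      · rw [hFB z hzB, hFA _ (hBA z hzB), T.apply_symm_apply]
      · rw [hFn z hzA hzB, hFn z hzA hzB]
  refine ⟨⟨⟨F, F, hinv, hinv⟩, hFc, hFc⟩, ?_, ?_, ?_, ?_⟩
  · intro z
    show f (F z) = f z
    by_cases hzA : z ∈ A
    · rw [hFA z hzA, hT z]
    · by_cases hzB : z ∈ B
      · rw [hFB z hzB, ← hT (T.symm z), T.apply_symm_apply]
      · rw [hFn z hzA hzB]
  · exact hFA
  · intro z hz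
    show F (T z) = z
    rw [hFB _ (hAB z hz), T.symm_apply_apply]
  · exact hFn

variable {M : Type} [TopologicalSpace M]

lemma swp_round_dist (s : ℝ) (n : ℤ) (h : |s - n| ≤ 1 / 4) : |s - round s| = |s - n| := by
  have h1 := round_le s n
  have h2 : n = round s := by
    have h3 : |(n : ℝ) - (round s : ℝ)| < 1 := by
      have : (n : ℝ) - (round s : ℝ) = (s - round s) - (s - n) := by ring
      rw [this]
      calc |(s - round s) - (s - n)| ≤ |s - round s| + |s - n| := abs_sub _ _
        _ < 1 := by linarith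
    have h4 : |n - round s| < 1 := by exact_mod_cast h3
    rw [Int.abs_lt_one_iff] at h4
    omega
  rw [← h2]

lemma swp_cont : Continuous (fun t : ℝ => |t - round t|) := by
  have : (fun t : ℝ => |t - round t|) = fun t : ℝ => ‖(t : UnitAddCircle)‖ := by
    funext t; exact UnitAddCircle.norm_eq.symm
  rw [this]
  exact continuous_norm.comp (AddCircle.continuous_mk' 1)

theorem P_flat (f0 : M → ℝ) (h : ℝ → M) (hh : IsOpenEmbedding h)
    (hP : ∀ t, f0 (h t) = f0 (h (1 / 2)) + P t) (t : ℝ) :
    h t ∈ flat f0 ↔ 1 / 4 < |t - round t| := by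
  constructor
  · rintro ⟨⟨B, hB, htB, hc⟩, -⟩
    by_contra hcon
    push Not at hcon
    have hopen : IsOpen (h ⁻¹' B) := hB.preimage hh.continuous
    have hPc : ∀ s ∈ h ⁻¹' B, P s = P t := by
      intro s hs
      have := hc _ hs
      rw [hP, hP t] at this
      linarith
    set n := round t with hn
    have hPt : P t = 1 / 4 - |t - n| := by
      show max 0 (1 / 4 - |t - round t|) = 1 / 4 - |t - n|
      rw [← hn, max_eq_right (by linarith)]
    have hPs : ∀ s : ℝ, |s - n| ≤ 1 / 4 → P s = 1 / 4 - |s - n| := by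
      intro s hs
      show max 0 (1 / 4 - |s - round s|) = 1 / 4 - |s - n|
      rw [swp_round_dist s n hs, max_eq_right (by linarith)]
    obtain ⟨ε, hε, hball⟩ := Metric.isOpen_iff.1 hopen t htB
    by_cases htn : t = n
    · -- t = n
      set r := min (ε / 2) (1 / 4) with hr
      have hr0 : 0 < r := by positivity
      have hr1 : r ≤ 1 / 4 := min_le_right _ _
      have hr2 : r < ε := lt_of_le_of_lt (min_le_left _ _) (by linarith)
      have h1 : (n : ℝ) + r ∈ h ⁻¹' B := by
        apply hball
        rw [Metric.mem_ball, Real.dist_eq, htn]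
        rw [show (n : ℝ) + r - n = r by ring, abs_of_pos hr0]
        exact hr2
      have h2 := hPc _ h1
      rw [hPt, hPs _ (by rw [show (n : ℝ) + r - n = r by ring, abs_of_pos hr0]; exact hr1)] at h2
      rw [show (n : ℝ) + r - n = r by ring, abs_of_pos hr0, htn, sub_self, abs_zero] at h2
      linarith
    · have hpos : 0 < |t - n| := abs_pos.2 (sub_ne_zero.2 htn)
      set l := min (1 / 2) (ε / 2) with hl
      have hl0 : 0 < l := by positivity
      have hl1 : l ≤ 1 / 2 := min_le_left _ _
      have hl2 : l ≤ ε / 2 := min_le_right _ _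
      set s := t - l * (t - n) with hs
      have hsn : |s - n| = (1 - l) * |t - n| := by
        have : s - n = (1 - l) * (t - n) := by rw [hs]; ring
        rw [this, abs_mul, abs_of_pos (by linarith)]
      have h1 : s ∈ h ⁻¹' B := by
        apply hball
        rw [Metric.mem_ball, Real.dist_eq, show s - t = - (l * (t - n)) by rw [hs]; ring, abs_neg,
          abs_mul, abs_of_pos hl0]
        nlinarith
      have h2 := hPc _ h1
      have h3 : |s - n| ≤ 1 / 4 := by rw [hsn]; nlinarith
      rw [hPt, hPs s h3, hsn] at h2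
      nlinarith
  · intro ht
    refine ⟨⟨h '' {s | 1 / 4 < |s - round s|}, ?_, ⟨t, ht, rfl⟩, ?_⟩, ?_⟩
    · exact hh.isOpenMap _ (isOpen_lt continuous_const swp_cont)
    · rintro _ ⟨s, hs, rfl⟩
      have h0 : ∀ s : ℝ, 1 / 4 < |s - round s| → P s = 0 := by
        intro s hs
        exact max_eq_left (by linarith)
      rw [hP s, hP t, h0 s hs, h0 t ht]
    · intro hop
      have h1 : IsOpen (h ⁻¹' {h t}) := hop.preimage hh.continuous
      have h2 : h ⁻¹' {h t} = {t} := by
        ext s
        exact ⟨fun hs => hh.injective hs, fun hs => by rw [mem_singleton_iff.1 hs]; rfl⟩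
      rw [h2] at h1
      exact not_isOpen_singleton t h1

lemma swp_ext (h : ℝ → M) (hh : IsOpenEmbedding h) (hcl : IsClosed (range h)) (u : ℝ ≃ₜ ℝ) :
    ∃ τ : M ≃ₜ M, (∀ t, τ (h t) = h (u t)) ∧ ∀ z, z ∉ range h → τ z = z := by
  classical
  let e := hh.toOpenPartialHomeomorph h
  have he : ∀ t, e.symm (h t) = t := fun t => hh.toOpenPartialHomeomorph_left_inv h
  let F : (ℝ ≃ₜ ℝ) → M → M := fun v z => if z ∈ range h then h (v (e.symm z)) else z
  have hF1 : ∀ v t, F v (h t) = h (v t) := by
    intro v t
    show (if h t ∈ range h then h (v (e.symm (h t))) else h t) = h (v t)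
    rw [if_pos (mem_range_self t), he]
  have hF2 : ∀ v z, z ∉ range h → F v z = z := fun v z hz => if_neg hz
  have hFc : ∀ v, Continuous (F v) := by
    intro v
    rw [continuous_iff_continuousAt]
    intro z
    by_cases hz : z ∈ range h
    · have h1 : ContinuousAt (fun z => h (v (e.symm z))) z := by
        refine hh.continuous.continuousAt.comp (v.continuous.continuousAt.comp ?_)
        have : z ∈ e.target := by
          show z ∈ (hh.toOpenPartialHomeomorph h).target
          rw [IsOpenEmbedding.toOpenPartialHomeomorph_target]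
          exact hz
        exact e.symm.continuousAt this
      refine h1.congr ?_
      filter_upwards [hh.isOpen_range.mem_nhds hz] with w hw
      exact (if_pos hw).symm
    · refine (continuousAt_id (x := z)).congr ?_
      filter_upwards [hcl.isOpen_compl.mem_nhds hz] with w hw
      exact (hF2 v w hw).symm
  have hinv : ∀ v, Function.LeftInverse (F v.symm) (F v) := by
    intro v z
    by_cases hz : z ∈ range h
    · obtain ⟨t, rfl⟩ := hz
      rw [hF1, hF1, v.symm_apply_apply]
    · rw [hF2 v z hz, hF2 _ z hz]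
  exact ⟨⟨⟨F u, F u.symm, hinv u, by
    have := hinv u.symm
    rwa [Homeomorph.symm_symm] at this⟩, hFc u, hFc _⟩, hF1 u, hF2 u⟩

theorem shift (f0 : M → ℝ) (h : ℝ → M) (hh : IsOpenEmbedding h) (hcl : IsClosed (range h))
    (hP : ∀ t, f0 (h t) = f0 (h (1 / 2)) + P t) :
    ∃ τ ∈ levelGroup f0, (∀ t, τ (h t) = h (t + 1)) ∧ ∀ z, z ∉ range h → τ z = z := by
  obtain ⟨τ, h1, h2⟩ := swp_ext h hh hcl (Homeomorph.addRight 1)
  refine ⟨τ, ?_, h1, h2⟩
  intro z
  by_cases hz : z ∈ range h
  · obtain ⟨t, rfl⟩ := hz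
    have h3 : P (t + 1) = P t := by
      show max 0 (1 / 4 - |t + 1 - round (t + 1)|) = max 0 (1 / 4 - |t - round t|)
      rw [round_add_one]
      push_cast
      rw [show t + 1 - ((round t : ℝ) + 1) = t - round t by ring]
    rw [h1]
    show f0 (h (t + 1)) = f0 (h t)
    rw [hP (t + 1), hP t, h3]
  · rw [h2 z hz]

theorem interval_max [T2Space M] (f0 : M → ℝ) (h : ℝ → M) (hh : IsOpenEmbedding h)
    (hcl : IsClosed (range h)) (hP : ∀ t, f0 (h t) = f0 (h (1 / 2)) + P t) :
    h '' Ioo (1 / 4) (3 / 4) ⊆ flat f0 ∧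
      ∀ J' : Set M, IsPreconnected J' → (h '' Ioo (1 / 4) (3 / 4) ∩ J').Nonempty →
        J' ⊆ flat f0 → J' ⊆ h '' Ioo (1 / 4) (3 / 4) := by
  constructor
  · rintro _ ⟨t, ht, rfl⟩
    rw [P_flat f0 h hh hP]
    by_contra hcon
    push Not at hcon
    rw [abs_le] at hcon
    have h1 : (0 : ℝ) < round t := by linarith [hcon.2, ht.1]
    have h2 : (round t : ℝ) < 1 := by linarith [hcon.1, ht.2]
    have h3 : (0 : ℤ) < round t := by exact_mod_cast h1
    have h4 : round t < (1 : ℤ) := by exact_mod_cast h2
    omega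
  · intro J' hJ' hne hsub
    have hU : IsOpen (h '' Ioo (1 / 4 : ℝ) (3 / 4)) := hh.isOpenMap _ isOpen_Ioo
    have hV : IsOpen (h '' Icc (1 / 4 : ℝ) (3 / 4))ᶜ :=
      (isCompact_Icc.image hh.continuous).isClosed.isOpen_compl
    have hcov : J' ⊆ h '' Ioo (1 / 4 : ℝ) (3 / 4) ∪ (h '' Icc (1 / 4 : ℝ) (3 / 4))ᶜ := by
      intro z hz
      by_cases hzI : z ∈ h '' Icc (1 / 4 : ℝ) (3 / 4)
      · left
        obtain ⟨t, ht, rfl⟩ := hzI
        have hfl := (P_flat f0 h hh hP t).1 (hsub hz)
        refine ⟨t, ⟨lt_of_le_of_ne ht.1 ?_, lt_of_le_of_ne ht.2 ?_⟩, rfl⟩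
        · intro h1
          have h2 := round_le t 0
          rw [Int.cast_zero, sub_zero, ← h1] at h2
          rw [← h1] at hfl
          rw [abs_of_pos (by norm_num : (0 : ℝ) < 1 / 4)] at h2
          linarith
        · intro h1
          have h2 := round_le t 1
          rw [Int.cast_one, h1] at h2
          rw [h1] at hfl
          have h3 : |(3 / 4 : ℝ) - 1| = 1 / 4 := by rw [abs_of_neg (by norm_num)]; norm_num
          rw [h3] at h2
          linarith
      · right; exact hzI
    refine hJ'.subset_left_of_subset_union hU hV ?_ hcov ?_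
    · exact Set.disjoint_left.2 (fun z hz hz' => hz' (image_mono Ioo_subset_Icc_self hz))
    · obtain ⟨z, hz1, hz2⟩ := hne
      exact ⟨z, hz2, hz1⟩

theorem no_swap (f0 : M → ℝ) (h : ℝ → M) (hh : IsOpenEmbedding h)
    (hlev : ∀ z t, f0 z = f0 (h t) → z ∈ range h) (g' : M ≃ₜ M) (hg' : g' ∈ levelGroup f0)
    (h1 : g' (h (1 / 2)) = h (3 / 2)) (h2 : g' (h (3 / 2)) = h (1 / 2))
    (h3 : ∀ t ∈ Ioo (9 / 4 : ℝ) (11 / 4), g' (h t) = h t) : False := by
  have hex : ∀ t, ∃ s, h s = g' (h t) := fun t => hlev _ t (hg' (h t))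
  choose u hu using hex
  have huc : Continuous u := by
    rw [hh.isInducing.continuous_iff]
    have : h ∘ u = g' ∘ h := funext hu
    rw [this]
    exact g'.continuous.comp hh.continuous
  have hui : Injective u := by
    intro a b hab
    have h4 := hu a
    rw [hab, hu b] at h4
    exact (hh.injective (g'.injective h4)).symm
  have e1 : u (1 / 2) = 3 / 2 := hh.injective (by rw [hu, h1])
  have e2 : u (3 / 2) = 1 / 2 := hh.injective (by rw [hu, h2])
  have e3 : u (5 / 2) = 5 / 2 := hh.injective (by rw [hu, h3 _ ⟨by norm_num, by norm_num⟩])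
  have e4 : u (21 / 8) = 21 / 8 := hh.injective (by rw [hu, h3 _ ⟨by norm_num, by norm_num⟩])
  rcases huc.strictMono_of_inj hui with hm | hm
  · have := hm (show (1 / 2 : ℝ) < 3 / 2 by norm_num)
    rw [e1, e2] at this
    linarith
  · have := hm (show (5 / 2 : ℝ) < 21 / 8 by norm_num)
    rw [e3, e4] at this
    linarith

end Pool.Agent.H756.LS
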