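import Pool.Agent.H756.LS.Defs

/-!
# Unicoherence of Euclidean space (task UNI)

Let `n ≥ 2` and let `E ⊆ ball 0 r` be preconnected in `ℝⁿ`. Let `U` be the connected component of the
complement of `closure E` which contains the complement of `closedBall 0 r` (this complement is connected
because `n ≥ 2`: `isConnected_compl_closedBall`-type lemma, or path-connectedness of the complement of
a ball/point, `1 < Module.rank`). If `E` is empty take `U = univ`. Then `frontier U ⊆ closure E` and
`frontier U` is connected.

Proof. `Y = closure E` is preconnected and closed, `U` is open (local connectedness), a component of the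
open set `Yᶜ`, so `frontier U ⊆ Y`. `P = closure U` is connected. `Q = Uᶜ` is connected: it is the union
of `Y` and of the other components `U'` of `Yᶜ`, whose closures are connected and meet `Y`
(otherwise `U'` would be clopen in `ℝⁿ`). `P ∪ Q = ℝⁿ`, `P ∩ Q = frontier U`.
Unicoherence of `ℝⁿ`: if `P`, `Q` are closed and connected with `P ∪ Q = ℝⁿ` then `P ∩ Q` is
preconnected. Suppose `P ∩ Q = K ∪ L` with disjoint nonempty closed sets. Take a continuous
`u : ℝⁿ → [0,1]`, `u = 0` on `K`, `u = 1` on `L` (Urysohn), and `g = exp(iπu)` on `P`, `exp(-iπu)` on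
`Q` (well defined and continuous to the circle). As `ℝⁿ` is simply connected and locally path
connected, `g = exp(iθ)` with `θ` continuous (covering map; `IsCoveringMap` lifting, or a library
lemma: the library has many versions of (every map to the circle lifts, hence unicoherent), e.g.
`Pool/Graph/R_pool_sql_team_seeded_3997aac3/Q172/Unicoh.lean` (`unicoherent`: a normal space all of whose
maps to the circle lift is unicoherent),
`Pool/Graph/R_pool_sql_team_seeded_1acbe0a2/Y453/Unicoh.lean` (`inter_connected_of_hasLog`),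
`Pool/Graph/R_seed8/TH569/Peg/C.lean` (`frontier_component`, for the plane);
fetch with `team-store fetch /workdir/pool PATH`, copy what you need into your file, do not import
`Pool.Graph`). On `P`: `θ - πu ∈ 2πℤ`, so it is a constant `2πa`; on `Q`: `θ + πu = 2πb`. On `K`: `a = b`,
on `L`: `a + 1 = b`. Contradiction.
-/

set_option autoImplicit false

open Set Topology Function

namespace Pool.Agent.H756.LS

namespace Uni

/-- every continuous map from `ℝⁿ` to the circle has a real logarithm -/
theorem hasLog (n : ℕ) (g : C(EuclideanSpace ℝ (Fin n), Circle)) :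
    ∃ θ : C(EuclideanSpace ℝ (Fin n), ℝ), ∀ y, Circle.exp (θ y) = g y := by
  have he₀ : Circle.exp (Complex.arg (g 0)) = g 0 := Circle.exp_arg _
  obtain ⟨Θ, ⟨-, hΘ⟩, -⟩ :=
    Circle.isCoveringMap_exp.existsUnique_continuousMap_lifts g 0 _ he₀
  exact ⟨Θ, fun y => congrFun hΘ y⟩

/-- a continuous function on a preconnected set whose exponentials are all equal is constant. -/
theorem constOn_of_exp {A : Type*} [TopologicalSpace A] {s : Set A} (hs : IsPreconnected s)
    {f : A → ℝ} (hf : ContinuousOn f s) (h : ∀ a ∈ s, Circle.exp (f a) = 1)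
    {a b : A} (ha : a ∈ s) (hb : b ∈ s) : f a = f b :=
  Circle.isCoveringMap_exp.constOn_of_comp hs hf
    (fun a ha a' ha' => by rw [h a ha, h a' ha']) ha hb

/-- `ℝⁿ` is unicoherent -/
theorem unicoherent (n : ℕ) {A B : Set (EuclideanSpace ℝ (Fin n))} (hA : IsClosed A)
    (hB : IsClosed B) (hAc : IsPreconnected A) (hBc : IsPreconnected B) (hAB : A ∪ B = univ) :
    IsPreconnected (A ∩ B) := by
  classical
  rw [isPreconnected_closed_iff]
  intro t t' ht ht' hsub hne hne'
  by_contra hcon
  rw [not_nonempty_iff_eq_empty] at hcon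
  set H : Set (EuclideanSpace ℝ (Fin n)) := (A ∩ B) ∩ t with hH
  set K : Set (EuclideanSpace ℝ (Fin n)) := (A ∩ B) ∩ t' with hK
  have hHc : IsClosed H := (hA.inter hB).inter ht
  have hKc : IsClosed K := (hA.inter hB).inter ht'
  have hdisj : Disjoint H K := by
    rw [Set.disjoint_iff_inter_eq_empty, ← hcon]
    ext x; simp only [hH, hK, mem_inter_iff]; tauto
  obtain ⟨u, hu0, hu1, -⟩ := exists_continuous_zero_one_of_isClosed hHc hKc hdisj
  let g0 : EuclideanSpace ℝ (Fin n) → Circle := fun x =>
    if x ∈ A then Circle.exp (Real.pi * u x) else Circle.exp (-(Real.pi * u x))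
  have hgA : EqOn g0 (fun x => Circle.exp (Real.pi * u x)) A := fun x hx => if_pos hx
  have hgB : EqOn g0 (fun x => Circle.exp (-(Real.pi * u x))) B := by
    intro x hx
    by_cases hxA : x ∈ A
    · have hxx : x ∈ t ∪ t' := hsub ⟨hxA, hx⟩
      rw [hgA hxA]
      rcases hxx with hxt | hxt
      · have : u x = 0 := hu0 (show x ∈ H from ⟨⟨hxA, hx⟩, hxt⟩)
        simp [this]
      · have : u x = 1 := hu1 (show x ∈ K from ⟨⟨hxA, hx⟩, hxt⟩)
        simp only [this, mul_one]
        rw [Circle.exp_neg, eq_comm, inv_eq_iff_mul_eq_one, ← Circle.exp_add, ← two_mul]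
        exact Circle.exp_two_pi
    · exact if_neg hxA
  have hg0 : Continuous g0 := by
    have hcA : ContinuousOn g0 A := by
      refine ContinuousOn.congr ?_ hgA
      exact (Continuous.continuousOn (by fun_prop))
    have hcB : ContinuousOn g0 B := by
      refine ContinuousOn.congr ?_ hgB
      exact (Continuous.continuousOn (by fun_prop))
    rw [← continuousOn_univ, ← hAB]
    exact hcA.union_of_isClosed hcB hA hB
  obtain ⟨θ, hθ⟩ := hasLog n ⟨g0, hg0⟩
  obtain ⟨h, hh⟩ := hne
  obtain ⟨k, hk⟩ := hne'
  have huh : u h = 0 := hu0 (show h ∈ H from hh)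
  have huk : u k = 1 := hu1 (show k ∈ K from hk)
  have h1 : θ h - Real.pi * u h = θ k - Real.pi * u k := by
    apply constOn_of_exp (f := fun x => θ x - Real.pi * u x) hAc
      (Continuous.continuousOn (by fun_prop)) _ hh.1.1 hk.1.1
    intro a ha
    rw [Circle.exp_sub, hθ a]
    change g0 a / _ = 1
    rw [hgA ha, div_self']
  have h2 : θ h + Real.pi * u h = θ k + Real.pi * u k := by
    apply constOn_of_exp (f := fun x => θ x + Real.pi * u x) hBc
      (Continuous.continuousOn (by fun_prop)) _ hh.1.2 hk.1.2
    intro a ha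
    rw [Circle.exp_add, hθ a]
    change g0 a * _ = 1
    rw [hgB ha, ← Circle.exp_add]
    simp
  rw [huh, huk] at h1 h2
  have := Real.pi_pos
  linarith

section comp

variable {X : Type*} [TopologicalSpace X] [PreconnectedSpace X] [LocallyConnectedSpace X]

/-- the complement of a component of the complement of a closed connected set is connected -/
theorem compl_component {D : Set X} (hD : IsClosed D) (cD : IsPreconnected D)
    (hne : D.Nonempty) (z0 : X) : IsPreconnected (connectedComponentIn Dᶜ z0)ᶜ := by
  set W := connectedComponentIn Dᶜ z0 with hW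
  have hWo : IsOpen W := hD.isOpen_compl.connectedComponentIn
  have hDW : D ⊆ Wᶜ := fun z hz hzW => connectedComponentIn_subset _ _ hzW hz
  rw [isPreconnected_iff_subset_of_disjoint_closed]
  have key : ∀ t t' : Set X, IsClosed t → IsClosed t' → Wᶜ ⊆ t ∪ t' → Wᶜ ∩ (t ∩ t') = ∅ →
      D ⊆ t → Wᶜ ⊆ t := by
    intro t t' ht ht' hsub hemp hDt
    set S := Wᶜ ∩ t' with hS
    have hSD : ∀ z ∈ S, z ∉ D := fun z hz hzD => by
      have : z ∈ Wᶜ ∩ (t ∩ t') := ⟨hz.1, hDt hzD, hz.2⟩
      rw [hemp] at this
      exact this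
    have hSc : IsClosed S := hWo.isClosed_compl.inter ht'
    have hSo : IsOpen S := by
      rw [isOpen_iff_mem_nhds]
      intro z hz
      have hzD := hSD z hz
      have hzV : z ∈ connectedComponentIn Dᶜ z := mem_connectedComponentIn hzD
      have hVo : IsOpen (connectedComponentIn Dᶜ z) := hD.isOpen_compl.connectedComponentIn
      have hVW : connectedComponentIn Dᶜ z ⊆ Wᶜ := by
        intro y hy hyW
        have e1 := connectedComponentIn_eq hy
        have e2 := connectedComponentIn_eq hyW
        rw [e1, ← e2] at hzV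
        exact hz.1 hzV
      have hVt : connectedComponentIn Dᶜ z ⊆ t' := by
        have := isPreconnected_iff_subset_of_disjoint_closed.1
          (isPreconnected_connectedComponentIn (F := Dᶜ) (x := z)) t t' ht ht'
          (hVW.trans hsub) (by
            apply eq_empty_of_subset_empty
            rw [← hemp]
            exact inter_subset_inter_left _ hVW)
        rcases this with h | h
        · exfalso
          have : z ∈ Wᶜ ∩ (t ∩ t') := ⟨hz.1, h hzV, hz.2⟩
          rw [hemp] at this
          exact this
        · exact h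
      exact Filter.mem_of_superset (hVo.mem_nhds hzV) fun y hy => ⟨hVW hy, hVt hy⟩
    have hSe : S = ∅ := by
      rcases isClopen_iff.1 ⟨hSc, hSo⟩ with h | h
      · exact h
      · exfalso
        obtain ⟨z, hz⟩ := hne
        exact hSD z (by rw [h]; trivial) hz
    intro z hz
    rcases hsub hz with h | h
    · exact h
    · exfalso
      have : z ∈ S := ⟨hz, h⟩
      rw [hSe] at this
      exact this
  intro t t' ht ht' hsub hemp
  have := isPreconnected_iff_subset_of_disjoint_closed.1 cD t t' ht ht' (hDW.trans hsub) (by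
    apply eq_empty_of_subset_empty
    rw [← hemp]
    exact inter_subset_inter_left _ hDW)
  rcases this with h | h
  · exact Or.inl (key t t' ht ht' hsub hemp h)
  · exact Or.inr (key t' t ht' ht (by rwa [union_comm]) (by rwa [inter_comm t' t]) h)

omit [PreconnectedSpace X] in
theorem frontier_component_subset {D : Set X} (hD : IsClosed D) (z0 : X) :
    frontier (connectedComponentIn Dᶜ z0) ⊆ D := by
  have hWo : IsOpen (connectedComponentIn Dᶜ z0) := hD.isOpen_compl.connectedComponentIn
  intro z hz
  by_contra hzD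
  rw [frontier, hWo.interior_eq] at hz
  have hzV : z ∈ connectedComponentIn Dᶜ z := mem_connectedComponentIn hzD
  have hVo : IsOpen (connectedComponentIn Dᶜ z) := hD.isOpen_compl.connectedComponentIn
  obtain ⟨y, hy, hyW⟩ := mem_closure_iff.1 hz.1 _ hVo hzV
  have e1 := connectedComponentIn_eq hy
  have e2 := connectedComponentIn_eq hyW
  rw [e1, ← e2] at hzV
  exact hz.2 hzV

end comp

theorem frontier_component (n : ℕ) {D : Set (EuclideanSpace ℝ (Fin n))} (hD : IsClosed D)
    (cD : IsPreconnected D) (hne : D.Nonempty) (z0 : EuclideanSpace ℝ (Fin n)) :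
    IsPreconnected (frontier (connectedComponentIn Dᶜ z0)) := by
  have hWo : IsOpen (connectedComponentIn Dᶜ z0) := hD.isOpen_compl.connectedComponentIn
  rw [frontier, hWo.interior_eq, sdiff_eq]
  refine unicoherent n isClosed_closure hWo.isClosed_compl
    isPreconnected_connectedComponentIn.closure (compl_component hD cD hne z0) ?_
  apply eq_univ_of_forall
  intro z
  by_cases h : z ∈ connectedComponentIn Dᶜ z0
  · exact Or.inl (subset_closure h)
  · exact Or.inr h

theorem rank_lt (n : ℕ) (hn : 2 ≤ n) : 1 < Module.rank ℝ (EuclideanSpace ℝ (Fin n)) := by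
  rw [← Module.finrank_eq_rank, finrank_euclideanSpace_fin]
  exact_mod_cast hn

/-- far vectors -/
theorem far_preconnected (n : ℕ) (hn : 2 ≤ n) {r : ℝ} (hr : 0 < r) :
    IsPreconnected ((Metric.closedBall (0 : EuclideanSpace ℝ (Fin n)) r)ᶜ) := by
  have e : (Metric.closedBall (0 : EuclideanSpace ℝ (Fin n)) r)ᶜ =
      (fun p : ℝ × EuclideanSpace ℝ (Fin n) => p.1 • p.2) '' (Ioi r ×ˢ Metric.sphere 0 1) := by
    ext z
    rw [mem_compl_iff, mem_closedBall_zero_iff, not_le]
    constructor
    · intro hz
      have hz0 : ‖z‖ ≠ 0 := (hr.trans hz).ne'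
      refine ⟨(‖z‖, ‖z‖⁻¹ • z), ⟨hz, ?_⟩, ?_⟩
      · rw [mem_sphere_zero_iff_norm, norm_smul, norm_inv, norm_norm, inv_mul_cancel₀ hz0]
      · show ‖z‖ • ‖z‖⁻¹ • z = z
        rw [smul_smul, mul_inv_cancel₀ hz0, one_smul]
    · rintro ⟨⟨t, x⟩, ⟨ht, hx⟩, rfl⟩
      have ht' : r < t := ht
      have hx' : ‖x‖ = 1 := mem_sphere_zero_iff_norm.1 hx
      show r < ‖t • x‖
      rw [norm_smul, hx', mul_one, Real.norm_eq_abs, abs_of_pos (hr.trans ht')]
      exact ht'
  rw [e]
  refine (isPreconnected_Ioi.prod
    (isConnected_sphere (rank_lt n hn) 0 zero_le_one).isPreconnected).image _ ?_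
  fun_prop

theorem far_nonempty (n : ℕ) (hn : 2 ≤ n) (r : ℝ) :
    ((Metric.closedBall (0 : EuclideanSpace ℝ (Fin n)) r)ᶜ).Nonempty := by
  obtain ⟨x, hx⟩ := (isConnected_sphere (rank_lt n hn) (0 : EuclideanSpace ℝ (Fin n))
    zero_le_one).nonempty
  refine ⟨(|r| + 1) • x, ?_⟩
  rw [mem_compl_iff, mem_closedBall_zero_iff, not_le, norm_smul, mem_sphere_zero_iff_norm.1 hx,
    mul_one, Real.norm_eq_abs, abs_of_pos (by positivity)]
  have := le_abs_self r
  linarith

end Uni

theorem uni (n : ℕ) (hn : 2 ≤ n) (E : Set (EuclideanSpace ℝ (Fin n))) (hE : IsPreconnected E)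
    (r : ℝ) (hr : 0 < r) (hEr : E ⊆ Metric.ball 0 r) :
    ∃ U : Set (EuclideanSpace ℝ (Fin n)), IsOpen U ∧ Uᶜ ⊆ Metric.closedBall 0 r ∧
      closure E ⊆ Uᶜ ∧ frontier U ⊆ closure E ∧ IsPreconnected (frontier U) := by
  rcases E.eq_empty_or_nonempty with hE0 | hE0
  · refine ⟨univ, isOpen_univ, ?_, ?_, ?_, ?_⟩
    · rw [compl_univ]; exact empty_subset _
    · rw [hE0, closure_empty]; exact empty_subset _
    · rw [frontier_univ]; exact empty_subset _
    · rw [frontier_univ]; exact isPreconnected_empty
  · obtain ⟨z0, hz0⟩ := Uni.far_nonempty n hn r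
    have hD : IsClosed (closure E) := isClosed_closure
    have hDr : closure E ⊆ Metric.closedBall 0 r :=
      closure_minimal (hEr.trans Metric.ball_subset_closedBall) Metric.isClosed_closedBall
    refine ⟨connectedComponentIn (closure E)ᶜ z0, hD.isOpen_compl.connectedComponentIn, ?_, ?_,
      Uni.frontier_component_subset hD z0, Uni.frontier_component n hD hE.closure hE0.closure z0⟩
    · rw [compl_subset_comm]
      exact (Uni.far_preconnected n hn hr).subset_connectedComponentIn hz0
        (compl_subset_compl.2 hDr)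
    · intro z hz hzU
      exact connectedComponentIn_subset _ _ hzU hz

end Pool.Agent.H756.LS
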